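import Mathlib

/-!
# Abstract wire systems: states, hyperplanes, sides and walks
-/

namespace Pool.Agent.H868Z.Diagram

/-- two equal segments of a duplicate-free list sit at the same place -/
theorem seg_same {T : Type*} {A B A' B' V : List T} (hV : V ≠ [])
    (hn : (A ++ V ++ B).Nodup) (h : A ++ V ++ B = A' ++ V ++ B') : A = A' ∧ B = B' := by
  classical
  obtain ⟨t, V', rfl⟩ := List.exists_cons_of_ne_nil hV
  have h1 : A = A' := by
    have e1 : (A ++ (t :: V') ++ B).idxOf t = A.length := by
      have : t ∉ A := by
        intro ht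
        rw [List.append_assoc, List.nodup_append] at hn
        exact hn.2.2 t ht t (by simp) rfl
      rw [List.append_assoc, List.idxOf_append_of_notMem this]
      simp
    have e2 : (A' ++ (t :: V') ++ B').idxOf t = A'.length := by
      have : t ∉ A' := by
        intro ht
        rw [h, List.append_assoc, List.nodup_append] at hn
        exact hn.2.2 t ht t (by simp) rfl
      rw [List.append_assoc, List.idxOf_append_of_notMem this]
      simp
    rw [h, e2] at e1
    rw [List.append_assoc, List.append_assoc] at h
    exact (List.append_inj h e1.symm).1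
  subst h1
  rw [List.append_assoc, List.append_assoc] at h
  have := List.append_cancel_left h
  exact ⟨rfl, List.append_cancel_left this⟩

/-- two disjoint nonempty segments of a list: one is to the left of the other -/
theorem seg_disj {T : Type*} {A B A' B' V W : List T} (hV : V ≠ []) (hW : W ≠ [])
    (hd : ∀ t, t ∈ V → t ∈ W → False) (h : A ++ V ++ B = A' ++ W ++ B') :
    (∃ M, A = A' ++ W ++ M ∧ B' = M ++ V ++ B) ∨ (∃ M, A' = A ++ V ++ M ∧ B = M ++ W ++ B') := by
  have key : ∀ {A B B' V W : List T}, V ≠ [] → (∀ t, t ∈ V → t ∈ W → False) →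
      A ++ V ++ B = W ++ B' → A = [] ∧ W = [] ∨ ∃ M, A = W ++ M ∧ B' = M ++ V ++ B := by
    intro A B B' V W hV hd h
    rw [List.append_assoc] at h
    rcases List.append_eq_append_iff.1 h with ⟨c, rfl, h2⟩ | ⟨c, rfl, h2⟩
    · by_cases hc : c = []
      · subst hc
        right
        exact ⟨[], by simp, by simpa using h2.symm⟩
      · exfalso
        obtain ⟨t, V', rfl⟩ := List.exists_cons_of_ne_nil hV
        obtain ⟨s, c', rfl⟩ := List.exists_cons_of_ne_nil hc
        simp only [List.cons_append, List.cons.injEq] at h2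
        exact hd t (by simp) (by rw [h2.1]; simp)
    · right
      exact ⟨c, rfl, by rw [h2, List.append_assoc]⟩
  rw [List.append_assoc, List.append_assoc] at h
  rcases List.append_eq_append_iff.1 h with ⟨c, rfl, h2⟩ | ⟨c, rfl, h2⟩
  · right
    rcases key (A := c) (B := B') (B' := B) (V := W) (W := V) hW (fun t a b => hd t b a)
      (by rw [List.append_assoc]; exact h2.symm) with ⟨_, h4⟩ | ⟨M, rfl, h4⟩
    · exact absurd h4 hV
    · exact ⟨M, by simp, h4⟩
  · left
    rcases key (A := c) (B := B) (B' := B') (V := V) (W := W) hV hd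
      (by rw [List.append_assoc]; exact h2.symm) with ⟨_, h4⟩ | ⟨M, rfl, h4⟩
    · exact absurd h4 hW
    · exact ⟨M, by simp, h4⟩

/-- An abstract system of wires, states (lists of wires) and oriented hyperplanes. -/
structure Pre (T Hy : Type*) where
  flip : Hy → Hy
  inp : Hy → List T
  St : List T → Prop
  side : Hy → List T → Prop
  flip_flip : ∀ H, flip (flip H) = H
  inp_ne : ∀ H, inp H ≠ []
  nodup : ∀ {L}, St L → L.Nodup
  st_move : ∀ {A H B}, St (A ++ inp H ++ B) → St (A ++ inp (flip H) ++ B)
  side_move : ∀ {A H B J}, St (A ++ inp H ++ B) → J ≠ H → J ≠ flip H →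
    (side J (A ++ inp H ++ B) ↔ side J (A ++ inp (flip H) ++ B))
  side_flip : ∀ {L} H, St L → (side (flip H) L ↔ ¬ side H L)
  side_mem : ∀ {L H t}, St L → t ∈ inp H → t ∈ L → ¬ side H L
  side_uniq : ∀ {L H J t}, St L → t ∈ inp H → t ∈ inp J → side H L → side J L → H = J

namespace Pre

variable {T Hy : Type*} (S : Pre T Hy)

/-- values of the moves in a group, compatible with cancellation and with squares -/
structure Val (U : Type*) [Group U] where
  val : List T → Hy → List T → U
  cancel : ∀ A H B, val A H B * val A (S.flip H) B = 1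
  square : ∀ A H M J B, val A H (M ++ S.inp J ++ B) * val (A ++ S.inp (S.flip H) ++ M) J B =
    val (A ++ S.inp H ++ M) J B * val A H (M ++ S.inp (S.flip J) ++ B)

variable {S} {U : Type*} [Group U] (V : S.Val U)

/-- walks through moves whose hyperplanes satisfy `P`, with their values -/
inductive Walk (P : Hy → Prop) (x : List T) : U → List T → Prop
  | refl : Walk P x 1 x
  | step {u : U} {A : List T} {H : Hy} {B : List T} : Walk P x u (A ++ S.inp H ++ B) → P H →
      Walk P x (u * V.val A H B) (A ++ S.inp (S.flip H) ++ B)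

variable {V}

theorem not_side_inp {A B : List T} {H : Hy} (h : S.St (A ++ S.inp H ++ B)) :
    ¬ S.side H (A ++ S.inp H ++ B) := by
  obtain ⟨t, r, ht⟩ := List.exists_cons_of_ne_nil (S.inp_ne H)
  exact S.side_mem h (t := t) (by rw [ht]; simp) (by rw [ht]; simp)

theorem side_out {A B : List T} {H : Hy} (h : S.St (A ++ S.inp H ++ B)) :
    S.side H (A ++ S.inp (S.flip H) ++ B) := by
  have h2 := S.st_move h
  have := not_side_inp h2
  rw [S.side_flip H h2] at this
  exact not_not.1 this

theorem Walk.st {P : Hy → Prop} {x y : List T} {u : U} (h : Walk V P x u y) (hx : S.St x) :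
    S.St y := by
  induction h with
  | refl => exact hx
  | step _ _ ih => exact S.st_move ih

theorem Walk.mono {P Q : Hy → Prop} {x y : List T} {u : U} (h : Walk V P x u y)
    (hPQ : ∀ H, P H → Q H) : Walk V Q x u y := by
  induction h with
  | refl => exact Walk.refl
  | step _ hp ih => exact Walk.step ih (hPQ _ hp)

theorem Walk.trans {P : Hy → Prop} {x y z : List T} {u u' : U} (h : Walk V P x u y)
    (h' : Walk V P y u' z) : Walk V P x (u * u') z := by
  induction h' with
  | refl => simpa using h
  | step _ hp ih => rw [← mul_assoc]; exact Walk.step ih hp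

theorem Walk.cast {P : Hy → Prop} {x y y' : List T} {u u' : U} (h : Walk V P x u y)
    (hu : u = u') (hy : y = y') : Walk V P x u' y' := by
  subst hu hy; exact h

/-- a hyperplane separating the end points of a walk is crossed by it -/
theorem Walk.crossed {P : Hy → Prop} {x y : List T} {u : U} (h : Walk V P x u y) (hx : S.St x)
    {J : Hy} (h1 : ¬ S.side J x) (h2 : S.side J y) : P J := by
  induction h with
  | refl => exact absurd h2 h1
  | @step u A H B hw hp ih =>
    have hs := hw.st hx
    by_cases e1 : J = H
    · rw [e1]; exact hp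
    by_cases e2 : J = S.flip H
    · exfalso
      rw [e2] at h2
      exact not_side_inp (S.st_move hs) h2
    exact ih ((S.side_move hs e1 e2).2 h2)

/-- the pull lemma -/
theorem Walk.pull {P : Hy → Prop} {a x z : List T} {u : U} (ha : S.St a) (hx : S.St x)
    (hP : ∀ H, P H → ¬ S.side H a) (h : Walk V P x u z) {J : Hy} (hJ : S.side J a) :
    ∀ A B, z = A ++ S.inp J ++ B →
      (P (S.flip J) ∧ ∃ u', Walk V P x u' (A ++ S.inp (S.flip J) ++ B) ∧
        u = u' * V.val A (S.flip J) B) ∨ ∃ A' B', x = A' ++ S.inp J ++ B' := by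
  induction h with
  | refl => intro A B h; exact Or.inr ⟨A, B, h⟩
  | @step u A0 H B0 hw hp ih =>
    intro A B e
    have hs := hw.st hx
    have hs' := S.st_move hs
    have hH : S.side (S.flip H) a := (S.side_flip H ha).2 (hP H hp)
    by_cases e1 : J = S.flip H
    · subst e1
      obtain ⟨rfl, rfl⟩ := seg_same (S.inp_ne _) (S.nodup hs') e
      left
      rw [S.flip_flip]
      exact ⟨hp, u, hw, rfl⟩
    have hd : ∀ t, t ∈ S.inp (S.flip H) → t ∈ S.inp J → False := fun t h1 h2 =>
      e1 (S.side_uniq ha h2 h1 hJ hH)
    rcases seg_disj (S.inp_ne _) (S.inp_ne _) hd e with ⟨M, rfl, rfl⟩ | ⟨M, rfl, rfl⟩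
    · rcases ih A (M ++ S.inp H ++ B0) (by simp) with ⟨h1, u', h2, h3⟩ | h2
      · left
        refine ⟨h1, u' * V.val (A ++ S.inp (S.flip J) ++ M) H B0, ?_, ?_⟩
        · exact (Walk.step (A := A ++ S.inp (S.flip J) ++ M) (H := H) (B := B0)
            (h2.cast rfl (by simp)) hp).cast rfl (by simp)
        · have := V.square A (S.flip J) M H B0
          rw [S.flip_flip] at this
          rw [h3, mul_assoc, this, mul_assoc]
      · exact Or.inr h2
    · rcases ih (A0 ++ S.inp H ++ M) B (by simp) with ⟨h1, u', h2, h3⟩ | h2
      · left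
        refine ⟨h1, u' * V.val A0 H (M ++ S.inp (S.flip J) ++ B), ?_, ?_⟩
        · exact (Walk.step (A := A0) (H := H) (B := M ++ S.inp (S.flip J) ++ B)
            (h2.cast rfl (by simp)) hp).cast rfl (by simp)
        · have := V.square A0 H M (S.flip J) B
          rw [S.flip_flip] at this
          rw [h3, mul_assoc, ← this, mul_assoc]
      · exact Or.inr h2

/-- every walk can be straightened to a monotone walk with the same value -/
theorem Walk.monotone {P : Hy → Prop} {x y : List T} {u : U} (h : Walk V P x u y) (hx : S.St x) :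
    Walk V (fun H => ¬ S.side H x) x u y := by
  induction h with
  | refl => exact Walk.refl
  | @step u A H B hw _ ih =>
    by_cases hH : S.side H x
    · rcases ih.pull hx hx (fun _ h => h) hH A B rfl with ⟨_, u', h2, h3⟩ | ⟨A', B', h2⟩
      · refine h2.cast ?_ rfl
        have := V.cancel A (S.flip H) B
        rw [S.flip_flip] at this
        rw [h3, mul_assoc, this, mul_one]
      · exfalso
        rw [h2] at hx hH
        exact not_side_inp hx hH
    · exact Walk.step ih hH

theorem Walk.sep_aux {x y : List T} {u : U} (h : Walk V (fun H => ¬ S.side H x) x u y)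
    (hx : S.St x) : ∀ Q : Hy → Prop, (∀ H, ¬ S.side H x → S.side H y → Q H) →
      Walk V Q x u y := by
  induction h with
  | refl => intro Q _; exact Walk.refl
  | @step u A H B hw hp ih =>
    intro Q hQ
    have hs := hw.st hx
    refine Walk.step (ih Q ?_) (hQ H hp (side_out hs))
    intro J h1 h2
    refine hQ J h1 ?_
    by_cases e1 : J = H
    · rw [e1] at h2; exact absurd h2 (not_side_inp hs)
    by_cases e2 : J = S.flip H
    · rw [e2, S.side_flip H hx] at h1; exact absurd hp h1
    exact (S.side_move hs e1 e2).1 h2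

/-- every walk can be straightened to a walk crossing only separating hyperplanes -/
theorem Walk.sep {P : Hy → Prop} {x y : List T} {u : U} (h : Walk V P x u y) (hx : S.St x) :
    Walk V (fun H => ¬ S.side H x ∧ S.side H y) x u y :=
  (h.monotone hx).sep_aux hx _ (fun _ h1 h2 => ⟨h1, h2⟩)

theorem Walk.eq_of_false {P : Hy → Prop} {x y : List T} {u : U} (h : Walk V P x u y)
    (hP : ∀ H, ¬ P H) : u = 1 ∧ y = x := by
  cases h with
  | refl => exact ⟨rfl, rfl⟩
  | step _ hp => exact absurd hp (hP _)

/-- closed walks have trivial value -/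
theorem Walk.closed {P : Hy → Prop} {x : List T} {u : U} (h : Walk V P x u x) (hx : S.St x) :
    u = 1 :=
  ((h.sep hx).eq_of_false (fun _ h => h.1 h.2)).1

theorem Walk.finite_sep {P : Hy → Prop} {x y : List T} {u : U} (h : Walk V P x u y)
    (hx : S.St x) : {H | ¬ S.side H x ∧ S.side H y}.Finite := by
  induction h with
  | refl => simp
  | @step u A H B hw _ ih =>
    have hs := hw.st hx
    refine (ih.insert H).subset ?_
    rintro J ⟨h1, h2⟩
    by_cases e1 : J = H
    · exact Or.inl e1
    by_cases e2 : J = S.flip H
    · exfalso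
      rw [e2] at h2
      exact not_side_inp (S.st_move hs) h2
    exact Or.inr ⟨h1, (S.side_move hs e1 e2).2 h2⟩

/-- the common first step towards two states -/
theorem Walk.common {P : Hy → Prop} {y a b : List T} {u : U} (h : Walk V P y u b) (hy : S.St y)
    (ha : S.St a) {H : Hy} (h1 : ¬ S.side H y) (h2 : S.side H a) (h3 : S.side H b) :
    ∃ J A B, y = A ++ S.inp J ++ B ∧ S.side J a ∧ S.side J b := by
  have key : ∀ {z : List T} {u : U}, Walk V (fun H => ¬ S.side H y ∧ S.side H b) y u z →
      Walk V (fun H => (¬ S.side H y ∧ S.side H b) ∧ ¬ S.side H a) y u z ∨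
        ∃ J A B, y = A ++ S.inp J ++ B ∧ S.side J a ∧ S.side J b := by
    intro z u hw
    induction hw with
    | refl => exact Or.inl Walk.refl
    | @step u A J B hw hp ih =>
      rcases ih with ih | ih
      · by_cases hJ : S.side J a
        · rcases ih.pull ha hy (fun _ h => h.2) hJ A B rfl with ⟨h4, _⟩ | ⟨A', B', h4⟩
          · exfalso
            have := h4.1.1
            rw [S.side_flip J hy] at this
            exact this hp.1
          · exact Or.inr ⟨J, A', B', h4, hJ, hp.2⟩
        · exact Or.inl (Walk.step ih ⟨hp, hJ⟩)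
      · exact Or.inr ih
  rcases key (h.sep hy) with h4 | h4
  · exact absurd h2 (h4.crossed hy h1 h3).2
  · exact h4

end Pre

end Pool.Agent.H868Z.Diagram
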