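import Mathlib
import Pool.Agent.H868Z.Diagram.Pre

/-!
# Groups acting on wire systems: axes and hyperplanes crossed at infinity
-/

namespace Pool.Agent.H868Z.Diagram

theorem fix_of_map_eq {T : Type*} {f : T → T} : ∀ {l : List T}, l.map f = l → ∀ t ∈ l, f t = t
  | [], _, t, ht => by simp at ht
  | s :: l, h, t, ht => by
    simp only [List.map_cons, List.cons.injEq] at h
    rcases List.mem_cons.1 ht with rfl | ht
    · exact h.1
    · exact fix_of_map_eq h.2 t ht

theorem map_eq_of_fix {T : Type*} {f : T → T} {l : List T} (h : ∀ t ∈ l, f t = t) :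
    l.map f = l := by
  conv_rhs => rw [← List.map_id l]
  exact List.map_congr_left h

/-- a sign change of a predicate on the integers -/
theorem exists_flip {p : ℤ → Prop} {a : ℤ} (ha : ¬ p a) : ∀ (n : ℕ), p (a + n) →
    ∃ i, a ≤ i ∧ i < a + n ∧ ¬ p i ∧ p (i + 1) := by
  intro n
  induction n with
  | zero => intro h; simp at h; exact absurd h ha
  | succ n ih =>
    intro h
    by_cases h' : p (a + n)
    · obtain ⟨i, h1, h2, h3⟩ := ih h'
      exact ⟨i, h1, by push_cast; omega, h3⟩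
    · refine ⟨a + n, by omega, by push_cast; omega, h', ?_⟩
      have : a + n + 1 = a + ((n + 1 : ℕ) : ℤ) := by push_cast; ring
      rw [this]; exact h

theorem exists_flip' {p : ℤ → Prop} {a b : ℤ} (hab : a ≤ b) (ha : ¬ p a) (hb : p b) :
    ∃ i, a ≤ i ∧ i < b ∧ ¬ p i ∧ p (i + 1) := by
  obtain ⟨n, rfl⟩ : ∃ n : ℕ, b = a + n := ⟨(b - a).toNat, by omega⟩
  exact exists_flip ha n hb

/-- A group acting on a wire system. -/
structure Sys (G T Hy U : Type*) [Group G] [MulAction G T] [MulAction G Hy] [Group U]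
    extends Pre T Hy where
  V : toPre.Val U
  smul_flip : ∀ (g : G) H, g • flip H = flip (g • H)
  inp_smul : ∀ (g : G) H, inp (g • H) = (inp H).map (g • ·)
  no_inv : ∀ (g : G) H, g • H ≠ flip H
  fix : ∀ (g : G) H, (∀ t ∈ inp H, g • t = t) → g • H = H
  st_smul : ∀ (g : G) {L}, St L → St (L.map (g • ·))
  real : ∀ H, ∃ A B, St (A ++ inp H ++ B)
  conn : ∀ {L L'}, St L → St L' → ∃ u, Pre.Walk V (fun _ => True) L u L'
  free : ∀ (g : G) {L}, St L → L.map (g • ·) = L → g = 1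
  full : ∀ (g : G) {A B}, St (A ++ B) → St (A.map (g • ·) ++ B) →
    ∃ a : G, (A ++ B).map (a • ·) = A.map (g • ·) ++ B
  nonempty : ∃ L, St L

namespace Sys

variable {G T Hy U : Type*} [Group G] [MulAction G T] [MulAction G Hy] [Group U]
  (S : Sys G T Hy U)

/-- states -/
def X : Type _ := {L : List T // S.St L}

instance : MulAction G S.X where
  smul g x := ⟨x.1.map (g • ·), S.st_smul g x.2⟩
  one_smul x := Subtype.ext (by
    change x.1.map ((1 : G) • ·) = x.1
    simp)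
  mul_smul g h x := Subtype.ext (by
    change x.1.map ((g * h) • ·) = (x.1.map (h • ·)).map (g • ·)
    simp [mul_smul, Function.comp_def])

variable {S}

theorem smul_val (g : G) (x : S.X) : (g • x).1 = x.1.map (g • ·) := rfl

/-- the side of a state -/
def sd (H : Hy) (x : S.X) : Prop := S.side H x.1

theorem sd_flip (H : Hy) (x : S.X) : sd (S.flip H) x ↔ ¬ sd H x := S.side_flip H x.2

theorem flip_inj {H J : Hy} (h : S.flip H = S.flip J) : H = J := by
  rw [← S.flip_flip H, h, S.flip_flip]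

theorem side_smul_aux (g : G) (H : Hy) {L L' : List T} {u : U}
    (h : Pre.Walk S.V (fun _ => True) L u L') (hL : S.St L)
    (h0 : S.side (g • H) (L.map (g • ·)) ↔ S.side H L) :
    S.side (g • H) (L'.map (g • ·)) ↔ S.side H L' := by
  induction h with
  | refl => exact h0
  | @step u A J B hw _ ih =>
    have hs := hw.st hL
    have hs' : S.St (A.map (g • ·) ++ S.inp (g • J) ++ B.map (g • ·)) := by
      have := S.st_smul g hs
      rwa [List.map_append, List.map_append, ← S.inp_smul] at this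
    have e : (A ++ S.inp (S.flip J) ++ B).map (g • ·) =
        A.map (g • ·) ++ S.inp (S.flip (g • J)) ++ B.map (g • ·) := by
      rw [List.map_append, List.map_append, ← S.inp_smul, S.smul_flip]
    rw [e]
    by_cases e1 : H = J
    · subst e1
      exact iff_of_true (Pre.side_out hs') (Pre.side_out hs)
    by_cases e2 : H = S.flip J
    · subst e2
      rw [S.smul_flip]
      exact iff_of_false (Pre.not_side_inp (S.st_move hs')) (Pre.not_side_inp (S.st_move hs))
    rw [← S.side_move hs e1 e2, ← S.side_move hs' (fun h => e1 (smul_left_cancel g h))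
      (fun h => e2 (smul_left_cancel g (by rw [h, S.smul_flip]))), ← ih, List.map_append,
      List.map_append, ← S.inp_smul]

theorem sd_smul (g : G) (H : Hy) (x : S.X) : sd (g • H) (g • x) ↔ sd H x := by
  obtain ⟨A, B, hs⟩ := S.real H
  obtain ⟨u, hw⟩ := S.conn hs x.2
  refine side_smul_aux g H hw hs (iff_of_false ?_ (Pre.not_side_inp hs))
  have := S.st_smul g hs
  rw [List.map_append, List.map_append, ← S.inp_smul] at this ⊢
  exact Pre.not_side_inp this

theorem sd_smul' (g : G) (H : Hy) (x : S.X) : sd H (g • x) ↔ sd (g⁻¹ • H) x := by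
  rw [← sd_smul g (g⁻¹ • H) x, smul_inv_smul]

theorem sd_smul'' (g : G) (H : Hy) (x : S.X) : sd (g • H) x ↔ sd H (g⁻¹ • x) := by
  rw [← sd_smul g H (g⁻¹ • x), smul_inv_smul]

/-- the hyperplanes separating two states -/
def sep (x y : S.X) : Set Hy := {H | ¬ sd H x ∧ sd H y}

theorem sep_finite (x y : S.X) : (sep x y).Finite := by
  obtain ⟨u, hw⟩ := S.conn x.2 y.2
  exact hw.finite_sep x.2

theorem walk_sep (x y : S.X) : ∃ u, Pre.Walk S.V (fun H => H ∈ sep x y) x.1 u y.1 := by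
  obtain ⟨u, hw⟩ := S.conn x.2 y.2
  exact ⟨u, hw.sep x.2⟩

theorem eq_of_sd {x y : S.X} (h : ∀ H, sd H y → sd H x) : x = y := by
  obtain ⟨u, hw⟩ := walk_sep x y
  exact Subtype.ext (hw.eq_of_false (fun H hH => hH.1 (h H hH.2))).2.symm

theorem eq_of_smul_eq {g h : G} (x : S.X) (e : g • x = h • x) : g = h := by
  have : (h⁻¹ * g) • x = x := by rw [mul_smul, e, inv_smul_smul]
  have h1 := S.free (h⁻¹ * g) x.2 (congrArg Subtype.val this)
  exact (inv_mul_eq_one.1 h1).symm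

theorem sd_uniq {H J : Hy} {t : T} (x : S.X) (h1 : t ∈ S.inp H) (h2 : t ∈ S.inp J)
    (h3 : sd H x) (h4 : sd J x) : H = J := S.side_uniq x.2 h1 h2 h3 h4

/-- the state next to a given one across a hyperplane -/
theorem exists_neighbour (y a b : S.X) {H : Hy} (h1 : ¬ sd H y) (h2 : sd H a) (h3 : sd H b) :
    ∃ (J : Hy) (y' : S.X), sd J a ∧ sd J b ∧ ¬ sd J y ∧ sd J y' ∧
      ∀ K, K ≠ J → K ≠ S.flip J → (sd K y ↔ sd K y') := by
  obtain ⟨u, hw⟩ := S.conn y.2 b.2
  obtain ⟨J, A, B, e, h4, h5⟩ := hw.common y.2 a.2 h1 h2 h3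
  have hs : S.St (A ++ S.inp J ++ B) := e ▸ y.2
  refine ⟨J, ⟨_, S.st_move hs⟩, h4, h5, ?_, Pre.side_out hs, ?_⟩
  · unfold sd; rw [e]; exact Pre.not_side_inp hs
  · intro K k1 k2
    unfold sd; rw [e]; exact S.side_move hs k1 k2

theorem axis_aux (f : G) (k : ℕ) : ∀ x : S.X,
    (∀ x' : S.X, (sep x (f • x)).ncard ≤ (sep x' (f • x')).ncard) →
    ∀ H ∈ sep x (f • x), sd H (f ^ (k + 1) • x) := by
  induction k using Nat.strong_induction_on with
  | _ k ih =>
  intro x hmin H hH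
  rcases k with _ | k
  · simpa using hH.2
  by_contra hbad
  have hy : sd H (f ^ (k + 1) • x) := ih k (by omega) x hmin H hH
  obtain ⟨J, y', j1, j2, j3, j4, j5⟩ := exists_neighbour (f ^ (k + 1) • x) x (f ^ (k + 1 + 1) • x)
    (H := S.flip H) (by rw [sd_flip]; exact not_not.2 hy) (by rw [sd_flip]; exact hH.1)
    (by rw [sd_flip]; exact hbad)
  set J0 : Hy := (f ^ (k + 1))⁻¹ • J with hJ0
  set x' : S.X := (f ^ (k + 1))⁻¹ • y' with hx'
  have eJ : J = f ^ (k + 1) • J0 := by rw [hJ0, smul_inv_smul]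
  have ey : y' = f ^ (k + 1) • x' := by rw [hx', smul_inv_smul]
  have a1 : ¬ sd J0 x := by rw [← sd_smul (f ^ (k + 1)), ← eJ]; exact j3
  have a2 : sd J0 (f • x) := by
    rw [← sd_smul (f ^ (k + 1)), ← eJ, ← mul_smul, ← pow_succ]; exact j2
  have a3 : sd J0 x' := by rw [← sd_smul (f ^ (k + 1)), ← eJ, ← ey]; exact j4
  have a4 : ∀ K, K ≠ J0 → K ≠ S.flip J0 → (sd K x ↔ sd K x') := by
    intro K k1 k2
    rw [← sd_smul (f ^ (k + 1)) K x, ← sd_smul (f ^ (k + 1)) K x', ← ey]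
    refine j5 _ (fun h => k1 (smul_left_cancel (f ^ (k + 1)) (by rw [h, eJ]))) (fun h => k2
      (smul_left_cancel (f ^ (k + 1)) (by rw [h, S.smul_flip, ← eJ])))
  have a5 : ∀ K, K ≠ f • J0 → K ≠ S.flip (f • J0) → (sd K (f • x) ↔ sd K (f • x')) := by
    intro K k1 k2
    rw [sd_smul' f K x, sd_smul' f K x']
    refine a4 _ (fun h => k1 (by rw [← h, smul_inv_smul])) (fun h => k2
      (by rw [← S.smul_flip, ← h, smul_inv_smul]))
  have a6 : sd (f • J0) (f • x') := (sd_smul f J0 x').2 a3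
  -- the flip of `J` separates `x` from `f x`
  have b1 : sd (S.flip J) (f • x) := by
    have p0 : ¬ sd (S.flip J) (f ^ (0 : ℤ) • x) := by
      rw [sd_flip]; simpa using j1
    have p1 : sd (S.flip J) (f ^ ((k + 1 : ℕ) : ℤ) • x) := by
      rw [sd_flip, zpow_natCast]; exact j3
    obtain ⟨i, i1, i2, i3, i4⟩ := exists_flip' (p := fun i => sd (S.flip J) (f ^ i • x))
      (by omega) p0 p1
    obtain ⟨i, rfl⟩ : ∃ n : ℕ, i = n := ⟨i.toNat, by omega⟩
    rcases i with _ | i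
    · simpa using i4
    exfalso
    have i2' : i + 1 < k + 1 := by exact_mod_cast i2
    have m1 : (f ^ (i + 1))⁻¹ • S.flip J ∈ sep x (f • x) := by
      constructor
      · rw [← sd_smul']; rw [zpow_natCast] at i3; exact i3
      · rw [← sd_smul', ← mul_smul, ← pow_succ]
        have : (((i + 1 : ℕ) : ℤ) + 1) = ((i + 1 + 1 : ℕ) : ℤ) := by push_cast; ring
        rw [this, zpow_natCast] at i4; exact i4
    have m2 := ih (k - i) (by omega) x hmin _ m1
    rw [← sd_smul', ← mul_smul, ← pow_add, sd_flip] at m2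
    have : i + 1 + (k - i + 1) = k + 1 + 1 := by omega
    rw [this] at m2
    exact m2 j2
  have c1 : J ≠ J0 := fun h => a1 (h ▸ j1)
  have c2 : J ≠ S.flip J0 := fun h => S.no_inv (f ^ (k + 1)) J0 (eJ ▸ h)
  have sub : sep x' (f • x') ⊆ insert (f • J0) (sep x (f • x) \ {J0}) := by
    rintro K ⟨k1, k2⟩
    by_cases e1 : K = f • J0
    · exact Or.inl e1
    have e2 : K ≠ J0 := fun h => k1 (h ▸ a3)
    have e3 : K ≠ S.flip (f • J0) := fun h => by
      rw [h, sd_flip] at k2; exact k2 a6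
    have e4 : sd K (f • x) := (a5 K e1 e3).2 k2
    have e5 : K ≠ S.flip J0 := fun h => by
      rw [h, sd_flip] at e4; exact e4 a2
    exact Or.inr ⟨⟨fun h => k1 ((a4 K e2 e5).1 h), e4⟩, e2⟩
  have fin := sep_finite x (f • x)
  have mem : J0 ∈ sep x (f • x) := ⟨a1, a2⟩
  have card1 : (sep x (f • x) \ {J0}).ncard + 1 = (sep x (f • x)).ncard :=
    Set.ncard_sdiff_singleton_add_one mem fin
  by_cases hJ : J = f • J0
  · have sub' : sep x' (f • x') ⊆ sep x (f • x) \ {J0} := by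
      intro K hK
      rcases sub hK with h | h
      · exfalso
        rw [h, ← hJ] at hK
        exact hK.1 ((a4 J c1 c2).1 j1)
      · exact h
    have := Set.ncard_le_ncard sub' (fin.subset Set.sdiff_subset)
    have := hmin x'
    omega
  · have le1 : (sep x' (f • x')).ncard ≤ (sep x (f • x)).ncard := by
      refine (Set.ncard_le_ncard sub ((fin.subset Set.sdiff_subset).insert _)).trans ?_
      refine (Set.ncard_insert_le _ _).trans (le_of_eq card1)
    have hmin' : ∀ z : S.X, (sep x' (f • x')).ncard ≤ (sep z (f • z)).ncard :=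
      fun z => le1.trans (hmin z)
    have mem' : S.flip J ∈ sep x' (f • x') := by
      constructor
      · rw [← a4 _ (fun h => c2 (by rw [← h, S.flip_flip])) (fun h => c1 (flip_inj h)), sd_flip]
        exact not_not.2 j1
      · refine (a5 _ (fun h => ?_) (fun h => hJ (flip_inj h))).1 b1
        refine S.no_inv (f ^ k) (f • J0) ?_
        rw [← mul_smul, ← pow_succ, ← eJ, ← h, S.flip_flip]
    have := ih k (by omega) x' hmin' _ mem'
    rw [← ey, sd_flip] at this
    exact this j4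

/-- `H` is crossed positively by `f` at infinity -/
def Pos (f : G) (H : Hy) : Prop :=
  ∀ z : S.X, ∃ N : ℤ, ∀ j, N ≤ j → sd H (f ^ j • z) ∧ ¬ sd H (f ^ (-j) • z)

theorem zpow_inj_of {f : G} {H : Hy} {z : S.X} {N : ℤ}
    (h : ∀ j, N ≤ j → sd H (f ^ j • z) ∧ ¬ sd H (f ^ (-j) • z)) {n : ℤ} (e : f ^ n • H = H) :
    n = 0 := by
  by_contra hn
  have e' : ∀ m : ℤ, f ^ (n * m) • H = H := by
    intro m
    rw [zpow_mul]
    exact MulAction.mem_stabilizer_iff.1
      (Subgroup.zpow_mem _ (MulAction.mem_stabilizer_iff.2 e) m)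
  have hj : N ≤ n * (n * |N|) := by
    have h1 : 1 ≤ n * n := by
      rcases lt_or_gt_of_ne hn with h | h <;> nlinarith
    have h2 : N ≤ |N| := le_abs_self N
    have h3 : 0 ≤ |N| := abs_nonneg N
    nlinarith
  obtain ⟨h1, h2⟩ := h _ hj
  apply h2
  rw [sd_smul', ← zpow_neg, ← mul_neg, e'] at h1
  rw [sd_smul', ← zpow_neg, neg_neg, e']
  exact h1

theorem pos_of {f : G} {H : Hy} {z : S.X} {N : ℤ}
    (h : ∀ j, N ≤ j → sd H (f ^ j • z) ∧ ¬ sd H (f ^ (-j) • z)) : S.Pos f H := by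
  intro z'
  have inj : Function.Injective (fun j : ℤ => (f ^ j)⁻¹ • H) := by
    intro i j e
    have : f ^ (j - i) • H = H := by
      have e2 : (f ^ i)⁻¹ • H = (f ^ j)⁻¹ • H := e
      rw [zpow_sub, mul_smul, e2, smul_inv_smul]
    have := zpow_inj_of h this
    omega
  have fin : {j : ℤ | (f ^ j)⁻¹ • H ∈ sep z z' ∪ sep z' z}.Finite :=
    ((sep_finite z z').union (sep_finite z' z)).preimage inj.injOn
  obtain ⟨b1, hb1⟩ := fin.bddAbove
  obtain ⟨b2, hb2⟩ := fin.bddBelow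
  have key : ∀ j : ℤ, (b1 < j ∨ j < b2) → (sd H (f ^ j • z') ↔ sd H (f ^ j • z)) := by
    intro j hj
    have : ¬ ((f ^ j)⁻¹ • H ∈ sep z z' ∪ sep z' z) := by
      intro hm
      have h1 := hb1 hm
      have h2 := hb2 hm
      omega
    rw [sd_smul', sd_smul']
    simp only [sep, Set.mem_union, Set.mem_ofPred_eq, not_or, not_and] at this
    tauto
  refine ⟨max N (max (b1 + 1) (1 - b2)), fun j hj => ?_⟩
  have h1 : N ≤ j := le_trans (le_max_left _ _) hj
  have h2 : b1 + 1 ≤ j := le_trans (le_trans (le_max_left _ _) (le_max_right _ _)) hj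
  have h3 : 1 - b2 ≤ j := le_trans (le_trans (le_max_right _ _) (le_max_right _ _)) hj
  rw [key j (by omega), key (-j) (by omega)]
  exact h j h1

/-- `x` lies on an axis of `f` -/
def Ax (f : G) (x : S.X) : Prop := ∀ H ∈ sep x (f • x), S.Pos f H

theorem exists_ax (f : G) : ∃ x : S.X, Ax f x := by
  obtain ⟨L, hL⟩ := S.nonempty
  have : Nonempty S.X := ⟨⟨L, hL⟩⟩
  obtain ⟨x, hx⟩ := exists_minimalFor_of_wellFoundedLT (fun _ : S.X => True)
    (fun x : S.X => (sep x (f • x)).ncard) ⟨⟨L, hL⟩, trivial⟩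
  have hmin : ∀ x' : S.X, (sep x (f • x)).ncard ≤ (sep x' (f • x')).ncard := by
    intro x'
    rcases le_total (sep x (f • x)).ncard (sep x' (f • x')).ncard with h | h
    · exact h
    · exact hx.2 trivial h
  have fw : ∀ H ∈ sep x (f • x), ∀ j : ℤ, 1 ≤ j → sd H (f ^ j • x) := by
    intro H hH j hj
    obtain ⟨n, rfl⟩ : ∃ n : ℕ, j = ((n + 1 : ℕ) : ℤ) := ⟨(j - 1).toNat, by omega⟩
    rw [zpow_natCast]
    exact axis_aux f n x hmin H hH
  refine ⟨x, fun H hH => pos_of (z := x) (N := 1) fun j hj => ⟨fw H hH j hj, fun hb => ?_⟩⟩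
  have p0 : ¬ sd (S.flip H) (f ^ (-j) • x) := by rw [sd_flip]; exact not_not.2 hb
  have p1 : sd (S.flip H) (f ^ (0 : ℤ) • x) := by rw [sd_flip]; simpa using hH.1
  obtain ⟨i, i1, i2, i3, i4⟩ := exists_flip' (p := fun i => sd (S.flip H) (f ^ i • x))
    (by omega) p0 p1
  have m1 : (f ^ i)⁻¹ • S.flip H ∈ sep x (f • x) := by
    constructor
    · rw [← sd_smul']; exact i3
    · rw [← sd_smul', ← mul_smul, ← zpow_add_one]; exact i4
  have m2 := fw _ m1 (1 - i) (by omega)
  rw [← sd_smul', ← mul_smul, ← zpow_add, sd_flip] at m2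
  apply m2
  simpa using hH.2

theorem exists_pos {f : G} (hf : f ≠ 1) : ∃ H, S.Pos f H := by
  obtain ⟨x, hx⟩ := exists_ax (S := S) f
  by_contra hc
  push Not at hc
  apply hf
  refine eq_of_smul_eq x ?_
  rw [one_smul]
  refine (eq_of_sd fun H hH => ?_).symm
  by_contra h
  exact hc H (hx H ⟨h, hH⟩)

theorem Pos.smul {f k : G} {H : Hy} (h : S.Pos f H) (hk : Commute k f) : S.Pos f (k • H) := by
  intro z
  obtain ⟨N, hN⟩ := h (k⁻¹ • z)
  refine ⟨N, fun j hj => ?_⟩
  have e : ∀ i : ℤ, k⁻¹ • f ^ i • z = f ^ i • k⁻¹ • z := by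
    intro i
    rw [← mul_smul, ← mul_smul, (hk.inv_left.zpow_right i).eq]
  rw [sd_smul'', sd_smul'', e, e]
  exact hN j hj

theorem Pos.zpow_eq {f : G} {H : Hy} (h : S.Pos f H) {n : ℤ} (e : f ^ n • H = H) : n = 0 := by
  obtain ⟨L, hL⟩ := S.nonempty
  obtain ⟨N, hN⟩ := h ⟨L, hL⟩
  exact zpow_inj_of hN e

theorem Pos.exists_sep {f : G} {H : Hy} (h : S.Pos f H) (x : S.X) :
    ∃ n : ℤ, f ^ n • H ∈ sep x (f • x) := by
  obtain ⟨N, hN⟩ := h x
  obtain ⟨h1, h2⟩ := hN (max N 0) (le_max_left _ _)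
  obtain ⟨i, -, -, i3, i4⟩ := exists_flip' (p := fun i => sd H (f ^ i • x))
    (by have := le_max_right N 0; omega) h2 h1
  refine ⟨-i, ?_, ?_⟩
  · rw [zpow_neg, ← sd_smul']; exact i3
  · rw [zpow_neg, ← sd_smul', ← mul_smul, ← zpow_add_one]; exact i4

theorem Pos.both {f : G} {H J : Hy} (h : S.Pos f H) (h' : S.Pos f J) (z : S.X) :
    ∃ j : ℤ, sd H (f ^ j • z) ∧ sd J (f ^ j • z) ∧ ¬ sd H (f ^ (-j) • z) ∧
      ¬ sd J (f ^ (-j) • z) := by
  obtain ⟨N, hN⟩ := h z
  obtain ⟨N', hN'⟩ := h' z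
  obtain ⟨h1, h2⟩ := hN (max N N') (le_max_left _ _)
  obtain ⟨h3, h4⟩ := hN' (max N N') (le_max_right _ _)
  exact ⟨_, h1, h3, h2, h4⟩

theorem Pos.not_flip {f : G} {H : Hy} (h : S.Pos f H) : ¬ S.Pos f (S.flip H) := by
  intro h'
  obtain ⟨L, hL⟩ := S.nonempty
  obtain ⟨j, h1, h2, -⟩ := h.both h' ⟨L, hL⟩
  rw [sd_flip] at h2
  exact h2 h1

theorem smul_zpow_of {l k : G} {H : Hy} {n : ℤ} (hc : Commute l k) (e : l • H = k ^ n • H)
    (j : ℤ) : l ^ j • H = k ^ (n * j) • H := by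
  have h1 : (k ^ n)⁻¹ * l ∈ MulAction.stabilizer G H := by
    rw [MulAction.mem_stabilizer_iff, mul_smul, e, inv_smul_smul]
  have h2 := MulAction.mem_stabilizer_iff.1 (Subgroup.zpow_mem _ h1 j)
  rw [((hc.symm.zpow_left n).inv_left).mul_zpow, mul_smul, inv_zpow, ← zpow_mul,
    inv_smul_eq_iff] at h2
  exact h2

theorem Pos.of_pos {l k : G} {H : Hy} {n : ℤ} (h : S.Pos k H) (hc : Commute l k)
    (e : l • H = k ^ n • H) (hn : 0 < n) : S.Pos l H := by
  intro z
  obtain ⟨N, hN⟩ := h z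
  refine ⟨max N 0, fun j hj => ?_⟩
  have h1 : N ≤ j := le_trans (le_max_left _ _) hj
  have h2 : 0 ≤ j := le_trans (le_max_right _ _) hj
  have := hN (n * j) (by nlinarith)
  rw [sd_smul', sd_smul', ← zpow_neg, ← zpow_neg] at this ⊢
  rw [smul_zpow_of hc e, smul_zpow_of hc e]
  simpa using this

theorem Pos.inv_flip {k : G} {H : Hy} (h : S.Pos k H) : S.Pos k⁻¹ (S.flip H) := by
  intro z
  obtain ⟨N, hN⟩ := h z
  refine ⟨N, fun j hj => ?_⟩
  rw [sd_flip, sd_flip, inv_zpow', inv_zpow', neg_neg, not_not]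
  exact (hN j hj).symm

theorem Pos.of_ne {l k : G} {H : Hy} {n : ℤ} (h : S.Pos k H) (hc : Commute l k)
    (e : l • H = k ^ n • H) (hn : n ≠ 0) : S.Pos l H ∨ S.Pos l (S.flip H) := by
  rcases lt_or_gt_of_ne hn with h1 | h1
  · right
    refine h.inv_flip.of_pos (n := -n) hc.inv_right ?_ (by omega)
    rw [S.smul_flip, S.smul_flip, e, inv_zpow', neg_neg]
  · exact Or.inl (h.of_pos hc e h1)

theorem Pos.orbit {f k : G} {H : Hy} (h : S.Pos f H) (hk : Commute k f) :
    ∃ m : ℕ, 0 < m ∧ ∃ n : ℤ, k ^ m • H = f ^ n • H := by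
  obtain ⟨L, hL⟩ := S.nonempty
  let x : S.X := ⟨L, hL⟩
  have h1 : ∀ i : ℕ, ∃ n : ℤ, f ^ n • k ^ i • H ∈ sep x (f • x) :=
    fun i => (h.smul (hk.pow_left i)).exists_sep x
  choose n hn using h1
  have : Finite (sep x (f • x)) := (sep_finite x (f • x)).to_subtype
  have main : ∀ i j : ℕ, i < j → f ^ n i • k ^ i • H = f ^ n j • k ^ j • H →
      ∃ m : ℕ, 0 < m ∧ ∃ n : ℤ, k ^ m • H = f ^ n • H := by
    intro i j hij e
    obtain ⟨d, rfl⟩ : ∃ d, j = i + d := ⟨j - i, by omega⟩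
    refine ⟨d, by omega, n i - n (i + d), ?_⟩
    have c1 : Commute (k ^ i) (f ^ n i) := (hk.pow_left i).zpow_right _
    have c2 : Commute (k ^ i) (f ^ n (i + d)) := (hk.pow_left i).zpow_right _
    rw [← mul_smul, ← c1.eq, pow_add, mul_smul, ← mul_smul (f ^ n (i + d)), ← mul_assoc, ← c2.eq,
      mul_assoc, mul_smul] at e
    have e2 := smul_left_cancel _ e
    rw [sub_eq_neg_add, zpow_add, mul_smul, e2, mul_smul, zpow_neg, inv_smul_smul]
  obtain ⟨i, j, hij, e⟩ := Finite.exists_ne_map_eq_of_infinite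
    (fun i : ℕ => (⟨_, hn i⟩ : sep x (f • x)))
  have e' := congrArg Subtype.val e
  rcases lt_or_gt_of_ne hij with h2 | h2
  · exact main i j h2 e'
  · exact main j i h2 e'.symm

theorem orbit_uniform {f k : G} (hk : Commute k f) :
    ∃ m : ℕ, 0 < m ∧ ∀ H, S.Pos f H → ∃ n : ℤ, k ^ m • H = f ^ n • H := by
  obtain ⟨L, hL⟩ := S.nonempty
  let x : S.X := ⟨L, hL⟩
  have key : ∀ F : Set Hy, F.Finite → ∃ m : ℕ, 0 < m ∧ ∀ H ∈ F, S.Pos f H →
      ∃ n : ℤ, k ^ m • H = f ^ n • H := by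
    intro F hF
    induction F, hF using Set.Finite.induction_on with
    | empty => exact ⟨1, one_pos, by simp⟩
    | @insert J F _ _ ih =>
      obtain ⟨m, hm, h1⟩ := ih
      by_cases hJ : S.Pos f J
      · obtain ⟨m', hm', n', h2⟩ := hJ.orbit hk
        refine ⟨m * m', Nat.mul_pos hm hm', fun H hH hp => ?_⟩
        rcases hH with rfl | hH
        · refine ⟨n' * m, ?_⟩
          rw [mul_comm m m', pow_mul, ← zpow_natCast, smul_zpow_of (hk.pow_left m') h2]
        · obtain ⟨n, h3⟩ := h1 H hH hp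
          refine ⟨n * m', ?_⟩
          rw [pow_mul, ← zpow_natCast, smul_zpow_of (hk.pow_left m) h3]
      · refine ⟨m, hm, fun H hH hp => ?_⟩
        rcases hH with rfl | hH
        · exact absurd hp hJ
        · exact h1 H hH hp
  obtain ⟨m, hm, h1⟩ := key _ (sep_finite x (f • x))
  refine ⟨m, hm, fun H hp => ?_⟩
  obtain ⟨n0, h2⟩ := hp.exists_sep x
  obtain ⟨n, h3⟩ := h1 _ h2 (hp.smul (Commute.zpow_self f n0))
  refine ⟨n, smul_left_cancel (f ^ n0) ?_⟩
  rw [← mul_smul, ← ((hk.pow_left m).zpow_right n0).eq, mul_smul, h3, ← mul_smul, ← mul_smul,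
    ← zpow_add, ← zpow_add, add_comm]

end Sys

end Pool.Agent.H868Z.Diagram
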