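import Mathlib
import Pool.Agent.H868Z.Diagram.Core1

/-!
# Splitting of elements of a group acting on a wire system
-/

namespace Pool.Agent.H868Z.Diagram

/-- `f` is a product of two independent commuting elements, the first of which commutes with a
power of every element of the centraliser of `f` -/
def Split {G : Type*} [Group G] (f : G) : Prop :=
  ∃ a b : G, f = a * b ∧ Commute a b ∧ (∀ i j : ℤ, a ^ j = b ^ i → j = 0 ∧ i = 0) ∧
    ∀ k : G, Commute k f → ∃ m : ℕ, 0 < m ∧ Commute (k ^ m) a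

theorem seg_cut {T : Type*} {A V B z1 z2 : List T} (h : A ++ V ++ B = z1 ++ z2) :
    (∃ c, z1 = A ++ V ++ c ∧ B = c ++ z2) ∨ (∃ c, A = z1 ++ c ∧ z2 = c ++ V ++ B) ∨
      (∃ v1 v2, v1 ≠ [] ∧ v2 ≠ [] ∧ V = v1 ++ v2 ∧ z1 = A ++ v1 ∧ z2 = v2 ++ B) := by
  rcases List.append_eq_append_iff.1 h with ⟨c, h1, h2⟩ | ⟨c, h1, h2⟩
  · exact Or.inl ⟨c, h1, h2⟩
  · rcases List.append_eq_append_iff.1 h1 with ⟨c', h3, h4⟩ | ⟨c', h3, h4⟩
    · by_cases e1 : c' = []
      · subst e1
        right; left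
        exact ⟨[], by simpa using h3.symm, by simpa [h4] using h2⟩
      by_cases e2 : c = []
      · subst e2
        left
        exact ⟨[], by simpa [h4] using h3, by simpa using h2.symm⟩
      exact Or.inr (Or.inr ⟨c', c, e1, e2, h4, h3, h2⟩)
    · right; left
      exact ⟨c', h3, by rw [h2, h4]⟩

theorem first_split {T : Type*} {D : T → Prop} : ∀ {l : List T}, (∃ t ∈ l, D t) →
    ∃ l1 t r, l = l1 ++ t :: r ∧ D t ∧ ∀ s ∈ l1, ¬ D s
  | [], h => by simp at h
  | s :: l, h => by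
    by_cases hs : D s
    · exact ⟨[], s, l, rfl, hs, by simp⟩
    · have : ∃ t ∈ l, D t := by
        obtain ⟨t, ht, hd⟩ := h
        rcases List.mem_cons.1 ht with rfl | ht
        · exact absurd hd hs
        · exact ⟨t, ht, hd⟩
      obtain ⟨l1, t, r, rfl, h1, h2⟩ := first_split this
      refine ⟨s :: l1, t, r, rfl, h1, ?_⟩
      intro s' hs'
      rcases List.mem_cons.1 hs' with rfl | hs'
      · exact hs
      · exact h2 s' hs'

theorem split_unique {T : Type*} {D : T → Prop} {l1 l1' r r' : List T} {t t' : T}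
    (h : l1 ++ t :: r = l1' ++ t' :: r') (h1 : ∀ s ∈ l1, ¬ D s) (h2 : ∀ s ∈ l1', ¬ D s)
    (h3 : D t) (h4 : D t') : l1 = l1' ∧ t :: r = t' :: r' := by
  rcases List.append_eq_append_iff.1 h with ⟨c, e1, e2⟩ | ⟨c, e1, e2⟩
  · rcases c with _ | ⟨s, c⟩
    · exact ⟨by simpa using e1.symm, by simpa using e2⟩
    · simp only [List.cons_append, List.cons.injEq] at e2
      exact absurd h3 (h2 t (by rw [e1, e2.1]; simp))
  · rcases c with _ | ⟨s, c⟩
    · exact ⟨by simpa using e1, by simpa using e2.symm⟩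
    · simp only [List.cons_append, List.cons.injEq] at e2
      exact absurd h4 (h1 t' (by rw [e1, e2.1]; simp))

namespace Pre

variable {T Hy U : Type*} [Group U] {S : Pre T Hy} {V : S.Val U}

theorem Walk.append_right {P : Hy → Prop} {x y : List T} {u : U} (h : Walk V P x u y)
    (z : List T) : ∃ u', Walk V P (x ++ z) u' (y ++ z) := by
  induction h with
  | refl => exact ⟨1, Walk.refl⟩
  | @step u A H B _ hp ih =>
    obtain ⟨u', ih⟩ := ih
    exact ⟨_, (Walk.step (A := A) (H := H) (B := B ++ z) (ih.cast rfl (by simp)) hp).cast rfl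
      (by simp)⟩

theorem Walk.append_left {P : Hy → Prop} {x y : List T} {u : U} (h : Walk V P x u y)
    (z : List T) : ∃ u', Walk V P (z ++ x) u' (z ++ y) := by
  induction h with
  | refl => exact ⟨1, Walk.refl⟩
  | @step u A H B _ hp ih =>
    obtain ⟨u', ih⟩ := ih
    exact ⟨_, (Walk.step (A := z ++ A) (H := H) (B := B) (ih.cast rfl (by simp)) hp).cast rfl
      (by simp)⟩

theorem Walk.filter {P : Hy → Prop} {x y : List T} {u : U} (h : Walk V P x u y) (p : T → Bool)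
    (hp : ∀ H t, P H → (t ∈ S.inp H ∨ t ∈ S.inp (S.flip H)) → ¬ p t) :
    x.filter p = y.filter p := by
  induction h with
  | refl => rfl
  | @step u A H B _ hP ih =>
    have e1 : (S.inp H).filter p = [] :=
      List.filter_eq_nil_iff.2 fun t ht => hp H t hP (Or.inl ht)
    have e2 : (S.inp (S.flip H)).filter p = [] :=
      List.filter_eq_nil_iff.2 fun t ht => hp H t hP (Or.inr ht)
    rw [ih]
    simp only [List.filter_append, e1, e2]

theorem Walk.cut {P : Hy → Prop} {C D : T → Prop} (hCD : ∀ t, C t → D t → False)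
    (hcell : ∀ J, P J → (∀ t, (t ∈ S.inp J ∨ t ∈ S.inp (S.flip J)) → C t) ∨
      (∀ t, (t ∈ S.inp J ∨ t ∈ S.inp (S.flip J)) → D t))
    {x1 r0 : List T} {t0 : T} (h1 : ∀ s ∈ x1, ¬ D s) (h0 : D t0) {u : U} {z : List T}
    (h : Walk V P (x1 ++ t0 :: r0) u z) :
    ∃ z1 t r, z = z1 ++ t :: r ∧ (∀ s ∈ z1, ¬ D s) ∧ D t ∧ (∃ u1, Walk V P x1 u1 z1) ∧
      ∃ u2, Walk V P (t0 :: r0) u2 (t :: r) := by
  induction h with
  | refl => exact ⟨x1, t0, r0, rfl, h1, h0, ⟨1, Walk.refl⟩, ⟨1, Walk.refl⟩⟩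
  | @step u A H B _ hp ih =>
    obtain ⟨z1, t, r, e, k1, k2, ⟨u1, w1⟩, ⟨u2, w2⟩⟩ := ih
    obtain ⟨s, V', hs⟩ := List.exists_cons_of_ne_nil (S.inp_ne H)
    rcases seg_cut e with ⟨c, rfl, rfl⟩ | ⟨c, rfl, e2⟩ | ⟨v1, v2, n1, n2, e1, rfl, e2⟩
    · have hC : ∀ t, (t ∈ S.inp H ∨ t ∈ S.inp (S.flip H)) → C t := by
        rcases hcell H hp with h2 | h2
        · exact h2
        · exact absurd (h2 s (Or.inl (by rw [hs]; simp))) (k1 s (by rw [hs]; simp))
      refine ⟨A ++ S.inp (S.flip H) ++ c, t, r, by simp, ?_, k2, ⟨_, Walk.step w1 hp⟩, ⟨u2, w2⟩⟩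
      intro s' hs'
      simp only [List.mem_append] at hs'
      rcases hs' with (hs' | hs') | hs'
      · exact k1 s' (by simp [hs'])
      · exact fun hd => hCD s' (hC s' (Or.inr hs')) hd
      · exact k1 s' (by simp [hs'])
    · have w2' := Walk.step (w2.cast rfl e2) hp
      rcases c with _ | ⟨s', c⟩
      · have hD : ∀ t, (t ∈ S.inp H ∨ t ∈ S.inp (S.flip H)) → D t := by
          rcases hcell H hp with h2 | h2
          · exfalso
            rw [hs] at e2
            simp only [List.nil_append, List.cons_append, List.cons.injEq] at e2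
            exact hCD t (h2 t (Or.inl (by rw [hs, e2.1]; simp))) k2
          · exact h2
        obtain ⟨s2, V2, hs2⟩ := List.exists_cons_of_ne_nil (S.inp_ne (S.flip H))
        refine ⟨z1, s2, V2 ++ B, by simp [hs2], k1, hD s2 (Or.inr (by rw [hs2]; simp)),
          ⟨u1, w1⟩, ⟨_, w2'.cast rfl (by simp [hs2])⟩⟩
      · simp only [List.cons_append, List.cons.injEq] at e2
        obtain ⟨rfl, -⟩ := e2
        exact ⟨z1, t, c ++ S.inp (S.flip H) ++ B, by simp, k1, k2, ⟨u1, w1⟩,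
          ⟨_, w2'.cast rfl (by simp)⟩⟩
    · exfalso
      obtain ⟨s1, V1, rfl⟩ := List.exists_cons_of_ne_nil n1
      obtain ⟨s2, V2, rfl⟩ := List.exists_cons_of_ne_nil n2
      simp only [List.cons_append, List.cons.injEq] at e2
      rcases hcell H hp with h2 | h2
      · exact hCD t (h2 t (Or.inl (by rw [e1, e2.1]; simp))) k2
      · exact k1 s1 (by simp) (h2 s1 (Or.inl (by rw [e1]; simp)))

theorem Walk.colour {P c : Hy → Prop} {C : T → Prop}
    (h1 : ∀ J, P J → c J → ∀ t, t ∈ S.inp (S.flip J) → C t)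
    (h2 : ∀ J, P J → ¬ c J → ∀ t, t ∈ S.inp J → ¬ C t) {x y : List T} {u : U}
    (h : Walk V P x u y) : Walk V (fun H => P H ∧ ¬ c H) x u y ∨ ∃ t ∈ y, C t := by
  induction h with
  | refl => exact Or.inl Walk.refl
  | @step u A H B _ hp ih =>
    by_cases hc : c H
    · obtain ⟨s2, V2, hs2⟩ := List.exists_cons_of_ne_nil (S.inp_ne (S.flip H))
      exact Or.inr ⟨s2, by simp [hs2], h1 H hp hc s2 (by simp [hs2])⟩
    rcases ih with ih | ⟨t, ht, hC⟩
    · exact Or.inl (Walk.step ih ⟨hp, hc⟩)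
    · right
      simp only [List.mem_append] at ht
      rcases ht with (ht | ht) | ht
      · exact ⟨t, by simp [ht], hC⟩
      · exact absurd hC (h2 H hp hc t ht)
      · exact ⟨t, by simp [ht], hC⟩

end Pre

namespace Sys

variable {G T Hy U : Type*} [Group G] [MulAction G T] [MulAction G Hy] [Group U]
  {S : Sys G T Hy U}

theorem mem_inp_smul (g : G) {H : Hy} {t : T} (h : t ∈ S.inp H) : g • t ∈ S.inp (g • H) := by
  rw [S.inp_smul]; exact List.mem_map_of_mem h

theorem fix_inp {g : G} {H : Hy} (h : g • H = H) : ∀ t ∈ S.inp H, g • t = t := by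
  have := S.inp_smul g H
  rw [h] at this
  exact fix_of_map_eq this.symm

theorem walk_fix (g : G) {P : Hy → Prop} {x y : List T} {u : U} (h : Pre.Walk S.V P x u y)
    (hx : ∀ t ∈ x, g • t = t) :
    (∀ t ∈ y, g • t = t) ∧ Pre.Walk S.V (fun H => P H ∧ g • H = H) x u y := by
  induction h with
  | refl => exact ⟨hx, Pre.Walk.refl⟩
  | @step u A H B _ hp ih =>
    obtain ⟨h1, h2⟩ := ih
    have hH : g • H = H := S.fix g H fun t ht => h1 t (by simp [ht])
    refine ⟨?_, Pre.Walk.step h2 ⟨hp, hH⟩⟩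
    intro t ht
    simp only [List.mem_append] at ht
    rcases ht with (ht | ht) | ht
    · exact h1 t (by simp [ht])
    · exact fix_inp (by rw [S.smul_flip, hH]) t ht
    · exact h1 t (by simp [ht])

/-- wires touched by a hyperplane crossed by `f` at infinity -/
def Act (f : G) (t : T) : Prop := ∃ J, S.Pos f J ∧ (t ∈ S.inp J ∨ t ∈ S.inp (S.flip J))

theorem Act.smul {f k : G} {t : T} (h : S.Act f t) (hk : Commute k f) : S.Act f (k • t) := by
  obtain ⟨J, h1, h2⟩ := h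
  refine ⟨k • J, h1.smul hk, ?_⟩
  rcases h2 with h2 | h2
  · exact Or.inl (mem_inp_smul k h2)
  · exact Or.inr (by rw [← S.smul_flip]; exact mem_inp_smul k h2)

theorem Pos.eq_of_inp {f : G} {H J : Hy} {t : T} (h : S.Pos f H) (h' : S.Pos f J)
    (h1 : t ∈ S.inp H) (h2 : t ∈ S.inp J) : H = J := by
  obtain ⟨L, hL⟩ := S.nonempty
  obtain ⟨j, j1, j2, -⟩ := h.both h' ⟨L, hL⟩
  exact sd_uniq _ h1 h2 j1 j2

theorem Pos.eq_of_out {f : G} {H J : Hy} {t : T} (h : S.Pos f H) (h' : S.Pos f J)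
    (h1 : t ∈ S.inp (S.flip H)) (h2 : t ∈ S.inp (S.flip J)) : H = J := by
  obtain ⟨L, hL⟩ := S.nonempty
  obtain ⟨j, -, -, j1, j2⟩ := h.both h' ⟨L, hL⟩
  exact flip_inj (sd_uniq _ h1 h2 ((sd_flip _ _).2 j1) ((sd_flip _ _).2 j2))

theorem Act.zpow_eq {f : G} {t : T} (h : S.Act f t) {n : ℤ} (e : f ^ n • t = t) : n = 0 := by
  obtain ⟨J, h1, h2⟩ := h
  have h3 := h1.smul (Commute.zpow_self f n)
  rcases h2 with h2 | h2
  · have := mem_inp_smul (f ^ n) h2
    rw [e] at this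
    exact h1.zpow_eq (h3.eq_of_inp h1 this h2)
  · have := mem_inp_smul (f ^ n) h2
    rw [e, S.smul_flip] at this
    exact h1.zpow_eq (h3.eq_of_out h1 this h2)

theorem sd_iff_of_not {x y : S.X} {P : Hy → Prop} (h : ∀ H ∈ sep x y, P H) {J : Hy}
    (h1 : ¬ P J) (h2 : ¬ P (S.flip J)) : sd J y ↔ sd J x := by
  constructor
  · intro h3
    by_contra h4
    exact h1 (h J ⟨h4, h3⟩)
  · intro h3
    by_contra h4
    exact h2 (h _ ⟨by rw [sd_flip]; exact not_not.2 h3, by rw [sd_flip]; exact h4⟩)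

theorem Ax.sd_zpow {f : G} {y : S.X} (h : Ax f y) {J : Hy} (h1 : ¬ S.Pos f J)
    (h2 : ¬ S.Pos f (S.flip J)) (n : ℤ) : sd J (f ^ n • y) ↔ sd J y := by
  have step : ∀ n : ℤ, sd J (f ^ (n + 1) • y) ↔ sd J (f ^ n • y) := by
    intro n
    rw [zpow_add_one, mul_smul, sd_smul' (f ^ n), sd_smul' (f ^ n)]
    refine sd_iff_of_not h (fun h3 => h1 ?_) (fun h3 => h2 ?_)
    · simpa using h3.smul (Commute.zpow_self f n)
    · have := h3.smul (Commute.zpow_self f n)
      rwa [S.smul_flip, smul_inv_smul] at this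
  induction n using Int.induction_on with
  | zero => simp
  | succ n ih => exact (step n).trans ih
  | pred n ih =>
    have := step (-(n : ℤ) - 1)
    rw [sub_add_cancel] at this
    exact this.symm.trans ih

theorem Ax.smul {f k : G} {x : S.X} (h : Ax f x) (hk : Commute k f) : Ax f (k • x) := by
  intro H hH
  have : k⁻¹ • H ∈ sep x (f • x) := by
    constructor
    · rw [← sd_smul']; exact hH.1
    · rw [← sd_smul', ← mul_smul, hk.eq, mul_smul]; exact hH.2
  simpa using (h _ this).smul hk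

theorem split_of_cut {f : G} (x : S.X) {x1 x2 : List T} (hx : x.1 = x1 ++ x2) {u1 u2 : U}
    (w1 : Pre.Walk S.V (S.Pos f) x1 u1 (x1.map (f • ·)))
    (w2 : Pre.Walk S.V (S.Pos f) x2 u2 (x2.map (f • ·)))
    {t1 t2 : T} (m1 : t1 ∈ x1) (a1 : S.Act f t1) (m2 : t2 ∈ x2) (a2 : S.Act f t2) :
    Split f := by
  classical
  have hst : S.St (x1 ++ x2) := hx ▸ x.2
  obtain ⟨u3, w3⟩ := w1.append_right x2
  obtain ⟨a, ha⟩ := S.full f hst (w3.st hst)
  have ha' := ha
  rw [List.map_append] at ha'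
  obtain ⟨e1, e2⟩ := List.append_inj ha' (by simp)
  have ha1 : ∀ t ∈ x1, a • t = f • t := List.map_inj_left.1 e1
  have ha2 : ∀ t ∈ x2, a • t = t := fix_of_map_eq e2
  have hax : (a • x).1 = x1.map (f • ·) ++ x2 := by rw [smul_val, hx, ha]
  obtain ⟨ha3, w2'⟩ := walk_fix a w2 ha2
  set b := a⁻¹ * f with hb
  have hab : f = a * b := by rw [hb]; group
  have hb1 : ∀ t ∈ x1, b • t = t := fun t ht => by
    rw [hb, mul_smul, ← ha1 t ht, inv_smul_smul]
  have hb2 : ∀ t ∈ x2, b • t = f • t := fun t ht => by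
    rw [hb, mul_smul, inv_smul_eq_iff, ha3 _ (List.mem_map_of_mem ht)]
  obtain ⟨hb3, w1'⟩ := walk_fix b w1 hb1
  have hba : b * a = f := by
    refine eq_of_smul_eq x (Subtype.ext ?_)
    rw [mul_smul, smul_val b, hax, smul_val, hx, List.map_append, List.map_append,
      map_eq_of_fix hb3, List.map_congr_left hb2]
  have cab : Commute a b := by rw [Commute, SemiconjBy, hba, ← hab]
  have caf : Commute a f := by rw [hab]; exact (Commute.refl a).mul_right cab
  have cbf : Commute b f := by rw [hab]; exact cab.symm.mul_right (Commute.refl b)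
  have wall : ∃ u, Pre.Walk S.V (fun H => S.Pos f H ∧ (b • H = H ∨ a • H = H)) x.1 u
      (f • x).1 := by
    obtain ⟨v1, k1⟩ := (w1'.mono (Q := fun H => S.Pos f H ∧ (b • H = H ∨ a • H = H))
      fun H h => ⟨h.1, Or.inl h.2⟩).append_right x2
    obtain ⟨v2, k2⟩ := (w2'.mono (Q := fun H => S.Pos f H ∧ (b • H = H ∨ a • H = H))
      fun H h => ⟨h.1, Or.inr h.2⟩).append_left (x1.map (f • ·))
    refine ⟨v1 * v2, ?_⟩
    rw [smul_val, hx, List.map_append]
    exact k1.trans k2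
  obtain ⟨u4, w4⟩ := wall
  have hAx : Ax f x := fun H hH => (w4.crossed x.2 hH.1 hH.2).1
  have hW : ∀ H, S.Pos f H → b • H = H ∨ a • H = H := by
    intro H hH
    obtain ⟨n, hn⟩ := hH.exists_sep x
    rcases (w4.crossed x.2 hn.1 hn.2).2 with h | h
    · left
      rw [← mul_smul, (cbf.zpow_right n).eq, mul_smul] at h
      exact smul_left_cancel _ h
    · right
      rw [← mul_smul, (caf.zpow_right n).eq, mul_smul] at h
      exact smul_left_cancel _ h
  have hsepa : ∀ H ∈ sep x (a • x), S.Pos f H := by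
    intro H hH
    have w3' : Pre.Walk S.V (S.Pos f) x.1 u3 (a • x).1 := by rw [hax, hx]; exact w3
    exact w3'.crossed x.2 hH.1 hH.2
  have fixz : ∀ {g : G} {t : T}, g • t = t → ∀ n : ℤ, g ^ n • t = t := fun {g t} h n =>
    MulAction.mem_stabilizer_iff.1 (Subgroup.zpow_mem _ (MulAction.mem_stabilizer_iff.2 h) n)
  have fixz' : ∀ {g : G} {t : Hy}, g • t = t → ∀ n : ℤ, g ^ n • t = t := fun {g t} h n =>
    MulAction.mem_stabilizer_iff.1 (Subgroup.zpow_mem _ (MulAction.mem_stabilizer_iff.2 h) n)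
  refine ⟨a, b, hab, cab, ?_, ?_⟩
  · intro i j e
    have hj : j = 0 := by
      refine a1.zpow_eq ?_
      rw [hab, cab.mul_zpow, mul_smul, fixz (hb1 t1 m1), e, fixz (hb1 t1 m1)]
    refine ⟨hj, a2.zpow_eq ?_⟩
    rw [hab, cab.mul_zpow, mul_smul, ← e, fixz (ha2 t2 m2), fixz (ha2 t2 m2)]
  intro k0 hk0
  obtain ⟨m, hm, hk⟩ := orbit_uniform (S := S) hk0
  refine ⟨m, hm, ?_⟩
  have ckf : Commute (k0 ^ m) f := hk0.pow_left m
  generalize k0 ^ m = k at hk ckf
  -- permanent wires of `x` are fixed by `a`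
  have perm : ∀ t ∈ x.1, ¬ S.Act f t → a • t = t := by
    have w3' : Pre.Walk S.V (S.Pos f) x.1 u3 (a • x).1 := by rw [hax, hx]; exact w3
    have e := w3'.filter (fun t => decide (¬ S.Act f t))
      (fun H t h1 h2 => by simpa using ⟨H, h1, h2⟩)
    rw [smul_val, List.filter_map] at e
    have e' : List.filter ((fun t => decide (¬ S.Act f t)) ∘ fun t => a • t) x.1 =
        List.filter (fun t => decide (¬ S.Act f t)) x.1 := by
      refine List.filter_congr fun t _ => ?_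
      simp only [Function.comp, decide_eq_decide, not_iff_not]
      exact ⟨fun h => by simpa using h.smul caf.inv_left, fun h => h.smul caf⟩
    rw [e'] at e
    intro t ht hn
    exact fix_of_map_eq e.symm t (List.mem_filter.2 ⟨ht, by simpa using hn⟩)
  have hAy : Ax f (k • x) := hAx.smul ckf
  -- hyperplanes between `x` and `k x` that are not crossed by `f` are fixed by `a`
  have hT : ∀ J ∈ sep x (k • x), ¬ S.Pos f J → ¬ S.Pos f (S.flip J) → a • J = J := by
    have key : ∀ {z : List T} {u : U}, Pre.Walk S.V (fun H => H ∈ sep x (k • x)) x.1 u z →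
        (∀ t ∈ z, a • t = t ∨ S.Act f t) ∧ Pre.Walk S.V
          (fun J => ¬ S.Pos f J → ¬ S.Pos f (S.flip J) → a • J = J) x.1 u z := by
      intro z u hw
      induction hw with
      | refl =>
        refine ⟨fun t ht => ?_, Pre.Walk.refl⟩
        by_cases h : S.Act f t
        · exact Or.inr h
        · exact Or.inl (perm t ht h)
      | @step u A J B _ hp ih =>
        obtain ⟨h1, h2⟩ := ih
        have hJ : ¬ S.Pos f J → ¬ S.Pos f (S.flip J) → a • J = J := by
          intro n1 n2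
          refine S.fix a J fun t ht => ?_
          rcases h1 t (by simp [ht]) with h3 | ⟨J', p, h3⟩
          · exact h3
          exfalso
          obtain ⟨N, hN⟩ := p (k • x)
          obtain ⟨s1, s2⟩ := hN N le_rfl
          rcases h3 with h3 | h3
          · exact n1 (sd_uniq _ ht h3 ((hAy.sd_zpow n1 n2 N).2 hp.2) s1 ▸ p)
          · have := sd_uniq _ ht h3 ((hAy.sd_zpow n1 n2 (-N)).2 hp.2) ((sd_flip _ _).2 s2)
            apply n2
            rw [this, S.flip_flip]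
            exact p
        refine ⟨?_, Pre.Walk.step h2 hJ⟩
        intro t ht
        simp only [List.mem_append] at ht
        rcases ht with (ht | ht) | ht
        · exact h1 t (by simp [ht])
        · by_cases n1 : S.Pos f J
          · exact Or.inr ⟨J, n1, Or.inr ht⟩
          by_cases n2 : S.Pos f (S.flip J)
          · exact Or.inr ⟨_, n2, Or.inl ht⟩
          exact Or.inl (fix_inp (by rw [S.smul_flip, hJ n1 n2]) t ht)
        · exact h1 t (by simp [ht])
    obtain ⟨u, hw⟩ := walk_sep x (k • x)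
    intro J hJ
    exact (key hw).2.crossed x.2 hJ.1 hJ.2
  have hT' : ∀ J, ¬ S.Pos f J → ¬ S.Pos f (S.flip J) → ¬ (sd J (k • x) ↔ sd J x) →
      a • J = J := by
    intro J n1 n2 h
    by_cases h1 : sd J x
    · have h2 : ¬ sd J (k • x) := fun h2 => h (iff_of_true h2 h1)
      have := hT (S.flip J) ⟨by rw [sd_flip]; exact not_not.2 h1, by rw [sd_flip]; exact h2⟩ n2
        (by rw [S.flip_flip]; exact n1)
      rw [S.smul_flip] at this
      exact flip_inj this
    · have h2 : sd J (k • x) := by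
        by_contra h2
        exact h (iff_of_false h2 h1)
      exact hT J ⟨h1, h2⟩ n1 n2
  have posc : ∀ H, S.Pos f H → (k * a)⁻¹ • H = (a * k)⁻¹ • H := by
    intro H hH
    obtain ⟨n, hn⟩ := hk _ (hH.smul ckf.inv_left)
    rw [smul_inv_smul] at hn
    have e1 : k⁻¹ • H = (f ^ n)⁻¹ • H := by rw [eq_inv_smul_iff, ← hn]
    rw [mul_inv_rev, mul_inv_rev, mul_smul, mul_smul, e1]
    rcases hW H hH with h | h
    · have e2 : a⁻¹ • H = f⁻¹ • H := by
        rw [eq_inv_smul_iff, ← mul_smul, ← hba, mul_inv_cancel_right, h]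
      rw [← mul_smul, ((caf.zpow_right n).inv_inv).eq, mul_smul, e2, ← mul_smul k⁻¹,
        ckf.inv_inv.eq, mul_smul, e1, ← mul_smul, ← mul_smul,
        ((Commute.self_zpow f n).inv_inv).eq]
    · have e2 : a⁻¹ • H = H := by rw [inv_smul_eq_iff, h]
      rw [← mul_smul, ((caf.zpow_right n).inv_inv).eq, mul_smul, e2, e1]
  have main : ∀ H, sd H ((a * k) • x) ↔ sd H ((k * a) • x) := by
    intro H
    by_cases n1 : S.Pos f H
    · rw [sd_smul', sd_smul', posc H n1]
    by_cases n2 : S.Pos f (S.flip H)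
    · have := posc _ n2
      rw [S.smul_flip, S.smul_flip] at this
      rw [sd_smul', sd_smul', flip_inj this]
    have inv1 : ∀ g : G, Commute g f → ¬ S.Pos f (g⁻¹ • H) := fun g hg h =>
      n1 (by simpa using h.smul hg)
    have inv2 : ∀ g : G, Commute g f → ¬ S.Pos f (S.flip (g⁻¹ • H)) := fun g hg h =>
      n2 (by
        have := h.smul hg
        rwa [S.smul_flip, smul_inv_smul] at this)
    have r1 : sd H ((k * a) • x) ↔ sd H (k • x) := by
      rw [mul_smul, sd_smul' k, sd_smul' k]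
      exact sd_iff_of_not hsepa (inv1 k ckf) (inv2 k ckf)
    rw [r1, mul_smul, sd_smul' a]
    by_cases h : sd H (k • x) ↔ sd H x
    · by_cases h' : sd (a⁻¹ • H) (k • x) ↔ sd (a⁻¹ • H) x
      · rw [h', h, ← sd_smul' a]
        exact sd_iff_of_not hsepa n1 n2
      · have := hT' _ (inv1 a caf) (inv2 a caf) h'
        rw [smul_inv_smul] at this
        rw [← this]
    · have := hT' H n1 n2 h
      rw [inv_smul_eq_iff.2 this.symm]
  exact (eq_of_smul_eq x (eq_of_sd fun H h => (main H).1 h))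

theorem split_of_colour {f : G} (c : Hy → Prop) (hc : ∀ (n : ℤ) H, c (f ^ n • H) ↔ c H)
    (compat : ∀ J J' t, S.Pos f J → S.Pos f J' → t ∈ S.inp (S.flip J) → t ∈ S.inp J' →
      (c J ↔ c J'))
    {H1 H2 : Hy} (p1 : S.Pos f H1) (c1 : c H1) (p2 : S.Pos f H2) (c2 : ¬ c H2) : Split f := by
  let C : T → Prop := fun t => ∃ J, S.Pos f J ∧ c J ∧ (t ∈ S.inp J ∨ t ∈ S.inp (S.flip J))
  let D : T → Prop := fun t => ∃ J, S.Pos f J ∧ ¬ c J ∧ (t ∈ S.inp J ∨ t ∈ S.inp (S.flip J))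
  have hCD : ∀ t, C t → D t → False := by
    rintro t ⟨J, q1, q2, q3⟩ ⟨J', q4, q5, q6⟩
    rcases q3 with q3 | q3 <;> rcases q6 with q6 | q6
    · exact q5 (q1.eq_of_inp q4 q3 q6 ▸ q2)
    · exact q5 ((compat J' J t q4 q1 q6 q3).2 q2)
    · exact q5 ((compat J J' t q1 q4 q3 q6).1 q2)
    · exact q5 (q1.eq_of_out q4 q3 q6 ▸ q2)
  have hcell : ∀ J, S.Pos f J → (∀ t, (t ∈ S.inp J ∨ t ∈ S.inp (S.flip J)) → C t) ∨
      (∀ t, (t ∈ S.inp J ∨ t ∈ S.inp (S.flip J)) → D t) := by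
    intro J hJ
    by_cases h : c J
    · exact Or.inl fun t ht => ⟨J, hJ, h, ht⟩
    · exact Or.inr fun t ht => ⟨J, hJ, h, ht⟩
  have mv : ∀ (n : ℤ) (J : Hy) (t : T), (t ∈ S.inp J ∨ t ∈ S.inp (S.flip J)) →
      (f ^ n • t ∈ S.inp (f ^ n • J) ∨ f ^ n • t ∈ S.inp (S.flip (f ^ n • J))) := by
    intro n J t h
    rcases h with h | h
    · exact Or.inl (mem_inp_smul _ h)
    · exact Or.inr (by rw [← S.smul_flip]; exact mem_inp_smul _ h)
  have hC : ∀ (n : ℤ) t, C t → C (f ^ n • t) := by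
    rintro n t ⟨J, q1, q2, q3⟩
    exact ⟨f ^ n • J, q1.smul (Commute.zpow_self f n), (hc n J).2 q2, mv n J t q3⟩
  have hD : ∀ (n : ℤ) t, D t → D (f ^ n • t) := by
    rintro n t ⟨J, q1, q2, q3⟩
    exact ⟨f ^ n • J, q1.smul (Commute.zpow_self f n), fun h => q2 ((hc n J).1 h), mv n J t q3⟩
  have hC' : ∀ t, C (f • t) ↔ C t := fun t =>
    ⟨fun h => by simpa using hC (-1) _ h, fun h => by simpa using hC 1 _ h⟩
  have hD' : ∀ t, D (f • t) ↔ D t := fun t =>
    ⟨fun h => by simpa using hD (-1) _ h, fun h => by simpa using hD 1 _ h⟩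
  have actC : ∀ t, C t → S.Act f t := fun t ⟨J, q1, _, q3⟩ => ⟨J, q1, q3⟩
  have actD : ∀ t, D t → S.Act f t := fun t ⟨J, q1, _, q3⟩ => ⟨J, q1, q3⟩
  obtain ⟨x, hx⟩ := exists_ax (S := S) f
  obtain ⟨u, hw0⟩ := walk_sep x (f • x)
  have hw : Pre.Walk S.V (S.Pos f) x.1 u (f • x).1 := hw0.mono hx
  have exC : ∃ t ∈ x.1, C t := by
    rcases hw.colour (c := c) (C := C) (fun J q1 q2 t q3 => ⟨J, q1, q2, Or.inr q3⟩)
      (fun J q1 q2 t q3 h => hCD t h ⟨J, q1, q2, Or.inl q3⟩) with h | ⟨t, ht, h⟩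
    · obtain ⟨n, hn⟩ := p1.exists_sep x
      exact absurd ((hc n H1).2 c1) (h.crossed x.2 hn.1 hn.2).2
    · obtain ⟨s, hs, rfl⟩ := List.mem_map.1 ht
      exact ⟨s, hs, (hC' s).1 h⟩
  have exD : ∃ t ∈ x.1, D t := by
    rcases hw.colour (c := fun J => ¬ c J) (C := D) (fun J q1 q2 t q3 => ⟨J, q1, q2, Or.inr q3⟩)
      (fun J q1 q2 t q3 h => hCD t ⟨J, q1, not_not.1 q2, Or.inl q3⟩ h) with h | ⟨t, ht, h⟩
    · obtain ⟨n, hn⟩ := p2.exists_sep x
      exact absurd (fun h => c2 ((hc n H2).1 h)) (h.crossed x.2 hn.1 hn.2).2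
    · obtain ⟨s, hs, rfl⟩ := List.mem_map.1 ht
      exact ⟨s, hs, (hD' s).1 h⟩
  have fin : ∀ (C D : T → Prop), (∀ t, C t → D t → False) →
      (∀ J, S.Pos f J → (∀ t, (t ∈ S.inp J ∨ t ∈ S.inp (S.flip J)) → C t) ∨
        (∀ t, (t ∈ S.inp J ∨ t ∈ S.inp (S.flip J)) → D t)) → (∀ t, D (f • t) ↔ D t) →
      ∀ x1 t0 r0 t1, x.1 = x1 ++ t0 :: r0 → (∀ s ∈ x1, ¬ D s) → D t0 → S.Act f t0 → t1 ∈ x1 →
        S.Act f t1 → Split f := by
    intro C D hCD hcell hD' x1 t0 r0 t1 e h1 h0 act0 m1 act1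
    have hw' : Pre.Walk S.V (S.Pos f) (x1 ++ t0 :: r0) u (f • x).1 := e ▸ hw
    obtain ⟨z1, t, r, e', k1, k2, ⟨u1, w1⟩, ⟨u2, w2⟩⟩ := hw'.cut hCD hcell h1 h0
    rw [smul_val, e, List.map_append, List.map_cons] at e'
    obtain ⟨e1, e2⟩ := split_unique e' (by
      intro s hs
      obtain ⟨s', hs', rfl⟩ := List.mem_map.1 hs
      rw [hD']; exact h1 s' hs') k1 ((hD' t0).2 h0) k2
    exact split_of_cut x e (w1.cast rfl e1.symm) (w2.cast rfl (by rw [← e2]; rfl)) m1 act1
      (by simp) act0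
  obtain ⟨l1, t, r, e, d1, d2⟩ := first_split exD
  obtain ⟨l1', t', r', e', d1', d2'⟩ := first_split exC
  have e'' : l1 ++ t :: r = l1' ++ t' :: r' := by rw [← e, e']
  have hcell' : ∀ J, S.Pos f J → (∀ t, (t ∈ S.inp J ∨ t ∈ S.inp (S.flip J)) → D t) ∨
      (∀ t, (t ∈ S.inp J ∨ t ∈ S.inp (S.flip J)) → C t) := fun J h => (hcell J h).symm
  rcases List.append_eq_append_iff.1 e'' with ⟨c0, f1, f2⟩ | ⟨c0, f1, f2⟩
  · rcases c0 with _ | ⟨s, c0⟩
    · simp only [List.nil_append, List.cons.injEq] at f2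
      exact (hCD t (f2.1 ▸ d1') d1).elim
    · simp only [List.cons_append, List.cons.injEq] at f2
      exact fin D C (fun t h1 h2 => hCD t h2 h1) hcell' hC' l1' t' r' t e' d2' d1' (actC _ d1')
        (by rw [f1, f2.1]; simp) (actD _ d1)
  · rcases c0 with _ | ⟨s, c0⟩
    · simp only [List.nil_append, List.cons.injEq] at f2
      exact (hCD t' d1' (f2.1 ▸ d1)).elim
    · simp only [List.cons_append, List.cons.injEq] at f2
      exact fin C D hCD hcell hD' l1 t r t' e d2 d1 (actD _ d1)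
        (by rw [f1, f2.1]; simp) (actC _ d1')

theorem split_of_fix {f s : G} (cs : Commute s f) {H1 H2 : Hy}
    (p1 : S.Pos f H1 ∨ S.Pos f (S.flip H1)) (p2 : S.Pos f H2 ∨ S.Pos f (S.flip H2))
    (e1 : s • H1 = H1) (q2 : S.Pos s H2) : Split f := by
  let c : Hy → Prop := fun J => ∃ m : ℕ, 0 < m ∧ s ^ m • J = J
  have cflip : ∀ J, c (S.flip J) ↔ c J := by
    intro J
    constructor
    · rintro ⟨m, hm, h⟩
      exact ⟨m, hm, by rw [S.smul_flip] at h; exact flip_inj h⟩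
    · rintro ⟨m, hm, h⟩
      exact ⟨m, hm, by rw [S.smul_flip, h]⟩
  have c1 : c H1 := ⟨1, one_pos, by simpa using e1⟩
  have c2 : ¬ c H2 := by
    rintro ⟨m, hm, h⟩
    rw [← zpow_natCast] at h
    have := q2.zpow_eq h
    omega
  have hc : ∀ (n : ℤ) H, c (f ^ n • H) ↔ c H := by
    intro n H
    have e : ∀ m : ℕ, s ^ m • f ^ n • H = f ^ n • s ^ m • H := fun m => by
      rw [← mul_smul, ((cs.pow_left m).zpow_right n).eq, mul_smul]
    constructor
    · rintro ⟨m, hm, h⟩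
      exact ⟨m, hm, by rw [e] at h; exact smul_left_cancel _ h⟩
    · rintro ⟨m, hm, h⟩
      exact ⟨m, hm, by rw [e, h]⟩
  have const : ∀ {J : Hy} {m : ℕ}, s ^ m • J = J → ∀ (j : ℤ) (z : S.X),
      (sd J (s ^ ((m : ℤ) * j) • z) ↔ sd J z) := by
    intro J m h j z
    have : (s ^ m) ^ (-j) • J = J := MulAction.mem_stabilizer_iff.1
      (Subgroup.zpow_mem _ (MulAction.mem_stabilizer_iff.2 h) (-j))
    rw [sd_smul', zpow_mul, zpow_natCast, ← zpow_neg, this]
  have nonconst : ∀ {J : Hy}, S.Pos f J → ¬ c J → ∀ m : ℕ, 0 < m → ∀ z : S.X,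
      (∃ j : ℤ, sd J (s ^ ((m : ℤ) * j) • z)) ∧ ∃ j : ℤ, ¬ sd J (s ^ ((m : ℤ) * j) • z) := by
    intro J hJ hcJ m hm z
    obtain ⟨m', hm', n, h⟩ := hJ.orbit cs
    have hn : n ≠ 0 := by
      rintro rfl
      exact hcJ ⟨m', hm', by simpa using h⟩
    have h2 : s ^ (m' * m) • J = f ^ (n * m) • J := by
      rw [pow_mul, ← zpow_natCast, smul_zpow_of (cs.pow_left m') h]
    have e : ∀ j : ℤ, (s ^ (m' * m)) ^ j = s ^ ((m : ℤ) * (m' * j)) := by
      intro j
      rw [← zpow_natCast, ← zpow_mul]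
      congr 1
      push_cast
      ring
    rcases hJ.of_ne (cs.pow_left _) h2 (mul_ne_zero hn (by omega)) with h3 | h3
    · obtain ⟨N, hN⟩ := h3 z
      obtain ⟨k1, k2⟩ := hN N le_rfl
      rw [e] at k1 k2
      exact ⟨⟨_, k1⟩, ⟨_, k2⟩⟩
    · obtain ⟨N, hN⟩ := h3 z
      obtain ⟨k1, k2⟩ := hN N le_rfl
      rw [e, sd_flip] at k1 k2
      exact ⟨⟨_, not_not.1 k2⟩, ⟨_, k1⟩⟩
  have compat : ∀ J J' t, S.Pos f J → S.Pos f J' → t ∈ S.inp (S.flip J) → t ∈ S.inp J' →
      (c J ↔ c J') := by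
    intro J J' t q q' m1 m2
    have ne : S.flip J ≠ J' := fun h => q.not_flip (h ▸ q')
    have nest : ∀ z : S.X, sd J' z → sd J z := by
      intro z h
      by_contra h'
      exact ne (sd_uniq z m1 m2 ((sd_flip _ _).2 h') h)
    obtain ⟨z0⟩ : Nonempty S.X := by
      obtain ⟨L, hL⟩ := S.nonempty
      exact ⟨⟨L, hL⟩⟩
    obtain ⟨j, -, j2, j3, -⟩ := q.both q' z0
    constructor
    · rintro ⟨m, hm, h⟩
      by_contra hc'
      obtain ⟨⟨i, hi⟩, -⟩ := nonconst q' hc' m hm (f ^ (-j) • z0)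
      exact j3 ((const h i _).1 (nest _ hi))
    · rintro ⟨m, hm, h⟩
      by_contra hc'
      obtain ⟨-, ⟨i, hi⟩⟩ := nonconst q hc' m hm (f ^ j • z0)
      exact hi (nest _ ((const h i _).2 j2))
  rcases p1 with p1 | p1 <;> rcases p2 with p2 | p2
  · exact split_of_colour c hc compat p1 c1 p2 c2
  · exact split_of_colour c hc compat p1 c1 p2 (by rwa [cflip])
  · exact split_of_colour c hc compat p1 (by rwa [cflip]) p2 c2
  · exact split_of_colour c hc compat p1 (by rwa [cflip]) p2 (by rwa [cflip])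

include S in
/-- In a free abelian subgroup of rank two with basis `g`, `h`, a power of one of `g`, `h`, `g h`
splits. -/
theorem split_main {g h : G} (c : Commute g h)
    (ind : ∀ i j : ℤ, g ^ i * h ^ j = 1 → i = 0 ∧ j = 0) :
    ∃ N : ℕ, 0 < N ∧ (Split (g ^ N) ∨ Split (h ^ N) ∨ Split ((g * h) ^ N)) := by
  have hg : g ≠ 1 := by
    rintro rfl
    have := (ind 1 0 (by simp)).1
    omega
  obtain ⟨H1, p1⟩ := exists_pos (S := S) hg
  obtain ⟨m, hm, n, e1⟩ := p1.orbit c.symm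
  set s := g ^ (-n) * h ^ m with hs
  have hs1 : s ≠ 1 := by
    intro e
    have := (ind (-n) m (by rw [zpow_natCast]; exact e)).2
    omega
  have csg : Commute s g := (Commute.zpow_self g _).mul_left (c.symm.pow_left m)
  have csh : Commute s h := (c.zpow_left _).mul_left (Commute.pow_self h m)
  have fix1 : s • H1 = H1 := by rw [hs, mul_smul, e1, zpow_neg, inv_smul_smul]
  obtain ⟨H2, p2⟩ := exists_pos (S := S) hs1
  obtain ⟨m', hm', n', e2⟩ := p2.orbit csg.symm
  by_cases hn' : n' ≠ 0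
  · refine ⟨m', hm', Or.inl (split_of_fix (csg.pow_right m') (Or.inl ?_) ?_ fix1 p2)⟩
    · exact p1.of_pos (n := m') (Commute.pow_self g m') (by rw [zpow_natCast]) (by omega)
    · exact p2.of_ne (csg.symm.pow_left m') e2 hn'
  push Not at hn'
  subst hn'
  rw [zpow_zero, one_smul] at e2
  have fixg : ∀ j : ℤ, g ^ ((m' : ℤ) * j) • H2 = H2 := fun j => by
    rw [zpow_mul, zpow_natCast]
    exact MulAction.mem_stabilizer_iff.1
      (Subgroup.zpow_mem _ (MulAction.mem_stabilizer_iff.2 e2) j)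
  have e3 : h ^ (m * m') • H2 = s ^ (m' : ℤ) • H2 := by
    have : h ^ (m * m') = s ^ (m' : ℤ) * g ^ ((m' : ℤ) * n) := by
      rw [hs, ((c.zpow_left (-n)).pow_right m).symm.eq.symm,
        ((c.symm.pow_left m).zpow_right (-n)).mul_zpow, mul_assoc, ← zpow_mul, ← zpow_add,
        zpow_natCast, ← pow_mul]
      have : -n * (m' : ℤ) + m' * n = 0 := by ring
      rw [this, zpow_zero, mul_one]
    rw [this, mul_smul, fixg]
  have e4 : h ^ (m * m') • H1 = g ^ (n * m') • H1 := by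
    rw [pow_mul, ← zpow_natCast, smul_zpow_of (c.symm.pow_left m) e1]
  have hN : 0 < m * m' := Nat.mul_pos hm hm'
  by_cases hn : n ≠ 0
  · refine ⟨m * m', hN, Or.inr (Or.inl (split_of_fix (csh.pow_right _) ?_ (Or.inl ?_) fix1 p2))⟩
    · exact p1.of_ne (c.symm.pow_left _) e4 (mul_ne_zero hn (by omega))
    · exact p2.of_pos (csh.symm.pow_left _) e3 (by omega)
  push Not at hn
  subst hn
  refine ⟨m * m', hN, Or.inr (Or.inr (split_of_fix ((csg.mul_right csh).pow_right _)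
    (Or.inl ?_) (Or.inl ?_) fix1 p2))⟩
  · refine p1.of_pos (n := ((m * m' : ℕ) : ℤ))
      (((Commute.refl g).mul_left c.symm).pow_left _) ?_ (by omega)
    rw [c.mul_pow, mul_smul, e4, zero_mul, zpow_zero, one_smul, zpow_natCast]
  · refine p2.of_pos (n := (m' : ℤ)) ((csg.mul_right csh).symm.pow_left _) ?_ (by omega)
    rw [c.eq, c.symm.mul_pow, mul_smul, ← e3]
    congr 1
    have := fixg m
    rwa [← Nat.cast_mul, zpow_natCast, mul_comm] at this

end Sys

end Pool.Agent.H868Z.Diagram
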