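import Mathlib
import Pool.Agent.H868Z.Diagram.Core2

/-!
# Segments, crossing hyperplanes and fixed wires in a wire system
-/

namespace Pool.Agent.H868Z.Diagram

namespace Pre

variable {T Hy U : Type*} [Group U] {S : Pre T Hy} {V : S.Val U}

theorem Walk.around {P : Hy → Prop} {A W B z : List T} {u : U} (hW : W ≠ [])
    (hP : ∀ J, P J → ∀ t, t ∈ S.inp J → t ∈ W → False) (h : Walk V P (A ++ W ++ B) u z) :
    ∃ A' B', z = A' ++ W ++ B' ∧ (∃ u1, Walk V P A u1 A') ∧ ∃ u2, Walk V P B u2 B' := by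
  induction h with
  | refl => exact ⟨A, B, rfl, ⟨1, Walk.refl⟩, ⟨1, Walk.refl⟩⟩
  | @step u A0 H B0 _ hp ih =>
    obtain ⟨A', B', e, ⟨u1, w1⟩, ⟨u2, w2⟩⟩ := ih
    rcases seg_disj (S.inp_ne H) hW (hP H hp) e with ⟨M, rfl, rfl⟩ | ⟨M, rfl, rfl⟩
    · exact ⟨A', M ++ S.inp (S.flip H) ++ B0, by simp, ⟨u1, w1⟩, ⟨_, Walk.step w2 hp⟩⟩
    · exact ⟨A0 ++ S.inp (S.flip H) ++ M, B', by simp, ⟨_, Walk.step w1 hp⟩, ⟨u2, w2⟩⟩

theorem Walk.back {P : Hy → Prop} {W y z : List T} {u : U} (hW : W ≠ [])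
    (hP : ∀ J, P J → ∀ t, t ∈ S.inp (S.flip J) → t ∈ W → False) (h : Walk V P y u z) :
    ∀ A B, z = A ++ W ++ B → ∃ A' B', y = A' ++ W ++ B' := by
  induction h with
  | refl => exact fun A B e => ⟨A, B, e⟩
  | @step u A0 H B0 _ hp ih =>
    intro A B e
    rcases seg_disj (S.inp_ne _) hW (hP H hp) e with ⟨M, rfl, rfl⟩ | ⟨M, rfl, rfl⟩
    · exact ih A (M ++ S.inp H ++ B0) (by simp)
    · exact ih (A0 ++ S.inp H ++ M) B (by simp)

theorem Walk.change {P : Hy → Prop} {x y : List T} {u : U} (h : Walk V P x u y) (L R : List T)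
    (hs : S.St (L ++ x ++ R)) (J : Hy) : S.St (L ++ y ++ R) ∧
      ((S.side J (L ++ x ++ R) ↔ S.side J (L ++ y ++ R)) ∨
        ∃ a b, S.St (L ++ (a ++ S.inp J ++ b) ++ R)) := by
  induction h with
  | refl => exact ⟨hs, Or.inl Iff.rfl⟩
  | @step u A H B _ _ ih =>
    obtain ⟨h1, h2⟩ := ih
    have e1 : L ++ (A ++ S.inp H ++ B) ++ R = (L ++ A) ++ S.inp H ++ (B ++ R) := by simp
    have e2 : L ++ (A ++ S.inp (S.flip H) ++ B) ++ R =
        (L ++ A) ++ S.inp (S.flip H) ++ (B ++ R) := by simp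
    have h3 : S.St (L ++ (A ++ S.inp (S.flip H) ++ B) ++ R) := by
      rw [e2]; rw [e1] at h1; exact S.st_move h1
    refine ⟨h3, ?_⟩
    by_cases k1 : J = H
    · exact Or.inr ⟨A, B, k1 ▸ h1⟩
    by_cases k2 : J = S.flip H
    · exact Or.inr ⟨A, B, k2 ▸ h3⟩
    rcases h2 with h2 | h2
    · left
      rw [h2, e1, e2]
      exact S.side_move (e1 ▸ h1) k1 k2
    · exact Or.inr h2

theorem Walk.first {P F : Hy → Prop} {y z : List T} {u : U} (h : Walk V P y u z)
    (hF : ∀ J K, F J → P K → ¬ F K → ∀ t, t ∈ S.inp (S.flip K) → t ∈ S.inp J → False) :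
    Walk V (fun K => P K ∧ ¬ F K) y u z ∨ ∃ J A B, F J ∧ y = A ++ S.inp J ++ B := by
  induction h with
  | refl => exact Or.inl Walk.refl
  | @step u A H B _ hp ih =>
    rcases ih with ih | ih
    · by_cases hH : F H
      · obtain ⟨A', B', e⟩ := ih.back (S.inp_ne H) (fun K hK => hF H K hH hK.1 hK.2) A B rfl
        exact Or.inr ⟨H, A', B', hH, e⟩
      · exact Or.inl (Walk.step ih ⟨hp, hH⟩)
    · exact Or.inr ih

end Pre

namespace Sys

variable {G T Hy U : Type*} [Group G] [MulAction G T] [MulAction G Hy] [Group U]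
  {S : Sys G T Hy U}

/-- the state `x` contains the segment `W` -/
def Has (x : S.X) (W : List T) : Prop := ∃ A B, x.1 = A ++ W ++ B

theorem Has.smul {x : S.X} {W : List T} (h : Has x W) (g : G) : Has (g • x) (W.map (g • ·)) := by
  obtain ⟨A, B, e⟩ := h
  exact ⟨A.map (g • ·), B.map (g • ·), by rw [smul_val, e, List.map_append, List.map_append]⟩

theorem Has.smul_inp {x : S.X} {H : Hy} (h : Has x (S.inp H)) (g : G) :
    Has (g • x) (S.inp (g • H)) := by
  rw [S.inp_smul]; exact h.smul g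

theorem Has.mem {x : S.X} {W : List T} (h : Has x W) {t : T} (ht : t ∈ W) : t ∈ x.1 := by
  obtain ⟨A, B, e⟩ := h
  rw [e]; simp [ht]

theorem Has.not_sd {x : S.X} {W : List T} (h : Has x W) {t : T} (ht : t ∈ W) {J : Hy}
    (hJ : t ∈ S.inp J) : ¬ sd J x := S.side_mem x.2 hJ (h.mem ht)

theorem exists_has (H : Hy) : ∃ x : S.X, Has x (S.inp H) := by
  obtain ⟨A, B, h⟩ := S.real H
  exact ⟨⟨_, h⟩, A, B, rfl⟩

theorem around_sep {A W B A' B' : List T} (hW : W ≠ []) (h : S.St (A ++ W ++ B))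
    (h' : S.St (A' ++ W ++ B')) :
    (∃ u, Pre.Walk S.V (fun _ => True) A u A') ∧ ∃ u, Pre.Walk S.V (fun _ => True) B u B' := by
  obtain ⟨u, hw⟩ := walk_sep (S := S) ⟨_, h⟩ ⟨_, h'⟩
  obtain ⟨A1, B1, e, ⟨u1, w1⟩, ⟨u2, w2⟩⟩ := hw.around hW
    (fun J hJ t h1 h2 => S.side_mem h' h1 (by simp [h2]) hJ.2)
  obtain ⟨rfl, rfl⟩ := seg_same hW (S.nodup h') e
  exact ⟨⟨u1, w1.mono fun _ _ => trivial⟩, ⟨u2, w2.mono fun _ _ => trivial⟩⟩

theorem mix {A W B A' B' : List T} (hW : W ≠ []) (h : S.St (A ++ W ++ B))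
    (h' : S.St (A' ++ W ++ B')) : S.St (A ++ W ++ B') := by
  obtain ⟨-, u, w⟩ := around_sep hW h h'
  obtain ⟨u', w'⟩ := w.append_left (A ++ W)
  exact w'.st h

variable (S) in
/-- `W` is to the left of `W'` in some state -/
def SLt (W W' : List T) : Prop := ∃ A M B, S.St (A ++ W ++ M ++ W' ++ B)

theorem SLt.trans {W1 W2 W3 : List T} (h2 : W2 ≠ []) (h : S.SLt W1 W2) (h' : S.SLt W2 W3) :
    S.SLt W1 W3 := by
  obtain ⟨A, M, B, h⟩ := h
  obtain ⟨A', M', B', h'⟩ := h'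
  have := mix (A := A ++ W1 ++ M) (B := B) (A' := A') (B' := M' ++ W3 ++ B') h2 h
    (by simpa only [List.append_assoc] using h')
  exact ⟨A, M ++ W2 ++ M', B', by simpa only [List.append_assoc] using this⟩

theorem SLt.disj {W W' : List T} (h : S.SLt W W') {t : T} (h1 : t ∈ W) (h2 : t ∈ W') : False := by
  obtain ⟨A, M, B, h⟩ := h
  have := (List.nodup_append.1 (S.nodup h)).1
  exact (List.nodup_append.1 this).2.2 t (by simp [h1]) t h2 rfl

theorem SLt.smul {W W' : List T} (h : S.SLt W W') (g : G) :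
    S.SLt (W.map (g • ·)) (W'.map (g • ·)) := by
  obtain ⟨A, M, B, h⟩ := h
  have := S.st_smul g h
  simp only [List.map_append] at this
  exact ⟨_, _, _, this⟩

variable (S) in
/-- `H` crosses `J` and is on its left -/
def Lt (H J : Hy) : Prop := S.SLt (S.inp H) (S.inp J)

variable (S) in
/-- `H` and `J` cross -/
def Cross (H J : Hy) : Prop := S.Lt H J ∨ S.Lt J H

theorem Lt.trans {H J K : Hy} (h : S.Lt H J) (h' : S.Lt J K) : S.Lt H K :=
  SLt.trans (S.inp_ne J) h h'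

theorem lt_irrefl' (H : Hy) : ¬ S.Lt H H := fun h => by
  obtain ⟨t, ht⟩ := List.exists_mem_of_ne_nil _ (S.inp_ne H)
  exact h.disj ht ht

theorem Lt.smul {H J : Hy} (h : S.Lt H J) (g : G) : S.Lt (g • H) (g • J) := by
  unfold Lt
  rw [S.inp_smul, S.inp_smul]
  exact SLt.smul h g

theorem Lt.flip_left {H J : Hy} (h : S.Lt H J) : S.Lt (S.flip H) J := by
  obtain ⟨A, M, B, h⟩ := h
  have := S.st_move (A := A) (H := H) (B := M ++ S.inp J ++ B)
    (by simpa only [List.append_assoc] using h)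
  exact ⟨A, M, B, by simpa only [List.append_assoc] using this⟩

theorem Lt.flip_right {H J : Hy} (h : S.Lt H J) : S.Lt H (S.flip J) := by
  obtain ⟨A, M, B, h⟩ := h
  exact ⟨A, M, B, S.st_move h⟩

theorem Cross.symm {H J : Hy} (h : S.Cross H J) : S.Cross J H := Or.symm h

theorem Cross.smul {H J : Hy} (h : S.Cross H J) (g : G) : S.Cross (g • H) (g • J) :=
  h.imp (·.smul g) (·.smul g)

theorem Cross.flip_left {H J : Hy} (h : S.Cross H J) : S.Cross (S.flip H) J :=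
  h.imp Lt.flip_left Lt.flip_right

theorem Cross.flip_right {H J : Hy} (h : S.Cross H J) : S.Cross H (S.flip J) :=
  h.imp Lt.flip_right Lt.flip_left

theorem Cross.of_flip_left {H J : Hy} (h : S.Cross (S.flip H) J) : S.Cross H J := by
  simpa only [S.flip_flip] using h.flip_left

theorem Cross.of_flip_right {H J : Hy} (h : S.Cross H (S.flip J)) : S.Cross H J := by
  simpa only [S.flip_flip] using h.flip_right

theorem Cross.disj {H J : Hy} (h : S.Cross H J) {t : T} (h1 : t ∈ S.inp H) (h2 : t ∈ S.inp J) :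
    False := h.elim (fun h => SLt.disj h h1 h2) (fun h => SLt.disj h h2 h1)

theorem not_cross_self (H : Hy) : ¬ S.Cross H H := fun h => h.elim (lt_irrefl' H) (lt_irrefl' H)

theorem Cross.exists_has {H J : Hy} (h : S.Cross H J) :
    ∃ x : S.X, Has x (S.inp H) ∧ Has x (S.inp J) := by
  rcases h with ⟨A, M, B, h⟩ | ⟨A, M, B, h⟩
  · exact ⟨⟨_, h⟩, ⟨A, M ++ S.inp J ++ B, by simp⟩, ⟨_, B, rfl⟩⟩
  · exact ⟨⟨_, h⟩, ⟨_, B, rfl⟩, ⟨A, M ++ S.inp H ++ B, by simp⟩⟩

theorem cross_of_sides {x y : S.X} {H J : Hy} (hx : Has x (S.inp H)) (hy : Has y (S.inp H))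
    (h : ¬ (sd J x ↔ sd J y)) : S.Cross H J := by
  obtain ⟨x, sx⟩ := x
  obtain ⟨y, sy⟩ := y
  obtain ⟨A, B, rfl⟩ := hx
  obtain ⟨A', B', rfl⟩ := hy
  obtain ⟨⟨u1, w1⟩, u2, w2⟩ := around_sep (S.inp_ne H) sx sy
  obtain ⟨s1, c1⟩ := w1.change [] (S.inp H ++ B) (by simpa using sx) J
  obtain ⟨s2, c2⟩ := w2.change (A' ++ S.inp H) [] (by simpa using s1) J
  rcases c1 with c1 | ⟨a, b, c1⟩
  · rcases c2 with c2 | ⟨a, b, c2⟩
    · exfalso
      apply h
      simp only [List.nil_append, List.append_nil, ← List.append_assoc] at c1 c2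
      exact c1.trans c2
    · exact Or.inl ⟨A', a, b, by simpa only [List.append_assoc, List.append_nil] using c2⟩
  · exact Or.inr ⟨a, b, B, by simpa only [List.append_assoc, List.nil_append] using c1⟩

theorem slt_or {x : S.X} {t t' : T} (h : t ∈ x.1) (h' : t' ∈ x.1) (ne : t ≠ t') :
    S.SLt [t] [t'] ∨ S.SLt [t'] [t] := by
  obtain ⟨A, B, e⟩ := List.append_of_mem h
  have sx := x.2
  rw [e] at h' sx
  simp only [List.mem_append, List.mem_cons] at h'
  rcases h' with h' | h' | h'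
  · obtain ⟨A1, A2, rfl⟩ := List.append_of_mem h'
    exact Or.inr ⟨A1, A2, B, by simpa using sx⟩
  · exact absurd h'.symm ne
  · obtain ⟨B1, B2, rfl⟩ := List.append_of_mem h'
    exact Or.inl ⟨A, B1, B2, by simpa using sx⟩

theorem fix_of_periodic {k : G} {x : S.X} {t : T} (h : ∀ i : ℕ, k ^ i • t ∈ x.1) : k • t = t := by
  by_contra ne
  have : Finite {s // s ∈ x.1} := (List.finite_toSet x.1).to_subtype
  obtain ⟨N, hN, e⟩ : ∃ N : ℕ, 0 < N ∧ k ^ N • t = t := by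
    obtain ⟨i, j, hij, e⟩ := Finite.exists_ne_map_eq_of_infinite
      (fun i : ℕ => (⟨_, h i⟩ : {s // s ∈ x.1}))
    have e' : k ^ i • t = k ^ j • t := congrArg Subtype.val e
    have key : ∀ i j : ℕ, i < j → k ^ i • t = k ^ j • t → ∃ N : ℕ, 0 < N ∧ k ^ N • t = t := by
      intro i j hij e
      obtain ⟨d, rfl⟩ : ∃ d, j = i + d := ⟨j - i, by omega⟩
      rw [pow_add, mul_smul] at e
      exact ⟨d, by omega, (smul_left_cancel _ e).symm⟩
    rcases lt_or_gt_of_ne hij with h1 | h1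
    · exact key i j h1 e'
    · exact key j i h1 e'.symm
  obtain ⟨n, rfl⟩ : ∃ n, N = n + 1 := ⟨N - 1, by omega⟩
  rcases slt_or (by simpa using h 0) (by simpa using h 1) (Ne.symm ne) with h1 | h1
  · have : ∀ n : ℕ, S.SLt [t] [k ^ (n + 1) • t] := by
      intro n
      induction n with
      | zero => simpa using h1
      | succ n ih =>
        refine SLt.trans (by simp) h1 ?_
        simpa [pow_succ' k (n + 1), mul_smul] using ih.smul k
    have h2 := this n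
    rw [e] at h2
    exact h2.disj (t := t) (by simp) (by simp)
  · have : ∀ n : ℕ, S.SLt [k ^ (n + 1) • t] [t] := by
      intro n
      induction n with
      | zero => simpa using h1
      | succ n ih =>
        refine SLt.trans (by simp) ?_ h1
        simpa [pow_succ' k (n + 1), mul_smul] using ih.smul k
    have h2 := this n
    rw [e] at h2
    exact h2.disj (t := t) (by simp) (by simp)

variable (S) in
/-- `H` is crossed by `f` at infinity, in one of the two directions -/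
def Supp (f : G) (H : Hy) : Prop := S.Pos f H ∨ S.Pos f (S.flip H)

theorem Supp.flip {f : G} {H : Hy} (h : S.Supp f H) : S.Supp f (S.flip H) := by
  unfold Supp
  rw [S.flip_flip]
  exact Or.symm h

theorem Ax.supp {k : G} {x : S.X} (h : Ax k x) {i j : ℤ} {J : Hy}
    (hJ : J ∈ sep (k ^ i • x) (k ^ j • x)) : S.Supp k J := by
  by_contra hc
  have h1 := fun n => h.sd_zpow (J := J) (fun e => hc (Or.inl e)) (fun e => hc (Or.inr e)) n
  exact hJ.1 ((h1 i).2 ((h1 j).1 hJ.2))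

theorem Ax.fix {k : G} {x : S.X} (h : Ax k x) {W : List T} (hx : Has x W)
    (hW : ∀ J, S.Supp k J → ∀ t, t ∈ S.inp J → t ∈ W → False) : ∀ t ∈ W, k • t = t := by
  intro t ht
  refine fix_of_periodic (x := x) fun i => ?_
  obtain ⟨u, hw⟩ := walk_sep x (k ^ (-(i : ℤ)) • x)
  obtain ⟨A, B, e⟩ := hx
  rw [e] at hw
  obtain ⟨A', B', e', -⟩ := hw.around (List.ne_nil_of_mem ht)
    (fun J hJ => hW J (h.supp (i := 0) (j := -(i : ℤ)) (by simpa using hJ)))
  have h1 : Has (k ^ (-(i : ℤ)) • x) W := ⟨A', B', e'⟩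
  have h2 := (h1.smul (k ^ i)).mem (List.mem_map_of_mem ht)
  simpa using h2

theorem sep_lt {x x' y : S.X} {J : Hy} (h1 : ¬ sd J x) (h2 : sd J x') (h3 : sd J y)
    (h4 : ∀ K, K ≠ J → K ≠ S.flip J → (sd K x ↔ sd K x')) :
    (sep x' y).ncard < (sep x y).ncard := by
  refine Set.ncard_lt_ncard ⟨fun K hK => ?_, fun h => (h (show J ∈ sep x y from ⟨h1, h3⟩)).1 h2⟩
    (sep_finite x y)
  refine ⟨?_, hK.2⟩
  rw [h4 K (fun e => hK.1 (e ▸ h2)) (fun e => (sd_flip J y).1 (e ▸ hK.2) h3)]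
  exact hK.1

theorem sep_lt' {x y y' : S.X} {J : Hy} (h1 : ¬ sd J y) (h2 : sd J y') (h3 : sd J x)
    (h4 : ∀ K, K ≠ J → K ≠ S.flip J → (sd K y ↔ sd K y')) :
    (sep x y').ncard < (sep x y).ncard := by
  refine Set.ncard_lt_ncard ⟨fun K hK => ?_, fun h => ?_⟩ (sep_finite x y)
  · refine ⟨hK.1, ?_⟩
    rw [h4 K (fun e => hK.1 (e ▸ h3)) (fun e => (sd_flip J y').1 (e ▸ hK.2) h2)]
    exact hK.2
  · have := h (show S.flip J ∈ sep x y from
      ⟨by rw [sd_flip]; exact not_not.2 h3, by rw [sd_flip]; exact h1⟩)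
    exact (sd_flip J y').1 this.2 h2

/-- the main fixed point lemma -/
theorem fix_seg {k : G} {W : List T} (y0 : S.X) (h0 : Has y0 W)
    (hB : ∀ J, S.Pos k J → (∃ y : S.X, Has y W ∧ sd J y) ∧ ∃ y : S.X, Has y W ∧ ¬ sd J y) :
    ∀ t ∈ W, k • t = t := by
  by_cases hW : W = []
  · simp [hW]
  have hB' : ∀ J, S.Supp k J → ∃ y : S.X, Has y W ∧ sd J y := by
    rintro J (h | h)
    · exact (hB J h).1
    · obtain ⟨y, h1, h2⟩ := (hB _ h).2
      exact ⟨y, h1, by rwa [sd_flip, not_not] at h2⟩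
  obtain ⟨x0, hx0⟩ := exists_ax (S := S) k
  obtain ⟨⟨x, y⟩, hm⟩ := exists_minimalFor_of_wellFoundedLT
    (fun p : S.X × S.X => Ax k p.1 ∧ Has p.2 W) (fun p => (sep p.1 p.2).ncard) ⟨(x0, y0), hx0, h0⟩
  obtain ⟨hx, hy⟩ := hm.1
  have hmin : ∀ x' y' : S.X, Ax k x' → Has y' W → ¬ (sep x' y').ncard < (sep x y).ncard :=
    fun x' y' h1 h2 h3 => absurd (hm.2 (j := (x', y')) ⟨h1, h2⟩ h3.le) (not_le.2 h3)
  dsimp only at hx hy
  by_cases hs : ∀ H, sd H y → sd H x
  · obtain rfl := eq_of_sd hs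
    refine hx.fix hy fun J hJ t h1 h2 => ?_
    obtain ⟨y', k1, k2⟩ := hB' J hJ
    exact k1.not_sd h2 h1 k2
  exfalso
  push Not at hs
  obtain ⟨H, s1, s2⟩ := hs
  obtain ⟨u, hw⟩ := S.conn x.2 y.2
  obtain ⟨J0, A, B, e, j1, -⟩ := hw.common x.2 y.2 s2 s1 s1
  have sx : S.St (A ++ S.inp J0 ++ B) := e ▸ x.2
  have j2 : ¬ sd J0 x := by unfold sd; rw [e]; exact Pre.not_side_inp sx
  have all : ∀ y' : S.X, Has y' W → sd J0 y' := by
    intro y' hy'
    by_contra hc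
    obtain ⟨u', hw'⟩ := S.conn y.2 y'.2
    obtain ⟨J, A1, B1, e1, k1, k2⟩ := hw'.common y.2 x.2 (H := S.flip J0)
      (fun h => (sd_flip J0 y).1 h j1) ((sd_flip J0 x).2 j2) ((sd_flip J0 y').2 hc)
    have sy : S.St (A1 ++ S.inp J ++ B1) := e1 ▸ y.2
    obtain ⟨A2, B2, e2⟩ := hy
    refine hmin x ⟨_, S.st_move sy⟩ hx ?_ (sep_lt' (J := J) ?_ (Pre.side_out sy) k1 ?_)
    · rcases seg_disj (S.inp_ne J) hW (fun t h1 h2 => hy'.not_sd h2 h1 k2) (e1.symm.trans e2) with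
        ⟨M, rfl, rfl⟩ | ⟨M, rfl, rfl⟩
      · exact ⟨A2, M ++ S.inp (S.flip J) ++ B1, by simp⟩
      · exact ⟨A1 ++ S.inp (S.flip J) ++ M, B2, by simp⟩
    · unfold sd; rw [e1]; exact Pre.not_side_inp sy
    · intro K n1 n2
      unfold sd; rw [e1]; exact S.side_move sy n1 n2
  have ns : ¬ S.Supp k J0 := by
    intro h
    obtain ⟨y', k1, k2⟩ := hB' _ h.flip
    exact (sd_flip J0 y').1 k2 (all y' k1)
  have hf : k • J0 = J0 := by
    refine S.fix k J0 (hx.fix ⟨A, B, e⟩ fun J hJ t h1 h2 => ?_)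
    obtain ⟨y', k1, k2⟩ := hB' J hJ
    exact ns (sd_uniq y' h1 h2 k2 (all y' k1) ▸ hJ)
  have hf' : k⁻¹ • J0 = J0 := by rw [inv_smul_eq_iff, hf]
  let x' : S.X := ⟨_, S.st_move sx⟩
  have m1 : sd J0 x' := Pre.side_out sx
  have m2 : ∀ K, K ≠ J0 → K ≠ S.flip J0 → (sd K x ↔ sd K x') := by
    intro K n1 n2
    unfold sd; rw [e]; exact S.side_move sx n1 n2
  refine hmin x' y ?_ hy (sep_lt j2 m1 j1 m2)
  intro K hK
  have n1 : K ≠ J0 := fun e => hK.1 (e ▸ m1)
  have n2 : K ≠ S.flip J0 := by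
    rintro rfl
    have := hK.2
    rw [sd_flip, sd_smul', hf'] at this
    exact this m1
  refine hx K ⟨by rw [m2 K n1 n2]; exact hK.1, ?_⟩
  rw [sd_smul', m2 _ (fun e => n1 (by rw [inv_smul_eq_iff, hf] at e; exact e))
    (fun e => n2 (by rw [inv_smul_eq_iff, S.smul_flip, hf] at e; exact e)), ← sd_smul']
  exact hK.2

theorem fix_of_pow (S : Sys G T Hy U) {k : G} {H : Hy} {N : ℕ} (hN : 0 < N)
    (h : k ^ N • H = H) : k • H = H := by
  obtain ⟨y, hy⟩ := exists_has (S := S) H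
  have h1 : ∀ m : ℤ, Has (k ^ ((N : ℤ) * m) • y) (S.inp H) := by
    intro m
    have : k ^ ((N : ℤ) * m) • H = H := by
      rw [zpow_mul, zpow_natCast]
      exact MulAction.mem_stabilizer_iff.1
        (Subgroup.zpow_mem _ (MulAction.mem_stabilizer_iff.2 h) m)
    simpa only [this] using hy.smul_inp (k ^ ((N : ℤ) * m))
  refine S.fix k H (fix_seg y hy fun J hJ => ?_)
  obtain ⟨M, hM⟩ := hJ y
  have := hM ((N : ℤ) * max M 0) (by
    have := le_max_left M 0
    have := le_max_right M 0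
    nlinarith)
  exact ⟨⟨_, h1 _, this.1⟩, ⟨_, h1 (-max M 0), by rw [mul_neg]; exact this.2⟩⟩

theorem fix_of_cross {k : G} {H : Hy} (h : ∀ J, S.Pos k J → S.Cross J H) : k • H = H := by
  obtain ⟨y, hy⟩ := exists_has (S := S) H
  refine S.fix k H (fix_seg y hy fun J hJ => ?_)
  obtain ⟨x, x1, x2⟩ := (h J hJ).exists_has
  obtain ⟨x', x3, x4⟩ := (h J hJ).flip_left.exists_has
  obtain ⟨t, ht⟩ := List.exists_mem_of_ne_nil _ (S.inp_ne J)
  obtain ⟨t', ht'⟩ := List.exists_mem_of_ne_nil _ (S.inp_ne (S.flip J))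
  have := x3.not_sd ht' ht'
  rw [sd_flip, not_not] at this
  exact ⟨⟨x', x4, this⟩, ⟨x, x2, x1.not_sd ht ht⟩⟩

theorem cross_of_fix {k : G} {H J : Hy} (h : k • H = H) (hJ : S.Supp k J) : S.Cross H J := by
  have key : ∀ J, S.Pos k J → S.Cross H J := by
    intro J hJ
    obtain ⟨y, hy⟩ := exists_has (S := S) H
    have h1 : ∀ m : ℤ, Has (k ^ m • y) (S.inp H) := by
      intro m
      have : k ^ m • H = H := MulAction.mem_stabilizer_iff.1
        (Subgroup.zpow_mem _ (MulAction.mem_stabilizer_iff.2 h) m)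
      simpa only [this] using hy.smul_inp (k ^ m)
    obtain ⟨M, hM⟩ := hJ y
    have := hM M le_rfl
    exact cross_of_sides (h1 M) (h1 (-M)) (fun e => this.2 (e.1 this.1))
  exact hJ.elim (key J) fun h => (key _ h).of_flip_right

/-- splitting an element of the stabiliser of a hyperplane -/
theorem stab_split {k : G} {H : Hy} (h : k • H = H) : ∃ l r : G, k = l * r ∧
    (∀ J, S.Lt H J → l • J = J) ∧ ∀ J, S.Lt J H → r • J = J := by
  obtain ⟨A, B, hs⟩ := S.real H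
  have hs' := S.st_smul k hs
  rw [List.map_append, List.map_append, ← S.inp_smul, h] at hs'
  have hm := mix (S.inp_ne H) hs' hs
  obtain ⟨l, hl⟩ := S.full k (A := A) (B := S.inp H ++ B) (by simpa using hs) (by simpa using hm)
  rw [List.map_append] at hl
  obtain ⟨e1, e2⟩ := List.append_inj hl (by simp)
  refine ⟨l, l⁻¹ * k, by simp, ?_, ?_⟩
  · rintro J ⟨A', M, B', hJ⟩
    obtain ⟨-, u, w⟩ := around_sep (B' := M ++ S.inp J ++ B') (A' := A') (S.inp_ne H) hs
      (by simpa only [List.append_assoc] using hJ)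
    have := (walk_fix l w fun t ht => fix_of_map_eq e2 t (by simp [ht])).1
    exact S.fix l J fun t ht => this t (by simp [ht])
  · rintro J ⟨A', M, B', hJ⟩
    obtain ⟨⟨u, w⟩, -⟩ := around_sep (S.inp_ne H) hs hJ
    have := (walk_fix (l⁻¹ * k) w fun t ht => by
      rw [mul_smul, inv_smul_eq_iff]
      exact (List.map_inj_left.1 e1 t ht).symm).1
    exact S.fix _ J fun t ht => this t (by simp [ht])

end Sys

end Pool.Agent.H868Z.Diagram
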