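import Mathlib
import Pool.Agent.H868Z.Diagram.Geo

/-!
# Bumps of an abelian normal subgroup of a group acting on a wire system
-/

namespace Pool.Agent.H868Z.Diagram

theorem solv_ind {G : Type*} [Group G] [h : Group.IsSolvable G] (Q : Subgroup G → Prop)
    (hQ : ∀ N, Q N → Q ⁅N, N⁆) {N : Subgroup G} (hN : Q N) : Q ⊥ := by
  obtain ⟨n, hn⟩ := h.solvable
  have key : ∀ i, ∃ M, Q M ∧ M ≤ derivedSeries G i := by
    intro i
    induction i with
    | zero => exact ⟨N, hN, le_top⟩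
    | succ i ih =>
      obtain ⟨M, h1, h2⟩ := ih
      exact ⟨_, hQ M h1, Subgroup.commutator_mono h2 h2⟩
  obtain ⟨M, h1, h2⟩ := key n
  rw [hn, le_bot_iff] at h2
  exact h2 ▸ h1

theorem comm_le_self {G : Type*} [Group G] (N : Subgroup G) : ⁅N, N⁆ ≤ N :=
  Subgroup.commutator_le.2 fun a ha b hb => by
    rw [commutatorElement_def]
    exact N.mul_mem (N.mul_mem (N.mul_mem ha hb) (N.inv_mem ha)) (N.inv_mem hb)

theorem exists_abelian_normal {G : Type*} [Group G] [Group.IsSolvable G] (D : Subgroup G) [hD : D.Normal]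
    (h : D ≠ ⊥) : ∃ A : Subgroup G, A.Normal ∧ A ≤ D ∧ A ≠ ⊥ ∧ ∀ a ∈ A, ∀ b ∈ A, Commute a b := by
  by_contra hc
  refine (solv_ind (fun N : Subgroup G => N.Normal ∧ N ≤ D ∧ N ≠ ⊥) ?_ ⟨hD, le_rfl, h⟩).2.2 rfl
  rintro N ⟨h1, h2, h3⟩
  refine ⟨inferInstance, (comm_le_self N).trans h2, fun e => hc ⟨N, h1, h2, h3, ?_⟩⟩
  intro a ha b hb
  have := Subgroup.commutator_mem_commutator ha hb
  rw [e, Subgroup.mem_bot] at this
  exact commutatorElement_eq_one_iff_commute.1 this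

/-- In a solvable group acting transitively on a nontrivial totally preordered set, the elements
fixing a lower ray have uniformly bounded orbits. -/
theorem order_bound {G Y : Type*} [Group G] [Group.IsSolvable G] [MulAction G Y] (y0 : Y)
    (le : Y → Y → Prop) (total : ∀ g h : G, le (g • y0) (h • y0) ∨ le (h • y0) (g • y0))
    (trans : ∀ g h k : G, le (g • y0) (h • y0) → le (h • y0) (k • y0) → le (g • y0) (k • y0))
    (inv : ∀ (g : G) x y, le x y → le (g • x) (g • y))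
    (nt : ∃ g h : G, ¬ le (g • y0) (h • y0)) (y : G) :
    ∃ x : G, ∀ k : G, (∃ c : G, ∀ z : G, le (z • y0) (c • y0) → k • z • y0 = z • y0) →
      ¬ le (x • y0) (k • y • y0) := by
  let K : Subgroup G :=
    { carrier := {k | ∃ c : G, ∀ z : G, le (z • y0) (c • y0) → k • z • y0 = z • y0}
      one_mem' := ⟨1, fun z _ => one_smul _ _⟩
      mul_mem' := by
        rintro a b ⟨c, hc⟩ ⟨d, hd⟩
        rcases total c d with h | h
        · exact ⟨c, fun z hz => by rw [mul_smul, hd z (trans _ _ _ hz h), hc z hz]⟩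
        · exact ⟨d, fun z hz => by rw [mul_smul, hd z hz, hc z (trans _ _ _ hz h)]⟩
      inv_mem' := by
        rintro a ⟨c, hc⟩
        exact ⟨c, fun z hz => by rw [inv_smul_eq_iff, hc z hz]⟩ }
  have hK : ∀ k ∈ K, ∀ g : G, g * k * g⁻¹ ∈ K := by
    rintro k ⟨c, hc⟩ g
    refine ⟨g * c, fun z hz => ?_⟩
    have h1 := inv g⁻¹ _ _ hz
    rw [← mul_smul, ← mul_smul, inv_mul_cancel_left] at h1
    have h2 := hc _ h1
    rw [mul_smul] at h2
    rw [mul_smul, mul_smul, h2, smul_inv_smul]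
  by_contra hc
  push Not at hc
  have P0 : ∀ x z : G, ∃ n ∈ K, le (n • x • y0) (z • y0) := by
    intro x z
    obtain ⟨k, hk, h⟩ := hc (y * z⁻¹ * x)
    refine ⟨(z * y⁻¹) * k⁻¹ * (z * y⁻¹)⁻¹, hK _ (K.inv_mem hk) _, ?_⟩
    have := inv (z * y⁻¹ * k⁻¹) _ _ h
    simp only [← mul_smul] at this ⊢
    convert this using 2 <;> group
  have := solv_ind (fun N : Subgroup G => N ≤ K ∧ ∀ x z : G, ∃ n ∈ N, le (n • x • y0) (z • y0))
    ?_ ⟨le_rfl, P0⟩
  · obtain ⟨g, h, hn⟩ := nt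
    obtain ⟨n, h1, h2⟩ := this.2 g h
    rw [Subgroup.mem_bot] at h1
    rw [h1, one_smul] at h2
    exact hn h2
  rintro N ⟨h1, h2⟩
  refine ⟨(comm_le_self N).trans h1, fun x z => ?_⟩
  obtain ⟨n, hn, h3⟩ := h2 x z
  obtain ⟨c, hc⟩ := K.inv_mem (h1 hn)
  obtain ⟨m, hm, h4⟩ := h2 x c
  refine ⟨_, Subgroup.commutator_mem_commutator hn (N.inv_mem hm), ?_⟩
  rw [← mul_smul] at h4
  have h5 := hc _ h4
  rw [mul_smul] at h5
  rw [commutatorElement_def, inv_inv, mul_smul, mul_smul, mul_smul, h5, inv_smul_smul]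
  exact h3

namespace Sys

variable {G T Hy U : Type*} [Group G] [MulAction G T] [MulAction G Hy] [Group U]
  {S : Sys G T Hy U}

theorem Pos.conj {f : G} {H : Hy} (h : S.Pos f H) (g : G) : S.Pos (g * f * g⁻¹) (g • H) := by
  intro z
  obtain ⟨N, hN⟩ := h (g⁻¹ • z)
  refine ⟨N, fun j hj => ?_⟩
  rw [conj_zpow, conj_zpow, mul_smul, mul_smul, mul_smul, mul_smul, sd_smul, sd_smul]
  exact hN j hj

theorem Supp.conj {f : G} {H : Hy} (h : S.Supp f H) (g : G) : S.Supp (g * f * g⁻¹) (g • H) :=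
  h.imp (·.conj g) fun h => by rw [← S.smul_flip]; exact h.conj g

theorem Supp.of_pow {k : G} {H : Hy} {m : ℕ} (h : S.Supp (k ^ m) H) : S.Supp k H := by
  by_contra hc
  obtain ⟨x, hx⟩ := exists_ax (S := S) k
  have h1 := fun n => hx.sd_zpow (J := H) (fun e => hc (Or.inl e)) (fun e => hc (Or.inr e)) n
  rcases h with h | h
  · obtain ⟨N, hN⟩ := h x
    obtain ⟨k1, k2⟩ := hN N le_rfl
    rw [← zpow_natCast, ← zpow_mul, h1] at k1 k2
    exact k2 k1
  · obtain ⟨N, hN⟩ := h x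
    obtain ⟨k1, k2⟩ := hN N le_rfl
    rw [← zpow_natCast, ← zpow_mul, sd_flip, h1] at k1 k2
    exact k2 k1

theorem Pos.of_pow {k : G} {H : Hy} {m : ℕ} (hm : 0 < m) (h : S.Pos (k ^ m) H) : S.Pos k H := by
  rcases Supp.of_pow (Or.inl h) with h1 | h1
  · exact h1
  · exact absurd (h1.of_pos (n := m) (Commute.pow_self k m) (by rw [zpow_natCast]) (by omega))
      h.not_flip

theorem Supp.not_fix {k : G} {H : Hy} (h : S.Supp k H) : k • H ≠ H := by
  intro e
  rcases h with h | h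
  · exact one_ne_zero (h.zpow_eq (n := 1) (by simpa using e))
  · exact one_ne_zero (h.zpow_eq (n := 1) (by rw [zpow_one, S.smul_flip, e]))

variable (S) in
/-- hyperplanes crossed at infinity by some element of `A` -/
def InS (A : Subgroup G) (H : Hy) : Prop := ∃ a ∈ A, S.Pos a H

variable (S) in
/-- lying in the same bump -/
def E (A : Subgroup G) : Hy → Hy → Prop :=
  Relation.EqvGen fun H J => S.InS A H ∧ S.InS A J ∧ ¬ S.Cross H J

variable (S) in
/-- the order of bumps -/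
def BLt (A : Subgroup G) (H J : Hy) : Prop := ¬ S.E A H J ∧ S.Lt H J

variable {A : Subgroup G}

theorem InS.smul [hA : A.Normal] {H : Hy} (h : S.InS A H) (g : G) : S.InS A (g • H) := by
  obtain ⟨a, ha, h⟩ := h
  exact ⟨_, hA.conj_mem a ha g, h.conj g⟩

theorem InS.flip {H : Hy} (h : S.InS A H) : S.InS A (S.flip H) := by
  obtain ⟨a, ha, h⟩ := h
  exact ⟨_, A.inv_mem ha, h.inv_flip⟩

theorem Supp.inS {a : G} (ha : a ∈ A) {H : Hy} (h : S.Supp a H) : S.InS A H := by
  rcases h with h | h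
  · exact ⟨a, ha, h⟩
  · simpa only [S.flip_flip] using InS.flip ⟨a, ha, h⟩

theorem InS.tri (hA : ∀ a ∈ A, ∀ b ∈ A, Commute a b) {H : Hy} (h : S.InS A H) {a : G}
    (ha : a ∈ A) : S.Supp a H ∨ a • H = H := by
  obtain ⟨b, hb, h⟩ := h
  obtain ⟨m, hm, n, e⟩ := h.orbit (hA a ha b hb)
  by_cases hn : n = 0
  · subst hn
    exact Or.inr (fix_of_pow S hm (by simpa using e))
  · exact Or.inl (Supp.of_pow (h.of_ne ((hA a ha b hb).pow_left m) e hn))

theorem E.refl (H : Hy) : S.E A H H := Relation.EqvGen.refl H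

theorem E.symm {H J : Hy} (h : S.E A H J) : S.E A J H := Relation.EqvGen.symm _ _ h

theorem E.trans {H J K : Hy} (h : S.E A H J) (h' : S.E A J K) : S.E A H K :=
  Relation.EqvGen.trans _ _ _ h h'

theorem E.inS {H J : Hy} (h : S.E A H J) : S.InS A H ↔ S.InS A J := by
  induction h with
  | rel _ _ h => exact iff_of_true h.1 h.2.1
  | refl => exact Iff.rfl
  | symm _ _ _ ih => exact ih.symm
  | trans _ _ _ _ _ ih ih' => exact ih.trans ih'

theorem E.smul [A.Normal] {H J : Hy} (h : S.E A H J) (g : G) : S.E A (g • H) (g • J) := by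
  induction h with
  | rel _ _ h =>
    exact Relation.EqvGen.rel _ _ ⟨h.1.smul g, h.2.1.smul g,
      fun hc => h.2.2 (by simpa using hc.smul g⁻¹)⟩
  | refl => exact E.refl _
  | symm _ _ _ ih => exact E.symm ih
  | trans _ _ _ _ _ ih ih' => exact E.trans ih ih'

theorem InS.cross {H J : Hy} (h : S.InS A H) (h' : S.InS A J) (n : ¬ S.E A H J) : S.Cross H J := by
  by_contra hc
  exact n (Relation.EqvGen.rel _ _ ⟨h, h', hc⟩)

theorem InS.e_flip {H : Hy} (h : S.InS A H) : S.E A (S.flip H) H :=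
  Relation.EqvGen.rel _ _ ⟨h.flip, h, fun hc => not_cross_self H hc.of_flip_left⟩

theorem E.supp (hA : ∀ a ∈ A, ∀ b ∈ A, Commute a b) {a : G} (ha : a ∈ A) {H J : Hy}
    (h : S.E A H J) : S.Supp a H ↔ S.Supp a J := by
  have key : ∀ H J, S.InS A J → ¬ S.Cross J H → S.Supp a H → S.Supp a J := fun H J h1 h2 h3 =>
    (h1.tri hA ha).resolve_right fun e => h2 (cross_of_fix e h3)
  induction h with
  | rel _ _ h => exact ⟨key _ _ h.2.1 fun c => h.2.2 c.symm, key _ _ h.1 h.2.2⟩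
  | refl => exact Iff.rfl
  | symm _ _ _ ih => exact ih.symm
  | trans _ _ _ _ _ ih ih' => exact ih.trans ih'

theorem E.lt_iff {H H' J : Hy} (h : S.E A H H') (hJ : S.InS A J) (n : ¬ S.E A H J) :
    (S.Lt H J ↔ S.Lt H' J) ∧ (S.Lt J H ↔ S.Lt J H') := by
  have key : ∀ H H', S.InS A H' → ¬ S.Cross H H' → ¬ S.E A H' J →
      (S.Lt H J → S.Lt H' J) ∧ (S.Lt J H → S.Lt J H') := fun H H' h1 h2 h3 =>
    ⟨fun h4 => (h1.cross hJ h3).resolve_right fun h5 => h2 (Or.inl (h4.trans h5)),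
      fun h4 => (h1.cross hJ h3).resolve_left fun h5 => h2 (Or.inr (h5.trans h4))⟩
  induction h with
  | rel x y h =>
    have n' : ¬ S.E A y J := fun e => n (E.trans (Relation.EqvGen.rel _ _ h) e)
    have k1 := key x y h.2.1 h.2.2 n'
    have k2 := key y x h.1 (fun c => h.2.2 c.symm) n
    exact ⟨⟨k1.1, k2.1⟩, ⟨k1.2, k2.2⟩⟩
  | refl => exact ⟨Iff.rfl, Iff.rfl⟩
  | symm x y h ih =>
    have := ih fun e => n (E.trans (E.symm h) e)
    exact ⟨this.1.symm, this.2.symm⟩
  | trans x y z h h' ih ih' =>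
    have k1 := ih n
    have k2 := ih' fun e => n (E.trans h e)
    exact ⟨k1.1.trans k2.1, k1.2.trans k2.2⟩

theorem BLt.congr_left {H H' J : Hy} (h : S.BLt A H J) (e : S.E A H H') (hJ : S.InS A J) :
    S.BLt A H' J := ⟨fun e' => h.1 (e.trans e'), (e.lt_iff hJ h.1).1.1 h.2⟩

theorem BLt.congr_right {H J J' : Hy} (h : S.BLt A H J) (e : S.E A J J') (hH : S.InS A H) :
    S.BLt A H J' := ⟨fun e' => h.1 (e'.trans e.symm), (e.lt_iff hH fun e' => h.1 e'.symm).2.1 h.2⟩

theorem BLt.asymm {H J : Hy} (h : S.BLt A H J) (h' : S.BLt A J H) : False :=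
  lt_irrefl' H (h.2.trans h'.2)

theorem BLt.trans {H J K : Hy} (h : S.BLt A H J) (h' : S.BLt A J K) (hJ : S.InS A J) :
    S.BLt A H K := ⟨fun e => (h.congr_left e hJ).asymm h', h.2.trans h'.2⟩

theorem BLt.smul [A.Normal] {H J : Hy} (h : S.BLt A H J) (g : G) : S.BLt A (g • H) (g • J) :=
  ⟨fun e => h.1 (by simpa using e.smul g⁻¹), h.2.smul g⟩

theorem InS.blt {H J : Hy} (h : S.InS A H) (h' : S.InS A J) (n : ¬ S.E A H J) :
    S.BLt A H J ∨ S.BLt A J H :=
  (h.cross h' n).imp (fun l => ⟨n, l⟩) fun l => ⟨fun e => n e.symm, l⟩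

theorem BLt.cotrans {H J K : Hy} (h : S.BLt A H K) (hH : S.InS A H) (hJ : S.InS A J)
    (hK : S.InS A K) : S.BLt A H J ∨ S.BLt A J K := by
  by_cases e : S.E A H J
  · exact Or.inr (h.congr_left e hK)
  · exact (hH.blt hJ e).imp_right fun l => l.trans h hH

theorem e_of_pow [A.Normal] {g : G} {H : Hy} (hH : S.InS A H) {d : ℕ} (hd : 0 < d)
    (h : S.E A (g ^ d • H) H) : S.E A (g • H) H := by
  by_contra n
  obtain ⟨d, rfl⟩ : ∃ n, d = n + 1 := ⟨d - 1, by omega⟩
  rcases (hH.smul g).blt hH n with h1 | h1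
  · have : ∀ n : ℕ, S.BLt A (g ^ (n + 1) • H) H := by
      intro n
      induction n with
      | zero => simpa using h1
      | succ n ih =>
        refine BLt.trans ?_ h1 (hH.smul g)
        rw [pow_succ', mul_smul]
        exact ih.smul g
    exact (this d).1 h
  · have : ∀ n : ℕ, S.BLt A H (g ^ (n + 1) • H) := by
      intro n
      induction n with
      | zero => simpa using h1
      | succ n ih =>
        refine BLt.trans h1 ?_ (hH.smul g)
        rw [pow_succ', mul_smul]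
        exact ih.smul g
    exact (this d).1 h.symm

theorem Pos.e_smul [A.Normal] {a : G} (ha : a ∈ A) {H : Hy} (h : S.Pos a H) :
    S.E A (a • H) H := by
  have hH : S.InS A H := ⟨a, ha, h⟩
  obtain ⟨x, hx⟩ := exists_ax (S := S) a
  obtain ⟨N, hN⟩ := h x
  have key : ∀ i : ℕ, ∃ J t, S.E A J (a ^ (N + i) • H) ∧ t ∈ S.inp J ∧ t ∈ x.1 := by
    intro i
    obtain ⟨u, hw⟩ := walk_sep x (a ^ (N + i + N) • x)
    rcases hw.first (F := fun J => S.E A J (a ^ (N + i) • H)) (fun J K h1 h2 h3 t h4 h5 => by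
      have k1 : S.InS A K := (hx.supp (i := 0) (j := N + i + N) (by simpa using h2)).inS ha
      have k2 : S.InS A J := h1.inS.2 (hH.smul _)
      exact (k1.cross k2 fun e => h3 (e.trans h1)).flip_left.disj h4 h5) with h1 | ⟨J, B, C, h1, h2⟩
    · exfalso
      refine (h1.crossed x.2 (J := a ^ (N + i) • H) ?_ ?_).2 (E.refl _)
      · have := (hN (N + i) (by omega)).2
        rwa [zpow_neg, ← sd_smul''] at this
      · have := (hN N le_rfl).1
        rwa [← sd_smul (a ^ (N + i)), ← mul_smul, ← zpow_add] at this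
    · obtain ⟨t, ht⟩ := List.exists_mem_of_ne_nil _ (S.inp_ne J)
      exact ⟨J, t, h1, ht, by rw [h2]; simp [ht]⟩
  choose J t h1 h2 h3 using key
  have : Finite {s // s ∈ x.1} := (List.finite_toSet x.1).to_subtype
  obtain ⟨i, j, hij, e⟩ := Finite.exists_ne_map_eq_of_infinite
    (fun i : ℕ => (⟨_, h3 i⟩ : {s // s ∈ x.1}))
  have e' : t i = t j := congrArg Subtype.val e
  have e2 : S.E A (J i) (J j) := by
    by_contra n
    exact (((h1 i).inS.2 (hH.smul _)).cross ((h1 j).inS.2 (hH.smul _)) n).disj (h2 i) (e' ▸ h2 j)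
  have e3 := ((h1 i).symm.trans e2).trans (h1 j)
  have fin : ∀ i j : ℕ, i < j → S.E A (a ^ (N + j) • H) (a ^ (N + i) • H) → S.E A (a • H) H := by
    intro i j hij e
    obtain ⟨d, rfl⟩ : ∃ d, j = i + d := ⟨j - i, by omega⟩
    refine e_of_pow hH (d := d) (by omega) ?_
    have := e.smul (a ^ (N + i))⁻¹
    rwa [inv_smul_smul, Nat.cast_add, ← add_assoc, zpow_add _ (N + i), mul_smul, inv_smul_smul,
      zpow_natCast] at this
  rcases lt_or_gt_of_ne hij with k | k
  · exact fin i j k e3.symm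
  · exact fin j i k e3

theorem e_zpow [A.Normal] {g : G} {H : Hy} (h : S.E A (g • H) H) (n : ℤ) :
    S.E A (g ^ n • H) H := by
  induction n using Int.induction_on with
  | zero => simpa using E.refl H
  | succ n ih =>
    rw [zpow_add_one, mul_smul]
    exact (h.smul _).trans ih
  | pred n ih =>
    rw [zpow_sub_one, mul_smul]
    refine E.trans (E.smul ?_ _) ih
    simpa using (h.smul g⁻¹).symm

theorem agree (hA : ∀ a ∈ A, ∀ b ∈ A, Commute a b) {a b : G} (ha : a ∈ A) (hb : b ∈ A) {H : Hy}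
    (h : S.Pos a H) (h' : S.Supp b H) : (∀ J, S.E A J H → S.Pos a J → S.Pos b J) ∨
      ∀ J, S.E A J H → S.Pos a J → S.Pos b (S.flip J) := by
  have c := hA b hb a ha
  obtain ⟨m, hm, n, e⟩ := h.orbit c
  have hn : n ≠ 0 := by
    rintro rfl
    exact h'.not_fix (fix_of_pow S hm (by simpa using e))
  have hc : (a ^ n)⁻¹ * b ^ m ∈ A := A.mul_mem (A.inv_mem (A.zpow_mem ha n)) (A.pow_mem hb m)
  have key : ∀ J, S.E A J H → b ^ m • J = a ^ n • J := by
    intro J hJ
    have := ((hJ.inS.2 ⟨a, ha, h⟩).tri hA hc).resolve_left fun s =>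
      ((hJ.supp hA hc).1 s).not_fix (by rw [mul_smul, e, inv_smul_smul])
    rwa [mul_smul, inv_smul_eq_iff] at this
  rcases lt_or_gt_of_ne hn with k | k
  · refine Or.inr fun J h1 h2 => Pos.of_pow hm ?_
    refine h2.inv_flip.of_pos (n := -n) (c.pow_left m).inv_right ?_ (by omega)
    rw [S.smul_flip, S.smul_flip, key J h1, inv_zpow', neg_neg]
  · exact Or.inl fun J h1 h2 => Pos.of_pow hm (h2.of_pos (c.pow_left m) (key J h1) k)

end Sys

end Pool.Agent.H868Z.Diagram
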