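import Mathlib

/-!
# Cohomological and algebraic dimension of a group
-/

namespace Pool.Agent.H868Z.Diagram

universe u

/-- The cohomological dimension of the group `G` over the commutative ring `k`: the supremum, in
`ℕ ∪ {∞}`, of the `n` such that `Hⁿ(G; M) ≠ 0` for some `k G`-module `M`. For `k = ℤ` this is the
cohomological dimension `cd(G)`. -/
noncomputable def cd (k G : Type u) [CommRing k] [Group G] : ℕ∞ :=
  ⨆ (n : ℕ) (_ : ∃ M : Rep.{u} k G, Nontrivial (groupCohomology M n)), (n : ℕ∞)

/-- The algebraic dimension of the group `G`: the supremum, in `ℕ ∪ {∞}`, of the `n` such that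
`G` has a subgroup isomorphic to `ℤⁿ`. -/
noncomputable def ad (G : Type u) [Group G] : ℕ∞ :=
  ⨆ (n : ℕ) (_ : ∃ H : Subgroup G, Nonempty (H ≃* Multiplicative (Fin n → ℤ))), (n : ℕ∞)

end Pool.Agent.H868Z.Diagram
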