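import Mathlib

/-!
# Vanishing of group cohomology: subgroups, actions on trees, free abelian groups
-/

set_option maxHeartbeats 400000

namespace Pool.Agent.H868Z.Diagram

open CategoryTheory Limits

universe u

variable {k G : Type u} [CommRing k] [Group G]

/-- the differential on inhomogeneous cochains -/
noncomputable def dd (A : Rep.{u} k G) (n : ℕ) : ((Fin n → G) → A) →ₗ[k] ((Fin (n + 1) → G) → A) :=
  (inhomogeneousCochains.d A n).hom

theorem dd_apply (A : Rep.{u} k G) (n : ℕ) (f : (Fin n → G) → A) (g : Fin (n + 1) → G) :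
    dd A n f g = A.ρ (g 0) (f fun i => g i.succ) + ∑ j : Fin (n + 1),
      (-1 : k) ^ ((j : ℕ) + 1) • f (Fin.contractNth j (· * ·) g) := rfl

theorem dd_dd (A : Rep.{u} k G) (n : ℕ) (f : (Fin n → G) → A) : dd A (n + 1) (dd A n f) = 0 := by
  have := congrArg (fun φ => ModuleCat.Hom.hom φ f)
    (groupCohomology.inhomogeneousCochains.d_comp_d (A := A) (n := n))
  exact this

/-- every cocycle of degree `n + 1` is a coboundary -/
def Van (A : Rep.{u} k G) (n : ℕ) : Prop :=
  ∀ f, dd A (n + 1) f = 0 → ∃ g, dd A n g = f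

theorem isZero_iff_van (A : Rep.{u} k G) (n : ℕ) :
    IsZero (groupCohomology A (n + 1)) ↔ Van A n := by
  unfold groupCohomology
  rw [← HomologicalComplex.exactAt_iff_isZero_homology,
    HomologicalComplex.exactAt_iff' _ n (n + 1) (n + 2) (by simp) (by simp),
    ShortComplex.moduleCat_exact_iff]
  have e1 : (HomologicalComplex.sc' (groupCohomology.inhomogeneousCochains A) n (n + 1) (n + 2)).f =
      inhomogeneousCochains.d A n := groupCohomology.inhomogeneousCochains.d_def A n
  have e2 : (HomologicalComplex.sc' (groupCohomology.inhomogeneousCochains A) n (n + 1) (n + 2)).g =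
      inhomogeneousCochains.d A (n + 1) := groupCohomology.inhomogeneousCochains.d_def A (n + 1)
  rw [e1, e2]
  rfl

theorem dd_comp {A B : Rep.{u} k G} (p : A →ₗ[k] B) (hp : ∀ g a, p (A.ρ g a) = B.ρ g (p a))
    (n : ℕ) (f : (Fin n → G) → A) : dd B n (p ∘ f) = p ∘ dd A n f := by
  funext g
  simp only [Function.comp_apply, dd_apply, map_add, map_sum, map_smul, hp]

/-- the exact sequence in cohomology, at the level of cochains -/
theorem van_of_exact {A B C : Rep.{u} k G} (i : A →ₗ[k] B) (p : B →ₗ[k] C)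
    (hi : ∀ g a, i (A.ρ g a) = B.ρ g (i a)) (hp : ∀ g a, p (B.ρ g a) = C.ρ g (p a))
    (inj : Function.Injective i) (surj : Function.Surjective p)
    (ex : ∀ b, p b = 0 ↔ ∃ a, i a = b) {n : ℕ} (hB : Van B (n + 1)) (hC : Van C n) :
    Van A (n + 1) := by
  intro f hf
  obtain ⟨b, hb⟩ := hB (i ∘ f) (by rw [dd_comp i hi, hf]; funext x; simp)
  obtain ⟨c, hc⟩ := hC (p ∘ b) (by
    rw [dd_comp p hp, hb]
    funext x
    exact (ex _).2 ⟨_, rfl⟩)
  choose b' hb' using fun x => surj (c x)
  have e : p ∘ b' = c := funext hb'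
  have h1 : ∀ x, p ((b - dd B n b') x) = 0 := by
    intro x
    have := congrFun (dd_comp p hp n b') x
    rw [e, hc] at this
    simp only [Function.comp_apply] at this
    rw [Pi.sub_apply, map_sub, this, sub_self]
  choose a ha using fun x => (ex _).1 (h1 x)
  refine ⟨a, funext fun x => inj ?_⟩
  have e2 : i ∘ a = b - dd B n b' := funext ha
  have := congrFun (dd_comp i hi (n + 1) a) x
  rw [e2, map_sub, dd_dd, sub_zero, hb] at this
  exact this.symm

variable (k G) in
/-- cohomology vanishes above degree `n` -/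
def CdLE (n : ℕ) : Prop := ∀ (A : Rep.{u} k G) (m : ℕ), n ≤ m → Van A m

theorem CdLE.subgroup {n : ℕ} (h : CdLE k G n) (S : Subgroup G) : CdLE k S n := by
  intro A m hm
  rw [← isZero_iff_van]
  exact ((isZero_iff_van _ _).2 (h (Rep.coind S.subtype A) m hm)).of_iso
    (groupCohomology.coindIso A (m + 1)).symm

theorem CdLE.equiv {H : Type u} [Group H] {n : ℕ} (h : CdLE k G n) (e : H ≃* G) : CdLE k H n := by
  intro A m hm
  rw [← isZero_iff_van]
  refine ((isZero_iff_van _ _).2 (h (Rep.res (e.symm : G →* H) A) m hm)).of_iso ?_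
  exact groupCohomology.mapIso (A := Rep.res (e.symm : G →* H) A) (B := A) e (LinearEquiv.refl _ _)
    (fun g => by ext; simp) (m + 1)

theorem CdLE.inj {H : Type u} [Group H] {n : ℕ} (h : CdLE k G n) (f : H →* G)
    (hf : Function.Injective f) : CdLE k H n :=
  (h.subgroup f.range).equiv (MonoidHom.ofInjective hf)

theorem cdLE_zero [Subsingleton G] : CdLE k G 0 := fun A m _ =>
  (isZero_iff_van _ _).1 (isZero_groupCohomology_succ_of_subsingleton A m)

/-- functions on a `G`-set with values in a representation -/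
noncomputable def funRep (A : Rep.{u} k G) (Ω : Type u) [MulAction G Ω] : Rep.{u} k G :=
  Rep.of (X := Ω → A)
    { toFun := fun g =>
        { toFun := fun F x => A.ρ g (F (g⁻¹ • x))
          map_add' := fun F F' => by funext x; simp
          map_smul' := fun c F => by funext x; simp }
      map_one' := by ext F x; simp
      map_mul' := fun g h => by ext F x; simp [mul_smul] }

theorem funRep_apply (A : Rep.{u} k G) (Ω : Type u) [MulAction G Ω] (g : G) (F : Ω → A) (x : Ω) :
    ((funRep A Ω).ρ g F : Ω → A) x = A.ρ g (F (g⁻¹ • x)) := rfl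

/-- restriction to an orbit -/
noncomputable def toCoind (A : Rep.{u} k G) {Ω : Type u} [MulAction G Ω] (ω : Ω) :
    funRep A Ω →ₗ[k] Rep.coind (MulAction.stabilizer G ω).subtype
      (Rep.res (MulAction.stabilizer G ω).subtype A) where
  toFun F := ⟨fun h => A.ρ h ((F : Ω → A) (h⁻¹ • ω)), by
    intro s h
    have : (s : G)⁻¹ • ω = ω := (MulAction.stabilizer G ω).inv_mem s.2
    simp [mul_smul, this]⟩
  map_add' F F' := by
    refine Subtype.ext (funext fun h => ?_)
    exact map_add (A.ρ h) _ _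
  map_smul' c F := by
    refine Subtype.ext (funext fun h => ?_)
    exact map_smul (A.ρ h) _ _

theorem van_funRep (A : Rep.{u} k G) (Ω : Type u) [MulAction G Ω] {n m : ℕ} (hm : n ≤ m)
    (h : ∀ ω : Ω, CdLE k (MulAction.stabilizer G ω) n) : Van (funRep A Ω) m := by
  intro f hf
  have eqv : ∀ (ω : Ω) (g : G) (F : funRep A Ω), toCoind A ω ((funRep A Ω).ρ g F) =
      (Rep.coind (MulAction.stabilizer G ω).subtype
        (Rep.res (MulAction.stabilizer G ω).subtype A)).ρ g (toCoind A ω F) := by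
    intro ω g F
    refine Subtype.ext (funext fun x => ?_)
    change A.ρ x (A.ρ g ((F : Ω → A) (g⁻¹ • x⁻¹ • ω))) = A.ρ (x * g) ((F : Ω → A) ((x * g)⁻¹ • ω))
    simp [mul_smul]
  have hv : ∀ ω : Ω, Van (Rep.coind (MulAction.stabilizer G ω).subtype
      (Rep.res (MulAction.stabilizer G ω).subtype A)) m := by
    intro ω
    rw [← isZero_iff_van]
    exact ((isZero_iff_van _ _).2 (h ω _ m hm)).of_iso (groupCohomology.coindIso _ (m + 1))
  choose c hc using fun ω : Ω => hv ω (toCoind A ω ∘ f) (by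
    rw [dd_comp _ (eqv ω), hf]; funext x; simp)
  let r : Ω → Ω := fun x => (Quotient.mk (MulAction.orbitRel G Ω) x).out
  have r1 : ∀ x, ∃ g : G, g⁻¹ • r x = x := by
    intro x
    obtain ⟨g, hg⟩ : r x ∈ MulAction.orbit G x := Quotient.mk_out (s := MulAction.orbitRel G Ω) x
    exact ⟨g, by rw [← hg]; simp⟩
  have r2 : ∀ (g : G) x, r (g • x) = r x := by
    intro g x
    exact congrArg Quotient.out (Quotient.sound (s := MulAction.orbitRel G Ω) ⟨g, rfl⟩)
  choose hx hhx using r1
  have r3 : ∀ x, r (r x) = r x := by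
    intro x
    conv_rhs => rw [← hhx x, r2]
  let c' : Ω → (Fin m → G) → G → A := fun ω σ => (c ω σ).1
  let b : (Fin m → G) → funRep A Ω := fun σ x => A.ρ (hx x)⁻¹ (c' (r x) σ (hx x))
  have key : ∀ y, toCoind A (r y) ∘ b = c (r y) := by
    intro y
    funext σ
    refine Subtype.ext (funext fun g => ?_)
    change A.ρ g (A.ρ (hx (g⁻¹ • r y))⁻¹ (c' (r (g⁻¹ • r y)) σ (hx (g⁻¹ • r y)))) = c' (r y) σ g
    have e1 := hhx (g⁻¹ • r y)
    rw [r2, r3] at e1 ⊢
    generalize hx (g⁻¹ • r y) = t at e1 ⊢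
    have hs : t * g⁻¹ ∈ MulAction.stabilizer G (r y) := by
      rw [MulAction.mem_stabilizer_iff, mul_smul, ← e1, smul_inv_smul]
    have e2 := (c (r y) σ).2 ⟨_, hs⟩ g
    have e3 : c' (r y) σ t = A.ρ (t * g⁻¹) (c' (r y) σ g) := by
      simpa using e2
    rw [e3, ← Module.End.mul_apply, ← Module.End.mul_apply, ← map_mul, ← map_mul]
    simp
  refine ⟨b, funext fun σ => funext fun y => ?_⟩
  have e1 := congrFun (dd_comp _ (eqv (r y)) m b) σ
  rw [key, hc] at e1
  have e2 := congrFun (congrArg Subtype.val e1) (hx y)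
  change A.ρ (hx y) ((f σ : Ω → A) ((hx y)⁻¹ • r y)) =
    A.ρ (hx y) ((dd _ m b σ : Ω → A) ((hx y)⁻¹ • r y)) at e2
  rw [hhx] at e2
  have := congrArg (A.ρ (hx y)⁻¹) e2
  simpa using this.symm

/-- a group acting on a tree -/
theorem cdLE_tree {V E : Type u} [MulAction G V] [MulAction G E] (s t : E → V) (v0 : V)
    (hs : ∀ (g : G) e, s (g • e) = g • s e) (ht : ∀ (g : G) e, t (g • e) = g • t e)
    (conn : ∀ (M : Type u) (F : V → M), (∀ e, F (t e) = F (s e)) → ∀ v, F v = F v0)
    (acyc : ∀ (M : Type u) [AddCommGroup M] (φ : E → M), ∃ F : V → M, ∀ e, F (t e) - F (s e) = φ e)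
    {n : ℕ} (h : ∀ v : V, CdLE k (MulAction.stabilizer G v) n) : CdLE k G (n + 1) := by
  intro A m hm
  obtain ⟨m, rfl⟩ : ∃ m', m = m' + 1 := ⟨m - 1, by omega⟩
  have hE : ∀ e : E, CdLE k (MulAction.stabilizer G e) n := by
    intro e
    have : MulAction.stabilizer G e ≤ MulAction.stabilizer G (s e) := by
      intro g hg
      rw [MulAction.mem_stabilizer_iff] at hg ⊢
      rw [← hs, hg]
    exact (h (s e)).inj (Subgroup.inclusion this) (Subgroup.inclusion_injective this)
  let i : A →ₗ[k] funRep A V :=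
    { toFun := fun a _ => a, map_add' := fun _ _ => rfl, map_smul' := fun _ _ => rfl }
  let p : funRep A V →ₗ[k] funRep A E :=
    { toFun := fun F e => (F : V → A) (t e) - (F : V → A) (s e)
      map_add' := fun F F' => funext fun e => add_sub_add_comm _ _ _ _
      map_smul' := fun c F => funext fun e =>
        (smul_sub c ((F : V → A) (t e)) ((F : V → A) (s e))).symm }
  refine van_of_exact i p (fun _ _ => rfl) ?_ (fun a a' e => congrFun e v0) ?_ ?_
    (van_funRep A V (by omega) h) (van_funRep A E (by omega) hE)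
  · intro g F
    funext e
    change A.ρ g ((F : V → A) (g⁻¹ • t e)) - A.ρ g ((F : V → A) (g⁻¹ • s e)) =
      A.ρ g ((F : V → A) (t (g⁻¹ • e)) - (F : V → A) (s (g⁻¹ • e)))
    rw [map_sub, hs, ht]
  · intro φ
    obtain ⟨F, hF⟩ := acyc A φ
    exact ⟨F, funext hF⟩
  · intro F
    constructor
    · intro hF
      refine ⟨(F : V → A) v0, funext fun v => ?_⟩
      exact (conn A F (fun e => sub_eq_zero.1 (congrFun hF e)) v).symm
    · rintro ⟨a, rfl⟩
      exact funext fun e => sub_self a

section lower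

theorem contract_zero_zero {n : ℕ} (x : Fin (n + 2) → G) :
    Fin.contractNth 0 (· * ·) x 0 = x 0 * x 1 := by
  simp [Fin.contractNth]

theorem contract_zero_succ {n : ℕ} (x : Fin (n + 2) → G) (i : Fin n) :
    Fin.contractNth 0 (· * ·) x i.succ = x i.succ.succ := by
  simp [Fin.contractNth]

theorem contract_succ_zero {n : ℕ} (x : Fin (n + 2) → G) (j : Fin (n + 1)) :
    Fin.contractNth j.succ (· * ·) x 0 = x 0 := by
  simp [Fin.contractNth]

theorem contract_succ_succ {n : ℕ} (x : Fin (n + 2) → G) (j : Fin (n + 1)) (i : Fin n) :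
    Fin.contractNth j.succ (· * ·) x i.succ = Fin.contractNth j (· * ·) (fun l => x l.succ) i := by
  simp [Fin.contractNth]

theorem dd_triv (n : ℕ) (f : (Fin n → G) → k) (g : Fin (n + 1) → G) :
    dd (Rep.trivial k G k) n f g = f (fun i => g i.succ) + ∑ j : Fin (n + 1),
      (-1 : k) ^ ((j : ℕ) + 1) * f (Fin.contractNth j (· * ·) g) := rfl

/-- products of additive characters are cocycles -/
theorem dd_prod : ∀ (n : ℕ) (χ : Fin n → G → k) (_ : ∀ i a b, χ i (a * b) = χ i a + χ i b),
    dd (Rep.trivial k G k) n (fun x => ∏ i, χ i (x i)) = 0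
  | 0, χ, _ => by
    funext g
    rw [dd_triv]
    simp
  | n + 1, χ, h => by
    funext g
    have ih := congrFun (dd_prod n (fun i => χ i.succ) (fun i => h i.succ)) (fun l => g l.succ)
    rw [dd_triv] at ih ⊢
    rw [Fin.sum_univ_succ]
    simp only [Fin.prod_univ_succ, contract_zero_zero, contract_zero_succ, contract_succ_zero,
      contract_succ_succ, h, Fin.val_succ]
    have e : ∑ j : Fin (n + 1), (-1 : k) ^ ((j : ℕ) + 1 + 1) * (χ 0 (g 0) *
        ∏ i : Fin n, χ i.succ (Fin.contractNth j (· * ·) (fun l => g l.succ) i)) =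
        - χ 0 (g 0) * ∑ j : Fin (n + 1), (-1 : k) ^ ((j : ℕ) + 1) *
        ∏ i : Fin n, χ i.succ (Fin.contractNth j (· * ·) (fun l => g l.succ) i) := by
      rw [Finset.mul_sum]
      refine Finset.sum_congr rfl fun j _ => ?_
      ring
    rw [e]
    simp only [Pi.zero_apply] at ih ⊢
    have e1 : (Fin.succ 0 : Fin (n + 2)) = 1 := rfl
    rw [e1]
    simp only [Fin.val_zero, zero_add, pow_one]
    linear_combination (- χ 0 (g 0)) * ih

theorem contract_swap {C : Type u} [CommGroup C] {n : ℕ} (x : Fin (n + 1) → C) (j : Fin n) :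
    Fin.contractNth j.castSucc (· * ·) (x ∘ Equiv.swap j.castSucc j.succ) =
      Fin.contractNth j.castSucc (· * ·) x := by
  funext i
  rcases lt_trichotomy (i : ℕ) j with h | h | h
  · rw [Fin.contractNth_apply_of_lt _ _ _ _ (by simpa using h),
      Fin.contractNth_apply_of_lt _ _ _ _ (by simpa using h), Function.comp_apply,
      Equiv.swap_apply_of_ne_of_ne] <;>
    · intro e
      have := congrArg Fin.val e
      simp at this
      omega
  · obtain rfl : i = j := Fin.ext h
    rw [Fin.contractNth_apply_of_eq _ _ _ _ (by simp), Fin.contractNth_apply_of_eq _ _ _ _ (by simp)]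
    simp [mul_comm]
  · rw [Fin.contractNth_apply_of_gt _ _ _ _ (by simpa using h),
      Fin.contractNth_apply_of_gt _ _ _ _ (by simpa using h), Function.comp_apply,
      Equiv.swap_apply_of_ne_of_ne] <;>
    · intro e
      have := congrArg Fin.val e
      simp at this
      omega

/-- the alternation of a coboundary vanishes -/
theorem alt_dd {C : Type u} [CommGroup C] (n : ℕ) (f : (Fin n → C) → k) (e : Fin (n + 1) → C) :
    ∑ σ : Equiv.Perm (Fin (n + 1)), ((Equiv.Perm.sign σ : ℤ) : k) *
      dd (Rep.trivial k C k) n f (e ∘ σ) = 0 := by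
  simp only [dd_triv, mul_add, Finset.sum_add_distrib, Finset.mul_sum]
  rw [Finset.sum_comm, Fin.sum_univ_castSucc]
  have h1 : ∀ j : Fin n, ∑ σ : Equiv.Perm (Fin (n + 1)), ((Equiv.Perm.sign σ : ℤ) : k) *
      ((-1 : k) ^ (((j.castSucc : Fin (n + 1)) : ℕ) + 1) *
        f (Fin.contractNth j.castSucc (· * ·) (e ∘ σ))) = 0 := by
    intro j
    have hne : j.castSucc ≠ j.succ := (Fin.castSucc_lt_succ).ne
    refine Finset.sum_involution (fun σ _ => σ * Equiv.swap j.castSucc j.succ) ?_ ?_ ?_ ?_
    · intro σ _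
      have : e ∘ ⇑(σ * Equiv.swap j.castSucc j.succ) = (e ∘ σ) ∘ Equiv.swap j.castSucc j.succ := rfl
      rw [this, contract_swap, Equiv.Perm.sign_mul, Equiv.Perm.sign_swap hne]
      simp
    · intro σ _ _ h
      rw [mul_eq_left] at h
      exact hne (Equiv.swap_eq_one_iff.1 h)
    · intro σ _
      exact Finset.mem_univ _
    · intro σ _
      simp [mul_assoc]
  rw [Finset.sum_eq_zero fun j _ => h1 j, zero_add]
  rw [← Equiv.sum_comp (Equiv.mulRight (finRotate (n + 1)))
    (fun σ : Equiv.Perm (Fin (n + 1)) => ((Equiv.Perm.sign σ : ℤ) : k) *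
      ((-1 : k) ^ (((Fin.last n : Fin (n + 1)) : ℕ) + 1) *
        f (Fin.contractNth (Fin.last n) (· * ·) (e ∘ σ)))), ← Finset.sum_add_distrib]
  refine Finset.sum_eq_zero fun σ _ => ?_
  have e1 : Fin.contractNth (Fin.last n) (· * ·) (e ∘ ⇑(σ * finRotate (n + 1))) =
      fun i => (e ∘ σ) i.succ := by
    funext i
    rw [Fin.contractNth_apply_of_lt _ _ _ _ (by simp)]
    simp
  simp only [Equiv.coe_mulRight, e1, Equiv.Perm.sign_mul, sign_finRotate, Fin.val_last]
  have e2 : (-1 : k) ^ n * (-1 : k) ^ n = 1 := by rw [← mul_pow]; simp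
  push_cast
  linear_combination (-((Equiv.Perm.sign σ : ℤ) : k) * f (fun i => (e ∘ σ) i.succ)) * e2

theorem not_van [Nontrivial k] {C : Type u} [CommGroup C] {n : ℕ} (χ : Fin (n + 1) → C → k)
    (h : ∀ i a b, χ i (a * b) = χ i a + χ i b) (e : Fin (n + 1) → C)
    (he : ∀ i j, χ i (e j) = if j = i then 1 else 0) : ¬ Van (Rep.trivial k C k) n := by
  intro hv
  obtain ⟨g, hg⟩ := hv _ (dd_prod (n + 1) χ h)
  have h1 := alt_dd n g e
  rw [hg] at h1
  have h2 := Matrix.det_apply' (1 : Matrix (Fin (n + 1)) (Fin (n + 1)) k)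
  rw [Matrix.det_one] at h2
  refine one_ne_zero (h2.trans (Eq.trans ?_ h1))
  refine Finset.sum_congr rfl fun σ _ => ?_
  simp only [Function.comp_apply, he, Matrix.one_apply]

theorem not_cdLE [Nontrivial k] {n : ℕ} (f : Multiplicative (Fin (n + 1) → ℤ) →* G)
    (hf : Function.Injective f) : ¬ CdLE k G n := by
  intro h
  let C := ULift.{u} (Multiplicative (Fin (n + 1) → ℤ))
  have h1 : CdLE k C n := h.inj (f.comp (MulEquiv.ulift : C ≃* _).toMonoidHom)
    (hf.comp MulEquiv.ulift.injective)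
  refine not_van (k := k) (C := C) (fun i c => ((c.down.toAdd i : ℤ) : k)) ?_
    (fun j => ULift.up (Multiplicative.ofAdd (Pi.single j 1))) ?_ (h1 _ n le_rfl)
  · intro i a b
    change ((a.down.toAdd i + b.down.toAdd i : ℤ) : k) = _
    push_cast
    rfl
  · intro i j
    simp [Pi.single_apply, eq_comm]

end lower

end Pool.Agent.H868Z.Diagram
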