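import Mathlib

/-!
# Squier complexes and diagram groups of semigroup presentations
-/

namespace Pool.Agent.H868Z.Diagram

open CategoryTheory

universe u

/-- A semigroup presentation over the alphabet `A`: a set of relations `u = v`, recorded as pairs
`(u, v)` of nonempty words. Neither the alphabet nor the set of relations has to be finite. -/
structure Pres (A : Type u) where
  /-- the set of relations -/
  rel : Set (List A × List A)
  /-- both sides of a relation are nonempty words -/
  ne : ∀ r ∈ rel, r.1 ≠ [] ∧ r.2 ≠ []

variable {A : Type u}

/-- The vertices of the Squier complex of `P`: the nonempty words over the alphabet. -/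
structure Word (P : Pres A) where
  /-- the underlying list of letters -/
  val : List A
  /-- the word is nonempty -/
  ne : val ≠ []

/-- The edges of the Squier complex from `x` to `y`: for words `a`, `b` (possibly empty) and a
relation `u = v` of `P`, one edge from `a u b` to `a v b`. -/
structure Edge (P : Pres A) (x y : Word P) where
  /-- left context -/
  a : List A
  /-- left side of the relation -/
  u : List A
  /-- right side of the relation -/
  v : List A
  /-- right context -/
  b : List A
  /-- `u = v` is a relation of `P` -/
  mem : (u, v) ∈ P.rel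
  /-- the edge starts at `a u b` -/
  src : x.val = a ++ u ++ b
  /-- the edge ends at `a v b` -/
  tgt : y.val = a ++ v ++ b

/-- The 1-skeleton of the Squier complex, as a quiver. -/
instance wordQuiver (P : Pres A) : Quiver (Word P) := ⟨fun x y => Edge P x y⟩

/-- The squares of the Squier complex. For words `a`, `b`, `c` and relations `u = v`, `u' = v'`,
the two paths `a u b u' c → a v b u' c → a v b v' c` and `a u b u' c → a u b v' c → a v b v' c`
around the square are related, as arrows of the free groupoid on the 1-skeleton (edge paths up to
backtracking). -/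
inductive Square (P : Pres A) :
    ∀ ⦃X Z : Quiver.FreeGroupoid (Word P)⦄, (X ⟶ Z) → (X ⟶ Z) → Prop
  | mk {x y y' z : Word P} (e₁ : x ⟶ y) (e₂ : y ⟶ z) (e₃ : x ⟶ y') (e₄ : y' ⟶ z)
      (a b c u v u' v' : List A)
      (h₁ : e₁.a = a ∧ e₁.u = u ∧ e₁.v = v ∧ e₁.b = b ++ u' ++ c)
      (h₂ : e₂.a = a ++ v ++ b ∧ e₂.u = u' ∧ e₂.v = v' ∧ e₂.b = c)
      (h₃ : e₃.a = a ++ u ++ b ∧ e₃.u = u' ∧ e₃.v = v' ∧ e₃.b = c)
      (h₄ : e₄.a = a ∧ e₄.u = u ∧ e₄.v = v ∧ e₄.b = b ++ v' ++ c) :
      Square P
        ((Quiver.FreeGroupoid.of (Word P)).map e₁ ≫ (Quiver.FreeGroupoid.of (Word P)).map e₂)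
        ((Quiver.FreeGroupoid.of (Word P)).map e₃ ≫ (Quiver.FreeGroupoid.of (Word P)).map e₄)

/-- The squares as a relation on the arrows of the free groupoid on the 1-skeleton. -/
def squareRel (P : Pres A) : HomRel (Quiver.FreeGroupoid (Word P)) := Square P

/-- The fundamental groupoid of the Squier complex on its vertex set: the free groupoid on the
1-skeleton modulo the congruence generated by the squares. -/
abbrev SquierGroupoid (P : Pres A) : Type u :=
  CategoryTheory.Quotient (squareRel P)

/-- A nonempty word as an object of the fundamental groupoid of the Squier complex. -/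
def vertex (P : Pres A) (w : Word P) : SquierGroupoid P :=
  (CategoryTheory.Quotient.functor (squareRel P)).obj ((Quiver.FreeGroupoid.of (Word P)).obj w)

/-- The diagram group `D(P, w)`: the fundamental group of the Squier complex of `P` based at
`w`, that is, the vertex group at `w` of its fundamental groupoid. -/
def DiagramGroup (P : Pres A) (w : Word P) : Type u := vertex P w ⟶ vertex P w

/-- The group structure: concatenation of loops. -/
instance diagramGroupGroup (P : Pres A) (w : Word P) : Group (DiagramGroup P w) :=
  Groupoid.vertexGroup (vertex P w)

end Pool.Agent.H868Z.Diagram
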