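import Mathlib
import Pool.Agent.H868Z.Diagram.Defs

/-!
# The universal group of the Squier groupoid
-/

namespace Pool.Agent.H868Z.Diagram

open CategoryTheory

universe u

variable {A : Type u} (P : Pres A)

/-- signed relations -/
abbrev Mv : Type u := P.rel × Bool

variable {P}

/-- the side of the relation that is read -/
def Mv.dom (m : Mv P) : List A := if m.2 then m.1.1.1 else m.1.1.2

/-- the opposite signed relation -/
def Mv.rev (m : Mv P) : Mv P := (m.1, !m.2)

/-- the side of the relation that is written -/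
def Mv.cod (m : Mv P) : List A := m.rev.dom

@[simp] theorem Mv.rev_rev (m : Mv P) : m.rev.rev = m := by simp [Mv.rev]

theorem Mv.rev_ne (m : Mv P) : m.rev ≠ m := by
  intro h
  have := congrArg Prod.snd h
  simp [Mv.rev] at this

@[simp] theorem Mv.dom_rev (m : Mv P) : m.rev.dom = m.cod := rfl

@[simp] theorem Mv.cod_rev (m : Mv P) : m.rev.cod = m.dom := by simp [Mv.cod]

theorem Mv.dom_ne (m : Mv P) : m.dom ≠ [] := by
  unfold Mv.dom
  split_ifs
  · exact (P.ne _ m.1.2).1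
  · exact (P.ne _ m.1.2).2

theorem Mv.cod_ne (m : Mv P) : m.cod ≠ [] := m.rev.dom_ne

@[simp] theorem Mv.dom_true (r : P.rel) : Mv.dom (r, true) = r.1.1 := rfl
@[simp] theorem Mv.dom_false (r : P.rel) : Mv.dom (r, false) = r.1.2 := rfl
@[simp] theorem Mv.cod_true (r : P.rel) : Mv.cod (r, true) = r.1.2 := rfl
@[simp] theorem Mv.cod_false (r : P.rel) : Mv.cod (r, false) = r.1.1 := rfl

variable (P)

/-- edges as generators -/
abbrev Gen : Type u := List A × P.rel × List A

/-- squares as relators -/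
def urels : Set (FreeGroup (Gen P)) :=
  {w | ∃ (a : List A) (r : P.rel) (b : List A) (r' : P.rel) (c : List A),
    w = FreeGroup.of (a, r, b ++ r'.1.1 ++ c) * FreeGroup.of (a ++ r.1.2 ++ b, r', c) *
      (FreeGroup.of (a ++ r.1.1 ++ b, r', c) * FreeGroup.of (a, r, b ++ r'.1.2 ++ c))⁻¹}

/-- the universal group -/
abbrev UG : Type u := PresentedGroup (urels P)

variable {P}

/-- the generator given by an edge -/
def E (a : List A) (r : P.rel) (b : List A) : UG P := PresentedGroup.of (a, r, b)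

theorem E_square (a : List A) (r : P.rel) (b : List A) (r' : P.rel) (c : List A) :
    E a r (b ++ r'.1.1 ++ c) * E (a ++ r.1.2 ++ b) r' c =
      E (a ++ r.1.1 ++ b) r' c * E a r (b ++ r'.1.2 ++ c) := by
  have := PresentedGroup.mk_eq_mk_of_mul_inv_mem (rels := urels P) ⟨a, r, b, r', c, rfl⟩
  simpa [E, PresentedGroup.of] using this

/-- homomorphisms out of the universal group -/
def UG.lift {G : Type*} [Group G] (f : List A → P.rel → List A → G)
    (h : ∀ a r b r' c, f a r (b ++ r'.1.1 ++ c) * f (a ++ r.1.2 ++ b) r' c =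
      f (a ++ r.1.1 ++ b) r' c * f a r (b ++ r'.1.2 ++ c)) : UG P →* G :=
  PresentedGroup.toGroup (f := fun x : Gen P => f x.1 x.2.1 x.2.2) (by
    rintro _ ⟨a, r, b, r', c, rfl⟩
    simp only [map_mul, map_inv, FreeGroup.lift_apply_of, h, mul_inv_cancel])

theorem UG.lift_E {G : Type*} [Group G] (f : List A → P.rel → List A → G) (h) (a : List A)
    (r : P.rel) (b : List A) : UG.lift f h (E a r b) = f a r b :=
  PresentedGroup.toGroup.of _

/-- the element given by a signed edge -/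
def ev1 (a : List A) (m : Mv P) (b : List A) : UG P := if m.2 then E a m.1 b else (E a m.1 b)⁻¹

@[simp] theorem ev1_true (a : List A) (r : P.rel) (b : List A) :
    ev1 a (r, true) b = E a r b := rfl

@[simp] theorem ev1_false (a : List A) (r : P.rel) (b : List A) :
    ev1 a (r, false) b = (E a r b)⁻¹ := rfl

theorem ev1_rev (a : List A) (m : Mv P) (b : List A) : ev1 a m.rev b = (ev1 a m b)⁻¹ := by
  obtain ⟨r, _ | _⟩ := m <;> simp [Mv.rev]

theorem ev1_square (a : List A) (m : Mv P) (b : List A) (m' : Mv P) (c : List A) :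
    ev1 a m (b ++ m'.dom ++ c) * ev1 (a ++ m.cod ++ b) m' c =
      ev1 (a ++ m.dom ++ b) m' c * ev1 a m (b ++ m'.cod ++ c) := by
  obtain ⟨r, s⟩ := m
  obtain ⟨r', s'⟩ := m'
  have := E_square a r b r' c
  rcases s with _ | _ <;> rcases s' with _ | _ <;>
    simp only [ev1_true, ev1_false, Mv.dom_true, Mv.dom_false, Mv.cod_true, Mv.cod_false]
  · rw [← mul_inv_rev, ← mul_inv_rev, this]
  · rw [inv_mul_eq_iff_eq_mul, ← mul_assoc, this, mul_inv_cancel_right]
  · rw [eq_inv_mul_iff_mul_eq, ← mul_assoc, ← this, mul_inv_cancel_right]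
  · exact this

/-- elements of the universal group given by edge paths -/
inductive Conn (w : List A) : UG P → List A → Prop
  | refl : Conn w 1 w
  | step {u : UG P} {a : List A} {m : Mv P} {b : List A} : Conn w u (a ++ m.dom ++ b) →
      Conn w (u * ev1 a m b) (a ++ m.cod ++ b)

theorem Conn.cast {w w' w'' : List A} {u u' : UG P} (h : Conn w u w') (hu : u = u')
    (hw : w' = w'') : Conn w u' w'' := by
  subst hu hw; exact h

theorem Conn.trans {w w' w'' : List A} {u u' : UG P} (h : Conn w u w') (h' : Conn w' u' w'') :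
    Conn w (u * u') w'' := by
  induction h' with
  | refl => simpa using h
  | step _ ih => rw [← mul_assoc]; exact Conn.step ih

theorem Conn.single (a : List A) (m : Mv P) (b : List A) :
    Conn (a ++ m.dom ++ b) (ev1 a m b) (a ++ m.cod ++ b) :=
  (Conn.step Conn.refl).cast (one_mul _) rfl

theorem Conn.symm {w w' : List A} {u : UG P} (h : Conn w u w') : Conn w' u⁻¹ w := by
  induction h with
  | refl => simpa using Conn.refl
  | @step u a m b _ ih =>
    rw [mul_inv_rev, ← ev1_rev]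
    exact ((Conn.single a m.rev b).cast rfl (by simp)).trans ih

/-- an edge as an arrow of the Squier groupoid -/
def edge {x y : Word P} (e : x ⟶ y) : vertex P x ⟶ vertex P y :=
  (CategoryTheory.Quotient.functor (squareRel P)).map ((Quiver.FreeGroupoid.of (Word P)).map e)

theorem hom_ind0 {motive : ∀ {x y : Word P}, (vertex P x ⟶ vertex P y) → Prop}
    (id : ∀ x, motive (𝟙 (vertex P x)))
    (pos : ∀ {x y z : Word P} (f : vertex P x ⟶ vertex P y) (e : y ⟶ z), motive f →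
      motive (f ≫ edge e))
    (neg : ∀ {x y z : Word P} (f : vertex P x ⟶ vertex P y) (e : z ⟶ y), motive f →
      motive (f ≫ Groupoid.inv (edge e)))
    {x y : Word P} (f : vertex P x ⟶ vertex P y) : motive f := by
  obtain ⟨⟨p⟩⟩ := f
  have key : ∀ (y : Quiver.Symmetrify (Word P))
      (p : @Quiver.Path (Quiver.Symmetrify (Word P)) _ x y),
      @motive x y (Quot.mk _ (Quot.mk _ p)) := by
    intro y p
    induction p with
    | nil => exact id x
    | cons p e ih =>
      rcases e with e | e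
      · exact pos _ e ih
      · exact neg _ e ih
  exact key y p

/-- a signed edge as an arrow of the Squier groupoid -/
noncomputable def sedge {x y : Word P} (a : List A) (m : Mv P) (b : List A)
    (hx : x.val = a ++ m.dom ++ b) (hy : y.val = a ++ m.cod ++ b) : vertex P x ⟶ vertex P y :=
  match m, hx, hy with
  | (r, true), hx, hy => edge ⟨a, r.1.1, r.1.2, b, r.2, hx, hy⟩
  | (r, false), hx, hy => Groupoid.inv (edge ⟨a, r.1.1, r.1.2, b, r.2, hy, hx⟩)

theorem hom_ind {motive : ∀ {x y : Word P}, (vertex P x ⟶ vertex P y) → Prop}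
    (id : ∀ x, motive (𝟙 (vertex P x)))
    (step : ∀ {x y z : Word P} (f : vertex P x ⟶ vertex P y) (a : List A) (m : Mv P) (b : List A)
      (hy : y.val = a ++ m.dom ++ b) (hz : z.val = a ++ m.cod ++ b), motive f →
      motive (f ≫ sedge a m b hy hz))
    {x y : Word P} (f : vertex P x ⟶ vertex P y) : motive f := by
  refine hom_ind0 (motive := motive) id ?_ ?_ f
  · intro x y z f e h
    exact step f e.a (⟨(e.u, e.v), e.mem⟩, true) e.b e.src e.tgt h
  · intro x y z f e h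
    exact step f e.a (⟨(e.u, e.v), e.mem⟩, false) e.b e.tgt e.src h

theorem edge_square {x y y' z : Word P} {a b c : List A} {r r' : P.rel}
    (h1 : x.val = a ++ r.1.1 ++ (b ++ r'.1.1 ++ c)) (h2 : y.val = a ++ r.1.2 ++ (b ++ r'.1.1 ++ c))
    (h3 : y.val = a ++ r.1.2 ++ b ++ r'.1.1 ++ c) (h4 : z.val = a ++ r.1.2 ++ b ++ r'.1.2 ++ c)
    (h5 : x.val = a ++ r.1.1 ++ b ++ r'.1.1 ++ c) (h6 : y'.val = a ++ r.1.1 ++ b ++ r'.1.2 ++ c)
    (h7 : y'.val = a ++ r.1.1 ++ (b ++ r'.1.2 ++ c))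
    (h8 : z.val = a ++ r.1.2 ++ (b ++ r'.1.2 ++ c)) :
    edge (x := x) (y := y) ⟨a, r.1.1, r.1.2, b ++ r'.1.1 ++ c, r.2, h1, h2⟩ ≫
      edge (x := y) (y := z) ⟨a ++ r.1.2 ++ b, r'.1.1, r'.1.2, c, r'.2, h3, h4⟩ =
    edge (x := x) (y := y') ⟨a ++ r.1.1 ++ b, r'.1.1, r'.1.2, c, r'.2, h5, h6⟩ ≫
      edge (x := y') (y := z) ⟨a, r.1.1, r.1.2, b ++ r'.1.2 ++ c, r.2, h7, h8⟩ := by
  exact CategoryTheory.Quotient.sound (squareRel P) (Square.mk _ _ _ _ a b c r.1.1 r.1.2 r'.1.1 r'.1.2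
    ⟨rfl, rfl, rfl, rfl⟩ ⟨rfl, rfl, rfl, rfl⟩ ⟨rfl, rfl, rfl, rfl⟩ ⟨rfl, rfl, rfl, rfl⟩)

/-- the compatibility with squares -/
def SqCompat {D : Type*} [Groupoid D] (φ : Word P ⥤q D) : Prop :=
  ∀ {x y y' z : Word P} (a b c : List A) (r r' : P.rel)
    (h1 : x.val = a ++ r.1.1 ++ (b ++ r'.1.1 ++ c)) (h2 : y.val = a ++ r.1.2 ++ (b ++ r'.1.1 ++ c))
    (h3 : y.val = a ++ r.1.2 ++ b ++ r'.1.1 ++ c) (h4 : z.val = a ++ r.1.2 ++ b ++ r'.1.2 ++ c)
    (h5 : x.val = a ++ r.1.1 ++ b ++ r'.1.1 ++ c) (h6 : y'.val = a ++ r.1.1 ++ b ++ r'.1.2 ++ c)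
    (h7 : y'.val = a ++ r.1.1 ++ (b ++ r'.1.2 ++ c))
    (h8 : z.val = a ++ r.1.2 ++ (b ++ r'.1.2 ++ c)),
    φ.map (X := x) (Y := y) ⟨a, r.1.1, r.1.2, b ++ r'.1.1 ++ c, r.2, h1, h2⟩ ≫
      φ.map (X := y) (Y := z) ⟨a ++ r.1.2 ++ b, r'.1.1, r'.1.2, c, r'.2, h3, h4⟩ =
    φ.map (X := x) (Y := y') ⟨a ++ r.1.1 ++ b, r'.1.1, r'.1.2, c, r'.2, h5, h6⟩ ≫
      φ.map (X := y') (Y := z) ⟨a, r.1.1, r.1.2, b ++ r'.1.2 ++ c, r.2, h7, h8⟩

/-- functors out of the Squier groupoid -/
def liftG {D : Type*} [Groupoid D] (φ : Word P ⥤q D) (h : SqCompat φ) : SquierGroupoid P ⥤ D :=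
  CategoryTheory.Quotient.lift (squareRel P) (Quiver.FreeGroupoid.lift φ) (by
    rintro _ _ _ _ ⟨e₁, e₂, e₃, e₄, a, b, c, u, v, u', v', h₁, h₂, h₃, h₄⟩
    have key : ∀ {x y : Word P} (e : x ⟶ y), (Quiver.FreeGroupoid.lift φ).map
        ((Quiver.FreeGroupoid.of (Word P)).map e) = φ.map e := by
      intro x y e
      exact Category.id_comp _
    rw [Functor.map_comp, Functor.map_comp, key, key, key, key]
    obtain ⟨a1, u1, v1, b1, m1, s1, t1⟩ := e₁
    obtain ⟨a2, u2, v2, b2, m2, s2, t2⟩ := e₂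
    obtain ⟨a3, u3, v3, b3, m3, s3, t3⟩ := e₃
    obtain ⟨a4, u4, v4, b4, m4, s4, t4⟩ := e₄
    dsimp only at h₁ h₂ h₃ h₄
    obtain ⟨rfl, rfl, rfl, rfl⟩ := h₁
    obtain ⟨rfl, rfl, rfl, rfl⟩ := h₂
    obtain ⟨rfl, rfl, rfl, rfl⟩ := h₃
    obtain ⟨rfl, rfl, rfl, rfl⟩ := h₄
    exact h _ _ _ ⟨_, m1⟩ ⟨_, m2⟩ s1 t1 s2 t2 s3 t3 s4 t4)

theorem liftG_edge {D : Type*} [Groupoid D] (φ : Word P ⥤q D) (h : SqCompat φ) {x y : Word P} (e : x ⟶ y) :
    (liftG φ h).map (edge e) = φ.map e := Category.id_comp _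

/-- a group as a groupoid with one object -/
structure One (G : Type*) where

instance (G : Type*) [Group G] : Groupoid (One G) where
  Hom _ _ := G
  id _ := (1 : G)
  comp f g := (f * g : G)
  id_comp := one_mul
  comp_id := mul_one
  assoc := mul_assoc
  inv f := (f⁻¹ : G)
  inv_comp := inv_mul_cancel
  comp_inv := mul_inv_cancel

/-- the functor to the universal group -/
def evF : SquierGroupoid P ⥤ One (UG P) :=
  liftG ⟨fun _ => ⟨⟩, fun e => E e.a ⟨(e.u, e.v), e.mem⟩ e.b⟩ (by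
    intro x y y' z a b c r r' _ _ _ _ _ _ _ _
    exact E_square a r b r' c)

/-- the value of an arrow in the universal group -/
def ev {x y : Word P} (f : vertex P x ⟶ vertex P y) : UG P := evF.map f

theorem ev_id (x : Word P) : ev (𝟙 (vertex P x)) = 1 := evF.map_id _

theorem ev_comp {x y z : Word P} (f : vertex P x ⟶ vertex P y) (g : vertex P y ⟶ vertex P z) :
    ev (f ≫ g) = ev f * ev g := evF.map_comp f g

theorem ev_inv {x y : Word P} (f : vertex P x ⟶ vertex P y) :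
    ev (Groupoid.inv f) = (ev f)⁻¹ := by
  rw [eq_inv_iff_mul_eq_one, ← ev_comp, Groupoid.inv_comp, ev_id]

theorem ev_edge {x y : Word P} (e : x ⟶ y) : ev (edge e) = E e.a ⟨(e.u, e.v), e.mem⟩ e.b :=
  liftG_edge _ _ e

theorem ev_sedge {x y : Word P} (a : List A) (m : Mv P) (b : List A) (hx) (hy) :
    ev (sedge (x := x) (y := y) a m b hx hy) = ev1 a m b := by
  obtain ⟨r, _ | _⟩ := m
  · simp only [sedge, ev_inv, ev_edge, ev1_false]
  · simp only [sedge, ev_edge, ev1_true]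

theorem conn_ev {x y : Word P} (f : vertex P x ⟶ vertex P y) : Conn x.val (ev f) y.val := by
  refine hom_ind (motive := fun {x y} f => Conn x.val (ev f) y.val) ?_ ?_ f
  · intro x
    rw [ev_id]; exact Conn.refl
  · intro x y z f a m b hy hz ih
    rw [ev_comp, ev_sedge, hz]
    exact Conn.step (hy ▸ ih)

theorem mid_ne (a : List A) {v : List A} (hv : v ≠ []) (b : List A) : a ++ v ++ b ≠ [] := by
  simp [hv]

theorem Conn.exists_hom {x : Word P} {u : UG P} {w : List A} (h : Conn x.val u w) :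
    ∀ y : Word P, y.val = w → ∃ f : vertex P x ⟶ vertex P y, ev f = u := by
  induction h with
  | refl =>
    intro y hy
    obtain rfl : y = x := by cases x; cases y; congr
    exact ⟨𝟙 _, ev_id _⟩
  | @step u a m b _ ih =>
    intro z hz
    obtain ⟨f, hf⟩ := ih ⟨_, mid_ne a m.dom_ne b⟩ rfl
    exact ⟨f ≫ sedge a m b rfl hz, by rw [ev_comp, hf, ev_sedge]⟩

section inj

variable (x0 : Word P)

open Classical in
/-- conjugation of an arrow into the vertex group at the base point -/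
noncomputable def kap {x y : Word P} (f : vertex P x ⟶ vertex P y) : DiagramGroup P x0 :=
  if h : Nonempty (vertex P x0 ⟶ vertex P x) ∧ Nonempty (vertex P x0 ⟶ vertex P y) then
    h.1.some ≫ f ≫ Groupoid.inv h.2.some
  else 1

theorem kap_comp {x y z : Word P} (f : vertex P x ⟶ vertex P y) (g : vertex P y ⟶ vertex P z) :
    kap x0 (f ≫ g) = kap x0 f * kap x0 g := by
  unfold kap
  by_cases h : Nonempty (vertex P x0 ⟶ vertex P x)
  · have hy : Nonempty (vertex P x0 ⟶ vertex P y) := ⟨h.some ≫ f⟩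
    have hz : Nonempty (vertex P x0 ⟶ vertex P z) := ⟨h.some ≫ f ≫ g⟩
    rw [dif_pos ⟨h, hz⟩, dif_pos ⟨h, hy⟩, dif_pos ⟨hy, hz⟩]
    change _ = (_ ≫ _ : vertex P x0 ⟶ vertex P x0)
    simp
  · have hy : ¬ Nonempty (vertex P x0 ⟶ vertex P y) := fun hy => h ⟨hy.some ≫ Groupoid.inv f⟩
    rw [dif_neg (fun k => h k.1), dif_neg (fun k => h k.1), dif_neg (fun k => hy k.1), mul_one]

theorem kap_id (x : Word P) : kap x0 (𝟙 (vertex P x)) = 1 := by
  have := kap_comp x0 (𝟙 (vertex P x)) (𝟙 (vertex P x))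
  rw [Category.id_comp] at this
  exact left_eq_mul.1 this

theorem kap_inv {x y : Word P} (f : vertex P x ⟶ vertex P y) :
    kap x0 (Groupoid.inv f) = (kap x0 f)⁻¹ := by
  rw [eq_inv_iff_mul_eq_one, ← kap_comp, Groupoid.inv_comp, kap_id]

/-- the value of an edge in the vertex group at the base point -/
noncomputable def kapE (a : List A) (r : P.rel) (b : List A) : DiagramGroup P x0 :=
  kap x0 (edge (x := ⟨a ++ r.1.1 ++ b, mid_ne a (P.ne _ r.2).1 b⟩)
    (y := ⟨a ++ r.1.2 ++ b, mid_ne a (P.ne _ r.2).2 b⟩) ⟨a, r.1.1, r.1.2, b, r.2, rfl, rfl⟩)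

theorem kap_edge {x y : Word P} (a : List A) (r : P.rel) (b : List A) (hx) (hy) :
    kap x0 (edge (x := x) (y := y) ⟨a, r.1.1, r.1.2, b, r.2, hx, hy⟩) = kapE x0 a r b := by
  obtain ⟨x, _⟩ := x
  obtain ⟨y, _⟩ := y
  dsimp only at hx hy
  subst hx hy
  rfl

/-- the retraction of the universal group onto a vertex group -/
noncomputable def theta : UG P →* DiagramGroup P x0 :=
  UG.lift (kapE x0) (by
    intro a r b r' c
    have n1 := (P.ne _ r.2).1
    have n2 := (P.ne _ r.2).2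
    have := congrArg (kap x0) (edge_square (P := P) (a := a) (b := b) (c := c) (r := r) (r' := r')
      (x := ⟨a ++ r.1.1 ++ b ++ r'.1.1 ++ c, by simp [n1]⟩)
      (y := ⟨a ++ r.1.2 ++ b ++ r'.1.1 ++ c, by simp [n2]⟩)
      (y' := ⟨a ++ r.1.1 ++ b ++ r'.1.2 ++ c, by simp [n1]⟩)
      (z := ⟨a ++ r.1.2 ++ b ++ r'.1.2 ++ c, by simp [n2]⟩)
      (by simp) (by simp) rfl rfl rfl rfl (by simp) (by simp))
    rwa [kap_comp, kap_comp, kap_edge, kap_edge, kap_edge, kap_edge] at this)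

theorem theta_ev {x y : Word P} (f : vertex P x ⟶ vertex P y) : theta x0 (ev f) = kap x0 f := by
  refine hom_ind0 (motive := fun {x y} f => theta x0 (ev f) = kap x0 f) ?_ ?_ ?_ f
  · intro x
    rw [ev_id, map_one, kap_id]
  · intro x y z f e ih
    rw [ev_comp, map_mul, ih, kap_comp, ev_edge, theta, UG.lift_E]
    exact congrArg _ (kap_edge x0 e.a ⟨(e.u, e.v), e.mem⟩ e.b e.src e.tgt).symm
  · intro x y z f e ih
    rw [ev_comp, map_mul, ih, kap_comp, ev_inv, map_inv, kap_inv, ev_edge, theta, UG.lift_E]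
    exact congrArg (fun t => kap x0 f * t⁻¹)
      (kap_edge x0 e.a ⟨(e.u, e.v), e.mem⟩ e.b e.src e.tgt).symm

end inj

theorem ev_injective {x y : Word P} {f g : vertex P x ⟶ vertex P y} (h : ev f = ev g) : f = g := by
  have h1 : kap x f = kap x g := by rw [← theta_ev, ← theta_ev, h]
  unfold kap at h1
  have k : Nonempty (vertex P x ⟶ vertex P x) ∧ Nonempty (vertex P x ⟶ vertex P y) :=
    ⟨⟨𝟙 _⟩, ⟨f⟩⟩
  rw [dif_pos k, dif_pos k] at h1
  have h2 : (k.1.some ≫ f ≫ Groupoid.inv k.2.some : vertex P x ⟶ vertex P x) =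
      k.1.some ≫ g ≫ Groupoid.inv k.2.some := h1
  rwa [cancel_epi, cancel_mono] at h2

/-- the embedding of a diagram group in the universal group -/
def evHom (x : Word P) : DiagramGroup P x →* UG P where
  toFun f := ev f
  map_one' := ev_id x
  map_mul' f g := ev_comp f g

theorem evHom_injective (x : Word P) : Function.Injective (evHom x) :=
  fun _ _ h => ev_injective h

theorem mem_range_evHom {x : Word P} {u : UG P} : u ∈ (evHom x).range ↔ Conn x.val u x.val :=
  ⟨fun ⟨f, hf⟩ => hf ▸ conn_ev f, fun h => h.exists_hom x rfl⟩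

end Pool.Agent.H868Z.Diagram
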