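import Mathlib
import Pool.Agent.H868Z.Diagram.Univ
import Pool.Agent.H868Z.Diagram.Pre

/-!
# The wire model of the universal cover of a Squier complex
-/

namespace Pool.Agent.H868Z.Diagram

universe u

/-- wires, recorded with their history -/
inductive Tm (M : Type u) : Type u
  | init (i : ℕ) : Tm M
  | out (m : M) (X : Tm M) (j : ℕ) : Tm M
  | nil : Tm M
  | cons (t X : Tm M) : Tm M

namespace Tm

variable {M : Type u}

/-- a list of wires as one term -/
def enc : List (Tm M) → Tm M
  | [] => Tm.nil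
  | t :: l => Tm.cons t (enc l)

/-- decoding -/
def dec : Tm M → List (Tm M)
  | Tm.cons t X => t :: dec X
  | _ => []

@[simp] theorem dec_enc : ∀ l : List (Tm M), dec (enc l) = l
  | [] => rfl
  | t :: l => by simp [enc, dec, dec_enc l]

theorem enc_inj {l l' : List (Tm M)} (h : enc l = enc l') : l = l' := by
  rw [← dec_enc l, h, dec_enc]

end Tm

open Tm

variable {A : Type u} {P : Pres A}

/-- the wires produced by a cell -/
def outs (m : Mv P) (U : List (Tm (Mv P))) : List (Tm (Mv P)) :=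
  (List.range m.cod.length).map fun j => Tm.out m (enc U) j

theorem mem_outs {m : Mv P} {U : List (Tm (Mv P))} {t : Tm (Mv P)} :
    t ∈ outs m U ↔ ∃ j < m.cod.length, t = Tm.out m (enc U) j := by
  simp [outs, eq_comm]

theorem zero_mem_outs (m : Mv P) (U : List (Tm (Mv P))) : Tm.out m (enc U) 0 ∈ outs m U :=
  mem_outs.2 ⟨0, List.length_pos_iff.2 m.cod_ne, rfl⟩

theorem outs_inj' {m m' : Mv P} {U U' : List (Tm (Mv P))} {t : Tm (Mv P)} (h : t ∈ outs m U)
    (h' : t ∈ outs m' U') : m = m' ∧ U = U' := by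
  obtain ⟨j, -, rfl⟩ := mem_outs.1 h
  obtain ⟨j', -, e⟩ := mem_outs.1 h'
  simp only [Tm.out.injEq] at e
  exact ⟨e.1, enc_inj e.2.1⟩

theorem outs_inj {m m' : Mv P} {U U' : List (Tm (Mv P))} (h : outs m U = outs m' U') :
    m = m' ∧ U = U' := outs_inj' (zero_mem_outs m U) (h ▸ zero_mem_outs m U)

theorem nodup_outs (m : Mv P) (U : List (Tm (Mv P))) : (outs m U).Nodup :=
  List.nodup_range.map fun i j h => by simpa using h

/-- `U` is the list of outputs of a cell opposite to `m` -/
def IsOut (m : Mv P) (U : List (Tm (Mv P))) : Prop := ∃ U', U = outs m.rev U'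

open Classical in
/-- applying a signed relation to a list of wires -/
noncomputable def app (m : Mv P) (U : List (Tm (Mv P))) : List (Tm (Mv P)) :=
  if h : IsOut m U then h.choose else outs m U

theorem app_outs (m : Mv P) (U : List (Tm (Mv P))) : app m (outs m.rev U) = U := by
  have h : IsOut m (outs m.rev U) := ⟨U, rfl⟩
  rw [app, dif_pos h]
  exact (outs_inj h.choose_spec).2.symm

theorem app_of_not {m : Mv P} {U : List (Tm (Mv P))} (h : ¬ IsOut m U) : app m U = outs m U := by
  rw [app, dif_neg h]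

/-- wires occurring in the history of a list -/
inductive Occ (L : List (Tm (Mv P))) : Tm (Mv P) → Prop
  | base {t : Tm (Mv P)} : t ∈ L → Occ L t
  | step {m : Mv P} {U : List (Tm (Mv P))} {j : ℕ} {t : Tm (Mv P)} :
      Occ L (Tm.out m (enc U) j) → t ∈ U → Occ L t

/-- cells occurring in the history of a list -/
def Cell (L : List (Tm (Mv P))) (m : Mv P) (U : List (Tm (Mv P))) : Prop :=
  ∃ j, Occ L (Tm.out m (enc U) j)

theorem occ_outs {A B U : List (Tm (Mv P))} {m : Mv P} {t : Tm (Mv P)} :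
    Occ (A ++ outs m U ++ B) t ↔ t ∈ outs m U ∨ Occ (A ++ U ++ B) t := by
  constructor
  · intro h
    induction h with
    | base h =>
      simp only [List.mem_append] at h
      rcases h with (h | h) | h
      · exact Or.inr (Occ.base (by simp [h]))
      · exact Or.inl h
      · exact Or.inr (Occ.base (by simp [h]))
    | step _ ht ih =>
      rcases ih with ih | ih
      · obtain ⟨j', -, e⟩ := mem_outs.1 ih
        simp only [Tm.out.injEq] at e
        rw [enc_inj e.2.1] at ht
        exact Or.inr (Occ.base (by simp [ht]))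
      · exact Or.inr (Occ.step ih ht)
  · rintro (h | h)
    · exact Occ.base (by simp [h])
    · induction h with
      | base h =>
        simp only [List.mem_append] at h
        rcases h with (h | h) | h
        · exact Occ.base (by simp [h])
        · exact Occ.step (Occ.base (t := Tm.out m (enc U) 0) (by simp [zero_mem_outs])) h
        · exact Occ.base (by simp [h])
      | step _ ht ih => exact Occ.step ih ht

theorem cell_outs {A B U : List (Tm (Mv P))} {m : Mv P} {n : Mv P} {W : List (Tm (Mv P))} :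
    Cell (A ++ outs m U ++ B) n W ↔ (n = m ∧ W = U) ∨ Cell (A ++ U ++ B) n W := by
  constructor
  · rintro ⟨j, h⟩
    rcases occ_outs.1 h with h | h
    · obtain ⟨j', -, e⟩ := mem_outs.1 h
      simp only [Tm.out.injEq] at e
      exact Or.inl ⟨e.1, enc_inj e.2.1⟩
    · exact Or.inr ⟨j, h⟩
  · rintro (⟨rfl, rfl⟩ | ⟨j, h⟩)
    · exact ⟨0, occ_outs.2 (Or.inl (zero_mem_outs _ _))⟩
    · exact ⟨j, occ_outs.2 (Or.inr h)⟩

theorem Occ.cases' {L : List (Tm (Mv P))} {t : Tm (Mv P)} (h : Occ L t) :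
    t ∈ L ∨ ∃ m U, Cell L m U ∧ t ∈ U := by
  cases h with
  | base h => exact Or.inl h
  | step h ht => exact Or.inr ⟨_, _, ⟨_, h⟩, ht⟩

variable (w0 : List A)

/-- the label of a wire -/
def lab : Tm (Mv P) → Option A
  | Tm.init i => w0[i]?
  | Tm.out m _ j => m.cod[j]?
  | _ => none

/-- the list of wires `L` spells the word `w` -/
def HasLab (L : List (Tm (Mv P))) (w : List A) : Prop := L.map (lab w0) = w.map some

/-- the word spelled by a list of wires -/
def word (L : List (Tm (Mv P))) : List A := L.filterMap (lab w0)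

variable {w0}

theorem HasLab.word_eq {L : List (Tm (Mv P))} {w : List A} (h : HasLab w0 L w) :
    word w0 L = w := by
  have : word w0 L = (L.map (lab w0)).filterMap id := by simp [word, List.filterMap_map]
  rw [this, h]
  simp [List.filterMap_map]

theorem HasLab.length {L : List (Tm (Mv P))} {w : List A} (h : HasLab w0 L w) :
    L.length = w.length := by
  simpa using congrArg List.length h

theorem word_append (L L' : List (Tm (Mv P))) : word w0 (L ++ L') = word w0 L ++ word w0 L' :=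
  List.filterMap_append

theorem HasLab.append {L L' : List (Tm (Mv P))} {w w' : List A} (h : HasLab w0 L w)
    (h' : HasLab w0 L' w') : HasLab w0 (L ++ L') (w ++ w') := by
  unfold HasLab at *
  rw [List.map_append, List.map_append, h, h']

theorem HasLab.split2 {L : List (Tm (Mv P))} {a b : List A} (h : HasLab w0 L (a ++ b)) :
    ∃ A B, L = A ++ B ∧ HasLab w0 A a ∧ HasLab w0 B b := by
  unfold HasLab at h
  rw [List.map_append] at h
  exact List.map_eq_append_iff.1 h

theorem HasLab.split {L : List (Tm (Mv P))} {a u b : List A} (h : HasLab w0 L (a ++ u ++ b)) :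
    ∃ A U B, L = A ++ U ++ B ∧ HasLab w0 A a ∧ HasLab w0 U u ∧ HasLab w0 B b := by
  obtain ⟨X, B, rfl, h1, h2⟩ := h.split2
  obtain ⟨A, U, rfl, h3, h4⟩ := h1.split2
  exact ⟨A, U, B, rfl, h3, h4, h2⟩

theorem HasLab.of_append {L L' : List (Tm (Mv P))} {w : List A} (h : HasLab w0 (L ++ L') w) :
    HasLab w0 L (word w0 L) ∧ HasLab w0 L' (word w0 L') := by
  unfold HasLab at h
  rw [List.map_append] at h
  obtain ⟨a, b, -, h1, h2⟩ := List.append_eq_map_iff.1 h
  have k1 : HasLab w0 L a := h1.symm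
  have k2 : HasLab w0 L' b := h2.symm
  rw [k1.word_eq, k2.word_eq]
  exact ⟨k1, k2⟩

theorem hasLab_outs (m : Mv P) (U : List (Tm (Mv P))) : HasLab w0 (outs m U) m.cod := by
  unfold HasLab outs
  apply List.ext_getElem
  · simp
  · intro i h1 h2
    simp only [List.length_map] at h2
    simp [lab, h2]

variable (w0)

/-- the invariants of states -/
structure Inv (L : List (Tm (Mv P))) : Prop where
  nodup : L.Nodup
  used : ∀ {m U t}, Cell L m U → t ∈ U → t ∉ L
  lin : ∀ {m U m' U' t}, Cell L m U → Cell L m' U' → t ∈ U → t ∈ U' → m = m' ∧ U = U'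
  red : ∀ {m U j}, Occ L (Tm.out m (enc U) j) →
    j < m.cod.length ∧ HasLab w0 U m.dom ∧ U.Nodup ∧ ¬ IsOut m U

variable {w0}

theorem Inv.not_cell {A B U : List (Tm (Mv P))} {m : Mv P} (h : Inv w0 (A ++ outs m U ++ B)) :
    ¬ Cell (A ++ U ++ B) m U := by
  rintro ⟨j, hj⟩
  have h1 : Occ (A ++ outs m U ++ B) (Tm.out m (enc U) j) := occ_outs.2 (Or.inr hj)
  have h2 : Tm.out m (enc U) j ∈ outs m U := mem_outs.2 ⟨j, (h.red h1).1, rfl⟩
  have hn := h.nodup
  rcases hj.cases' with h3 | ⟨n, W, h3, h4⟩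
  · simp only [List.mem_append] at h3
    rcases h3 with (h3 | h3) | h3
    · rw [List.append_assoc, List.nodup_append] at hn
      exact hn.2.2 _ h3 _ (by simp [h2]) rfl
    · exact h.used ⟨j, h1⟩ h3 (by simp [h2])
    · rw [List.nodup_append] at hn
      exact hn.2.2 _ (by simp [h2]) _ h3 rfl
  · exact h.used (cell_outs.2 (Or.inr h3)) h4 (by simp [h2])

theorem Inv.cancel {A B U : List (Tm (Mv P))} {m : Mv P} (h : Inv w0 (A ++ outs m U ++ B)) :
    Inv w0 (A ++ U ++ B) := by
  have hc : Cell (A ++ outs m U ++ B) m U := cell_outs.2 (Or.inl ⟨rfl, rfl⟩)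
  have ho : Occ (A ++ outs m U ++ B) (Tm.out m (enc U) 0) :=
    occ_outs.2 (Or.inl (zero_mem_outs _ _))
  have hn := h.nodup
  refine ⟨?_, ?_, ?_, ?_⟩
  · simp only [List.nodup_append, List.mem_append] at hn ⊢
    refine ⟨⟨hn.1.1, (h.red ho).2.2.1, ?_⟩, hn.2.1, ?_⟩
    · rintro s hs t ht rfl
      exact h.used hc ht (by simp [hs])
    · rintro s (hs | hs) t ht rfl
      · exact hn.2.2 s (Or.inl hs) s ht rfl
      · exact h.used hc hs (by simp [ht])
  · intro n W t h1 h2 h3
    have h1' := cell_outs (m := m).2 (Or.inr h1)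
    simp only [List.mem_append] at h3
    rcases h3 with (h3 | h3) | h3
    · exact h.used h1' h2 (by simp [h3])
    · obtain ⟨rfl, rfl⟩ := h.lin h1' hc h2 h3
      exact h.not_cell h1
    · exact h.used h1' h2 (by simp [h3])
  · intro n W n' W' t h1 h2
    exact h.lin (cell_outs.2 (Or.inr h1)) (cell_outs.2 (Or.inr h2))
  · intro n W j h1
    exact h.red (occ_outs.2 (Or.inr h1))

theorem Inv.create {A B U : List (Tm (Mv P))} {m : Mv P} (h : Inv w0 (A ++ U ++ B))
    (hl : HasLab w0 U m.dom) (ho : ¬ IsOut m U) : Inv w0 (A ++ outs m U ++ B) := by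
  have hU : U ≠ [] := by
    rintro rfl
    have := hl.length
    exact m.dom_ne (List.length_eq_zero_iff.1 this.symm)
  obtain ⟨s0, hs0⟩ := List.exists_mem_of_ne_nil U hU
  have nc : ¬ Cell (A ++ U ++ B) m U := fun hc => h.used hc hs0 (by simp [hs0])
  have no : ∀ t ∈ outs m U, ¬ Occ (A ++ U ++ B) t := by
    intro t ht h1
    obtain ⟨j, -, rfl⟩ := mem_outs.1 ht
    exact nc ⟨j, h1⟩
  have hn := h.nodup
  refine ⟨?_, ?_, ?_, ?_⟩
  · simp only [List.nodup_append, List.mem_append] at hn ⊢
    refine ⟨⟨hn.1.1, nodup_outs _ _, ?_⟩, hn.2.1, ?_⟩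
    · rintro s hs t ht rfl
      exact no s ht (Occ.base (by simp [hs]))
    · rintro s (hs | hs) t ht rfl
      · exact hn.2.2 s (Or.inl hs) s ht rfl
      · exact no s hs (Occ.base (by simp [ht]))
  · intro n W t h1 h2 h3
    simp only [List.mem_append] at h3
    rcases cell_outs.1 h1 with ⟨rfl, rfl⟩ | h1
    · simp only [List.nodup_append, List.mem_append] at hn
      rcases h3 with (h3 | h3) | h3
      · exact hn.1.2.2 t h3 t h2 rfl
      · exact no t h3 (Occ.base (by simp [h2]))
      · exact hn.2.2 t (Or.inr h2) t h3 rfl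
    · rcases h3 with (h3 | h3) | h3
      · exact h.used h1 h2 (by simp [h3])
      · obtain ⟨j, hj⟩ := h1
        exact no t h3 (Occ.step hj h2)
      · exact h.used h1 h2 (by simp [h3])
  · intro n W n' W' t h1 h2 h3 h4
    rcases cell_outs.1 h1 with ⟨e1, e2⟩ | k1 <;> rcases cell_outs.1 h2 with ⟨e3, e4⟩ | k2
    · exact ⟨e1.trans e3.symm, e2.trans e4.symm⟩
    · exact absurd (by simp [← e2, h3]) (h.used k2 h4)
    · exact absurd (by simp [← e4, h4]) (h.used k1 h3)
    · exact h.lin k1 k2 h3 h4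
  · intro n W j h1
    rcases occ_outs.1 h1 with h1 | h1
    · obtain ⟨j', hj', e⟩ := mem_outs.1 h1
      simp only [Tm.out.injEq] at e
      obtain ⟨rfl, e2, rfl⟩ := e
      rw [enc_inj e2]
      refine ⟨hj', hl, ?_, ho⟩
      simp only [List.nodup_append] at hn
      exact hn.1.2.1
    · exact h.red h1

theorem Inv.app {A B U : List (Tm (Mv P))} {m : Mv P} (h : Inv w0 (A ++ U ++ B))
    (hl : HasLab w0 U m.dom) : Inv w0 (A ++ app m U ++ B) ∧ HasLab w0 (app m U) m.cod ∧
      app m.rev (app m U) = U := by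
  by_cases ho : IsOut m U
  · obtain ⟨U', rfl⟩ := ho
    rw [app_outs]
    have := h.red (occ_outs.2 (Or.inl (zero_mem_outs _ _)))
    exact ⟨h.cancel, this.2.1, app_of_not this.2.2.2⟩
  · rw [app_of_not ho]
    refine ⟨h.create hl ho, hasLab_outs _ _, ?_⟩
    have := app_outs m.rev U
    rwa [Mv.rev_rev] at this

variable (P w0)

/-- the initial state -/
def L0 : List (Tm (Mv P)) := (List.range w0.length).map Tm.init

/-- the states -/
inductive St : List (Tm (Mv P)) → Prop
  | base : St (L0 P w0)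
  | step {A U B : List (Tm (Mv P))} {m : Mv P} : St (A ++ U ++ B) → HasLab w0 U m.dom →
      St (A ++ app m U ++ B)

variable {P w0}

theorem hasLab_L0 : HasLab w0 (L0 P w0) w0 := by
  unfold HasLab L0
  apply List.ext_getElem
  · simp
  · intro i h1 h2
    simp only [List.length_map] at h2
    simp [lab, h2]

theorem occ_L0 {t : Tm (Mv P)} (h : Occ (L0 P w0) t) : ∃ i, t = Tm.init i := by
  induction h with
  | base h =>
    obtain ⟨i, -, rfl⟩ := List.mem_map.1 h
    exact ⟨i, rfl⟩
  | step _ _ ih =>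
    obtain ⟨i, hi⟩ := ih
    cases hi

theorem not_cell_L0 {m : Mv P} {U : List (Tm (Mv P))} : ¬ Cell (L0 P w0) m U := by
  rintro ⟨j, h⟩
  obtain ⟨i, hi⟩ := occ_L0 h
  cases hi

theorem St.inv {L : List (Tm (Mv P))} (h : St P w0 L) : Inv w0 L ∧ ∃ w, HasLab w0 L w := by
  induction h with
  | base =>
    refine ⟨⟨List.nodup_range.map fun i j h => by simpa using h, fun h => absurd h not_cell_L0,
      fun h => absurd h not_cell_L0, fun h => absurd ⟨_, h⟩ not_cell_L0⟩, w0, hasLab_L0⟩
  | step _ hl ih =>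
    obtain ⟨h1, w, h2⟩ := ih
    obtain ⟨h3, h4, -⟩ := h1.app hl
    exact ⟨h3, _, ((h2.of_append.1.of_append.1).append h4).append h2.of_append.2⟩

theorem St.hasLab {L : List (Tm (Mv P))} (h : St P w0 L) : HasLab w0 L (word w0 L) := by
  obtain ⟨-, w, hw⟩ := h.inv
  rw [hw.word_eq]; exact hw

variable (P w0)

/-- oriented hyperplanes -/
def Hy : Type u :=
  {p : Mv P × List (Tm (Mv P)) // HasLab w0 p.2 p.1.dom ∧ ∃ A B, St P w0 (A ++ p.2 ++ B)}

variable {P w0}

/-- the opposite orientation -/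
noncomputable def Hy.flip (H : Hy P w0) : Hy P w0 :=
  ⟨(H.1.1.rev, app H.1.1 H.1.2), by
    obtain ⟨h1, A, B, h2⟩ := H.2
    exact ⟨(h2.inv.1.app h1).2.1, A, B, St.step h2 h1⟩⟩

theorem Hy.flip_flip (H : Hy P w0) : H.flip.flip = H := by
  obtain ⟨h1, A, B, h2⟩ := H.2
  refine Subtype.ext (Prod.ext (Mv.rev_rev _) ?_)
  exact (h2.inv.1.app h1).2.2

/-- the side of a list of wires with respect to a cell -/
def sideR (m : Mv P) (U L : List (Tm (Mv P))) : Prop :=
  (∀ U', U = outs m.rev U' → ¬ Cell L m.rev U') ∧ (¬ IsOut m U → Cell L m U)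

theorem sideR_outs {m : Mv P} {U L : List (Tm (Mv P))} :
    sideR m (outs m.rev U) L ↔ ¬ Cell L m.rev U :=
  ⟨fun h => h.1 U rfl, fun h => ⟨fun _ e => (outs_inj e).2 ▸ h, fun k => absurd ⟨U, rfl⟩ k⟩⟩

theorem sideR_not {m : Mv P} {U L : List (Tm (Mv P))} (h : ¬ IsOut m U) :
    sideR m U L ↔ Cell L m U :=
  ⟨fun k => k.2 h, fun k => ⟨fun U' e => absurd ⟨U', e⟩ h, fun _ => k⟩⟩

theorem sideR_congr {n : Mv P} {W L L' : List (Tm (Mv P))}
    (h1 : ∀ W', W = outs n.rev W' → (Cell L n.rev W' ↔ Cell L' n.rev W'))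
    (h2 : ¬ IsOut n W → (Cell L n W ↔ Cell L' n W)) : sideR n W L ↔ sideR n W L' := by
  by_cases h : IsOut n W
  · obtain ⟨W', rfl⟩ := h
    rw [sideR_outs, sideR_outs, h1 W' rfl]
  · rw [sideR_not h, sideR_not h, h2 h]

variable (P w0)

/-- the wire system of a presentation and a base word -/
noncomputable def pre : Pre (Tm (Mv P)) (Hy P w0) where
  flip := Hy.flip
  inp H := H.1.2
  St := St P w0
  side H L := sideR H.1.1 H.1.2 L
  flip_flip := Hy.flip_flip
  inp_ne H := by
    intro h
    have := H.2.1.length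
    rw [h] at this
    exact H.1.1.dom_ne (List.length_eq_zero_iff.1 this.symm)
  nodup h := h.inv.1.nodup
  st_move {A H B} h := St.step h H.2.1
  side_move {A H B J} h n1 n2 := by
    obtain ⟨⟨m, U⟩, hH⟩ := H
    obtain ⟨⟨n, W⟩, hJ⟩ := J
    have n1' : ¬ (n = m ∧ W = U) := fun e => n1 (Subtype.ext (Prod.ext e.1 e.2))
    have n2' : ¬ (n = m.rev ∧ W = app m U) := fun e => n2 (Subtype.ext (Prod.ext e.1 e.2))
    change sideR n W (A ++ U ++ B) ↔ sideR n W (A ++ app m U ++ B)
    by_cases ho : IsOut m U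
    · obtain ⟨U', rfl⟩ := ho
      rw [app_outs] at n2' ⊢
      refine sideR_congr ?_ ?_
      · rintro W' rfl
        rw [cell_outs, or_iff_right]
        rintro ⟨e1, rfl⟩
        apply n1'
        rw [e1]
        exact ⟨by rw [← Mv.rev_rev n, e1, Mv.rev_rev], rfl⟩
      · intro _
        rw [cell_outs, or_iff_right n2']
    · rw [app_of_not ho] at n2' ⊢
      refine sideR_congr ?_ ?_
      · rintro W' rfl
        rw [cell_outs, or_iff_right]
        rintro ⟨rfl, rfl⟩
        exact n2' ⟨(Mv.rev_rev n).symm, rfl⟩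
      · intro _
        rw [cell_outs, or_iff_right n1']
  side_flip {L} H _ := by
    obtain ⟨⟨m, U⟩, h1, A, B, h2⟩ := H
    change sideR m.rev (app m U) L ↔ ¬ sideR m U L
    by_cases ho : IsOut m U
    · obtain ⟨U', rfl⟩ := ho
      have := h2.inv.1.red (occ_outs.2 (Or.inl (zero_mem_outs _ _)))
      rw [app_outs, sideR_outs, sideR_not this.2.2.2, not_not]
    · rw [app_of_not ho, sideR_not ho]
      have := sideR_outs (m := m.rev) (U := U) (L := L)
      rwa [Mv.rev_rev] at this
  side_mem {L H t} h h1 h2 := by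
    obtain ⟨⟨m, U⟩, hH⟩ := H
    change ¬ sideR m U L
    by_cases ho : IsOut m U
    · obtain ⟨U', rfl⟩ := ho
      rw [sideR_outs, not_not]
      obtain ⟨j, -, rfl⟩ := mem_outs.1 h1
      exact ⟨j, Occ.base h2⟩
    · rw [sideR_not ho]
      exact fun hc => h.inv.1.used hc h1 h2
  side_uniq {L H J t} h h1 h2 s1 s2 := by
    obtain ⟨⟨m, U⟩, hH⟩ := H
    obtain ⟨⟨n, W⟩, hJ⟩ := J
    change sideR m U L at s1
    change sideR n W L at s2
    change t ∈ U at h1
    change t ∈ W at h2
    suffices m = n ∧ U = W from Subtype.ext (Prod.ext this.1 this.2)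
    by_cases ho : IsOut m U <;> by_cases ho' : IsOut n W
    · obtain ⟨U', rfl⟩ := ho
      obtain ⟨W', rfl⟩ := ho'
      obtain ⟨e1, rfl⟩ := outs_inj' h1 h2
      rw [e1]
      exact ⟨by rw [← Mv.rev_rev m, e1, Mv.rev_rev], rfl⟩
    · exfalso
      obtain ⟨U', rfl⟩ := ho
      obtain ⟨j, -, rfl⟩ := mem_outs.1 h1
      obtain ⟨i, hi⟩ := (sideR_not ho').1 s2
      exact sideR_outs.1 s1 ⟨j, Occ.step hi h2⟩
    · exfalso
      obtain ⟨W', rfl⟩ := ho'
      obtain ⟨j, -, rfl⟩ := mem_outs.1 h2
      obtain ⟨i, hi⟩ := (sideR_not ho).1 s1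
      exact sideR_outs.1 s2 ⟨j, Occ.step hi h1⟩
    · exact h.inv.1.lin ((sideR_not ho).1 s1) ((sideR_not ho').1 s2) h1 h2

theorem word_inp (H : Hy P w0) : word w0 ((pre P w0).inp H) = H.1.1.dom := H.2.1.word_eq

theorem word_out (H : Hy P w0) : word w0 ((pre P w0).inp ((pre P w0).flip H)) = H.1.1.cod :=
  H.flip.2.1.word_eq

/-- values of the moves in the universal group -/
noncomputable def vals : (pre P w0).Val (UG P) where
  val A H B := ev1 (word w0 A) H.1.1 (word w0 B)
  cancel A H B := by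
    change _ * ev1 _ H.1.1.rev _ = 1
    rw [ev1_rev, mul_inv_cancel]
  square A H M J B := by
    rw [word_append, word_append, word_append, word_append, word_append, word_append, word_append,
      word_append, word_out P w0 H, word_out P w0 J, word_inp P w0 H, word_inp P w0 J]
    exact ev1_square _ _ _ _ _

end Pool.Agent.H868Z.Diagram
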