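import Mathlib
import Pool.Agent.H868Z.Diagram.Model1
import Pool.Agent.H868Z.Diagram.Core2

/-!
# The action of a diagram group on the wire model
-/

namespace Pool.Agent.H868Z.Diagram

open CategoryTheory Tm

universe u

variable {A : Type u} {P : Pres A} (w0 : List A)

/-- the states spelling a given word -/
@[ext] structure Fib (y : Word P) : Type u where
  val : List (Tm (Mv P))
  st : St P w0 val
  lb : HasLab w0 val y.val

/-- a move as a function on lists of wires -/
noncomputable def mvF (a : List A) (m : Mv P) (L : List (Tm (Mv P))) : List (Tm (Mv P)) :=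
  L.take a.length ++ app m ((L.drop a.length).take m.dom.length) ++
    (L.drop a.length).drop m.dom.length

variable {w0}

theorem HasLab.cast {L : List (Tm (Mv P))} {w w' : List A} (h : HasLab w0 L w) (e : w = w') :
    HasLab w0 L w' := e ▸ h

theorem mvF_eq {a : List A} {m : Mv P} {X U Y : List (Tm (Mv P))} (h1 : HasLab w0 X a)
    (h2 : HasLab w0 U m.dom) : mvF a m (X ++ U ++ Y) = X ++ app m U ++ Y := by
  unfold mvF
  rw [← h1.length, ← h2.length, List.append_assoc X U Y, List.take_left, List.drop_left,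
    List.take_left, List.drop_left]

theorem mvF_spec {a b : List A} {m : Mv P} {L : List (Tm (Mv P))} (h : St P w0 L)
    (hl : HasLab w0 L (a ++ m.dom ++ b)) : St P w0 (mvF a m L) ∧
      HasLab w0 (mvF a m L) (a ++ m.cod ++ b) ∧ mvF a m.rev (mvF a m L) = L := by
  obtain ⟨X, U, Y, rfl, h1, h2, h3⟩ := hl.split
  obtain ⟨-, h4, h5⟩ := h.inv.1.app h2
  rw [mvF_eq h1 h2]
  exact ⟨St.step h h2, (h1.append h4).append h3, by rw [mvF_eq h1 h4, h5]⟩

variable (w0)

/-- a move as a bijection between fibres -/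
noncomputable def mvE {x y : Word P} (a : List A) (m : Mv P) (b : List A)
    (hx : x.val = a ++ m.dom ++ b) (hy : y.val = a ++ m.cod ++ b) : Fib w0 x ≃ Fib w0 y where
  toFun L := ⟨mvF a m L.1, (mvF_spec L.st (L.lb.cast hx)).1,
    (mvF_spec L.st (L.lb.cast hx)).2.1.cast hy.symm⟩
  invFun L := ⟨mvF a m.rev L.1, (mvF_spec (m := m.rev) L.st (L.lb.cast hy)).1,
    (mvF_spec (m := m.rev) L.st (L.lb.cast hy)).2.1.cast (by rw [Mv.cod_rev, hx])⟩
  left_inv L := Fib.ext (mvF_spec L.st (L.lb.cast hx)).2.2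
  right_inv L := Fib.ext (by
    have := (mvF_spec (m := m.rev) L.st (L.lb.cast hy)).2.2
    rwa [Mv.rev_rev] at this)

variable (P)

/-- the groupoid of bijections between fibres -/
structure FibObj (w0 : List A) where
  w : Word P

instance : Groupoid (FibObj P w0) where
  Hom x y := Fib w0 x.w ≃ Fib w0 y.w
  id _ := Equiv.refl _
  comp f g := f.trans g
  id_comp := Equiv.refl_trans
  comp_id := Equiv.trans_refl
  assoc := Equiv.trans_assoc
  inv f := f.symm
  inv_comp := Equiv.symm_trans_self
  comp_inv := Equiv.self_trans_symm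

/-- the action of the edges -/
noncomputable def actPre : Word P ⥤q FibObj P w0 :=
  ⟨fun x => ⟨x⟩, fun e => mvE w0 e.a (⟨(e.u, e.v), e.mem⟩, true) e.b e.src e.tgt⟩

theorem actPre_compat : SqCompat (actPre P w0) := by
    intro x y y' z a b c r r' h1 h2 h3 h4 h5 h6 h7 h8
    refine Equiv.ext fun L => Fib.ext ?_
    change mvF (a ++ r.1.2 ++ b) (r', true) (mvF a (r, true) L.1) =
      mvF a (r, true) (mvF (a ++ r.1.1 ++ b) (r', true) L.1)
    obtain ⟨L, hs, hl⟩ := L
    dsimp only
    obtain ⟨X, U', Z, rfl, k1, k2, k3⟩ := (hl.cast h5).split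
    obtain ⟨X, U, Y, rfl, k4, k5, k6⟩ := k1.split
    have e1 : X ++ U ++ Y ++ U' ++ Z = X ++ U ++ (Y ++ U' ++ Z) := by simp
    have k7 : HasLab w0 (app (r, true) U) r.1.2 :=
      ((e1 ▸ hs).inv.1.app (m := (r, true)) k5).2.1
    rw [mvF_eq (m := (r', true)) ((k4.append k5).append k6) k2]
    conv_lhs => rw [e1, mvF_eq (m := (r, true)) k4 k5]
    have e2 : X ++ app (r, true) U ++ (Y ++ U' ++ Z) = X ++ app (r, true) U ++ Y ++ U' ++ Z := by
      simp
    have e3 : X ++ U ++ Y ++ app (r', true) U' ++ Z = X ++ U ++ (Y ++ app (r', true) U' ++ Z) := by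
      simp
    rw [e2, mvF_eq (m := (r', true)) ((k4.append k7).append k6) k2, e3,
      mvF_eq (m := (r, true)) k4 k5]
    simp

/-- the action functor -/
noncomputable def actF : SquierGroupoid P ⥤ FibObj P w0 :=
  liftG (actPre P w0) (actPre_compat P w0)

variable {P}

/-- the action of an arrow on the fibres -/
noncomputable def act {x y : Word P} (f : vertex P x ⟶ vertex P y) : Fib w0 x ≃ Fib w0 y :=
  (actF P w0).map f

theorem act_id (x : Word P) : act w0 (𝟙 (vertex P x)) = Equiv.refl _ := (actF P w0).map_id _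

theorem act_comp {x y z : Word P} (f : vertex P x ⟶ vertex P y) (g : vertex P y ⟶ vertex P z) :
    act w0 (f ≫ g) = (act w0 f).trans (act w0 g) := (actF P w0).map_comp f g

theorem act_inv {x y : Word P} (f : vertex P x ⟶ vertex P y) :
    act w0 (Groupoid.inv f) = (act w0 f).symm := by
  have : (act w0 (Groupoid.inv f)).trans (act w0 f) = Equiv.refl _ := by
    rw [← act_comp, Groupoid.inv_comp, act_id]
  ext L : 1
  rw [Equiv.eq_symm_apply]
  exact congrFun (congrArg DFunLike.coe this) L

theorem act_edge {x y : Word P} (e : x ⟶ y) :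
    act w0 (edge e) = mvE w0 e.a (⟨(e.u, e.v), e.mem⟩, true) e.b e.src e.tgt :=
  liftG_edge (actPre P w0) (actPre_compat P w0) e

theorem act_sedge {x y : Word P} (a : List A) (m : Mv P) (b : List A) (hx) (hy) (L : Fib w0 x) :
    (act w0 (sedge (x := x) (y := y) a m b hx hy) L).1 = mvF a m L.1 := by
  obtain ⟨r, _ | _⟩ := m
  · simp only [sedge, act_inv, act_edge]
    rfl
  · simp only [sedge, act_edge]
    rfl

variable {w0}

/-- walks in the wire model -/
abbrev W (Q : Hy P w0 → Prop) (L : List (Tm (Mv P))) (u : UG P) (L' : List (Tm (Mv P))) : Prop :=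
  Pre.Walk (vals P w0) Q L u L'

theorem W.mv {L X U Y : List (Tm (Mv P))} {u : UG P} {m : Mv P}
    (h : W (w0 := w0) (fun _ => True) L u (X ++ U ++ Y)) (hL : St P w0 L)
    (hU : HasLab w0 U m.dom) :
    W (w0 := w0) (fun _ => True) L (u * ev1 (word w0 X) m (word w0 Y)) (X ++ app m U ++ Y) :=
  Pre.Walk.step (S := pre P w0) (H := (⟨(m, U), hU, X, Y, h.st hL⟩ : Hy P w0)) h trivial

theorem walk_act {x y : Word P} (f : vertex P x ⟶ vertex P y) :
    ∀ L : Fib w0 x, W (w0 := w0) (fun _ => True) L.1 (ev f) (act w0 f L).1 := by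
  refine hom_ind (motive := fun {x y} f => ∀ L : Fib w0 x,
    W (w0 := w0) (fun _ => True) L.1 (ev f) (act w0 f L).1) ?_ ?_ f
  · intro x L
    rw [ev_id, act_id]
    exact Pre.Walk.refl
  · intro x y z f a m b hy hz ih L
    rw [ev_comp, ev_sedge, act_comp, Equiv.trans_apply, act_sedge]
    have h1 := ih L
    have h2 := (act w0 f L).lb.cast hy
    obtain ⟨X, U, Y, e, k1, k2, k3⟩ := h2.split
    rw [e] at h1 ⊢
    rw [mvF_eq k1 k2, ← k1.word_eq, ← k3.word_eq]
    exact W.mv h1 L.st k2

theorem walk_hom {Q : Hy P w0 → Prop} {x : Word P} (L : Fib w0 x) {u : UG P}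
    {L' : List (Tm (Mv P))} (h : W Q L.1 u L') : ∀ y : Word P, HasLab w0 L' y.val →
      ∃ f : vertex P x ⟶ vertex P y, ev f = u ∧ (act w0 f L).1 = L' := by
  induction h with
  | refl =>
    intro y hy
    obtain rfl : y = x := by
      have := hy.word_eq.symm.trans L.lb.word_eq
      cases x; cases y; congr
    exact ⟨𝟙 _, ev_id _, by rw [act_id]; rfl⟩
  | @step u X H Y hw _ ih =>
    intro z hz
    have hs : St P w0 (X ++ H.1.2 ++ Y) := hw.st L.st
    have k1 := hs.hasLab.of_append.1.of_append.1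
    have k3 := hs.hasLab.of_append.2
    obtain ⟨f, f1, f2⟩ := ih ⟨word w0 X ++ H.1.1.dom ++ word w0 Y, mid_ne _ H.1.1.dom_ne _⟩
      ((k1.append H.2.1).append k3)
    have e : z.val = word w0 X ++ H.1.1.cod ++ word w0 Y := by
      rw [← hz.word_eq, word_append, word_append, word_out]
    refine ⟨f ≫ sedge _ H.1.1 _ rfl e, ?_, ?_⟩
    · rw [ev_comp, f1, ev_sedge]; rfl
    · rw [act_comp, Equiv.trans_apply, act_sedge, f2]
      exact mvF_eq k1 H.2.1

theorem St.ne_nil {L : List (Tm (Mv P))} (h : St P w0 L) (h0 : w0 ≠ []) : word w0 L ≠ [] := by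
  cases h with
  | base => rw [hasLab_L0.word_eq]; exact h0
  | step hs hl =>
    rw [word_append, word_append, (hs.inv.1.app hl).2.1.word_eq]
    exact mid_ne _ (Mv.cod_ne _) _

theorem walk_unique (h0 : w0 ≠ []) {Q Q' : Hy P w0 → Prop} {L L1 L2 : List (Tm (Mv P))}
    {u : UG P} (hL : St P w0 L) (h1 : W Q L u L1) (h2 : W Q' L u L2)
    (e : word w0 L1 = word w0 L2) : L1 = L2 := by
  have s1 : St P w0 L1 := h1.st hL
  have s2 : St P w0 L2 := h2.st hL
  obtain ⟨f1, a1, b1⟩ := walk_hom (x := ⟨_, hL.ne_nil h0⟩) ⟨L, hL, hL.hasLab⟩ h1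
    ⟨_, s1.ne_nil h0⟩ s1.hasLab
  obtain ⟨f2, a2, b2⟩ := walk_hom (x := ⟨_, hL.ne_nil h0⟩) ⟨L, hL, hL.hasLab⟩ h2
    ⟨_, s1.ne_nil h0⟩ (s2.hasLab.cast e.symm)
  rw [← b1, ← b2, ev_injective (a1.trans a2.symm)]

theorem W.symm {L L' : List (Tm (Mv P))} {u : UG P} (h : W (w0 := w0) (fun _ => True) L u L') :
    W (w0 := w0) (fun _ => True) L' u⁻¹ L := by
  induction h with
  | refl => rw [inv_one]; exact Pre.Walk.refl
  | @step u X H Y _ _ ih =>
    have h1 : W (w0 := w0) (fun _ => True) (X ++ (pre P w0).inp ((pre P w0).flip H) ++ Y)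
        (1 * (vals P w0).val X ((pre P w0).flip H) Y)
        (X ++ (pre P w0).inp ((pre P w0).flip ((pre P w0).flip H)) ++ Y) :=
      Pre.Walk.step Pre.Walk.refl trivial
    rw [(pre P w0).flip_flip] at h1
    refine (h1.trans ih).cast ?_ rfl
    rw [one_mul, mul_inv_rev, (eq_inv_of_mul_eq_one_right ((vals P w0).cancel X H Y))]

theorem St.walk {L : List (Tm (Mv P))} (h : St P w0 L) :
    ∃ u, W (w0 := w0) (fun _ => True) (L0 P w0) u L := by
  induction h with
  | base => exact ⟨1, Pre.Walk.refl⟩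
  | step _ hl ih =>
    obtain ⟨u, ih⟩ := ih
    exact ⟨_, W.mv ih St.base hl⟩

/-- substitution of a state for the initial wires -/
noncomputable def sub (Lg : List (Tm (Mv P))) : Tm (Mv P) → Tm (Mv P)
  | Tm.init i => Lg[i]?.getD Tm.nil
  | Tm.out m X j => (app m (dec (sub Lg X)))[j]?.getD Tm.nil
  | Tm.nil => Tm.nil
  | Tm.cons t X => Tm.cons (sub Lg t) (sub Lg X)

theorem sub_enc (Lg : List (Tm (Mv P))) : ∀ l : List (Tm (Mv P)),
    sub Lg (enc l) = enc (l.map (sub Lg))
  | [] => rfl
  | t :: l => by simp [enc, sub, sub_enc Lg l]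

theorem map_range_getD {T : Type*} (l : List T) (d : T) {n : ℕ} (h : l.length = n) :
    (List.range n).map (fun j => l[j]?.getD d) = l := by
  subst h
  apply List.ext_getElem
  · simp
  · intro i h1 h2
    simp [h2]

theorem walk_sub {Lg : List (Tm (Mv P))} (hs : St P w0 Lg) (hl : HasLab w0 Lg w0)
    {Q : Hy P w0 → Prop} {u : UG P} {L : List (Tm (Mv P))} (h : W Q (L0 P w0) u L) :
    W (w0 := w0) (fun _ => True) Lg u (L.map (sub Lg)) ∧
      (L.map (sub Lg)).map (lab w0) = L.map (lab w0) := by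
  have h' := h.monotone St.base
  clear h
  induction h' with
  | refl =>
    have : (L0 P w0).map (sub Lg) = Lg := by
      rw [L0, List.map_map]
      exact map_range_getD Lg Tm.nil hl.length
    rw [this]
    exact ⟨Pre.Walk.refl, hl.trans hasLab_L0.symm⟩
  | @step u X H Y hw hp ih =>
    obtain ⟨⟨m, U⟩, hU, hR⟩ := H
    have ho : ¬ IsOut m U := by
      rintro ⟨U', rfl⟩
      exact hp (sideR_outs.2 not_cell_L0)
    change W _ Lg u ((X ++ U ++ Y).map (sub Lg)) ∧
      ((X ++ U ++ Y).map (sub Lg)).map (lab w0) = (X ++ U ++ Y).map (lab w0) at ih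
    change W _ Lg (u * ev1 (word w0 X) m (word w0 Y)) ((X ++ app m U ++ Y).map (sub Lg)) ∧
      ((X ++ app m U ++ Y).map (sub Lg)).map (lab w0) = (X ++ app m U ++ Y).map (lab w0)
    obtain ⟨i1, i2⟩ := ih
    simp only [List.map_append] at i1 i2 ⊢
    obtain ⟨i3, i4⟩ := List.append_inj i2 (by simp)
    obtain ⟨i5, i6⟩ := List.append_inj i3 (by simp)
    have hU' : HasLab w0 (U.map (sub Lg)) m.dom := i6.trans hU
    have hc := ((i1.st hs).inv.1.app hU').2.1
    have e : (app m U).map (sub Lg) = app m (U.map (sub Lg)) := by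
      rw [app_of_not ho, outs, List.map_map]
      refine Eq.trans ?_ (map_range_getD _ Tm.nil hc.length)
      refine List.map_congr_left fun j _ => ?_
      simp only [Function.comp, sub, sub_enc, dec_enc]
    have wX : word w0 (X.map (sub Lg)) = word w0 X := by
      have := congrArg (List.filterMap id) i5
      simpa [word, List.filterMap_map] using this
    have wY : word w0 (Y.map (sub Lg)) = word w0 Y := by
      have := congrArg (List.filterMap id) i4
      simpa [word, List.filterMap_map] using this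
    rw [e, i5, i4]
    refine ⟨?_, ?_⟩
    · rw [← wX, ← wY]
      exact W.mv i1 hs hU'
    · rw [hc, app_of_not ho, hasLab_outs]

section action

variable (x0 : Word P)

/-- the base point of the fibre -/
def base : Fib x0.val x0 := ⟨L0 P x0.val, St.base, hasLab_L0⟩

/-- the state of a group element -/
noncomputable def stOf (g : DiagramGroup P x0) : Fib x0.val x0 := act x0.val g (base x0)

variable {x0}

theorem walk_stOf (g : DiagramGroup P x0) :
    W (w0 := x0.val) (fun _ => True) (L0 P x0.val) (ev g) (stOf x0 g).1 :=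
  walk_act g (base x0)

theorem walk_g (g : DiagramGroup P x0) {u : UG P} {L : List (Tm (Mv P))}
    (h : W (w0 := x0.val) (fun _ => True) (L0 P x0.val) u L) :
    W (w0 := x0.val) (fun _ => True) (L0 P x0.val) (ev g * u) (L.map (sub (stOf x0 g).1)) :=
  (walk_stOf g).trans (walk_sub (stOf x0 g).st (stOf x0 g).lb h).1

theorem lab_g (g : DiagramGroup P x0) {L : List (Tm (Mv P))} (h : St P x0.val L) :
    (L.map (sub (stOf x0 g).1)).map (lab x0.val) = L.map (lab x0.val) := by
  obtain ⟨u, h⟩ := h.walk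
  exact (walk_sub (stOf x0 g).st (stOf x0 g).lb h).2

theorem word_of_lab {w0 : List A} {L L' : List (Tm (Mv P))}
    (h : L.map (lab w0) = L'.map (lab w0)) : word w0 L = word w0 L' := by
  have := congrArg (List.filterMap id) h
  simpa [word, List.filterMap_map] using this

theorem st_g (g : DiagramGroup P x0) {L : List (Tm (Mv P))} (h : St P x0.val L) :
    St P x0.val (L.map (sub (stOf x0 g).1)) := by
  obtain ⟨u, h⟩ := h.walk
  exact (walk_g g h).st St.base

theorem sub_one {L : List (Tm (Mv P))} (h : St P x0.val L) :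
    L.map (sub (stOf x0 1).1) = L := by
  obtain ⟨u, hw⟩ := h.walk
  refine walk_unique x0.ne St.base ((walk_g 1 hw).cast ?_ rfl) hw (word_of_lab (lab_g 1 h))
  rw [show ev (1 : DiagramGroup P x0) = 1 from ev_id x0, one_mul]

theorem sub_mul (g k : DiagramGroup P x0) {L : List (Tm (Mv P))} (h : St P x0.val L) :
    L.map (sub (stOf x0 (g * k)).1) = (L.map (sub (stOf x0 k).1)).map (sub (stOf x0 g).1) := by
  obtain ⟨u, hw⟩ := h.walk
  refine walk_unique x0.ne St.base ((walk_g (g * k) hw).cast ?_ rfl) (walk_g g (walk_g k hw))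
    (word_of_lab ?_)
  · rw [show ev (g * k) = ev g * ev k from ev_comp g k, mul_assoc]
  · rw [lab_g (g * k) h, lab_g g (st_g k h), lab_g k h]

variable (x0)

/-- wires that occur in some state -/
def Real (t : Tm (Mv P)) : Prop := ∃ L, St P x0.val L ∧ t ∈ L

open Classical in
noncomputable instance actTm : MulAction (DiagramGroup P x0) (Tm (Mv P)) where
  smul g t := if Real x0 t then sub (stOf x0 g).1 t else t
  one_smul t := by
    change (if Real x0 t then sub (stOf x0 1).1 t else t) = t
    split_ifs with h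
    · obtain ⟨L, h1, h2⟩ := h
      exact fix_of_map_eq (sub_one h1) t h2
    · rfl
  mul_smul g k t := by
    change (if Real x0 t then sub (stOf x0 (g * k)).1 t else t) =
      if Real x0 (if Real x0 t then sub (stOf x0 k).1 t else t) then
        sub (stOf x0 g).1 (if Real x0 t then sub (stOf x0 k).1 t else t)
      else (if Real x0 t then sub (stOf x0 k).1 t else t)
    by_cases h : Real x0 t
    · obtain ⟨L, h1, h2⟩ := h
      have r1 : Real x0 t := ⟨L, h1, h2⟩
      have r2 : Real x0 (sub (stOf x0 k).1 t) := ⟨_, st_g k h1, List.mem_map_of_mem h2⟩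
      rw [if_pos r1, if_pos r1, if_pos r2]
      have := sub_mul g k h1
      rw [List.map_map] at this
      exact List.map_inj_left.1 this t h2
    · rw [if_neg h, if_neg h, if_neg h]

variable {x0}

theorem smul_map (g : DiagramGroup P x0) {L L' : List (Tm (Mv P))} (h : St P x0.val L)
    (hsub : ∀ t ∈ L', t ∈ L) : L'.map (g • ·) = L'.map (sub (stOf x0 g).1) := by
  refine List.map_congr_left fun t ht => ?_
  exact if_pos ⟨L, h, hsub t ht⟩

theorem smul_map' (g : DiagramGroup P x0) {L : List (Tm (Mv P))} (h : St P x0.val L) :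
    L.map (g • ·) = L.map (sub (stOf x0 g).1) := smul_map g h fun _ h => h

theorem st_smul (g : DiagramGroup P x0) {L : List (Tm (Mv P))} (h : St P x0.val L) :
    St P x0.val (L.map (g • ·)) := by
  rw [smul_map' g h]; exact st_g g h

theorem lab_smul (g : DiagramGroup P x0) {X U Y : List (Tm (Mv P))}
    (h : St P x0.val (X ++ U ++ Y)) :
    (X.map (g • ·)).map (lab x0.val) = X.map (lab x0.val) ∧
    (U.map (g • ·)).map (lab x0.val) = U.map (lab x0.val) ∧
    (Y.map (g • ·)).map (lab x0.val) = Y.map (lab x0.val) := by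
  have := lab_g g h
  rw [← smul_map' g h] at this
  simp only [List.map_append] at this
  obtain ⟨i3, i4⟩ := List.append_inj this (by simp)
  obtain ⟨i5, i6⟩ := List.append_inj i3 (by simp)
  exact ⟨i5, i6, i4⟩

theorem walk_smul (g : DiagramGroup P x0) {u : UG P} {L : List (Tm (Mv P))}
    (h : W (w0 := x0.val) (fun _ => True) (L0 P x0.val) u L) :
    W (w0 := x0.val) (fun _ => True) (L0 P x0.val) (ev g * u) (L.map (g • ·)) := by
  rw [smul_map' g (h.st St.base)]
  exact walk_g g h

theorem app_smul (g : DiagramGroup P x0) {X U Y : List (Tm (Mv P))} {m : Mv P}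
    (h : St P x0.val (X ++ U ++ Y)) (hU : HasLab x0.val U m.dom) :
    (app m U).map (g • ·) = app m (U.map (g • ·)) := by
  obtain ⟨u, hw⟩ := h.walk
  obtain ⟨l1, l2, l3⟩ := lab_smul g h
  obtain ⟨-, l4, -⟩ := lab_smul g (St.step h hU)
  have hU' : HasLab x0.val (U.map (g • ·)) m.dom := l2.trans hU
  have w1 := walk_smul g (W.mv hw St.base hU)
  have w2 := walk_smul g hw
  rw [List.map_append, List.map_append] at w1 w2
  have w3 := W.mv w2 St.base hU'
  rw [word_of_lab l1, word_of_lab l3, mul_assoc] at w3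
  have := walk_unique x0.ne St.base w1 w3 (by
    rw [word_append, word_append, word_append, word_append, word_of_lab l4,
      (h.inv.1.app hU).2.1.word_eq, ((w2.st St.base).inv.1.app hU').2.1.word_eq])
  rw [List.append_assoc, List.append_assoc] at this
  exact List.append_cancel_right (List.append_cancel_left this)

variable (x0)

noncomputable instance actHy : MulAction (DiagramGroup P x0) (Hy P x0.val) where
  smul g H := ⟨(H.1.1, H.1.2.map (g • ·)), by
    obtain ⟨h1, X, Y, h2⟩ := H.2
    refine ⟨(lab_smul g h2).2.1.trans h1, X.map (g • ·), Y.map (g • ·), ?_⟩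
    have := st_smul g h2
    rwa [List.map_append, List.map_append] at this⟩
  one_smul H := Subtype.ext (Prod.ext rfl (by
    change H.1.2.map ((1 : DiagramGroup P x0) • ·) = H.1.2
    simp))
  mul_smul g k H := Subtype.ext (Prod.ext rfl (by
    change H.1.2.map ((g * k) • ·) = (H.1.2.map (k • ·)).map (g • ·)
    simp [mul_smul, Function.comp_def]))

/-- the diagram group acting on its wire system -/
noncomputable def sys : Sys (DiagramGroup P x0) (Tm (Mv P)) (Hy P x0.val) (UG P) where
  toPre := pre P x0.val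
  V := vals P x0.val
  smul_flip g H := by
    obtain ⟨h1, X, Y, h2⟩ := H.2
    exact Subtype.ext (Prod.ext rfl (app_smul g h2 h1))
  inp_smul _ _ := rfl
  no_inv g H h := H.1.1.rev_ne (congrArg (fun K : Hy P x0.val => K.1.1) h).symm
  fix g H h := Subtype.ext (Prod.ext rfl (map_eq_of_fix h))
  st_smul g _ h := st_smul g h
  real H := H.2.2
  conn {L L'} h h' := by
    obtain ⟨u, h1⟩ := St.walk h
    obtain ⟨u', h2⟩ := St.walk h'
    exact ⟨_, h1.symm.trans h2⟩
  free g L h e := by
    obtain ⟨u, h1⟩ := St.walk h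
    have h2 := walk_smul g h1
    rw [e] at h2
    have := (h2.trans h1.symm).closed St.base
    rw [mul_inv_cancel_right] at this
    exact ev_injective (this.trans (ev_id x0).symm)
  full g X Y h h' := by
    have hs : St P x0.val (X ++ Y) := h
    have hs' : St P x0.val (X.map (g • ·) ++ Y) := h'
    obtain ⟨u, h1⟩ := hs.walk
    obtain ⟨u', h2⟩ := hs'.walk
    have l1 := (lab_smul g (U := []) (X := X) (Y := Y) (by simpa using hs)).1
    have e : word x0.val (X.map (g • ·) ++ Y) = word x0.val (X ++ Y) := by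
      rw [word_append, word_append, word_of_lab l1]
    obtain ⟨f1, a1, -⟩ := walk_hom (base x0) h1 ⟨_, hs.ne_nil x0.ne⟩ hs.hasLab
    obtain ⟨f2, a2, -⟩ := walk_hom (base x0) h2 ⟨_, hs.ne_nil x0.ne⟩ (hs'.hasLab.cast e)
    let a : DiagramGroup P x0 := f2 ≫ Groupoid.inv f1
    refine ⟨a, walk_unique x0.ne St.base ((walk_smul a h1).cast ?_ rfl) h2 ?_⟩
    · change ev (f2 ≫ Groupoid.inv f1) * u = u'
      rw [ev_comp, ev_inv, a1, a2, inv_mul_cancel_right]
    · rw [e, smul_map' a hs]
      exact word_of_lab (lab_g a hs)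
  nonempty := ⟨_, St.base⟩

end action

/-- In a diagram group, for every basis `g`, `h` of a free abelian subgroup of rank two a power of
one of `g`, `h`, `g h` splits. -/
theorem diagram_split (x0 : Word P) {g h : DiagramGroup P x0} (c : Commute g h)
    (ind : ∀ i j : ℤ, g ^ i * h ^ j = 1 → i = 0 ∧ j = 0) :
    ∃ N : ℕ, 0 < N ∧ (Split (g ^ N) ∨ Split (h ^ N) ∨ Split ((g * h) ^ N)) :=
  Sys.split_main (S := sys x0) c ind

end Pool.Agent.H868Z.Diagram
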