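import Mathlib
import Pool.Agent.H868Z.Diagram.Model2

/-!
# Sums of diagrams, vertex groups inside the universal group, torsion
-/

set_option maxHeartbeats 400000

namespace Pool.Agent.H868Z.Diagram

open CategoryTheory Tm

universe u

variable {A : Type u} {P : Pres A}

/-- putting an edge path in a context -/
def ctx (l r : List A) : UG P →* UG P :=
  UG.lift (fun a ρ b => E (l ++ a) ρ (b ++ r)) (by
    intro a ρ b ρ' c
    have := E_square (l ++ a) ρ b ρ' (c ++ r)
    simpa only [List.append_assoc] using this)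

theorem ctx_E (l r a : List A) (ρ : P.rel) (b : List A) :
    ctx l r (E a ρ b) = E (l ++ a) ρ (b ++ r) := UG.lift_E _ _ _ _ _

theorem ctx_ev1 (l r a : List A) (m : Mv P) (b : List A) :
    ctx l r (ev1 a m b) = ev1 (l ++ a) m (b ++ r) := by
  obtain ⟨ρ, _ | _⟩ := m <;> simp [ctx_E]

theorem Conn.ctx {x y : List A} {u : UG P} (h : Conn x u y) (l r : List A) :
    Conn (l ++ x ++ r) (ctx l r u) (l ++ y ++ r) := by
  induction h with
  | refl => rw [map_one]; exact Conn.refl
  | @step u a m b _ ih =>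
    rw [map_mul, ctx_ev1]
    exact (Conn.step (ih.cast rfl (by simp only [List.append_assoc]))).cast rfl
      (by simp only [List.append_assoc])

theorem ctx_comm1 {x x' : List A} {u : UG P} (h : Conn x u x') (b : List A) (m : Mv P)
    (c : List A) :
    ctx [] (b ++ m.dom ++ c) u * ev1 (x' ++ b) m c = ev1 (x ++ b) m c * ctx [] (b ++ m.cod ++ c) u := by
  induction h with
  | refl => simp
  | @step u a n d _ ih =>
    rw [map_mul, map_mul, ctx_ev1, ctx_ev1, ← mul_assoc, ← ih, mul_assoc, mul_assoc]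
    congr 1
    have := ev1_square a n (d ++ b) m c
    simpa only [List.append_assoc, List.nil_append] using this

theorem ctx_comm {x x' y y' : List A} {u v : UG P} (h : Conn x u x') (h' : Conn y v y') :
    ctx [] y u * ctx x' [] v = ctx x [] v * ctx [] y' u := by
  induction h' with
  | refl => simp
  | @step v a m b _ ih =>
    rw [map_mul, map_mul, ctx_ev1, ctx_ev1, ← mul_assoc, ih, mul_assoc, mul_assoc, List.append_nil,
      ctx_comm1 h]

theorem Conn.nil {u : UG P} {y : List A} (h : Conn [] u y) : u = 1 ∧ y = [] := by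
  induction h with
  | refl => exact ⟨rfl, rfl⟩
  | @step u a m b _ ih => exact absurd ih.2 (mid_ne a m.dom_ne b)

/-- the vertex group at a word, inside the universal group -/
def DG (P : Pres A) (x : List A) : Subgroup (UG P) where
  carrier := {u | Conn x u x}
  one_mem' := Conn.refl
  mul_mem' := Conn.trans
  inv_mem' := Conn.symm

theorem mem_DG {x : List A} {u : UG P} : u ∈ DG P x ↔ Conn x u x := Iff.rfl

theorem range_evHom (x : Word P) : (evHom x).range = DG P x.val :=
  Subgroup.ext fun _ => mem_range_evHom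

/-- the diagram group is the vertex group inside the universal group -/
noncomputable def dgEquiv (x : Word P) : DiagramGroup P x ≃* DG P x.val :=
  (MonoidHom.ofInjective (evHom_injective x)).trans (MulEquiv.subgroupCongr (range_evHom x))

theorem DG_nil : DG P [] = ⊥ := (Subgroup.eq_bot_iff_forall _).2 fun _ h => h.nil.1

theorem diagram_torsionFree (x : Word P) {f : DiagramGroup P x} (hf : f ≠ 1) {n : ℤ}
    (h : f ^ n = 1) : n = 0 := by
  obtain ⟨H, hH⟩ := Sys.exists_pos (S := sys x) hf
  exact hH.zpow_eq (by rw [h, one_smul])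

theorem DG_torsionFree {x : List A} {u : UG P} (hu : Conn x u x) (h1 : u ≠ 1) {n : ℤ}
    (h : u ^ n = 1) : n = 0 := by
  by_cases hx : x = []
  · subst hx
    exact absurd hu.nil.1 h1
  obtain ⟨f, rfl⟩ := (mem_range_evHom (x := ⟨x, hx⟩)).2 hu
  refine diagram_torsionFree ⟨x, hx⟩ (f := f) (fun e => h1 (by rw [e, map_one])) ?_
  apply evHom_injective
  rw [map_zpow, h, map_one]

/-- shifting the initial wires -/
def sh (k : ℕ) : Tm (Mv P) → Tm (Mv P)
  | Tm.init i => Tm.init (i + k)
  | Tm.out m X j => Tm.out m (sh k X) j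
  | Tm.nil => Tm.nil
  | Tm.cons t X => Tm.cons (sh k t) (sh k X)

theorem sh_inj (k : ℕ) : ∀ s t : Tm (Mv P), sh k s = sh k t → s = t := by
  intro s
  induction s with
  | init i => rintro (_ | _ | _ | _) h <;> simp_all [sh]
  | out m X j ih =>
    rintro (_ | ⟨m', X', j'⟩ | _ | _) h <;> simp only [sh, Tm.out.injEq, reduceCtorEq] at h
    rw [h.1, ih _ h.2.1, h.2.2]
  | nil => rintro (_ | _ | _ | _) h <;> simp_all [sh]
  | cons t X ih1 ih2 =>
    rintro (_ | _ | _ | ⟨t', X'⟩) h <;> simp only [sh, Tm.cons.injEq, reduceCtorEq] at h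
    rw [ih1 _ h.1, ih2 _ h.2]

theorem sh_enc (k : ℕ) : ∀ l : List (Tm (Mv P)), sh k (enc l) = enc (l.map (sh k))
  | [] => rfl
  | t :: l => by simp [enc, sh, sh_enc k l]

theorem sh_outs (k : ℕ) (m : Mv P) (U : List (Tm (Mv P))) :
    (outs m U).map (sh k) = outs m (U.map (sh k)) := by
  simp [outs, sh, sh_enc]

theorem sh_eq_enc (k : ℕ) : ∀ (l : List (Tm (Mv P))) (X : Tm (Mv P)), sh k X = enc l →
    ∃ l', X = enc l'
  | [], X, h => by
    cases X <;> simp only [sh, enc, reduceCtorEq] at h
    exact ⟨[], rfl⟩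
  | t :: l, X, h => by
    rcases X with _ | _ | _ | ⟨s, X⟩ <;> simp only [sh, enc, reduceCtorEq, Tm.cons.injEq] at h
    obtain ⟨l', rfl⟩ := sh_eq_enc k l X h.2
    exact ⟨s :: l', rfl⟩

theorem sh_app (k : ℕ) (m : Mv P) (U : List (Tm (Mv P))) :
    (app m U).map (sh k) = app m (U.map (sh k)) := by
  by_cases ho : IsOut m U
  · obtain ⟨U', rfl⟩ := ho
    rw [app_outs, sh_outs, app_outs]
  · rw [app_of_not ho, sh_outs, app_of_not]
    rintro ⟨U', e⟩
    apply ho
    obtain ⟨t, -, ht⟩ := List.mem_map.1 (e ▸ zero_mem_outs m.rev U')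
    rcases t with _ | ⟨n, X, j⟩ | _ | _ <;> simp only [sh, reduceCtorEq, Tm.out.injEq] at ht
    obtain ⟨l', rfl⟩ := sh_eq_enc k _ _ ht.2.1
    rw [sh_enc] at ht
    refine ⟨l', List.map_injective_iff.2 (sh_inj k) ?_⟩
    rw [sh_outs, e, enc_inj ht.2.1]

theorem HasLab.sh {w0 w0' : List A} {k : ℕ} (hk : ∀ i a, w0[i]? = some a → w0'[i + k]? = some a) :
    ∀ {L : List (Tm (Mv P))} {w : List A}, HasLab w0 L w → HasLab w0' (L.map (sh k)) w
  | [], w, h => h
  | t :: L, [], h => by simp [HasLab] at h
  | t :: L, a :: w, h => by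
    have ih := HasLab.sh hk (L := L) (w := w)
    simp only [HasLab, List.map_cons, List.cons.injEq] at h ih ⊢
    refine ⟨?_, ih h.2⟩
    have h1 := h.1
    cases t with
    | init i => exact hk i a h1
    | out m X j => exact h1
    | nil => exact h1
    | cons t X => exact h1

theorem walk_shift {w0 w0' : List A} {k : ℕ}
    (hk : ∀ i a, w0[i]? = some a → w0'[i + k]? = some a) {L L' : List (Tm (Mv P))} {u : UG P}
    (h : W (w0 := w0) (fun _ => True) L u L') (hL : St P w0 L) (X Z : List (Tm (Mv P)))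
    (hs : St P w0' (X ++ L.map (sh k) ++ Z)) :
    W (w0 := w0') (fun _ => True) (X ++ L.map (sh k) ++ Z) (ctx (word w0' X) (word w0' Z) u)
      (X ++ L'.map (sh k) ++ Z) := by
  induction h with
  | refl => rw [map_one]; exact Pre.Walk.refl
  | @step u B H C hw _ ih =>
    obtain ⟨⟨m, U⟩, hU, hR⟩ := H
    have s1 : St P w0 (B ++ U ++ C) := hw.st hL
    have k1 := s1.hasLab.of_append.1.of_append.1
    have k3 := s1.hasLab.of_append.2
    change W _ _ _ (X ++ (B ++ U ++ C).map (sh k) ++ Z) at ih
    change W _ _ (ctx _ _ (u * ev1 (word w0 B) m (word w0 C)))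
      (X ++ (B ++ app m U ++ C).map (sh k) ++ Z)
    have h2 := W.mv (X := X ++ B.map (sh k)) (U := U.map (sh k)) (Y := C.map (sh k) ++ Z) (m := m)
      (ih.cast rfl (by simp only [List.map_append, List.append_assoc])) hs (HasLab.sh hk hU)
    refine h2.cast ?_ (by simp only [List.map_append, List.append_assoc, sh_app])
    rw [map_mul, ctx_ev1, word_append, word_append, (HasLab.sh hk k1).word_eq,
      (HasLab.sh hk k3).word_eq]

theorem Conn.walk {w0 y y' : List A} {u : UG P} (h : Conn y u y') {L : List (Tm (Mv P))}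
    (hL : St P w0 L) (hl : HasLab w0 L y) :
    ∃ L', W (w0 := w0) (fun _ => True) L u L' ∧ HasLab w0 L' y' := by
  induction h with
  | refl => exact ⟨L, Pre.Walk.refl, hl⟩
  | @step u a m b _ ih =>
    obtain ⟨L', h1, h2⟩ := ih
    obtain ⟨X, U, Y, rfl, k1, k2, k3⟩ := h2.split
    refine ⟨X ++ app m U ++ Y, ?_, (k1.append ((h1.st hL).inv.1.app k2).2.1).append k3⟩
    rw [← k1.word_eq, ← k3.word_eq]
    exact W.mv h1 hL k2

/-- the sum of two spherical diagrams is trivial only if both are -/
theorem sum_inj {x y : List A} {u v : UG P} (hu : Conn x u x) (hv : Conn y v y)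
    (h : ctx [] y u * ctx x [] v = 1) : u = 1 ∧ v = 1 := by
  by_cases h0 : x ++ y = []
  · obtain ⟨rfl, rfl⟩ := List.append_eq_nil_iff.1 h0
    exact ⟨hu.nil.1, hv.nil.1⟩
  obtain ⟨X, x1, x2⟩ := hu.walk (w0 := x) St.base hasLab_L0
  obtain ⟨Y, y1, y2⟩ := hv.walk (w0 := y) St.base hasLab_L0
  have kx : ∀ i a, x[i]? = some a → (x ++ y)[i + 0]? = some a := by
    intro i a e
    rw [add_zero, List.getElem?_append_left (List.getElem?_eq_some_iff.1 e).1, e]
  have ky : ∀ i a, y[i]? = some a → (x ++ y)[i + x.length]? = some a := by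
    intro i a e
    rw [List.getElem?_append_right (by omega)]
    simpa using e
  have e0 : L0 P (x ++ y) = (L0 P x).map (sh 0) ++ (L0 P y).map (sh x.length) := by
    simp [L0, List.range_add, sh, Function.comp_def, add_comm]
  have s0 : St P (x ++ y) ([] ++ (L0 P x).map (sh 0) ++ (L0 P y).map (sh x.length)) := by
    rw [List.nil_append, ← e0]; exact St.base
  have w1 := walk_shift kx x1 St.base [] _ s0
  have s1 : St P (x ++ y) _ := w1.st s0
  have w2 := walk_shift ky y1 St.base (X.map (sh 0)) []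
    (by simpa only [List.nil_append, List.append_nil] using s1)
  rw [(HasLab.sh ky hasLab_L0).word_eq] at w1
  rw [(HasLab.sh kx x2).word_eq] at w2
  simp only [List.nil_append, List.append_nil] at w1 w2 s0
  have w3 := (w1.trans w2).cast h rfl
  have e1 := walk_unique h0 s0 w3 (Pre.Walk.refl (P := fun _ => True)) (by
    rw [word_append, word_append, (HasLab.sh kx x2).word_eq, (HasLab.sh ky y2).word_eq,
      (HasLab.sh kx hasLab_L0).word_eq, (HasLab.sh ky hasLab_L0).word_eq])
  obtain ⟨e2, e3⟩ := List.append_inj e1 (by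
    rw [List.length_map, List.length_map, x2.length, hasLab_L0.length])
  rw [List.map_injective_iff.2 (sh_inj _) e2] at x1
  rw [List.map_injective_iff.2 (sh_inj _) e3] at y1
  exact ⟨x1.closed St.base, y1.closed St.base⟩

end Pool.Agent.H868Z.Diagram
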