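import Mathlib
import Pool.Agent.H868Z.Diagram.Core2

/-!
# The derived subgroup of the wreath product of a free group with the integers
-/

set_option maxHeartbeats 400000

namespace Pool.Agent.H868Z.Diagram

open scoped commutatorElement

theorem mk_single {α : Type*} (a : α) (s : Bool) :
    ∃ n : ℤ, FreeGroup.mk [(a, s)] = FreeGroup.of a ^ n := by
  cases s
  · exact ⟨-1, by rw [zpow_neg_one]; rfl⟩
  · exact ⟨1, by rw [zpow_one]; rfl⟩

theorem free_comm_aux {α : Type*} [DecidableEq α] (a : α) {N : ℕ} (hN : 0 < N) (k : ℕ) :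
    ∀ L : List (α × Bool), L.length = k → FreeGroup.IsReduced L →
      Commute (FreeGroup.mk L) (FreeGroup.of a ^ N) →
        ∃ n : ℤ, FreeGroup.mk L = FreeGroup.of a ^ n := by
  induction k using Nat.strong_induction_on with
  | _ k ih =>
  intro L hk hr hc
  rcases L with _ | ⟨⟨c, s⟩, L'⟩
  · exact ⟨0, rfl⟩
  by_cases h1 : c = a
  · subst h1
    obtain ⟨m, hm⟩ := mk_single c s
    have e : FreeGroup.mk ((c, s) :: L') = FreeGroup.of c ^ m * FreeGroup.mk L' := by
      rw [← hm, FreeGroup.mul_mk]; rfl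
    have hc' : Commute (FreeGroup.mk L') (FreeGroup.of c ^ N) := by
      have : FreeGroup.mk L' = (FreeGroup.of c ^ m)⁻¹ * FreeGroup.mk ((c, s) :: L') := by
        rw [e, inv_mul_cancel_left]
      rw [this]
      exact (((Commute.refl _).zpow_left m).pow_right N).inv_left.mul_left hc
    obtain ⟨n, hn⟩ := ih L'.length (by simp at hk; omega) L' rfl
      (List.IsChain.tail hr) hc'
    exact ⟨m + n, by rw [e, hn, zpow_add]⟩
  obtain ⟨L'', ⟨d, s'⟩, e0⟩ : ∃ L'' y, (c, s) :: L' = L'' ++ [y] :=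
    ⟨_, _, (List.dropLast_append_getLast (List.cons_ne_nil _ _)).symm⟩
  by_cases h2 : d = a
  · subst h2
    obtain ⟨m, hm⟩ := mk_single d s'
    have e : FreeGroup.mk ((c, s) :: L') = FreeGroup.mk L'' * FreeGroup.of d ^ m := by
      rw [← hm, FreeGroup.mul_mk, e0]
    have hc' : Commute (FreeGroup.mk L'') (FreeGroup.of d ^ N) := by
      have : FreeGroup.mk L'' = FreeGroup.mk ((c, s) :: L') * (FreeGroup.of d ^ m)⁻¹ := by
        rw [e, mul_inv_cancel_right]
      rw [this]
      exact hc.mul_left (((Commute.refl _).zpow_left m).pow_right N).inv_left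
    obtain ⟨n, hn⟩ := ih L''.length (by rw [← hk, e0]; simp) L'' rfl
      (List.IsChain.left_of_append (l₂ := [(d, s')]) (e0 ▸ hr)) hc'
    exact ⟨n + m, by rw [e, hn, zpow_add]⟩
  exfalso
  have hp : FreeGroup.of a ^ N = FreeGroup.mk (List.replicate N (a, true)) := by
    rw [← FreeGroup.toWord_of_pow, FreeGroup.mk_toWord]
  have hrep : FreeGroup.IsReduced (List.replicate N (a, true)) :=
    List.isChain_replicate_of_rel _ (fun _ => rfl)
  have r1 : FreeGroup.IsReduced (((c, s) :: L') ++ List.replicate N (a, true)) := by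
    refine List.isChain_append.2 ⟨hr, hrep, ?_⟩
    intro x hx y hy h
    rw [e0] at hx
    simp only [List.getLast?_concat, Option.mem_def, Option.some.injEq] at hx
    have := List.eq_of_mem_replicate (List.mem_of_mem_head? hy)
    subst hx this
    exact absurd h h2
  have r2 : FreeGroup.IsReduced (List.replicate N (a, true) ++ ((c, s) :: L')) := by
    refine List.isChain_append.2 ⟨hrep, hr, ?_⟩
    intro x hx y hy h
    simp only [List.head?_cons, Option.mem_def, Option.some.injEq] at hy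
    have := List.eq_of_mem_replicate (List.mem_of_mem_getLast? hx)
    subst hy this
    exact absurd h.symm h1
  have e := hc.eq
  rw [hp, FreeGroup.mul_mk, FreeGroup.mul_mk] at e
  have e2 := FreeGroup.reduce.sound e
  rw [r1.reduce_eq, r2.reduce_eq] at e2
  obtain ⟨N', rfl⟩ : ∃ N', N = N' + 1 := ⟨N - 1, by omega⟩
  simp only [List.replicate_succ, List.cons_append, List.cons.injEq, Prod.mk.injEq] at e2
  exact h1 e2.1.1

theorem free_comm {α : Type*} [DecidableEq α] (a : α) {N : ℕ} (hN : 0 < N) {w : FreeGroup α}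
    (h : Commute w (FreeGroup.of a ^ N)) : ∃ n : ℤ, w = FreeGroup.of a ^ n := by
  have := free_comm_aux a hN _ w.toWord rfl FreeGroup.isReduced_toWord
    (by rwa [FreeGroup.mk_toWord])
  rwa [FreeGroup.mk_toWord] at this

theorem free_eq_one {n m : ℤ} {w : FreeGroup Bool} (h1 : w = FreeGroup.of true ^ n)
    (h2 : w = FreeGroup.of false ^ m) : w = 1 := by
  have := congrArg (FreeGroup.lift (fun b : Bool => if b then FreeGroup.of true else 1))
    (h1.symm.trans h2)
  simp only [map_zpow, FreeGroup.lift_apply_of, if_true, Bool.false_eq_true, if_false,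
    one_zpow] at this
  rw [h1, this]

/-- the unrestricted wreath product with the integers -/
@[ext] structure Wr (F : Type*) where
  l : ℤ → F
  r : ℤ

namespace Wr

variable {F : Type*} [Group F]

instance : Group (Wr F) where
  mul a b := ⟨fun i => a.l i * b.l (i + a.r), a.r + b.r⟩
  one := ⟨fun _ => 1, 0⟩
  inv a := ⟨fun i => (a.l (i - a.r))⁻¹, -a.r⟩
  mul_assoc a b c := Wr.ext (funext fun i => by
    change a.l i * b.l (i + a.r) * c.l (i + (a.r + b.r)) =
      a.l i * (b.l (i + a.r) * c.l (i + a.r + b.r))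
    rw [mul_assoc, add_assoc]) (add_assoc _ _ _)
  one_mul a := Wr.ext (funext fun i => by
    change 1 * a.l (i + 0) = a.l i
    simp) (zero_add _)
  mul_one a := Wr.ext (funext fun i => mul_one _) (add_zero _)
  inv_mul_cancel a := Wr.ext (funext fun i => by
    change (a.l (i - a.r))⁻¹ * a.l (i + -a.r) = 1
    rw [sub_eq_add_neg, inv_mul_cancel]) (neg_add_cancel _)

@[simp] theorem mul_l (a b : Wr F) (i : ℤ) : (a * b).l i = a.l i * b.l (i + a.r) := rfl
@[simp] theorem mul_r (a b : Wr F) : (a * b).r = a.r + b.r := rfl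
@[simp] theorem one_l (i : ℤ) : (1 : Wr F).l i = 1 := rfl
@[simp] theorem one_r : (1 : Wr F).r = 0 := rfl
@[simp] theorem inv_l (a : Wr F) (i : ℤ) : (a⁻¹).l i = (a.l (i - a.r))⁻¹ := rfl
@[simp] theorem inv_r (a : Wr F) : (a⁻¹).r = -a.r := rfl

/-- the shift -/
def T : Wr F := ⟨fun _ => 1, 1⟩

/-- the base group -/
def inl : (ℤ → F) →* Wr F where
  toFun f := ⟨f, 0⟩
  map_one' := rfl
  map_mul' f g := Wr.ext (funext fun i => by simp) (by simp)

@[simp] theorem inl_l (f : ℤ → F) : (inl f).l = f := rfl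
@[simp] theorem inl_r (f : ℤ → F) : (inl f).r = 0 := rfl

theorem inl_injective : Function.Injective (inl : (ℤ → F) → Wr F) :=
  fun _ _ h => congrArg Wr.l h

/-- the copy of `F` at position `k` -/
def del (k : ℤ) : F →* Wr F := inl.comp (MonoidHom.mulSingle (fun _ : ℤ => F) k)

theorem del_apply (k : ℤ) (w : F) : del k w = inl (Pi.mulSingle k w) := rfl

theorem del_T (k : ℤ) (w : F) : del k w * T = T * del (k + 1) w := by
  refine Wr.ext (funext fun i => ?_) (by simp [del_apply, T])
  simp only [del_apply, T, mul_l, inl_l, mul_one, one_mul]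
  by_cases h : i = k
  · subst h; simp
  · rw [Pi.mulSingle_eq_of_ne h, Pi.mulSingle_eq_of_ne (by omega)]

theorem del_comm {i j : ℤ} (h : i ≠ j) (w w' : F) : Commute (del i w) (del j w') :=
  (Pi.mulSingle_commute (f := fun _ : ℤ => F) h w w').map inl

theorem conj_del (k : ℤ) (w : F) : (T ^ k)⁻¹ * del 0 w * T ^ k = del k w := by
  induction k using Int.induction_on with
  | zero => simp
  | succ k ih =>
    rw [zpow_add_one, mul_inv_rev, mul_assoc, ← mul_assoc (del 0 w), mul_assoc T⁻¹,
      ← mul_assoc (T ^ (k : ℤ))⁻¹, ← mul_assoc (T ^ (k : ℤ))⁻¹, ih, del_T, inv_mul_cancel_left]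
  | pred k ih =>
    have := del_T (-(k : ℤ) - 1) w
    rw [sub_add_cancel, ← ih] at this
    rw [zpow_sub_one, eq_mul_inv_of_mul_eq this]
    group

/-- the projection to the integers -/
def rH : Wr F →* Multiplicative ℤ where
  toFun a := Multiplicative.ofAdd a.r
  map_one' := rfl
  map_mul' _ _ := rfl

theorem T_zpow_r (n : ℤ) : ((T : Wr F) ^ n).r = n := by
  have := map_zpow (rH (F := F)) T n
  have h2 := congrArg Multiplicative.toAdd this
  simpa [rH, T] using h2

end Wr

theorem comm_hom_eq_one {G C : Type*} [Group G] [CommGroup C] (f : G →* C) {k : G}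
    (hk : k ∈ commutator G) : f k = 1 :=
  Abelianization.commutator_subset_ker f hk

theorem Split.map {G G' : Type*} [Group G] [Group G'] (e : G ≃* G') {f : G} (h : Split f) :
    Split (e f) := by
  obtain ⟨a, b, h1, h2, h3, h4⟩ := h
  refine ⟨e a, e b, by rw [h1, map_mul], h2.map e, ?_, ?_⟩
  · intro i j h
    refine h3 i j (e.injective ?_)
    rwa [map_zpow, map_zpow]
  · intro k hk
    obtain ⟨m, hm, h5⟩ := h4 (e.symm k) (by
      have := hk.map e.symm
      rwa [MulEquiv.symm_apply_apply] at this)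
    refine ⟨m, hm, ?_⟩
    have := h5.map e
    rwa [map_pow, MulEquiv.apply_symm_apply] at this

section main

variable {G : Type*} [Group G] (t : G) (φ0 : FreeGroup Bool →* G)

/-- the copy of the free group at position `i` -/
def cp (i : ℤ) : FreeGroup Bool →* G := (MulAut.conj (t ^ i)⁻¹).toMonoidHom.comp φ0

theorem cp_apply (i : ℤ) (w : FreeGroup Bool) : cp t φ0 i w = (t ^ i)⁻¹ * φ0 w * t ^ i := by
  change (t ^ i)⁻¹ * φ0 w * (t ^ i)⁻¹⁻¹ = _
  rw [inv_inv]

variable {t φ0}

theorem wr_injective (gen : Subgroup.closure ({t} ∪ Set.range φ0) = ⊤)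
    (comm : ∀ i j : ℤ, i ≠ j → ∀ w w', Commute (cp t φ0 i w) (cp t φ0 j w'))
    (Φ : G →* Wr (FreeGroup Bool)) (h1 : Φ t = Wr.T) (h2 : ∀ w, Φ (φ0 w) = Wr.del 0 w) :
    Function.Injective Φ := by
  classical
  have hcp : ∀ i w, Φ (cp t φ0 i w) = Wr.del i w := by
    intro i w
    rw [cp_apply, map_mul, map_mul, map_inv, map_zpow, h1, h2, Wr.conj_del]
  let B : Subgroup G := ⨆ i : ℤ, (cp t φ0 i).range
  have conjB : ∀ (n : ℤ) (b : G), b ∈ B → (t ^ n)⁻¹ * b * t ^ n ∈ B := by
    intro n b hb
    refine Subgroup.iSup_induction _ (C := fun b => (t ^ n)⁻¹ * b * t ^ n ∈ B) hb ?_ ?_ ?_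
    · rintro i _ ⟨w, rfl⟩
      refine Subgroup.mem_iSup_of_mem (i + n) ⟨w, ?_⟩
      rw [cp_apply, cp_apply, zpow_add]
      group
    · simp
    · intro x y hx hy
      have := B.mul_mem hx hy
      convert this using 1
      group
  have dec : ∀ g : G, ∃ b ∈ B, ∃ n : ℤ, g = b * t ^ n := by
    intro g
    have hg : g ∈ Subgroup.closure ({t} ∪ Set.range φ0) := gen ▸ Subgroup.mem_top g
    induction hg using Subgroup.closure_induction with
    | mem x hx =>
      rcases hx with rfl | ⟨w, rfl⟩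
      · exact ⟨1, B.one_mem, 1, by simp⟩
      · exact ⟨φ0 w, Subgroup.mem_iSup_of_mem 0 ⟨w, by simp [cp_apply]⟩, 0, by simp⟩
    | one => exact ⟨1, B.one_mem, 0, by simp⟩
    | mul x y _ _ hx hy =>
      obtain ⟨b, hb, n, rfl⟩ := hx
      obtain ⟨b', hb', n', rfl⟩ := hy
      exact ⟨_, B.mul_mem hb (conjB (-n) b' hb'), n + n', by group⟩
    | inv x _ hx =>
      obtain ⟨b, hb, n, rfl⟩ := hx
      exact ⟨_, conjB n _ (B.inv_mem hb), -n, by group⟩
  have fin : ∀ b ∈ B, ∃ s : Finset ℤ, b ∈ ⨆ i : s, (cp t φ0 i).range := by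
    intro b hb
    refine Subgroup.iSup_induction _
      (C := fun b => ∃ s : Finset ℤ, b ∈ ⨆ i : s, (cp t φ0 i).range) hb ?_ ?_ ?_
    · intro i x hx
      refine ⟨{i}, ?_⟩
      exact le_iSup (fun j : ({i} : Finset ℤ) => (cp t φ0 j.1).range)
        ⟨i, Finset.mem_singleton_self i⟩ hx
    · exact ⟨∅, Subgroup.one_mem _⟩
    · rintro x y ⟨s, hx⟩ ⟨s', hy⟩
      have mono : ∀ s s' : Finset ℤ, s ⊆ s' →
          (⨆ i : s, (cp t φ0 i).range) ≤ ⨆ i : s', (cp t φ0 i).range := fun s s' h =>
        iSup_le fun i => le_iSup (fun i : s' => (cp t φ0 i).range) ⟨i.1, h i.2⟩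
      exact ⟨s ∪ s', Subgroup.mul_mem _ (mono _ _ Finset.subset_union_left hx)
        (mono _ _ Finset.subset_union_right hy)⟩
  have rep : ∀ b ∈ B, (Φ b).r = 0 ∧ (Φ b = 1 → b = 1) := by
    intro b hb
    obtain ⟨s, hs⟩ := fin b hb
    have hc : Pairwise fun i j : s => ∀ x y, Commute (cp t φ0 i x) (cp t φ0 j y) :=
      fun i j h => comm i j (fun e => h (Subtype.ext e))
    rw [← MonoidHom.noncommPiCoprod_range (fun i : s => cp t φ0 i) (hcomm := hc)] at hs
    obtain ⟨f, rfl⟩ := hs
    let ε : (s → FreeGroup Bool) →* (ℤ → FreeGroup Bool) :=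
      { toFun := fun f i => if h : i ∈ s then f ⟨i, h⟩ else 1
        map_one' := by funext i; simp
        map_mul' := fun f g => by funext i; by_cases h : i ∈ s <;> simp [h] }
    have e : Φ.comp (MonoidHom.noncommPiCoprod (fun i : s => cp t φ0 i) hc) = Wr.inl.comp ε := by
      refine MonoidHom.pi_ext fun i w => ?_
      rw [MonoidHom.comp_apply, MonoidHom.noncommPiCoprod_mulSingle, hcp, MonoidHom.comp_apply,
        Wr.del_apply]
      congr 1
      funext j
      change _ = if h : j ∈ s then Pi.mulSingle (M := fun _ : s => FreeGroup Bool) i w ⟨j, h⟩ else 1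
      by_cases h : j = i
      · subst h
        simp
      · rw [Pi.mulSingle_eq_of_ne h]
        split_ifs with h'
        · rw [Pi.mulSingle_eq_of_ne (fun e => h (congrArg Subtype.val e))]
        · rfl
    have e' : Φ (MonoidHom.noncommPiCoprod (fun i : s => cp t φ0 i) hc f) = Wr.inl (ε f) :=
      DFunLike.congr_fun e f
    refine ⟨by rw [e']; rfl, fun h => ?_⟩
    rw [e'] at h
    have h3 : ε f = 1 := Wr.inl_injective (by rw [h, map_one])
    have h4 : f = 1 := by
      funext i
      have := congrFun h3 i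
      simpa [ε, i.2] using this
    rw [h4, map_one]
  rw [injective_iff_map_eq_one]
  intro g hg
  obtain ⟨b, hb, n, rfl⟩ := dec g
  have hn : n = 0 := by
    have := congrArg Wr.r hg
    rw [map_mul, map_zpow, h1, Wr.mul_r, (rep b hb).1, Wr.T_zpow_r] at this
    simpa using this
  subst hn
  rw [zpow_zero, mul_one] at hg ⊢
  exact (rep b hb).2 hg

theorem cp_mem (i j : ℤ) (w : FreeGroup Bool) :
    cp t φ0 i w * (cp t φ0 j w)⁻¹ ∈ commutator G := by
  have : cp t φ0 i w * (cp t φ0 j w)⁻¹ = ⁅(t ^ (i - j))⁻¹, cp t φ0 j w⁆ := by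
    rw [commutatorElement_def, cp_apply, cp_apply]
    group
  rw [this, commutator_def]
  exact Subgroup.commutator_mem_commutator (Subgroup.mem_top _) (Subgroup.mem_top _)

/-- the element `w` at position `i` times `w⁻¹` at position `j` -/
def sg (t : G) (φ0 : FreeGroup Bool →* G) (i j : ℤ) (w : FreeGroup Bool) : commutator G :=
  ⟨_, cp_mem (t := t) (φ0 := φ0) i j w⟩

theorem wr_no_split (gen : Subgroup.closure ({t} ∪ Set.range φ0) = ⊤)
    (comm : ∀ i j : ℤ, i ≠ j → ∀ w w', Commute (cp t φ0 i w) (cp t φ0 j w'))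
    (Φ : G →* Wr (FreeGroup Bool)) (h1 : Φ t = Wr.T) (h2 : ∀ w, Φ (φ0 w) = Wr.del 0 w)
    (χ : G →* Multiplicative ℤ) (h3 : χ (φ0 (FreeGroup.of true)) = Multiplicative.ofAdd 1) :
    ∃ g h : commutator G, Commute g h ∧ (∀ i j : ℤ, g ^ i * h ^ j = 1 → i = 0 ∧ j = 0) ∧
      ∀ N : ℕ, 0 < N → ¬ Split (g ^ N) ∧ ¬ Split (h ^ N) ∧ ¬ Split ((g * h) ^ N) := by
  classical
  have inj := wr_injective gen comm Φ h1 h2
  have hcp : ∀ i w, Φ (cp t φ0 i w) = Wr.del i w := by
    intro i w
    rw [cp_apply, map_mul, map_mul, map_inv, map_zpow, h1, h2, Wr.conj_del]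
  have r0 : ∀ k : commutator G, (Φ k).r = 0 := fun k =>
    congrArg Multiplicative.toAdd (comm_hom_eq_one (Wr.rH.comp Φ) k.2)
  let π : commutator G →* (ℤ → FreeGroup Bool) :=
    { toFun := fun k => (Φ k).l
      map_one' := by funext i; simp
      map_mul' := fun a b => by funext i; simp [r0] }
  have πinj : Function.Injective π := fun a b h =>
    Subtype.ext (inj (Wr.ext h (by rw [r0, r0])))
  have πsg : ∀ i j w, π (sg t φ0 i j w) = Pi.mulSingle i w * (Pi.mulSingle j w)⁻¹ := by
    intro i j w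
    change (Φ (cp t φ0 i w * (cp t φ0 j w)⁻¹)).l = _
    rw [map_mul, map_inv, hcp, hcp, Wr.del_apply, Wr.del_apply, ← map_inv, ← map_mul, Wr.inl_l]
  have πsg' : ∀ i j w l, π (sg t φ0 i j w) l =
      (if l = i then w else 1) * (if l = j then w else 1)⁻¹ := by
    intro i j w l
    rw [πsg, Pi.mul_apply, Pi.inv_apply, Pi.mulSingle_apply, Pi.mulSingle_apply]
  have cπ : ∀ a b : commutator G, (∀ l, Commute (π a l) (π b l)) → Commute a b := by
    intro a b h
    refine πinj ?_
    rw [map_mul, map_mul]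
    funext l
    exact (h l).eq
  set x : FreeGroup Bool := FreeGroup.of true with hx
  have χcp : ∀ i, χ (cp t φ0 i x) = Multiplicative.ofAdd 1 := by
    intro i
    rw [cp_apply, map_mul, map_mul, map_inv, h3, mul_comm, mul_inv_cancel_left]
  have xinf : ∀ n : ℤ, x ^ n = 1 → n = 0 := by
    intro n h
    have := congrArg (fun w => Multiplicative.toAdd (χ (φ0 w))) h
    simpa [h3] using this
  have key : ∀ i j : ℤ, i ≠ j → ∀ N : ℕ, 0 < N → ¬ Split (sg t φ0 i j x ^ N) := by
    rintro i j hij N hN ⟨a, b, e1, e2, e3, e4⟩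
    have caf : Commute a (sg t φ0 i j x ^ N) := by
      rw [e1]; exact (Commute.refl a).mul_right e2
    have ev : ∀ {a b : commutator G} (l : ℤ), Commute a b → Commute (π a l) (π b l) :=
      fun l h => (h.map π).map (Pi.evalMonoidHom (fun _ : ℤ => FreeGroup Bool) l)
    have out : ∀ l, l ≠ i → l ≠ j → π a l = 1 := by
      intro l l1 l2
      obtain ⟨l', n1, n2, n3⟩ : ∃ l' : ℤ, l' ≠ i ∧ l' ≠ j ∧ l' ≠ l :=
        ⟨|i| + |j| + |l| + 1, by have := le_abs_self i; have := abs_nonneg j
                                 have := abs_nonneg l; omega,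
          by have := le_abs_self j; have := abs_nonneg i; have := abs_nonneg l; omega,
          by have := le_abs_self l; have := abs_nonneg i; have := abs_nonneg j; omega⟩
      have gen1 : ∀ c : Bool, ∃ n : ℤ, π a l = FreeGroup.of c ^ n := by
        intro c
        obtain ⟨m, hm, h⟩ := e4 (sg t φ0 l l' (FreeGroup.of c)) (by
          refine Commute.pow_right (cπ _ _ fun p => ?_) N
          rw [πsg', πsg']
          by_cases p1 : p = l
          · subst p1; simp [l1, l2]
          by_cases p2 : p = l'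
          · subst p2; simp [n1, n2]
          simp [p1, p2])
        have := ev l h
        rw [map_pow, Pi.pow_apply, πsg', if_pos rfl, if_neg n3.symm, inv_one, mul_one] at this
        exact free_comm c hm this.symm
      obtain ⟨n, hn⟩ := gen1 true
      obtain ⟨n', hn'⟩ := gen1 false
      exact free_eq_one hn hn'
    obtain ⟨α, hα⟩ : ∃ n : ℤ, π a i = x ^ n := by
      have := ev i caf
      rw [map_pow, Pi.pow_apply, πsg', if_pos rfl, if_neg hij, inv_one, mul_one] at this
      exact free_comm true hN this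
    obtain ⟨β, hβ⟩ : ∃ n : ℤ, π a j = x ^ n := by
      have := ev j caf
      rw [map_pow, Pi.pow_apply, πsg', if_pos rfl, if_neg hij.symm, one_mul, inv_pow] at this
      exact free_comm true hN (by simpa using this.inv_right)
    have ea : (a : G) = cp t φ0 i x ^ α * cp t φ0 j x ^ β := by
      refine inj ?_
      rw [map_mul, map_zpow, map_zpow, hcp, hcp, ← map_zpow, ← map_zpow, Wr.del_apply,
        Wr.del_apply, ← map_mul]
      refine Wr.ext ?_ (r0 a)
      funext l
      change π a l = _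
      rw [Wr.inl_l, Pi.mul_apply, Pi.mulSingle_apply, Pi.mulSingle_apply]
      by_cases p1 : l = i
      · subst p1; simp [hij, hα]
      by_cases p2 : l = j
      · subst p2; simp [p1, hβ]
      simp [p1, p2, out l p1 p2]
    have hsum : β = -α := by
      have := congrArg Multiplicative.toAdd (comm_hom_eq_one χ a.2)
      rw [ea, map_mul, map_zpow, map_zpow, χcp, χcp] at this
      simp at this
      omega
    have ea' : a = sg t φ0 i j x ^ α := by
      refine Subtype.ext ?_
      rw [ea, hsum, SubgroupClass.coe_zpow]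
      change _ = (cp t φ0 i x * (cp t φ0 j x)⁻¹) ^ α
      rw [(comm i j hij x x).inv_right.mul_zpow, inv_zpow']
    have eb : b = sg t φ0 i j x ^ ((N : ℤ) - α) := by
      rw [sub_eq_neg_add, zpow_add, zpow_natCast, e1, zpow_neg, ← ea', inv_mul_cancel_left]
    obtain ⟨k1, k2⟩ := e3 α ((N : ℤ) - α) (by rw [eb, ea', ← zpow_mul, ← zpow_mul, mul_comm])
    omega
  refine ⟨sg t φ0 1 2 x, sg t φ0 2 3 x, cπ _ _ fun l => ?_, ?_, ?_⟩
  · rw [πsg', πsg']
    split_ifs <;> simp
  · intro i j h
    have e1 := congrFun (congrArg π h) 1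
    have e3 := congrFun (congrArg π h) 3
    rw [map_mul, map_zpow, map_zpow, Pi.mul_apply, Pi.pow_apply, Pi.pow_apply, πsg', πsg',
      map_one] at e1 e3
    refine ⟨xinf i (by simpa using e1), ?_⟩
    have := xinf (-j) (by simpa using e3)
    omega
  · intro N hN
    have e : sg t φ0 1 2 x * sg t φ0 2 3 x = sg t φ0 1 3 x := by
      refine Subtype.ext ?_
      change cp t φ0 1 x * (cp t φ0 2 x)⁻¹ * (cp t φ0 2 x * (cp t φ0 3 x)⁻¹) =
        cp t φ0 1 x * (cp t φ0 3 x)⁻¹
      group
    rw [e]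
    exact ⟨key 1 2 (by decide) N hN, key 2 3 (by decide) N hN, key 1 3 (by decide) N hN⟩

end main

end Pool.Agent.H868Z.Diagram
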