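import Mathlib
import Pool.Agent.H868Z.Diagram.Wreath
import Pool.Agent.H868Z.Diagram.Model2

/-!
# A diagram group whose derived subgroup is not a diagram group
-/

set_option maxHeartbeats 400000

namespace Pool.Agent.H868Z.Diagram

/-- letters `0, …, 5` stand for `a, b, p, q, r, s`; relations `a = ap`, `b = pb`, `p = q`,
`p = r`, `p = s`, `q = r`, `q = s` -/
def P0 : Pres (Fin 6) where
  rel := {([0], [0, 2]), ([1], [2, 1]), ([2], [3]), ([2], [4]), ([2], [5]), ([3], [4]), ([3], [5])}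
  ne := by
    rintro r (rfl | rfl | rfl | rfl | rfl | rfl | rfl) <;> simp

/-- the base word `ab` -/
def w0 : Word P0 := ⟨[0, 1], by simp⟩

namespace Ex

/-- `a = ap` -/
def ra : P0.rel := ⟨([0], [0, 2]), by simp [P0]⟩
/-- `b = pb` -/
def rb : P0.rel := ⟨([1], [2, 1]), by simp [P0]⟩
/-- `p = q` -/
def tq : P0.rel := ⟨([2], [3]), by simp [P0]⟩
/-- the target letters of the two loops -/
def tl (c : Bool) : Fin 6 := if c then 4 else 5
/-- `p = r`, `p = s` -/
def tt (c : Bool) : P0.rel := ⟨([2], [tl c]), by cases c <;> simp [P0, tl]⟩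
/-- `q = r`, `q = s` -/
def lp (c : Bool) : P0.rel := ⟨([3], [tl c]), by cases c <;> simp [P0, tl]⟩

theorem rel_cases (r : P0.rel) :
    r = ra ∨ r = rb ∨ r = tq ∨ (∃ c, r = tt c) ∨ ∃ c, r = lp c := by
  obtain ⟨r, rfl | rfl | rfl | rfl | rfl | rfl | rfl⟩ := r
  · exact Or.inl rfl
  · exact Or.inr (Or.inl rfl)
  · exact Or.inr (Or.inr (Or.inl rfl))
  · exact Or.inr (Or.inr (Or.inr (Or.inl ⟨true, rfl⟩)))
  · exact Or.inr (Or.inr (Or.inr (Or.inl ⟨false, rfl⟩)))
  · exact Or.inr (Or.inr (Or.inr (Or.inr ⟨true, rfl⟩)))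
  · exact Or.inr (Or.inr (Or.inr (Or.inr ⟨false, rfl⟩)))

/-- inner letters -/
def IsY (l : Fin 6) : Prop := l ≠ 0 ∧ l ≠ 1

theorem IsY.cases {l : Fin 6} (h : IsY l) : l = 2 ∨ l = 3 ∨ ∃ c, l = tl c := by
  obtain ⟨h0, h1⟩ := h
  fin_cases l
  · exact absurd rfl h0
  · exact absurd rfl h1
  · exact Or.inl rfl
  · exact Or.inr (Or.inl rfl)
  · exact Or.inr (Or.inr ⟨true, rfl⟩)
  · exact Or.inr (Or.inr ⟨false, rfl⟩)

theorem isY_two : IsY 2 := ⟨by decide, by decide⟩
theorem isY_three : IsY 3 := ⟨by decide, by decide⟩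
theorem isY_tl (c : Bool) : IsY (tl c) := by cases c <;> exact ⟨by decide, by decide⟩

/-- words in the inner letters -/
def AllY (w : List (Fin 6)) : Prop := ∀ l ∈ w, IsY l

/-- the tree edge from `p` to an inner letter -/
def Tr (u : List (Fin 6)) (l : Fin 6) (v : List (Fin 6)) : UG P0 :=
  if l = 3 then E u tq v else if l = 4 then E u (tt true) v else if l = 5 then E u (tt false) v
  else 1

theorem Tr_two (u v : List (Fin 6)) : Tr u 2 v = 1 := rfl
theorem Tr_three (u v : List (Fin 6)) : Tr u 3 v = E u tq v := rfl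
theorem Tr_tl (u : List (Fin 6)) (c : Bool) (v : List (Fin 6)) : Tr u (tl c) v = E u (tt c) v := by
  cases c <;> rfl

theorem conn_E (a : List (Fin 6)) (r : P0.rel) (b : List (Fin 6)) :
    Conn (a ++ r.1.1 ++ b) (E a r b) (a ++ r.1.2 ++ b) := Conn.single a (r, true) b

theorem conn_Tr (u : List (Fin 6)) {l : Fin 6} (h : IsY l) (v : List (Fin 6)) :
    Conn (u ++ [2] ++ v) (Tr u l v) (u ++ [l] ++ v) := by
  rcases h.cases with rfl | rfl | ⟨c, rfl⟩
  · exact Conn.refl
  · exact conn_E u tq v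
  · rw [Tr_tl]; exact conn_E u (tt c) v

theorem Tr_square (u : List (Fin 6)) {l : Fin 6} (h : IsY l) (B : List (Fin 6)) (r : P0.rel)
    (C : List (Fin 6)) : Tr u l (B ++ r.1.1 ++ C) * E (u ++ [l] ++ B) r C =
      E (u ++ [2] ++ B) r C * Tr u l (B ++ r.1.2 ++ C) := by
  rcases h.cases with rfl | rfl | ⟨c, rfl⟩
  · rw [Tr_two, Tr_two, one_mul, mul_one]
  · exact E_square u tq B r C
  · rw [Tr_tl, Tr_tl]; exact E_square u (tt c) B r C

/-- insertion of an inner letter at the left end -/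
def sig (l : Fin 6) (v : List (Fin 6)) : UG P0 := E [] ra v * Tr [0] l v

theorem sig_square {l : Fin 6} (h : IsY l) (B : List (Fin 6)) (r : P0.rel) (C : List (Fin 6)) :
    sig l (B ++ r.1.1 ++ C) * E (0 :: l :: B) r C =
      E (0 :: B) r C * sig l (B ++ r.1.2 ++ C) := by
  have h1 : Tr [0] l (B ++ r.1.1 ++ C) * E (0 :: l :: B) r C =
      E (0 :: 2 :: B) r C * Tr [0] l (B ++ r.1.2 ++ C) := Tr_square [0] h B r C
  have h2 : E [] ra (B ++ r.1.1 ++ C) * E (0 :: 2 :: B) r C =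
      E (0 :: B) r C * E [] ra (B ++ r.1.2 ++ C) := E_square [] ra B r C
  rw [sig, sig, mul_assoc, h1, ← mul_assoc, h2, mul_assoc]

/-- the chosen path from `ab` to `a w b` -/
def tau : List (Fin 6) → UG P0
  | [] => 1
  | l :: w => tau w * sig l (w ++ [1])

theorem conn_tau : ∀ {w : List (Fin 6)}, AllY w → Conn [0, 1] (tau w) (0 :: w ++ [1])
  | [], _ => Conn.refl
  | l :: w, h => by
    have h1 := conn_tau (w := w) fun x hx => h x (List.mem_cons_of_mem _ hx)
    exact h1.trans ((conn_E [] ra (w ++ [1])).trans (conn_Tr [0] (h l (by simp)) (w ++ [1])))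

theorem red {X X' C : List (Fin 6)} {r : P0.rel} (h1 : X ++ [1] = r.1.1 ++ C)
    (h2 : X' ++ [1] = r.1.2 ++ C) : ∀ {w : List (Fin 6)}, AllY w →
    tau (w ++ X) * E (0 :: w) r C = (tau X * E [0] r C * (tau X')⁻¹) * tau (w ++ X')
  | [], _ => by simp
  | l :: w, h => by
    have ih := red h1 h2 (w := w) fun x hx => h x (List.mem_cons_of_mem _ hx)
    have e1 : w ++ X ++ [1] = w ++ r.1.1 ++ C := by rw [List.append_assoc, h1, List.append_assoc]
    have e2 : w ++ X' ++ [1] = w ++ r.1.2 ++ C := by rw [List.append_assoc, h2, List.append_assoc]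
    rw [List.cons_append, List.cons_append, tau, tau, e1, e2, mul_assoc,
      sig_square (h l (by simp)), ← mul_assoc, ih, mul_assoc]

/-- the shift -/
def t : UG P0 := E [0] rb [] * (tau [2])⁻¹

/-- the loops at the letter `a` -/
def XX (c : Bool) (v : List (Fin 6)) : UG P0 :=
  E [] ra v * (E [0] tq v * E [0] (lp c) v * (E [0] (tt c) v)⁻¹) * (E [] ra v)⁻¹

theorem XX_square (c : Bool) (B : List (Fin 6)) (r : P0.rel) (C : List (Fin 6)) :
    XX c (B ++ r.1.1 ++ C) * E (0 :: B) r C = E (0 :: B) r C * XX c (B ++ r.1.2 ++ C) := by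
  have h1 : E [] ra (B ++ r.1.1 ++ C) * E (0 :: 2 :: B) r C =
      E (0 :: B) r C * E [] ra (B ++ r.1.2 ++ C) := E_square [] ra B r C
  have h2 : E [0] tq (B ++ r.1.1 ++ C) * E (0 :: 3 :: B) r C =
      E (0 :: 2 :: B) r C * E [0] tq (B ++ r.1.2 ++ C) := E_square [0] tq B r C
  have h3 : E [0] (lp c) (B ++ r.1.1 ++ C) * E (0 :: tl c :: B) r C =
      E (0 :: 3 :: B) r C * E [0] (lp c) (B ++ r.1.2 ++ C) := E_square [0] (lp c) B r C
  have h4 : E [0] (tt c) (B ++ r.1.1 ++ C) * E (0 :: tl c :: B) r C =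
      E (0 :: 2 :: B) r C * E [0] (tt c) (B ++ r.1.2 ++ C) := E_square [0] (tt c) B r C
  rw [XX, XX, eq_mul_inv_of_mul_eq h1, eq_mul_inv_of_mul_eq h2, eq_mul_inv_of_mul_eq h3,
    eq_mul_inv_of_mul_eq h4]
  group

/-- the loops transported to the base point -/
def xx (c : Bool) (w : List (Fin 6)) : UG P0 := tau w * XX c (w ++ [1]) * (tau w)⁻¹

theorem xx_rel (c : Bool) {X X' C : List (Fin 6)} {r : P0.rel} (h1 : X ++ [1] = r.1.1 ++ C)
    (h2 : X' ++ [1] = r.1.2 ++ C) {w : List (Fin 6)} (h : AllY w) :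
    xx c (w ++ X) * (tau X * E [0] r C * (tau X')⁻¹) =
      (tau X * E [0] r C * (tau X')⁻¹) * xx c (w ++ X') := by
  have e1 : w ++ X ++ [1] = w ++ r.1.1 ++ C := by rw [List.append_assoc, h1, List.append_assoc]
  have e2 : w ++ X' ++ [1] = w ++ r.1.2 ++ C := by rw [List.append_assoc, h2, List.append_assoc]
  rw [xx, xx, e1, e2, ← mul_inv_eq_of_eq_mul (red h1 h2 h),
    eq_mul_inv_of_mul_eq (XX_square c w r C)]
  group

theorem g_tq (w : List (Fin 6)) : tau (2 :: w) * E [0] tq (w ++ [1]) * (tau (3 :: w))⁻¹ = 1 := by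
  simp only [tau, sig, Tr_two, Tr_three]
  group

theorem g_tt (c : Bool) (w : List (Fin 6)) :
    tau (2 :: w) * E [0] (tt c) (w ++ [1]) * (tau (tl c :: w))⁻¹ = 1 := by
  simp only [tau, sig, Tr_two, Tr_tl]
  group

theorem g_lp (c : Bool) (w : List (Fin 6)) :
    tau (3 :: w) * E [0] (lp c) (w ++ [1]) * (tau (tl c :: w))⁻¹ = xx c w := by
  simp only [tau, sig, Tr_three, Tr_tl, xx, XX]
  group

theorem g_rb : tau [] * E [0] rb [] * (tau [2])⁻¹ = t := by
  rw [t, tau, one_mul]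

theorem xx_letter (c : Bool) {w : List (Fin 6)} (h : AllY w) {l : Fin 6} (hl : IsY l) :
    xx c (w ++ [l]) = xx c (w ++ [2]) := by
  rcases hl.cases with rfl | rfl | ⟨c', rfl⟩
  · rfl
  · have := xx_rel c (X := [2]) (X' := [3]) (C := [] ++ [1]) (r := tq) rfl rfl h
    rw [g_tq, mul_one, one_mul] at this
    exact this.symm
  · have := xx_rel c (X := [2]) (X' := [tl c']) (C := [] ++ [1]) (r := tt c') rfl rfl h
    rw [g_tt, mul_one, one_mul] at this
    exact this.symm

theorem xx_eq (c : Bool) (w : List (Fin 6)) : AllY w →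
    xx c w = (t ^ (w.length : ℤ))⁻¹ * xx c [] * t ^ (w.length : ℤ) := by
  induction w using List.reverseRecOn with
  | nil => intro _; simp
  | append_singleton w l ih =>
    intro h
    have h1 : AllY w := fun x hx => h x (by simp [hx])
    have h2 := xx_rel c (X := []) (X' := [2]) (C := []) (r := rb) rfl rfl h1
    rw [g_rb, List.append_nil, ih h1] at h2
    rw [xx_letter c h1 (h l (by simp)), ← inv_mul_eq_of_eq_mul h2, List.length_append,
      List.length_singleton, Nat.cast_add, Nat.cast_one, zpow_add_one]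
    group

/-- the copy of the free group at position zero -/
def φ0 : FreeGroup Bool →* UG P0 := FreeGroup.lift fun c => xx c []

theorem cp_of (c : Bool) {w : List (Fin 6)} (h : AllY w) :
    cp t φ0 w.length (FreeGroup.of c) = xx c w := by
  rw [cp_apply, φ0, FreeGroup.lift_apply_of, ← xx_eq c w h]

theorem comm_gen (n : ℕ) (c c' : Bool) :
    Commute (cp t φ0 ((n : ℤ) + 1) (FreeGroup.of c)) (cp t φ0 0 (FreeGroup.of c')) := by
  have hw : AllY (List.replicate n 2) := fun x hx => List.eq_of_mem_replicate hx ▸ isY_two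
  have hw' : ∀ l, IsY l → AllY (List.replicate n 2 ++ [l]) := by
    intro l hl x hx
    rcases List.mem_append.1 hx with hx | hx
    · exact hw x hx
    · rw [List.mem_singleton.1 hx]; exact hl
  have h := xx_rel c (X := [3]) (X' := [tl c']) (C := [] ++ [1]) (r := lp c') rfl rfl hw
  rw [g_lp, ← cp_of c (hw' _ isY_three), ← cp_of c (hw' _ (isY_tl c')),
    ← cp_of c' (w := []) (by simp [AllY])] at h
  simpa [Commute, SemiconjBy] using h

theorem comm_lift {G : Type*} [Group G] {f g : FreeGroup Bool →* G}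
    (h : ∀ c c', Commute (f (FreeGroup.of c)) (g (FreeGroup.of c'))) (w w' : FreeGroup Bool) :
    Commute (f w) (g w') := by
  have h1 : ∀ c, Commute (f (FreeGroup.of c)) (g w') := by
    intro c
    induction w' using FreeGroup.induction_on with
    | C1 => simp
    | of c' => exact h c c'
    | inv_of c' ih => rw [map_inv]; exact ih.inv_right
    | mul x y hx hy => rw [map_mul]; exact hx.mul_right hy
  induction w using FreeGroup.induction_on with
  | C1 => simp
  | of c => exact h1 c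
  | inv_of c ih => rw [map_inv]; exact ih.inv_left
  | mul x y hx hy => rw [map_mul]; exact hx.mul_left hy

theorem comm_lt {i j : ℤ} (h : j < i) (w w' : FreeGroup Bool) :
    Commute (cp t φ0 i w) (cp t φ0 j w') := by
  obtain ⟨n, rfl⟩ : ∃ n : ℕ, i = (n : ℤ) + 1 + j := ⟨(i - j - 1).toNat, by omega⟩
  have h1 := (comm_lift (comm_gen n) w w').map (MulAut.conj (t ^ j)⁻¹)
  simp only [MulAut.conj_apply, cp_apply, inv_inv] at h1
  rw [cp_apply, cp_apply]
  convert h1 using 1
  · rw [zpow_add]; group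
  · group

theorem comm (i j : ℤ) (h : i ≠ j) (w w' : FreeGroup Bool) :
    Commute (cp t φ0 i w) (cp t φ0 j w') := by
  rcases lt_or_gt_of_ne h with h | h
  · exact (comm_lt h w' w).symm
  · exact comm_lt h w w'

theorem shape0 {w a b : List (Fin 6)} (hw : AllY w) (h : 0 :: w ++ [1] = a ++ 0 :: b) :
    a = [] ∧ b = w ++ [1] := by
  rcases a with _ | ⟨x, a⟩
  · simp only [List.cons_append, List.nil_append, List.cons.injEq, true_and] at h
    exact ⟨rfl, h.symm⟩
  · exfalso
    simp only [List.cons_append, List.cons.injEq] at h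
    have : (0 : Fin 6) ∈ w ++ [1] := by rw [h.2]; simp
    rcases List.mem_append.1 this with h1 | h1
    · exact (hw 0 h1).1 rfl
    · simp at h1

theorem shape1 {w a b : List (Fin 6)} (hw : AllY w) (h : 0 :: w ++ [1] = a ++ 1 :: b) :
    a = 0 :: w ∧ b = [] := by
  induction b using List.reverseRecOn with
  | nil => exact ⟨(List.append_inj' h rfl).1.symm, rfl⟩
  | append_singleton b x _ =>
    exfalso
    rw [← List.cons_append, ← List.append_assoc] at h
    have h1 := (List.append_inj' h rfl).1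
    have : (1 : Fin 6) ∈ 0 :: w := by rw [h1]; simp
    rcases List.mem_cons.1 this with h2 | h2
    · simp at h2
    · exact (hw 1 h2).2 rfl

theorem shapeY {w a b : List (Fin 6)} {l : Fin 6} (hl : IsY l) (h : 0 :: w ++ [1] = a ++ l :: b) :
    ∃ w1 w2, a = 0 :: w1 ∧ w = w1 ++ l :: w2 ∧ b = w2 ++ [1] := by
  rcases a with _ | ⟨x, a⟩
  · simp only [List.cons_append, List.nil_append, List.cons.injEq] at h
    exact absurd h.1.symm hl.1
  simp only [List.cons_append, List.cons.injEq] at h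
  obtain ⟨rfl, h⟩ := h
  induction b using List.reverseRecOn with
  | nil => exact absurd (List.cons.inj (List.append_inj' h rfl).2).1.symm hl.2
  | append_singleton b x _ =>
    rw [← List.cons_append, ← List.append_assoc] at h
    obtain ⟨h1, h2⟩ := List.append_inj' h rfl
    exact ⟨a, b, rfl, h1, by rw [h2]⟩

/-- the subgroup generated by the shift and the loops -/
def Γ : Subgroup (UG P0) := Subgroup.closure ({t} ∪ Set.range φ0)

theorem t_mem : t ∈ Γ := Subgroup.subset_closure (Or.inl rfl)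

theorem xx_mem (c : Bool) {w : List (Fin 6)} (h : AllY w) : xx c w ∈ Γ := by
  rw [xx_eq c w h]
  refine Γ.mul_mem (Γ.mul_mem (Γ.inv_mem (Γ.zpow_mem t_mem _)) ?_) (Γ.zpow_mem t_mem _)
  exact Subgroup.subset_closure (Or.inr ⟨FreeGroup.of c, by simp [φ0]⟩)

theorem allY_mid {w1 w2 : List (Fin 6)} {l l' : Fin 6} (h : AllY (w1 ++ l :: w2)) (hl : IsY l') :
    AllY w1 ∧ AllY w2 ∧ AllY (w1 ++ l' :: w2) := by
  refine ⟨fun x hx => h x (by simp [hx]), fun x hx => h x (by simp [hx]), fun x hx => ?_⟩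
  simp only [List.mem_append, List.mem_cons] at hx
  rcases hx with hx | rfl | hx
  · exact h x (by simp [hx])
  · exact hl
  · exact h x (by simp [hx])

theorem posY {w a b : List (Fin 6)} {r : P0.rel} {l l' : Fin 6} (e1 : r.1.1 = [l])
    (e2 : r.1.2 = [l']) (hl : IsY l) (hl' : IsY l') (hw : AllY w)
    (hg : ∀ w2, AllY w2 → tau (l :: w2) * E [0] r (w2 ++ [1]) * (tau (l' :: w2))⁻¹ ∈ Γ)
    (h : 0 :: w ++ [1] = a ++ r.1.1 ++ b) :
    ∃ w', AllY w' ∧ a ++ r.1.2 ++ b = 0 :: w' ++ [1] ∧ tau w * E a r b * (tau w')⁻¹ ∈ Γ := by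
  rw [e1, List.append_assoc] at h
  obtain ⟨w1, w2, rfl, rfl, rfl⟩ := shapeY hl h
  obtain ⟨k1, k2, k3⟩ := allY_mid hw hl'
  refine ⟨w1 ++ l' :: w2, k3, by simp [e2], ?_⟩
  rw [red (X := l :: w2) (X' := l' :: w2) (by simp [e1]) (by simp [e2]) k1, mul_inv_cancel_right]
  exact hg w2 k2

theorem posE {w a b : List (Fin 6)} {r : P0.rel} (hw : AllY w)
    (h : 0 :: w ++ [1] = a ++ r.1.1 ++ b) :
    ∃ w', AllY w' ∧ a ++ r.1.2 ++ b = 0 :: w' ++ [1] ∧ tau w * E a r b * (tau w')⁻¹ ∈ Γ := by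
  rcases rel_cases r with rfl | rfl | rfl | ⟨c, rfl⟩ | ⟨c, rfl⟩
  · obtain ⟨rfl, rfl⟩ := shape0 hw (a := a) (b := b) (by rw [h]; simp [ra])
    refine ⟨2 :: w, ?_, rfl, ?_⟩
    · intro x hx
      rcases List.mem_cons.1 hx with rfl | hx
      · exact isY_two
      · exact hw x hx
    · rw [tau, sig, Tr_two, mul_one, mul_inv_cancel]
      exact Γ.one_mem
  · obtain ⟨rfl, rfl⟩ := shape1 hw (a := a) (b := b) (by rw [h]; simp [rb])
    refine ⟨w ++ [2], ?_, by simp [rb], ?_⟩
    · intro x hx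
      rcases List.mem_append.1 hx with hx | hx
      · exact hw x hx
      · rw [List.mem_singleton.1 hx]; exact isY_two
    · have := red (X := []) (X' := [2]) (C := []) (r := rb) rfl rfl hw
      rw [List.append_nil] at this
      rw [this, mul_inv_cancel_right, g_rb]
      exact t_mem
  · exact posY rfl rfl isY_two isY_three hw (fun w2 _ => by rw [g_tq]; exact Γ.one_mem) h
  · exact posY rfl rfl isY_two (isY_tl c) hw (fun w2 _ => by rw [g_tt]; exact Γ.one_mem) h
  · exact posY rfl rfl isY_three (isY_tl c) hw (fun w2 h2 => by rw [g_lp]; exact xx_mem c h2) h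

theorem negY {w a b : List (Fin 6)} {l l' : Fin 6} (hl : IsY l) (hl' : IsY l') (hw : AllY w)
    (h : 0 :: w ++ [1] = a ++ [l'] ++ b) : ∃ w', AllY w' ∧ 0 :: w' ++ [1] = a ++ [l] ++ b := by
  rw [List.append_assoc] at h
  obtain ⟨w1, w2, rfl, rfl, rfl⟩ := shapeY hl' h
  exact ⟨w1 ++ l :: w2, (allY_mid hw hl).2.2, by simp⟩

theorem negE {w a b : List (Fin 6)} {r : P0.rel} (hw : AllY w)
    (h : 0 :: w ++ [1] = a ++ r.1.2 ++ b) : ∃ w', AllY w' ∧ 0 :: w' ++ [1] = a ++ r.1.1 ++ b := by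
  rcases rel_cases r with rfl | rfl | rfl | ⟨c, rfl⟩ | ⟨c, rfl⟩
  · obtain ⟨rfl, h2⟩ := shape0 hw (a := a) (b := 2 :: b) (by rw [h]; simp [ra])
    rcases w with _ | ⟨x, w⟩
    · simp at h2
    · simp only [List.cons_append, List.cons.injEq] at h2
      exact ⟨w, fun y hy => hw y (by simp [hy]), by simp [ra, h2.2]⟩
  · obtain ⟨h2, rfl⟩ := shape1 hw (a := a ++ [2]) (b := b) (by rw [h]; simp [rb])
    rcases a with _ | ⟨x, a⟩
    · simp at h2
    · simp only [List.cons_append, List.cons.injEq] at h2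
      exact ⟨a, fun y hy => hw y (by simp [← h2.2, hy]), by simp [rb, h2.1]⟩
  · exact negY isY_two isY_three hw h
  · exact negY isY_two (isY_tl c) hw h
  · exact negY isY_three (isY_tl c) hw h

theorem conn_mem {u : UG P0} {V : List (Fin 6)} (h : Conn [0, 1] u V) :
    ∃ w, AllY w ∧ V = 0 :: w ++ [1] ∧ u * (tau w)⁻¹ ∈ Γ := by
  induction h with
  | refl => exact ⟨[], by simp [AllY], rfl, by simp [tau]⟩
  | @step u a m b _ ih =>
    obtain ⟨w, hw, e, hu⟩ := ih
    obtain ⟨r, _ | _⟩ := m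
    · obtain ⟨w', hw', e'⟩ := negE hw e.symm
      obtain ⟨w'', -, e'', hg⟩ := posE hw' e'
      have : w'' = w := by
        have := e''.symm.trans e
        simpa using this
      subst this
      refine ⟨w', hw', e'.symm, ?_⟩
      have := Γ.mul_mem hu (Γ.inv_mem hg)
      convert this using 1
      rw [ev1_false]
      group
    · obtain ⟨w', hw', e', hg⟩ := posE hw e.symm
      refine ⟨w', hw', e', ?_⟩
      have := Γ.mul_mem hu hg
      convert this using 1
      rw [ev1_true]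
      group

theorem loop_mem {u : UG P0} (h : Conn [0, 1] u [0, 1]) : u ∈ Γ := by
  obtain ⟨w, -, e, hu⟩ := conn_mem h
  have : w = [] := by simpa using e
  subst this
  simpa [tau] using hu

theorem conn_t : Conn [0, 1] t [0, 1] :=
  (conn_E [0] rb []).trans (conn_tau (w := [2]) (by simp [AllY, isY_two])).symm

theorem conn_xx (c : Bool) : Conn [0, 1] (xx c []) [0, 1] := by
  have h : Conn [0, 1] (XX c [1]) [0, 1] :=
    ((conn_E [] ra [1]).trans (((conn_E [0] tq [1]).trans (conn_E [0] (lp c) [1])).trans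
      (conn_E [0] (tt c) [1]).symm)).trans (conn_E [] ra [1]).symm
  simpa [xx, tau] using h

/-- the values of the edges in the wreath product -/
def pv (a : List (Fin 6)) (r : P0.rel) (b : List (Fin 6)) : Wr (FreeGroup Bool) :=
  if r.1.1 = [1] then Wr.T
  else if r.1.1 = [3] then
    (if 0 ∉ b ∧ 1 ∉ a then Wr.del ((b.length : ℤ) - 1) (FreeGroup.of (decide (r.1.2 = [4])))
      else 1)
  else 1

theorem pv_ra (a b : List (Fin 6)) : pv a ra b = 1 := rfl
theorem pv_rb (a b : List (Fin 6)) : pv a rb b = Wr.T := rfl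
theorem pv_tq (a b : List (Fin 6)) : pv a tq b = 1 := rfl
theorem pv_tt (a : List (Fin 6)) (c : Bool) (b : List (Fin 6)) : pv a (tt c) b = 1 := rfl
theorem pv_lp (a : List (Fin 6)) (c : Bool) (b : List (Fin 6)) : pv a (lp c) b =
    if 0 ∉ b ∧ 1 ∉ a then Wr.del ((b.length : ℤ) - 1) (FreeGroup.of c) else 1 := by
  cases c <;> rfl

theorem pv_left {a a' : List (Fin 6)} (h : 1 ∈ a ↔ 1 ∈ a') (r : P0.rel) (b : List (Fin 6)) :
    pv a r b = pv a' r b := by
  simp only [pv, h]

theorem tl_ne (c : Bool) : (0 : Fin 6) ≠ tl c ∧ (1 : Fin 6) ≠ tl c :=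
  ⟨(isY_tl c).1.symm, (isY_tl c).2.symm⟩

theorem pv_square (a : List (Fin 6)) (r : P0.rel) (b : List (Fin 6)) (r' : P0.rel)
    (c : List (Fin 6)) : pv a r (b ++ r'.1.1 ++ c) * pv (a ++ r.1.2 ++ b) r' c =
      pv (a ++ r.1.1 ++ b) r' c * pv a r (b ++ r'.1.2 ++ c) := by
  rcases rel_cases r with rfl | rfl | rfl | ⟨d, rfl⟩ | ⟨d, rfl⟩
  · rw [pv_ra, pv_ra, one_mul, mul_one]
    exact pv_left (by simp [ra]) _ _
  · rw [pv_rb, pv_rb, pv_left (a' := a ++ rb.1.1 ++ b) (by simp [rb])]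
    rcases rel_cases r' with rfl | rfl | rfl | ⟨d', rfl⟩ | ⟨d', rfl⟩
    · simp [pv_ra]
    · simp [pv_rb]
    · simp [pv_tq]
    · simp [pv_tt]
    · simp [pv_lp, rb]
  · rw [pv_tq, pv_tq, one_mul, mul_one]
    exact pv_left (by simp [tq]) _ _
  · rw [pv_tt, pv_tt, one_mul, mul_one]
    exact pv_left (by simp [tt, (tl_ne d).2]) _ _
  · rw [pv_left (a := a ++ (lp d).1.2 ++ b) (a' := a ++ (lp d).1.1 ++ b)
      (by simp [lp, (tl_ne d).2]), pv_lp, pv_lp]
    rcases rel_cases r' with rfl | rfl | rfl | ⟨d', rfl⟩ | ⟨d', rfl⟩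
    · rw [pv_ra]; simp [ra]
    · rw [pv_rb]
      by_cases h : (0 ∉ b ∧ 0 ∉ c) ∧ 1 ∉ a
      · rw [if_pos (by simpa [rb] using h), if_pos (by simpa [rb] using h), Wr.del_T]
        have e : ((b ++ rb.1.1 ++ c).length : ℤ) - 1 + 1 = (b ++ rb.1.2 ++ c).length - 1 := by
          simp only [rb, List.length_append, List.length_cons, List.length_nil]
          push_cast
          ring
        rw [e]
      · rw [if_neg (by simpa [rb] using h), if_neg (by simpa [rb] using h), one_mul, mul_one]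
    · rw [pv_tq]; simp [tq]
    · rw [pv_tt]; simp [tt, (tl_ne d').1]
    · rw [pv_lp]
      by_cases h : (0 ∉ b ∧ 0 ∉ c) ∧ 1 ∉ a
      · rw [if_pos (by simpa [lp] using h), if_pos (c := 0 ∉ b ++ (lp d').1.2 ++ c ∧ 1 ∉ a)
          (by simpa [lp, (tl_ne d').1] using h)]
        split_ifs
        · have e : ((b ++ (lp d').1.2 ++ c).length : ℤ) = (b ++ (lp d').1.1 ++ c).length := by
            simp [lp]
          rw [e]
          exact (Wr.del_comm (by simp [lp]; omega) _ _).eq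
        · simp [lp]
      · rw [if_neg (by simpa [lp] using h), if_neg (c := 0 ∉ b ++ (lp d').1.2 ++ c ∧ 1 ∉ a)
          (by simpa [lp, (tl_ne d').1] using h), one_mul, mul_one]

/-- the homomorphism to the wreath product -/
def Φ : UG P0 →* Wr (FreeGroup Bool) := UG.lift pv pv_square

theorem Φ_E (a : List (Fin 6)) (r : P0.rel) (b : List (Fin 6)) : Φ (E a r b) = pv a r b :=
  UG.lift_E _ _ _ _ _

theorem Φ_t : Φ t = Wr.T := by
  simp [t, tau, sig, Tr_two, Φ_E, pv_ra, pv_rb]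

theorem Φ_φ0 (w : FreeGroup Bool) : Φ (φ0 w) = Wr.del 0 w := by
  have : Φ.comp φ0 = Wr.del 0 := by
    ext c : 1
    simp [φ0, xx, XX, tau, Φ_E, pv_ra, pv_tq, pv_tt, pv_lp]
  exact DFunLike.congr_fun this w

/-- the exponent sum of the relation `q = r` -/
def χ : UG P0 →* Multiplicative ℤ :=
  UG.lift (fun _ r _ => if r.1 = ([3], [4]) then Multiplicative.ofAdd 1 else 1)
    (fun _ _ _ _ _ => mul_comm _ _)

theorem χ_φ0 : χ (φ0 (FreeGroup.of true)) = Multiplicative.ofAdd 1 := by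
  simp [φ0, xx, XX, tau, χ, UG.lift_E, ra, tq, tt, lp, tl]

theorem no_split : ∃ g h : commutator (DiagramGroup P0 w0), Commute g h ∧
    (∀ i j : ℤ, g ^ i * h ^ j = 1 → i = 0 ∧ j = 0) ∧
      ∀ N : ℕ, 0 < N → ¬ Split (g ^ N) ∧ ¬ Split (h ^ N) ∧ ¬ Split ((g * h) ^ N) := by
  obtain ⟨tD, ht⟩ := mem_range_evHom (x := w0).2 conn_t
  choose xD hx using fun c => mem_range_evHom (x := w0).2 (conn_xx c)
  let φD : FreeGroup Bool →* DiagramGroup P0 w0 := FreeGroup.lift xD
  have hφ : ∀ w, evHom w0 (φD w) = φ0 w := by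
    have : (evHom w0).comp φD = φ0 := by
      ext c : 1
      simp [φD, φ0, hx]
    exact fun w => DFunLike.congr_fun this w
  have hcp : ∀ i w, evHom w0 (cp tD φD i w) = cp t φ0 i w := by
    intro i w
    rw [cp_apply, cp_apply, map_mul, map_mul, map_inv, map_zpow, ht, hφ]
  refine wr_no_split (t := tD) (φ0 := φD) ?_ ?_ (Φ.comp (evHom w0)) ?_ ?_ (χ.comp (evHom w0)) ?_
  · rw [eq_top_iff]
    intro g _
    rw [← Subgroup.mem_map_iff_mem (evHom_injective w0), MonoidHom.map_closure]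
    refine Subgroup.closure_mono ?_ (loop_mem (conn_ev g))
    rintro _ (rfl | ⟨w, rfl⟩)
    · exact ⟨tD, Or.inl rfl, ht⟩
    · exact ⟨φD w, Or.inr ⟨w, rfl⟩, hφ w⟩
  · intro i j h w w'
    refine evHom_injective w0 ?_
    rw [map_mul, map_mul, hcp, hcp]
    exact (comm i j h w w').eq
  · rw [MonoidHom.comp_apply, ht, Φ_t]
  · intro w
    rw [MonoidHom.comp_apply, hφ, Φ_φ0]
  · rw [MonoidHom.comp_apply, hφ, χ_φ0]

end Ex

universe u

/-- The derived subgroup of `D(P0, ab)` is not a diagram group. -/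
theorem not_diagram (B : Type u) (Q : Pres B) (v : Word Q) :
    IsEmpty (commutator (DiagramGroup P0 w0) ≃* DiagramGroup Q v) := by
  refine ⟨fun e => ?_⟩
  obtain ⟨g, h, c, ind, ns⟩ := Ex.no_split
  obtain ⟨N, hN, hs⟩ := diagram_split v (g := e g) (h := e h) (c.map e) (by
    intro i j hij
    refine ind i j (e.injective ?_)
    rw [map_mul, map_zpow, map_zpow, hij, map_one])
  obtain ⟨n1, n2, n3⟩ := ns N hN
  rcases hs with hs | hs | hs
  · exact n1 (by simpa using hs.map e.symm)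
  · exact n2 (by simpa using hs.map e.symm)
  · exact n3 (by simpa using hs.map e.symm)

end Pool.Agent.H868Z.Diagram
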