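import Mathlib

/-!
# Thompson's group `F`
-/

namespace Pool.Agent.H868Z.Diagram

/-- The relators `xᵢ⁻¹ xⱼ xᵢ xⱼ₊₁⁻¹` (`i < j`) of the standard presentation of Thompson's group
`F`. -/
def thompsonRels : Set (FreeGroup ℕ) :=
  {r | ∃ i j : ℕ, i < j ∧
    r = (FreeGroup.of i)⁻¹ * FreeGroup.of j * FreeGroup.of i * (FreeGroup.of (j + 1))⁻¹}

/-- Thompson's group `F = ⟨x₀, x₁, x₂, … | xᵢ⁻¹ xⱼ xᵢ = xⱼ₊₁ for i < j⟩`. -/
abbrev ThompsonF : Type := PresentedGroup thompsonRels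

end Pool.Agent.H868Z.Diagram
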