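import Mathlib
import Pool.Agent.H868Z.Diagram.Example
import Pool.Agent.H868Z.Diagram.FDefs

/-!
# The diagram group `F₂ ≀ ℤ` contains no copy of `F`, is not linear and not residually finite
-/

set_option maxHeartbeats 400000

namespace Pool.Agent.H868Z.Diagram

theorem free_dich (H : Type*) [Group H] [IsFreeGroup H] :
    (∃ c : H, ∀ h, ∃ n : ℤ, h = c ^ n) ∨ ∃ π : H →* FreeGroup Bool, Function.Surjective π := by
  classical
  rcases subsingleton_or_nontrivial (IsFreeGroup.Generators H) with hs | ⟨i, j, hij⟩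
  · left
    have key : ∀ c : H, (∀ i, IsFreeGroup.of i = c) → ∀ h, ∃ n : ℤ, h = c ^ n := by
      intro c hc h
      obtain ⟨w, rfl⟩ := (IsFreeGroup.mulEquiv H).surjective h
      induction w using FreeGroup.induction_on with
      | C1 => exact ⟨0, by simp⟩
      | of i => exact ⟨1, by rw [zpow_one, ← hc i]; simp [IsFreeGroup.of]⟩
      | inv_of i ih =>
        obtain ⟨n, hn⟩ := ih
        exact ⟨-n, by rw [map_inv, hn, zpow_neg]⟩
      | mul x y ih1 ih2 =>
        obtain ⟨n, hn⟩ := ih1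
        obtain ⟨m, hm⟩ := ih2
        exact ⟨n + m, by rw [map_mul, hn, hm, zpow_add]⟩
    rcases isEmpty_or_nonempty (IsFreeGroup.Generators H) with he | ⟨⟨i⟩⟩
    · exact ⟨1, key 1 fun i => he.elim i⟩
    · exact ⟨IsFreeGroup.of i, key _ fun j => by rw [Subsingleton.elim j i]⟩
  · right
    refine ⟨IsFreeGroup.lift fun k => if k = i then FreeGroup.of true else FreeGroup.of false, ?_⟩
    rw [← MonoidHom.range_eq_top, eq_top_iff, ← FreeGroup.closure_range_of, Subgroup.closure_le]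
    rintro _ ⟨_ | _, rfl⟩
    · exact ⟨IsFreeGroup.of j, by simp [hij.symm]⟩
    · exact ⟨IsFreeGroup.of i, by simp⟩

theorem free_noncomm : ¬ Commute (FreeGroup.of true) (FreeGroup.of false) := by
  unfold Commute SemiconjBy
  decide

theorem free_conj_comm {G : Type*} [Group G] [IsFreeGroup G] {a t : G}
    (h : Commute a (t⁻¹ * a * t)) : t⁻¹ * a * t = a := by
  obtain ⟨c, m, n, h1, h2⟩ : ∃ (c : G) (m n : ℤ), a = c ^ m ∧ t⁻¹ * a * t = c ^ n := by
    generalize t⁻¹ * a * t = b at h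
    rcases free_dich (Subgroup.closure {a, b}) with ⟨c, hc⟩ | ⟨π, hπ⟩
    · obtain ⟨m, hm⟩ := hc ⟨a, Subgroup.subset_closure (by simp)⟩
      obtain ⟨n, hn⟩ := hc ⟨b, Subgroup.subset_closure (by simp)⟩
      exact ⟨c, m, n, congrArg Subtype.val hm, congrArg Subtype.val hn⟩
    · exfalso
      have := Subgroup.isMulCommutative_closure (k := {a, b}) (by
        rintro x (rfl | rfl) y (rfl | rfl)
        exacts [rfl, h.eq, h.eq.symm, rfl])
      obtain ⟨x, hx⟩ := hπ (FreeGroup.of true)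
      obtain ⟨y, hy⟩ := hπ (FreeGroup.of false)
      apply free_noncomm
      rw [← hx, ← hy]
      exact Commute.map (this.is_comm.comm x y) π
  by_cases hmn : m = n
  · rw [h2, h1, hmn]
  rcases free_dich (Subgroup.closure {c, t}) with ⟨d, hd⟩ | ⟨π, hπ⟩
  · obtain ⟨i, hi⟩ := hd ⟨c, Subgroup.subset_closure (by simp)⟩
    obtain ⟨j, hj⟩ := hd ⟨t, Subgroup.subset_closure (by simp)⟩
    have e1 : c = d.1 ^ i := congrArg Subtype.val hi
    have e2 : t = d.1 ^ j := congrArg Subtype.val hj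
    generalize d.1 = d' at e1 e2
    rw [h1, e1, e2]
    group
  · exfalso
    let ψ : FreeGroup Bool →* Multiplicative (ℤ × ℤ) :=
      FreeGroup.lift fun b => Multiplicative.ofAdd (if b then (1, 0) else (0, 1))
    let c' : Subgroup.closure {c, t} := ⟨c, Subgroup.subset_closure (by simp)⟩
    let t' : Subgroup.closure {c, t} := ⟨t, Subgroup.subset_closure (by simp)⟩
    have e : t'⁻¹ * c' ^ m * t' = c' ^ n := Subtype.ext (by simpa [h1] using h2)
    have e2 := congrArg (ψ.comp π) e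
    rw [map_mul, map_mul, map_inv, inv_mul_cancel_comm, map_zpow, map_zpow] at e2
    have e3 : ψ.comp π c' = 1 := by
      have e4 := congrArg Multiplicative.toAdd e2
      simp only [toAdd_zpow] at e4
      have e5 : (m - n) • (ψ.comp π c').toAdd = 0 := by rw [sub_smul, e4, sub_self]
      exact (smul_eq_zero.1 e5).resolve_left (sub_ne_zero.2 hmn)
    have key : ∀ x : Subgroup.closure {c, t}, ψ.comp π x ∈ Subgroup.zpowers (ψ.comp π t') := by
      rintro ⟨x, hx⟩
      induction hx using Subgroup.closure_induction with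
      | mem x hx =>
        rcases hx with rfl | rfl
        · exact e3 ▸ Subgroup.one_mem _
        · exact Subgroup.mem_zpowers _
      | one => exact (map_one (ψ.comp π)).symm ▸ Subgroup.one_mem _
      | mul x y hx hy ih1 ih2 =>
        exact (map_mul (ψ.comp π) ⟨x, hx⟩ ⟨y, hy⟩).symm ▸ Subgroup.mul_mem _ ih1 ih2
      | inv x hx ih => exact (map_inv (ψ.comp π) ⟨x, hx⟩).symm ▸ Subgroup.inv_mem _ ih
    obtain ⟨x, hx⟩ := hπ (FreeGroup.of true)
    obtain ⟨y, hy⟩ := hπ (FreeGroup.of false)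
    obtain ⟨i, hi⟩ := key x
    obtain ⟨j, hj⟩ := key y
    generalize ψ.comp π t' = v at hi hj
    simp only [MonoidHom.comp_apply, hx, hy, ψ, FreeGroup.lift_apply_of] at hi hj
    have k1 := congrArg Multiplicative.toAdd hi
    have k2 := congrArg Multiplicative.toAdd hj
    simp only [toAdd_zpow, toAdd_ofAdd, if_true, Bool.false_eq_true, if_false, Prod.ext_iff,
      Prod.smul_fst, Prod.smul_snd, smul_eq_mul] at k1 k2
    obtain ⟨a1, a2⟩ := k1
    obtain ⟨a3, a4⟩ := k2
    have : (1 : ℤ) = 0 := by linear_combination (-(j * v.toAdd.2)) * a1 - a4 + (j * v.toAdd.1) * a2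
    exact one_ne_zero this

theorem wr_conj_comm {F : Type*} [Group F] [IsFreeGroup F] {a t : Wr F} (ha : a.r = 0)
    (ht : t.r = 0) (h : Commute a (t⁻¹ * a * t)) : t⁻¹ * a * t = a := by
  refine Wr.ext (funext fun i => ?_) (by simp [ha])
  have e : (t⁻¹ * a * t).l i = (t.l i)⁻¹ * a.l i * t.l i := by simp [ha, ht]
  rw [e]
  refine free_conj_comm ?_
  have := congrFun (congrArg Wr.l h.eq) i
  rw [Wr.mul_l, Wr.mul_l (t⁻¹ * a * t)] at this
  simpa [ha, ht, Commute, SemiconjBy] using this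

/-- the generators of `F` acting on the rationals -/
def plx (i : ℕ) : Equiv.Perm ℚ where
  toFun t := if t ≤ i then t else if t ≤ i + 1 then 2 * t - i else t + 1
  invFun t := if t ≤ i then t else if t ≤ i + 2 then (t + i) / 2 else t - 1
  left_inv t := by
    dsimp only
    split_ifs <;> linarith
  right_inv t := by
    dsimp only
    split_ifs <;> linarith

theorem plx_rel {i j : ℕ} (h : i < j) : plx i * plx j = plx (j + 1) * plx i := by
  ext t
  have : (i : ℚ) + 1 ≤ j := by exact_mod_cast h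
  simp only [plx, Equiv.Perm.mul_apply, Equiv.coe_fn_mk, Nat.cast_add, Nat.cast_one]
  split_ifs <;> linarith

/-- the generators of `F` -/
def fx (i : ℕ) : ThompsonF := PresentedGroup.of i

theorem fx_rel {i j : ℕ} (h : i < j) : (fx i)⁻¹ * fx j * fx i = fx (j + 1) := by
  have := PresentedGroup.one_of_mem (rels := thompsonRels) ⟨i, j, h, rfl⟩
  simp only [map_mul, map_inv] at this
  exact mul_inv_eq_one.1 this

theorem fx_ne : fx 2 * (fx 3)⁻¹ ≠ fx 4 * (fx 5)⁻¹ := by
  let ρ : ThompsonF →* Equiv.Perm ℚ := PresentedGroup.toGroup (f := fun i => (plx i)⁻¹) (by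
    rintro _ ⟨i, j, h, rfl⟩
    simp only [map_mul, map_inv, FreeGroup.lift_apply_of, inv_inv]
    rw [mul_assoc, mul_assoc, ← mul_assoc (plx j)⁻¹, ← mul_inv_rev, plx_rel h]
    group)
  have hρ : ∀ i, ρ (fx i) = (plx i)⁻¹ := fun i => PresentedGroup.toGroup.of _
  intro e
  have e2 := congrArg ρ e
  simp only [map_mul, map_inv, hρ, inv_inv] at e2
  have e3 := congrArg (fun g : Equiv.Perm ℚ => g 3) e2
  simp only [plx, Equiv.Perm.mul_apply, Equiv.Perm.inv_def, Equiv.coe_fn_mk,
    Equiv.coe_fn_symm_mk] at e3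
  norm_num at e3

theorem no_F_wr {F : Type*} [Group F] [IsFreeGroup F] (f : ThompsonF →* Wr F) :
    ¬ Function.Injective f := by
  intro hf
  apply fx_ne
  have r : ∀ j, (f (fx (j + 2))).r = (f (fx (j + 1))).r := by
    intro j
    rw [← fx_rel (i := 0) (j := j + 1) (by omega)]
    simp
  have r2 := r 0
  have r3 := r 1
  have r4 := r 2
  have r5 := r 3
  norm_num at r2 r3 r4 r5
  have c1 : ∀ i j, i + 1 < j → fx j * (fx i * (fx (i + 1))⁻¹) = (fx i * (fx (i + 1))⁻¹) * fx j := by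
    intro i j h
    have h1 := fx_rel (i := i) (j := j) (by omega)
    have h2 := fx_rel (i := i + 1) (j := j) h
    calc fx j * (fx i * (fx (i + 1))⁻¹) = fx i * ((fx i)⁻¹ * fx j * fx i) * (fx (i + 1))⁻¹ := by group
      _ = fx i * ((fx (i + 1))⁻¹ * fx j * fx (i + 1)) * (fx (i + 1))⁻¹ := by rw [h1, h2]
      _ = _ := by group
  have c2 : ∀ j, 1 < j → (fx 1)⁻¹ * (fx j * (fx (j + 1))⁻¹) * fx 1 = fx (j + 1) * (fx (j + 2))⁻¹ := by
    intro j h
    rw [← fx_rel (i := 1) (j := j + 1) (by omega)]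
    conv_rhs => lhs; rw [← fx_rel (i := 1) (j := j) h]
    group
  have c4 : Commute (fx 4) (fx 2 * (fx 3)⁻¹) := c1 2 4 (by omega)
  have c5 : Commute (fx 5) (fx 2 * (fx 3)⁻¹) := c1 2 5 (by omega)
  have e : ((fx 4)⁻¹ * (fx 4)⁻¹ * fx 1 * fx 1)⁻¹ * (fx 2 * (fx 3)⁻¹) *
      ((fx 4)⁻¹ * (fx 4)⁻¹ * fx 1 * fx 1) = fx 4 * (fx 5)⁻¹ := by
    have h1 := c2 2 (by omega)
    have h2 := c2 3 (by omega)
    norm_num at h1 h2
    rw [← h2, ← h1]
    have h3 : fx 4 * fx 4 * (fx 2 * (fx 3)⁻¹) * ((fx 4)⁻¹ * (fx 4)⁻¹) = fx 2 * (fx 3)⁻¹ := by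
      rw [(c4.mul_left c4).eq]
      group
    conv_rhs => rw [← h3]
    simp only [mul_inv_rev, inv_inv, mul_assoc]
  apply hf
  have := wr_conj_comm (a := f (fx 2 * (fx 3)⁻¹)) (t := f ((fx 4)⁻¹ * (fx 4)⁻¹ * fx 1 * fx 1))
    (by simp; omega) (by simp; omega) (by
      rw [← map_inv, ← map_mul, ← map_mul, e]
      exact (c4.mul_left c5.inv_left).symm.map f)
  rw [← map_inv, ← map_mul, ← map_mul, e] at this
  exact this.symm

namespace Ex

theorem pack : ∃ (tD : DiagramGroup P0 w0) (φD : FreeGroup Bool →* DiagramGroup P0 w0)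
    (Ψ : DiagramGroup P0 w0 →* Wr (FreeGroup Bool)), Function.Injective Ψ ∧
    Function.Injective φD ∧
    ∀ i j : ℤ, i ≠ j → ∀ w w', Commute (cp tD φD i w) (cp tD φD j w') := by
  obtain ⟨tD, ht⟩ := mem_range_evHom (x := w0).2 conn_t
  choose xD hx using fun c => mem_range_evHom (x := w0).2 (conn_xx c)
  let φD : FreeGroup Bool →* DiagramGroup P0 w0 := FreeGroup.lift xD
  have hφ : ∀ w, evHom w0 (φD w) = φ0 w := by
    have : (evHom w0).comp φD = φ0 := by
      ext c : 1
      simp [φD, φ0, hx]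
    exact fun w => DFunLike.congr_fun this w
  have hcp : ∀ i w, evHom w0 (cp tD φD i w) = cp t φ0 i w := by
    intro i w
    rw [cp_apply, cp_apply, map_mul, map_mul, map_inv, map_zpow, ht, hφ]
  have hc : ∀ i j : ℤ, i ≠ j → ∀ w w', Commute (cp tD φD i w) (cp tD φD j w') := by
    intro i j h w w'
    refine evHom_injective w0 ?_
    rw [map_mul, map_mul, hcp, hcp]
    exact (comm i j h w w').eq
  have h2 : ∀ w, Φ.comp (evHom w0) (φD w) = Wr.del 0 w := by
    intro w
    rw [MonoidHom.comp_apply, hφ, Φ_φ0]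
  refine ⟨tD, φD, Φ.comp (evHom w0), wr_injective (t := tD) (φ0 := φD) ?_ hc _ ?_ h2, ?_, hc⟩
  · rw [eq_top_iff]
    intro g _
    rw [← Subgroup.mem_map_iff_mem (evHom_injective w0), MonoidHom.map_closure]
    refine Subgroup.closure_mono ?_ (loop_mem (conn_ev g))
    rintro _ (rfl | ⟨w, rfl⟩)
    · exact ⟨tD, Or.inl rfl, ht⟩
    · exact ⟨φD w, Or.inr ⟨w, rfl⟩, hφ w⟩
  · rw [MonoidHom.comp_apply, ht, Φ_t]
  · intro w w' e
    have e2 := h2 w
    rw [e, h2] at e2
    simpa [Wr.del_apply] using (congrFun (congrArg Wr.l e2) 0).symm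

end Ex

theorem no_F (H : Subgroup (DiagramGroup P0 w0)) : IsEmpty (H ≃* ThompsonF) := by
  obtain ⟨-, -, Ψ, hΨ, -⟩ := Ex.pack
  exact ⟨fun e => no_F_wr (Ψ.comp (H.subtype.comp e.symm.toMonoidHom))
    (hΨ.comp (Subtype.val_injective.comp e.symm.injective))⟩

theorem not_rf : ¬ Group.ResiduallyFinite (DiagramGroup P0 w0) := by
  obtain ⟨t, φ, -, -, hφ, hc⟩ := Ex.pack
  rw [Group.residuallyFinite_iff_forall_finiteIndexNormalSubgroup]
  intro h
  apply free_noncomm
  apply hφ
  rw [map_mul, map_mul, ← mul_inv_eq_one]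
  refine h _ fun N => ?_
  obtain ⟨n, hn, -, h1⟩ := Subgroup.exists_pow_mem_of_index_ne_zero
    (H := N.toSubgroup) Subgroup.FiniteIndex.index_ne_zero t
  have h2 := (hc 0 n (by omega) (FreeGroup.of true) (FreeGroup.of false)).map
    (QuotientGroup.mk' N.toSubgroup)
  have h3 : QuotientGroup.mk' N.toSubgroup (t ^ (n : ℤ)) = 1 :=
    (QuotientGroup.eq_one_iff _).2 (by simpa using h1)
  rw [cp_apply, cp_apply, map_mul, map_mul, map_mul, map_mul, map_inv, map_inv, h3] at h2
  refine (QuotientGroup.eq_one_iff (N := N.toSubgroup) _).1 ?_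
  change QuotientGroup.mk' N.toSubgroup _ = 1
  rw [map_mul, map_inv, map_mul, map_mul, mul_inv_eq_one]
  simpa using h2.eq

theorem not_linear (K : Type*) [Field K] (n : ℕ) (f : DiagramGroup P0 w0 →* GL (Fin n) K) :
    ¬ Function.Injective f := by
  obtain ⟨t, φ, -, -, hφ, hc⟩ := Ex.pack
  intro hf
  let C : ℕ → Submodule K (Matrix (Fin n) (Fin n) K) := fun k =>
    { carrier := {M | ∀ i : ℕ, i < k → Commute M (f (cp t φ i (FreeGroup.of false))).1}
      add_mem' := fun h1 h2 i hi => (h1 i hi).add_left (h2 i hi)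
      zero_mem' := fun i _ => Commute.zero_left _
      smul_mem' := fun c M h i hi => (h i hi).smul_left c }
  refine not_strictAnti_of_wellFoundedLT C (strictAnti_nat_of_succ_lt fun k => ?_)
  refine lt_of_le_of_ne (fun M h i hi => h i (by omega)) fun e => ?_
  have h1 : (f (cp t φ k (FreeGroup.of true))).1 ∈ C k := fun i hi =>
    ((hc k i (by omega) _ _).map f).map (Units.coeHom _)
  rw [← e] at h1
  have h2 : f (cp t φ k (FreeGroup.of true) * cp t φ k (FreeGroup.of false)) =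
      f (cp t φ k (FreeGroup.of false) * cp t φ k (FreeGroup.of true)) := by
    rw [map_mul, map_mul]
    exact Units.ext (h1 k (by omega)).eq
  have h3 := hf h2
  rw [← map_mul, ← map_mul, cp_apply, cp_apply, mul_left_inj, mul_right_inj] at h3
  exact free_noncomm (hφ h3)

end Pool.Agent.H868Z.Diagram
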