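import Mathlib

/-!
# Tracks in the Cayley complex of a finitely presented group
-/

namespace Pool.Agent.H868Z.Diagram

namespace Track

variable {G σ : Type*} [Group G] (φ : σ → G)

/-- the value of a signed letter -/
def sv (a : σ × Bool) : G := if a.2 then φ a.1 else (φ a.1)⁻¹

/-- the edge of the Cayley graph read from `g` along a signed letter -/
def ed (g : G) (a : σ × Bool) : G × σ := if a.2 then (g, a.1) else (g * (φ a.1)⁻¹, a.1)

/-- the edges of the path from `g` labelled by a word -/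
def edges (g : G) : List (σ × Bool) → List (G × σ)
  | [] => []
  | a :: L => ed φ g a :: edges (g * sv φ a) L

/-- left translation of edges -/
def tr (p : G) (e : G × σ) : G × σ := (p * e.1, e.2)

theorem ed_tr (p g : G) (a : σ × Bool) : ed φ (p * g) a = tr p (ed φ g a) := by
  obtain ⟨a, _ | _⟩ := a <;> simp [ed, tr, mul_assoc]

theorem edges_tr (p : G) : ∀ (L : List (σ × Bool)) (g : G),
    edges φ (p * g) L = (edges φ g L).map (tr p)
  | [], _ => rfl
  | a :: L, g => by rw [edges, edges, List.map_cons, ed_tr, mul_assoc, edges_tr p L]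

theorem lift_cons (a : σ × Bool) (L : List (σ × Bool)) :
    FreeGroup.lift φ (FreeGroup.mk (a :: L)) = sv φ a * FreeGroup.lift φ (FreeGroup.mk L) := by
  obtain ⟨a, _ | _⟩ := a <;> simp [sv]

theorem exists_potential {M : Type*} [AddCommGroup M] (h2 : ∀ m : M, m + m = 0)
    (δ : G × σ → M) (surj : Function.Surjective (FreeGroup.lift φ)) (R : Set (FreeGroup σ))
    (hR : Subgroup.normalClosure R = (FreeGroup.lift φ).ker) (wd : FreeGroup σ → List (σ × Bool))
    (hwd : ∀ ρ, FreeGroup.mk (wd ρ) = ρ)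
    (hδ : ∀ ρ ∈ R, ∀ g, ((edges φ g (wd ρ)).map δ).sum = 0) :
    ∃ F : G → M, ∀ g L, F (g * FreeGroup.lift φ (FreeGroup.mk L)) =
      F g + ((edges φ g L).map δ).sum := by
  let τ : σ → Equiv.Perm (G × M) := fun a =>
    { toFun := fun p => (p.1 * φ a, p.2 + δ (p.1, a))
      invFun := fun p => (p.1 * (φ a)⁻¹, p.2 + δ (p.1 * (φ a)⁻¹, a))
      left_inv := fun p => by simp [add_assoc, h2]
      right_inv := fun p => by simp [add_assoc, h2] }
  let Ψ : FreeGroup σ →* (Equiv.Perm (G × M))ᵐᵒᵖ := FreeGroup.lift fun a => MulOpposite.op (τ a)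
  have key : ∀ (L : List (σ × Bool)) (g : G) (m : M), (Ψ (FreeGroup.mk L)).unop (g, m) =
      (g * FreeGroup.lift φ (FreeGroup.mk L), m + ((edges φ g L).map δ).sum) := by
    intro L
    induction L with
    | nil => intro g m; simp [edges, ← FreeGroup.one_eq_mk]
    | cons a L ih =>
      intro g m
      rw [lift_cons, lift_cons, MulOpposite.unop_mul, Equiv.Perm.mul_apply]
      have : (sv (fun a => MulOpposite.op (τ a)) a).unop (g, m) =
          (g * sv φ a, m + δ (ed φ g a)) := by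
        obtain ⟨a, _ | _⟩ := a <;> rfl
      rw [this, ih, edges, List.map_cons, List.sum_cons, mul_assoc, add_assoc]
  have hk : (FreeGroup.lift φ).ker ≤ Ψ.ker := by
    rw [← hR]
    refine Subgroup.normalClosure_le_normal fun ρ hρ => ?_
    have h1 : FreeGroup.lift φ ρ = 1 := by
      have := Subgroup.subset_normalClosure hρ
      rwa [hR] at this
    refine MulOpposite.unop_injective (Equiv.ext fun p => ?_)
    have := key (wd ρ) p.1 p.2
    rw [hwd, h1, hδ ρ hρ, mul_one, add_zero] at this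
    exact this
  choose sec hsec using surj
  refine ⟨fun g => ((Ψ (sec g)).unop (1, 0)).2, fun g L => ?_⟩
  have e : Ψ (sec (g * FreeGroup.lift φ (FreeGroup.mk L))) = Ψ (sec g * FreeGroup.mk L) := by
    rw [← mul_inv_eq_one, ← map_inv, ← map_mul]
    apply hk
    rw [MonoidHom.mem_ker, map_mul, map_inv, map_mul, hsec, hsec, mul_inv_cancel]
  have e1 : ((Ψ (sec g)).unop (1, 0)).1 = g := by
    have := key (wd (sec g)) 1 0
    rw [hwd, hsec, one_mul] at this
    rw [this]
  dsimp only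
  rw [e, map_mul, MulOpposite.unop_mul, Equiv.Perm.mul_apply]
  conv_lhs => rw [← Prod.mk.eta (p := (Ψ (sec g)).unop (1, 0)), e1, key]

section

variable (W : G → Prop)

/-- crossing edges -/
def Cr (e : G × σ) : Prop := ¬ (W e.1 ↔ W (e.1 * φ e.2))

variable (Rw : Set (List (σ × Bool)))

/-- lying on a common relator loop -/
def Nb (e e' : G × σ) : Prop :=
  Cr φ W e ∧ Cr φ W e' ∧ ∃ g, ∃ L ∈ Rw, e ∈ edges φ g L ∧ e' ∈ edges φ g L

theorem nb_finite (hR : Rw.Finite) (e : G × σ) : {e' | Nb φ W Rw e e'}.Finite := by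
  refine Set.Finite.subset (hR.biUnion fun L _ => (List.finite_toSet (edges φ 1 L)).biUnion
    fun e0 _ => List.finite_toSet (edges φ (e.1 * e0.1⁻¹) L)) ?_
  rintro e' ⟨-, -, g, L, hL, h1, h2⟩
  rw [← mul_one g, edges_tr] at h1
  obtain ⟨e0, h0, rfl⟩ := List.mem_map.1 h1
  simp only [Set.mem_iUnion]
  exact ⟨L, hL, e0, h0, by simpa [tr] using h2⟩

variable {φ W Rw}

theorem Cr.tr {p : G} (hp : ∀ g, W (p * g) ↔ W g) {e : G × σ} : Cr φ W (tr p e) ↔ Cr φ W e := by
  simp only [Cr, Track.tr, mul_assoc, hp]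

theorem Nb.tr {p : G} (hp : ∀ g, W (p * g) ↔ W g) {e e' : G × σ} (h : Nb φ W Rw e e') :
    Nb φ W Rw (tr p e) (tr p e') := by
  obtain ⟨h1, h2, g, L, hL, h3, h4⟩ := h
  refine ⟨(Cr.tr hp).2 h1, (Cr.tr hp).2 h2, p * g, L, hL, ?_, ?_⟩ <;> rw [edges_tr]
  exacts [List.mem_map_of_mem h3, List.mem_map_of_mem h4]

theorem Nb.symm {e e' : G × σ} (h : Nb φ W Rw e e') : Nb φ W Rw e' e := by
  obtain ⟨h1, h2, g, L, hL, h3, h4⟩ := h
  exact ⟨h2, h1, g, L, hL, h4, h3⟩

open Classical in
theorem parity (L : List (σ × Bool)) : ∀ g : G,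
    ((edges φ g L).map fun e => if Cr φ W e then (1 : ZMod 2) else 0).sum =
      if (W g ↔ W (g * FreeGroup.lift φ (FreeGroup.mk L))) then 0 else 1 := by
  induction L with
  | nil => intro g; simp [edges, ← FreeGroup.one_eq_mk]
  | cons a L ih =>
    intro g
    rw [edges, List.map_cons, List.sum_cons, ih, lift_cons, ← mul_assoc]
    have : Cr φ W (ed φ g a) ↔ ¬ (W g ↔ W (g * sv φ a)) := by
      obtain ⟨a, _ | _⟩ := a
      · simp only [Cr, ed, sv, Bool.false_eq_true, if_false, inv_mul_cancel_right]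
        exact not_congr Iff.comm
      · rfl
    rw [this]
    by_cases h1 : W g <;> by_cases h2 : W (g * sv φ a) <;>
      by_cases h3 : W (g * sv φ a * FreeGroup.lift φ (FreeGroup.mk L)) <;>
      simp only [h1, h2, h3] <;> decide

theorem far {z : G} (hz : ∀ g, ∃ N : ℤ, ∀ n, N ≤ n → W (z ^ n * g) ∧ ¬ W (z ^ (-n) * g))
    (l : List (G × σ)) : ∃ N : ℤ, ∀ n, N ≤ n → ∀ e ∈ l,
      ¬ Cr φ W (tr (z ^ n) e) ∧ ¬ Cr φ W (tr (z ^ (-n)) e) := by
  induction l with
  | nil => exact ⟨0, by simp⟩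
  | cons e l ih =>
    obtain ⟨N, hN⟩ := ih
    obtain ⟨N1, h1⟩ := hz e.1
    obtain ⟨N2, h2⟩ := hz (e.1 * φ e.2)
    refine ⟨max N (max N1 N2), fun n hn e' he' => ?_⟩
    simp only [max_le_iff] at hn
    rcases List.mem_cons.1 he' with rfl | he'
    · simp only [Cr, Track.tr, mul_assoc, not_not]
      exact ⟨iff_of_true (h1 n hn.2.1).1 (h2 n hn.2.2).1,
        iff_of_false (h1 n hn.2.1).2 (h2 n hn.2.2).2⟩
    · exact hN n hn.1 e' he'

end

theorem main {G : Type*} [Group G] [hG : Group.IsFinitelyPresented G] (W : G → Prop)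
    (P : Subgroup G) (hP : ∀ p ∈ P, ∀ g, W (p * g) ↔ W g)
    (hfin : ∀ s : G, ∃ F : Set G, F.Finite ∧ ∀ g, ¬ (W g ↔ W (g * s)) → ∃ p ∈ P, ∃ f ∈ F, g = p * f)
    (z : G) (hz : ∀ g, ∃ N : ℤ, ∀ n, N ≤ n → W (z ^ n * g) ∧ ¬ W (z ^ (-n) * g)) :
    ∃ Φ : Set G, Φ.Finite ∧ Φ ⊆ P ∧
      ∀ r ∈ P, Commute r z → ∃ N : ℕ, 0 < N ∧ r ^ N ∈ Subgroup.closure Φ := by
  classical
  obtain ⟨n, ψ, surj, R, Rfin, hR⟩ := hG.out
  obtain ⟨φ, rfl⟩ := FreeGroup.lift.surjective ψ
  let Rw : Set (List (Fin n × Bool)) := FreeGroup.toWord '' R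
  let s : Setoid (G × Fin n) := Relation.EqvGen.setoid (Nb φ W Rw)
  let Q := Quotient s
  let cl : G × Fin n → Q := Quotient.mk s
  let δ : G × Fin n → (Q →₀ ZMod 2) := fun e => if Cr φ W e then Finsupp.single (cl e) 1 else 0
  have h2 : ∀ m : Q →₀ ZMod 2, m + m = 0 := by
    intro m
    ext q
    exact CharTwo.add_self_eq_zero (m q)
  let aug : (Q →₀ ZMod 2) →+ ZMod 2 := Finsupp.liftAddHom fun _ => AddMonoidHom.id _
  have haug : ∀ (L : List (Fin n × Bool)) (g : G), aug ((edges φ g L).map δ).sum =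
      if (W g ↔ W (g * FreeGroup.lift φ (FreeGroup.mk L))) then 0 else 1 := by
    intro L g
    rw [← parity, map_list_sum, List.map_map]
    congr 1
    refine List.map_congr_left fun e _ => ?_
    simp only [Function.comp_apply, δ]
    split_ifs <;> simp [aug]
  obtain ⟨F, hF⟩ := exists_potential φ h2 δ surj R hR FreeGroup.toWord
    (fun _ => FreeGroup.mk_toWord) (by
      intro ρ hρ g
      have h1 : FreeGroup.lift φ ρ = 1 := by
        have := Subgroup.subset_normalClosure hρ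
        rwa [hR] at this
      have h3 := haug ρ.toWord g
      rw [FreeGroup.mk_toWord, h1, mul_one, if_pos Iff.rfl] at h3
      by_cases hc : ∃ e ∈ edges φ g ρ.toWord, Cr φ W e
      · obtain ⟨e0, m0, c0⟩ := hc
        have : ∀ l : List (G × Fin n), (∀ e ∈ l, e ∈ edges φ g ρ.toWord) →
            (l.map δ).sum = Finsupp.single (cl e0) (aug (l.map δ).sum) := by
          intro l
          induction l with
          | nil => simp
          | cons e l ih =>
            intro hl
            rw [List.map_cons, List.sum_cons, map_add, Finsupp.single_add,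
              ← ih fun e he => hl e (by simp [he])]
            congr 1
            simp only [δ]
            split_ifs with h
            · have : cl e = cl e0 := Quotient.sound (Relation.EqvGen.rel _ _
                ⟨h, c0, g, _, ⟨ρ, hρ, rfl⟩, hl e (by simp), m0⟩)
              simp [aug, this]
            · simp
        rw [this _ fun _ h => h, h3, Finsupp.single_zero]
      · push Not at hc
        exact List.sum_eq_zero fun m hm => by
          obtain ⟨e, he, rfl⟩ := List.mem_map.1 hm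
          exact if_neg (hc e he))
  -- the action of `P` on classes
  have hs : ∀ p ∈ P, ∀ e e', s e e' → s (tr p e) (tr p e') := by
    intro p hp e e' h
    induction h with
    | rel _ _ h => exact Relation.EqvGen.rel _ _ (h.tr (hP p hp))
    | refl => exact Relation.EqvGen.refl _
    | symm _ _ _ ih => exact Relation.EqvGen.symm _ _ ih
    | trans _ _ _ _ _ ih1 ih2 => exact Relation.EqvGen.trans _ _ _ ih1 ih2
  let act : MulAction P Q :=
    { smul := fun p => Quotient.map (tr p.1) (hs p.1 p.2)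
      one_smul := by
        rintro ⟨e⟩
        exact congrArg cl (Prod.ext (one_mul _) rfl)
      mul_smul := by
        rintro p p' ⟨e⟩
        exact congrArg cl (Prod.ext (mul_assoc _ _ _) rfl) }
  have act_cl : ∀ (p : P) e, p • cl e = cl (tr p.1 e) := fun _ _ => rfl
  have hδ : ∀ (p : P) (L : List (Fin n × Bool)) (g : G), ((edges φ (p.1 * g) L).map δ).sum =
      Finsupp.mapDomain (p • ·) ((edges φ g L).map δ).sum := by
    intro p L g
    rw [edges_tr, List.map_map]
    refine Eq.trans ?_ (map_list_sum (Finsupp.mapDomain.addMonoidHom (p • ·)) _).symm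
    rw [List.map_map]
    congr 1
    refine List.map_congr_left fun e _ => ?_
    simp only [Function.comp_apply, δ, Cr.tr (hP p.1 p.2)]
    split_ifs
    · simp [act_cl]
    · simp
  choose wd hwd using fun g : G => (surj g).imp' (q := fun L : List (Fin n × Bool) =>
    FreeGroup.lift φ (FreeGroup.mk L) = g) FreeGroup.toWord
    (fun a h => by rw [FreeGroup.mk_toWord]; exact h)
  have same : ∀ r : G, ∃ N : ℤ, ∀ m, N ≤ m →
      F (z ^ m * r) = F (z ^ m) ∧ F (z ^ (-m) * r) = F (z ^ (-m)) := by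
    intro r
    obtain ⟨N, hN⟩ := far (φ := φ) hz (edges φ 1 (wd r))
    refine ⟨N, fun m hm => ⟨?_, ?_⟩⟩
    · have := hF (z ^ m) (wd r)
      rw [hwd] at this
      rw [this, add_eq_left, ← mul_one (z ^ m), edges_tr]
      refine List.sum_eq_zero fun x hx => ?_
      simp only [List.map_map, List.mem_map] at hx
      obtain ⟨e, he, rfl⟩ := hx
      exact if_neg (hN m hm e he).1
    · have := hF (z ^ (-m)) (wd r)
      rw [hwd] at this
      rw [this, add_eq_left, ← mul_one (z ^ (-m)), edges_tr]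
      refine List.sum_eq_zero fun x hx => ?_
      simp only [List.map_map, List.mem_map] at hx
      obtain ⟨e, he, rfl⟩ := hx
      exact if_neg (hN m hm e he).2
  obtain ⟨N1, hN1⟩ := same z
  obtain ⟨N2, hN2⟩ := same z⁻¹
  obtain ⟨N3, hN3⟩ := hz 1
  let N0 := max N1 (max N2 N3)
  have const : ∀ m, N0 ≤ m → F (z ^ m) = F (z ^ N0) ∧ F (z ^ (-m)) = F (z ^ (-N0)) := by
    intro m hm
    induction m, hm using Int.leInduction with
    | base => exact ⟨rfl, rfl⟩
    | succ m hm ih =>
      simp only [N0, max_le_iff] at hm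
      rw [zpow_add_one, (hN1 m hm.1).1, neg_add, zpow_add, zpow_neg_one, (hN2 m hm.2.1).2]
      exact ih
  let ξ : ℤ → (Q →₀ ZMod 2) := fun m => ((edges φ (z ^ (-m)) (wd (z ^ (2 * m)))).map δ).sum
  have hξ : ∀ (r : G) (m : ℤ), F (r * z ^ m) =
      F (r * z ^ (-m)) + ((edges φ (r * z ^ (-m)) (wd (z ^ (2 * m)))).map δ).sum := by
    intro r m
    rw [← hF, hwd, mul_assoc, ← zpow_add]
    congr 3
    ring
  have hξ0 : ∀ m, N0 ≤ m → ξ m = ξ N0 := by
    intro m hm
    have e1 := hξ 1 m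
    have e2 := hξ 1 N0
    rw [one_mul, one_mul] at e1 e2
    rw [(const m hm).1, (const m hm).2, e2, add_right_inj] at e1
    exact e1.symm
  have hne : ξ N0 ≠ 0 := by
    intro e
    have := haug (wd (z ^ (2 * N0))) (z ^ (-N0))
    have h3 := hN3 N0 (le_trans (le_max_right _ _) (le_max_right _ _))
    rw [mul_one, mul_one] at h3
    change aug (ξ N0) = _ at this
    rw [e, map_zero, hwd, ← zpow_add, show -N0 + 2 * N0 = N0 by ring,
      if_neg (fun h => h3.2 (h.2 h3.1))] at this
    exact zero_ne_one this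
  have hinv : ∀ p : P, Commute p.1 z → Finsupp.mapDomain (p • ·) (ξ N0) = ξ N0 := by
    intro p hp
    obtain ⟨N, hN⟩ := same p.1
    have e1 := hξ p.1 (max N N0)
    have e2 := hξ 1 (max N N0)
    rw [one_mul, one_mul] at e2
    rw [hδ, (hp.zpow_right _).eq, (hp.zpow_right _).eq, (hN _ (le_max_left _ _)).1,
      (hN _ (le_max_left _ _)).2, e2, add_right_inj] at e1
    have e3 := hξ0 _ (le_max_right N N0)
    simp only [ξ] at e3 ⊢
    rw [← e3]
    exact e1.symm
  obtain ⟨q, hq⟩ := Finsupp.support_nonempty_iff.2 hne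
  -- crossing edges in the class `q`
  have hq1 : ∃ e1, cl e1 = q ∧ Cr φ W e1 := by
    by_contra hc
    push Not at hc
    refine Finsupp.mem_support_iff.1 hq ?_
    have : ∀ l : List (G × Fin n), (l.map δ).sum q = 0 := by
      intro l
      induction l with
      | nil => simp
      | cons e l ih =>
        rw [List.map_cons, List.sum_cons, Finsupp.add_apply, ih, add_zero]
        simp only [δ]
        split_ifs with h
        · exact Finsupp.single_eq_of_ne fun e' => hc e e'.symm h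
        · rfl
    exact this _
  obtain ⟨e1, he1, ce1⟩ := hq1
  choose Fs Ffin hFs using fun a : Fin n => hfin (φ a)
  -- representatives of the orbits
  let orb : G × Fin n → G × Fin n → Prop := fun f e => ∃ p ∈ P, e = tr p f
  let rep : G × Fin n → G × Fin n := fun f =>
    if h : ∃ e, cl e = q ∧ orb f e then h.choose else e1
  let E0 : Set (G × Fin n) := rep '' {f | f.1 ∈ Fs f.2}
  have E0fin : E0.Finite := by
    refine Set.Finite.image _ (Set.Finite.subset
      (Set.finite_iUnion fun a : Fin n => (Ffin a).image fun g => (g, a)) ?_)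
    rintro ⟨g, a⟩ h
    exact Set.mem_iUnion.2 ⟨a, g, h, rfl⟩
  have repq : ∀ f, cl (rep f) = q := by
    intro f
    simp only [rep]
    split_ifs with h
    · exact h.choose_spec.1
    · exact he1
  have cover : ∀ e, cl e = q → Cr φ W e → ∃ p ∈ P, ∃ e0 ∈ E0, e = tr p e0 := by
    intro e h1 h3
    obtain ⟨p, hp, f, hf, e2⟩ := hFs e.2 e.1 h3
    have h4 : ∃ e', cl e' = q ∧ orb (f, e.2) e' := ⟨e, h1, p, hp, Prod.ext e2 rfl⟩
    obtain ⟨-, p', hp', e3⟩ := h4.choose_spec
    refine ⟨p * p'⁻¹, P.mul_mem hp (P.inv_mem hp'), rep (f, e.2), ⟨_, hf, rfl⟩, ?_⟩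
    simp only [rep]
    rw [dif_pos h4, e3]
    exact Prod.ext (by simp [tr, e2]) rfl
  let Φ : Set G := {p | p ∈ P ∧ ∃ e0 ∈ insert e1 E0, ∃ e0' ∈ insert e1 E0,
    tr p e0' = e0 ∨ Nb φ W Rw e0 (tr p e0')}
  have Φfin : Φ.Finite := by
    refine Set.Finite.subset ((E0fin.insert e1).biUnion fun e0 _ => (E0fin.insert e1).biUnion
      fun e0' _ => ((nb_finite φ W Rw (Rfin.image _) e0).insert e0).image
        fun e => e.1 * e0'.1⁻¹) ?_
    rintro p ⟨-, e0, h0, e0', h0', h⟩
    simp only [Set.mem_iUnion]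
    exact ⟨e0, h0, e0', h0', tr p e0', h, by simp [tr]⟩
  have Φle : Subgroup.closure Φ ≤ P := (Subgroup.closure_le _).2 fun p hp => hp.1
  have reach : ∀ e e', s e e' → (cl e = q → ((∃ p ∈ Subgroup.closure Φ, ∃ e0 ∈ insert e1 E0,
      e = tr p e0) ↔ ∃ p ∈ Subgroup.closure Φ, ∃ e0 ∈ insert e1 E0, e' = tr p e0)) := by
    have step : ∀ e e', Nb φ W Rw e e' → (∃ p ∈ Subgroup.closure Φ, ∃ e0 ∈ insert e1 E0,
        e = tr p e0) → ∃ p ∈ Subgroup.closure Φ, ∃ e0 ∈ insert e1 E0, e' = tr p e0 := by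
      rintro e e' h ⟨p, hp, e0, h0, rfl⟩
      have h1 := h.tr (hP p⁻¹ (P.inv_mem (Φle hp)))
      have e2 : tr p⁻¹ (tr p e0) = e0 := Prod.ext (by simp [tr]) rfl
      rw [e2] at h1
      have c0 : cl e0 = q := by
        rcases h0 with rfl | ⟨f, -, rfl⟩
        exacts [he1, repq f]
      obtain ⟨p', hp', e0', h0', e3⟩ := cover (tr p⁻¹ e')
        ((Quotient.sound (Relation.EqvGen.rel _ _ h1.symm)).trans c0) h1.2.1
      refine ⟨p * p', Subgroup.mul_mem _ hp (Subgroup.subset_closure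
        ⟨hp', e0, h0, e0', Or.inr h0', Or.inr (e3 ▸ h1)⟩), e0', Or.inr h0', ?_⟩
      have e4 := congrArg (tr p) e3
      simpa [tr, mul_assoc] using e4
    intro e e' h
    induction h with
    | rel e e' h => exact fun _ => ⟨step _ _ h, step _ _ h.symm⟩
    | refl => exact fun _ => Iff.rfl
    | symm e e' h ih => exact fun c => (ih ((Quotient.sound h).trans c)).symm
    | trans e e' e'' h _ ih1 ih2 =>
      exact fun c => (ih1 c).trans (ih2 ((Quotient.sound h).symm.trans c))
  refine ⟨Φ, Φfin, fun p hp => hp.1, fun r hr hc => ?_⟩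
  have orbq : ∀ i : ℕ, (⟨r, hr⟩ : P) ^ i • q ∈ (ξ N0).support := by
    intro i
    have := hinv ((⟨r, hr⟩ : P) ^ i) (hc.pow_left i)
    rw [Finsupp.mem_support_iff, ← this, Finsupp.mapDomain_apply (MulAction.injective _)]
    exact Finsupp.mem_support_iff.1 hq
  obtain ⟨N, hN, eN⟩ : ∃ N : ℕ, 0 < N ∧ (⟨r, hr⟩ : P) ^ N • q = q := by
    obtain ⟨i, j, hij, e⟩ := Finite.exists_ne_map_eq_of_infinite
      (fun i : ℕ => (⟨_, orbq i⟩ : (ξ N0).support))
    have e' : (⟨r, hr⟩ : P) ^ i • q = (⟨r, hr⟩ : P) ^ j • q := congrArg Subtype.val e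
    have key : ∀ i j : ℕ, i < j → (⟨r, hr⟩ : P) ^ i • q = (⟨r, hr⟩ : P) ^ j • q →
        ∃ N : ℕ, 0 < N ∧ (⟨r, hr⟩ : P) ^ N • q = q := by
      intro i j hij e
      obtain ⟨d, rfl⟩ : ∃ d, j = i + d := ⟨j - i, by omega⟩
      rw [pow_add, mul_smul] at e
      exact ⟨d, by omega, (smul_left_cancel _ e).symm⟩
    rcases lt_or_gt_of_ne hij with h1 | h1
    · exact key i j h1 e'
    · exact key j i h1 e'.symm
  refine ⟨N, hN, ?_⟩
  have h1 : s e1 (tr (r ^ N) e1) := by
    refine Quotient.exact (he1.trans ?_)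
    rw [← eN, ← he1]
    rfl
  obtain ⟨p, hp, e0, h0, e2⟩ := (reach _ _ h1 he1).1
    ⟨1, Subgroup.one_mem _, e1, Or.inl rfl, Prod.ext (one_mul _).symm rfl⟩
  have h3 : p⁻¹ * r ^ N ∈ Φ := by
    refine ⟨P.mul_mem (P.inv_mem (Φle hp)) (P.pow_mem hr N), e0, h0, e1, Or.inl rfl, Or.inl ?_⟩
    have e4 := congrArg (tr p⁻¹) e2
    simpa [tr, mul_assoc] using e4
  have := Subgroup.mul_mem _ hp (Subgroup.subset_closure h3)
  simpa using this

end Track

end Pool.Agent.H868Z.Diagram
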