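import Mathlib
import Pool.Agent.H868Z.Diagram.Bump
import Pool.Agent.H868Z.Diagram.Track

/-!
# Finitely presented solvable groups acting on wire systems are abelian
-/

namespace Pool.Agent.H868Z.Diagram

open scoped commutatorElement

namespace Sys

variable {G T Hy U : Type*} [Group G] [MulAction G T] [MulAction G Hy] [Group U]
  {S : Sys G T Hy U} {A : Subgroup G}

/-- elements fixing the orbit of `H0` below some bump -/
def Low (S : Sys G T Hy U) (A : Subgroup G) (H0 : Hy) (k : G) : Prop :=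
  ∃ c : G, ∀ z : G, ¬ S.BLt A (c • H0) (z • H0) → k • z • H0 = z • H0

theorem Low.zpow [A.Normal] {H0 : Hy} {k : G} (h : Low S A H0 k) (n : ℤ) : Low S A H0 (k ^ n) := by
  obtain ⟨c, hc⟩ := h
  exact ⟨c, fun z hz => MulAction.mem_stabilizer_iff.1
    (Subgroup.zpow_mem _ (MulAction.mem_stabilizer_iff.2 (hc z hz)) n)⟩

theorem low_bound [Group.IsSolvable G] [A.Normal] {H0 : Hy} (h0 : S.InS A H0)
    (nt : ∃ g : G, ¬ S.E A (g • H0) H0) (y : G) :
    ∃ x : G, ∀ k, Low S A H0 k → S.BLt A (k • y • H0) (x • H0) := by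
  obtain ⟨x, hx⟩ := order_bound (G := G) H0 (fun H J => ¬ S.BLt A J H)
    (fun g h => by
      by_contra hc
      push Not at hc
      exact hc.1.asymm hc.2)
    (fun g h k h1 h2 h3 => (h3.cotrans (h0.smul k) (h0.smul h) (h0.smul g)).elim h2 h1)
    (fun g x y h1 h2 => h1 (by simpa using h2.smul g⁻¹))
    (by
      obtain ⟨g, hg⟩ := nt
      rcases (h0.smul g).blt h0 hg with h | h
      · exact ⟨1, g, by simpa using h⟩
      · exact ⟨g, 1, by simpa using h⟩) y
  exact ⟨x, fun k hk => not_not.1 (hx k hk)⟩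

theorem exists_ub [A.Normal] {H0 : Hy} (h0 : S.InS A H0) {ι : Type*} (p : ι → G → Prop)
    {F : Set ι} (hF : F.Finite) (h : ∀ i ∈ F, ∃ c : G, ∀ g : G, S.BLt A (c • H0) (g • H0) → p i g) :
    ∃ c : G, ∀ g : G, S.BLt A (c • H0) (g • H0) → ∀ i ∈ F, p i g := by
  induction F, hF using Set.Finite.induction_on with
  | empty => exact ⟨1, by simp⟩
  | @insert j F _ _ ih =>
    obtain ⟨c, hc⟩ := ih fun i hi => h i (Or.inr hi)
    obtain ⟨d, hd⟩ := h j (Or.inl rfl)
    by_cases e : S.BLt A (c • H0) (d • H0)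
    · refine ⟨d, fun g hg i hi => ?_⟩
      rcases hi with rfl | hi
      · exact hd g hg
      · exact hc g (e.trans hg (h0.smul d)) i hi
    · refine ⟨c, fun g hg i hi => ?_⟩
      rcases hi with rfl | hi
      · exact hd g ((hg.cotrans (h0.smul c) (h0.smul d) (h0.smul g)).resolve_left e)
      · exact hc g hg i hi

theorem Low.high [Group.IsSolvable G] [A.Normal] {H0 : Hy} (h0 : S.InS A H0)
    (nt : ∃ g : G, ¬ S.E A (g • H0) H0) {k : G} (hk : Low S A H0 k) :
    ∃ c : G, ∀ g : G, S.BLt A (c • H0) (g • H0) → k • g • H0 = g • H0 := by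
  have up := low_bound h0 nt
  have one : Low S A H0 1 := ⟨1, fun z _ => one_smul _ _⟩
  have key : ∀ J, S.Pos k J → ∃ c : G, ∀ g : G, S.BLt A (c • H0) (g • H0) → S.Cross J (g • H0) := by
    intro J hJ
    by_cases h1 : ∃ c : G, S.Lt J (c • H0)
    · obtain ⟨c, hc⟩ := h1
      exact ⟨c, fun g hg => Or.inl (hc.trans hg.2)⟩
    by_cases h2 : ∀ g : G, S.Lt (g • H0) J
    · exact ⟨1, fun g _ => Or.inr (h2 g)⟩
    exfalso
    push Not at h1 h2
    obtain ⟨c, hc⟩ := h2
    have nc : ∀ g : G, S.BLt A (c • H0) (g • H0) → ¬ S.Cross (g • H0) J := fun g hg h =>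
      h.elim (fun h => hc (hg.2.trans h)) (h1 g)
    obtain ⟨x, hx⟩ := up c
    obtain ⟨w, hw⟩ := up x
    have hx' : ∀ n : ℤ, S.BLt A (c • H0) ((k ^ n * x) • H0) := fun n => by
      have := (hx _ (hk.zpow (-n))).smul (k ^ n)
      rwa [zpow_neg, smul_inv_smul, ← mul_smul] at this
    have hw' : S.BLt A (c • H0) (w • H0) := by
      have k1 := hx 1 one
      have k2 := hw 1 one
      rw [one_smul] at k1 k2
      exact k1.trans k2 (h0.smul x)
    obtain ⟨y, hy⟩ := exists_has (S := S) (x • H0)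
    have side : ∀ n : ℤ, ∃ z : S.X, Has z (S.inp (w • H0)) ∧ (sd J z ↔ sd J (k ^ n • y)) := by
      intro n
      obtain ⟨z, z1, z2⟩ := Cross.exists_has (Or.inl (hw _ (hk.zpow n)).2)
      refine ⟨z, z2, ?_⟩
      by_contra hc
      refine nc _ (hx' n) ?_
      rw [mul_smul]
      exact cross_of_sides z1 (hy.smul_inp _) hc
    obtain ⟨N, hN⟩ := hJ y
    obtain ⟨z1, a1, a2⟩ := side N
    obtain ⟨z2, b1, b2⟩ := side (-N)
    exact nc w hw' (cross_of_sides a1 b1 fun e =>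
      (hN N le_rfl).2 (b2.1 (e.1 (a2.2 (hN N le_rfl).1))))
  obtain ⟨L, hL⟩ := S.nonempty
  let x : S.X := ⟨L, hL⟩
  obtain ⟨c, hc⟩ := exists_ub h0 (fun J g => S.Pos k J → S.Cross J (g • H0))
    (sep_finite x (k • x)) (fun J _ => by
      by_cases hJ : S.Pos k J
      · obtain ⟨c, hc⟩ := key J hJ
        exact ⟨c, fun g hg _ => hc g hg⟩
      · exact ⟨1, fun g _ h => absurd h hJ⟩)
  obtain ⟨d, hd⟩ := up c
  refine ⟨d, fun g hg => fix_of_cross (S := S) fun J hJ => ?_⟩
  obtain ⟨n, hn⟩ := hJ.exists_sep x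
  have h1 : S.BLt A (c • H0) ((k ^ n * g) • H0) := by
    have := ((hd _ (hk.zpow (-n))).trans hg (h0.smul d)).smul (k ^ n)
    rwa [zpow_neg, smul_inv_smul, ← mul_smul] at this
  have := (hc _ h1 _ hn (hJ.smul (Commute.zpow_self k n))).smul (k ^ n)⁻¹
  rwa [inv_smul_smul, mul_smul, inv_smul_smul] at this

theorem track_stab [Group.IsFinitelyPresented G] {a : G} {H : Hy} (h : S.Pos a H) :
    ∃ Φ : Set G, Φ.Finite ∧ (∀ g ∈ Φ, g • H = H) ∧
      ∀ r : G, r • H = H → Commute r a → ∃ N : ℕ, 0 < N ∧ r ^ N ∈ Subgroup.closure Φ := by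
  obtain ⟨L, hL⟩ := S.nonempty
  let x : S.X := ⟨L, hL⟩
  refine Track.main (fun g => sd H (g • x)) (MulAction.stabilizer G H) ?_ ?_ a ?_
  · intro p hp g
    have : p⁻¹ • H = H := MulAction.mem_stabilizer_iff.1 (Subgroup.inv_mem _ hp)
    simp only [mul_smul]
    rw [sd_smul' p, this]
  · intro s
    have : ∀ J : Hy, ∃ f : G, (∃ g : G, g⁻¹ • H = J) → f⁻¹ • H = J := fun J => by
      by_cases hJ : ∃ g : G, g⁻¹ • H = J
      · obtain ⟨g, hg⟩ := hJ
        exact ⟨g, fun _ => hg⟩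
      · exact ⟨1, fun h => absurd h hJ⟩
    choose f hf using this
    refine ⟨f '' (sep x (s • x) ∪ sep (s • x) x),
      ((sep_finite _ _).union (sep_finite _ _)).image f, fun g hg => ?_⟩
    refine ⟨g * (f (g⁻¹ • H))⁻¹, ?_, f (g⁻¹ • H), ⟨_, ?_, rfl⟩, by simp⟩
    · rw [MulAction.mem_stabilizer_iff, mul_smul, hf _ ⟨g, rfl⟩, smul_inv_smul]
    · simp only [mul_smul] at hg
      rw [sd_smul' g, sd_smul' g] at hg
      simp only [sep, Set.mem_union, Set.mem_ofPred_eq]
      tauto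
  · intro g
    simp only [mul_smul]
    exact h (g • x)

/-- all bumps are fixed by the group -/
theorem bump_fixed [Group.IsFinitelyPresented G] [Group.IsSolvable G] [hN : A.Normal]
    (hA : ∀ a ∈ A, ∀ b ∈ A, Commute a b) {H : Hy} (hH : S.InS A H) (g : G) :
    S.E A (g • H) H := by
  by_contra hc
  obtain ⟨a, ha, hp⟩ := hH
  obtain ⟨L, hL⟩ := S.nonempty
  let x : S.X := ⟨L, hL⟩
  let F : Set Hy := {J | J ∈ sep x (a • x) ∧ S.Pos a J ∧ ∃ g : G, ¬ S.E A (g • J) J}
  have red : ∀ J, S.Pos a J → (∃ g : G, ¬ S.E A (g • J) J) → ∃ K ∈ F, S.E A K J := by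
    rintro J hJ ⟨g, hg⟩
    obtain ⟨n, hn⟩ := hJ.exists_sep x
    have e := e_zpow (hJ.e_smul ha) n
    exact ⟨_, ⟨hn, hJ.smul (Commute.zpow_self a n), g, fun e' =>
      hg (((e.smul g).symm.trans e').trans e)⟩, e⟩
  have : Finite F := ((sep_finite x (a • x)).subset fun J hJ => hJ.1).to_subtype
  let r : F → F → Prop := fun J K => S.BLt A J.1 K.1
  have : IsTrans F r := ⟨fun J K M h1 h2 => h1.trans h2 ⟨a, ha, K.2.2.1⟩⟩
  have : Std.Irrefl r := ⟨fun J h => h.1 (E.refl _)⟩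
  obtain ⟨K0, hK0, -⟩ := red H hp ⟨g, hc⟩
  obtain ⟨⟨H0, m1, p0, nt⟩, -, hmin⟩ := (Finite.wellFounded_of_trans_of_irrefl r).has_min
    Set.univ ⟨⟨K0, hK0⟩, trivial⟩
  have h0 : S.InS A H0 := ⟨a, ha, p0⟩
  have hmin' : ∀ J, S.Supp a J → (∃ g : G, ¬ S.E A (g • J) J) → ¬ S.BLt A J H0 := by
    have : ∀ J, S.Pos a J → (∃ g : G, ¬ S.E A (g • J) J) → ¬ S.BLt A J H0 := by
      intro J h1 h2 h3
      obtain ⟨K, k1, k2⟩ := red J h1 h2
      exact hmin ⟨K, k1⟩ trivial (h3.congr_left k2.symm h0)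
    rintro J h1 ⟨g, hg⟩ h3
    have e := (h1.inS ha).e_flip
    rcases h1 with h1 | h1
    · exact this J h1 ⟨g, hg⟩ h3
    · exact this _ h1 ⟨g, fun e' => hg (((e.smul g).symm.trans e').trans e)⟩
        (h3.congr_left e.symm h0)
  obtain ⟨Φ, hΦ, fx, tr⟩ := track_stab p0
  obtain ⟨b, hb⟩ : ∃ b : G, S.BLt A (b • H0) H0 := by
    obtain ⟨g, hg⟩ := nt
    rcases (h0.smul g).blt h0 hg with h | h
    · exact ⟨g, h⟩
    · exact ⟨g⁻¹, by simpa using h.smul g⁻¹⟩
  have one : Low S A H0 1 := ⟨1, fun z _ => one_smul _ _⟩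
  obtain ⟨c, hc⟩ := exists_ub h0 (fun φ g => S.BLt A H0 (g • H0) ∧ φ • g • H0 = g • H0)
    (hΦ.insert 1) (fun φ hφ => by
      have hφ' : φ • H0 = H0 := by
        rcases hφ with rfl | hφ
        · exact one_smul _ _
        · exact fx φ hφ
      obtain ⟨l, r, rfl, h1, h2⟩ := stab_split (S := S) hφ'
      have hr : Low S A H0 r := ⟨b, fun z hz => h2 _
        ((hb.cotrans (h0.smul b) (h0.smul z) h0).resolve_left hz).2⟩
      obtain ⟨c, hc⟩ := hr.high h0 nt
      obtain ⟨d, hd⟩ := exists_ub h0 (fun c' g => S.BLt A (c' • H0) (g • H0))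
        (F := {1, c}) (Set.toFinite _) (fun i _ => ⟨i, fun g hg => hg⟩)
      refine ⟨d, fun g hg => ?_⟩
      have k1 := hd g hg 1 (by simp)
      rw [one_smul] at k1
      exact ⟨k1, by rw [mul_smul, hc g (hd g hg c (by simp)), h1 _ k1.2]⟩)
  obtain ⟨w, hw⟩ := low_bound h0 nt c
  have hw1 := hw 1 one
  rw [one_smul] at hw1
  have hw2 := hc w hw1
  have hw3 : S.BLt A (w⁻¹ • H0) H0 := by simpa using (hw2 1 (Or.inl rfl)).1.smul w⁻¹
  have ha' : w * a * w⁻¹ ∈ A := hN.conj_mem a ha w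
  have f1 : (w * a * w⁻¹) • H0 = H0 := by
    refine (h0.tri hA ha').resolve_left fun s => hmin' (w⁻¹ • H0) ?_ ?_ hw3
    · have := s.conj w⁻¹
      simpa [mul_assoc] using this
    · exact ⟨w, fun e => hw3.1 (by simpa using e.symm)⟩
  obtain ⟨N, hN0, hN1⟩ := tr _ f1 (hA _ ha' a ha)
  have f2 : Subgroup.closure Φ ≤ MulAction.stabilizer G (w • H0) :=
    (Subgroup.closure_le _).2 fun φ hφ => (hw2 φ (Or.inr hφ)).2
  have f3 := MulAction.mem_stabilizer_iff.1 (f2 hN1)
  rw [← zpow_natCast] at f3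
  have := (p0.conj w).zpow_eq f3
  omega

open Classical in
/-- signed count of the hyperplanes of `C` separating two states -/
noncomputable def cnt (C : Hy → Prop) (x y : S.X) : ℤ :=
  ∑ᶠ H, if C H then (if sd H y then 1 else 0) - (if sd H x then 1 else 0) else 0

open Classical in
theorem cnt_fin (C : Hy → Prop) (x y : S.X) : (Function.support fun H =>
    if C H then (if sd H y then (1 : ℤ) else 0) - (if sd H x then 1 else 0) else 0).Finite := by
  refine ((sep_finite x y).union (sep_finite y x)).subset fun H hH => ?_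
  simp only [sep, Set.mem_union, Set.mem_ofPred_eq]
  by_contra hc
  apply hH
  by_cases h1 : sd H x <;> by_cases h2 : sd H y <;> simp_all

theorem cnt_add (C : Hy → Prop) (x y z : S.X) : cnt C x z = cnt C x y + cnt C y z := by
  unfold cnt
  rw [← finsum_add_distrib (cnt_fin C x y) (cnt_fin C y z)]
  refine finsum_congr fun H => ?_
  split_ifs <;> simp

open Classical in
theorem cnt_smul {C : Hy → Prop} {g : G} (hg : ∀ H, C (g • H) ↔ C H) (x y : S.X) :
    cnt C (g • x) (g • y) = cnt C x y := by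
  unfold cnt
  refine Eq.trans (finsum_comp_equiv (MulAction.toPerm g : Hy ≃ Hy)).symm ?_
  refine finsum_congr fun H => ?_
  rw [MulAction.toPerm_apply]
  exact if_congr (hg H) (congrArg₂ (· - ·) (if_congr (sd_smul g H y) rfl rfl)
    (if_congr (sd_smul g H x) rfl rfl)) rfl

/-- elements preserving a set of hyperplanes -/
def pres (G : Type*) [Group G] [MulAction G Hy] (C : Hy → Prop) : Subgroup G where
  carrier := {g | ∀ H, C (g • H) ↔ C H}
  one_mem' := fun H => by rw [one_smul]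
  mul_mem' := fun {a b} ha hb H => by rw [mul_smul, ha, hb]
  inv_mem' := fun {a} ha H => by rw [← ha, smul_inv_smul]

theorem cnt_comm (C : Hy → Prop) (x : S.X) {g : G} (hg : g ∈ ⁅pres G C, pres G C⁆) :
    cnt C x (g • x) = 0 := by
  have self : ∀ y : S.X, cnt C y y = 0 := fun y => by
    have := cnt_add C y y y
    omega
  have mul : ∀ a ∈ pres G C, ∀ b : G, cnt C x ((a * b) • x) = cnt C x (a • x) + cnt C x (b • x) :=
    fun a ha b => by rw [cnt_add C x (a • x), mul_smul, cnt_smul ha]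
  have inv : ∀ a ∈ pres G C, cnt C x (a⁻¹ • x) = - cnt C x (a • x) := fun a ha => by
    have := mul a ha a⁻¹
    rw [mul_inv_cancel, one_smul, self] at this
    omega
  let Z : Subgroup G :=
    { carrier := {g | g ∈ pres G C ∧ cnt C x (g • x) = 0}
      one_mem' := ⟨Subgroup.one_mem _, by rw [one_smul, self]⟩
      mul_mem' := fun {a b} ha hb => ⟨Subgroup.mul_mem _ ha.1 hb.1, by
        rw [mul a ha.1, ha.2, hb.2, add_zero]⟩
      inv_mem' := fun {a} ha => ⟨Subgroup.inv_mem _ ha.1, by rw [inv a ha.1, ha.2, neg_zero]⟩ }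
  have : ⁅pres G C, pres G C⁆ ≤ Z := Subgroup.commutator_le.2 fun a ha b hb =>
    ⟨comm_le_self _ (Subgroup.commutator_mem_commutator ha hb), by
      rw [commutatorElement_def, mul_assoc, mul_assoc, mul a ha, mul b hb,
        mul _ (Subgroup.inv_mem _ ha), inv a ha, inv b hb]
      ring⟩
  exact (this hg).2

theorem not_mem_comm [A.Normal] {a : G} (ha : a ∈ A) {H0 : Hy} (h : S.Pos a H0) :
    a ∉ ⁅pres G fun H => S.E A H H0 ∧ S.Pos a H, pres G fun H => S.E A H H0 ∧ S.Pos a H⁆ := by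
  classical
  intro hc
  obtain ⟨x, hx⟩ := exists_ax (S := S) a
  refine absurd (cnt_comm _ x hc) (ne_of_gt ?_)
  refine finsum_pos (fun H => ?_) ?_ (cnt_fin _ _ _)
  · split_ifs with h1 h2 h3 h3
    · simp
    · simp
    · exact (h1.2.not_flip (hx _ ⟨by rw [sd_flip]; exact not_not.2 h3, by rwa [sd_flip]⟩)).elim
    · simp
    · simp
  · obtain ⟨n, hn⟩ := h.exists_sep x
    refine ⟨a ^ n • H0, ?_⟩
    rw [if_pos ⟨e_zpow (h.e_smul ha) n, h.smul (Commute.zpow_self a n)⟩, if_pos hn.2, if_neg hn.1]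
    simp

theorem pres_or [Group.IsFinitelyPresented G] [Group.IsSolvable G] [hN : A.Normal]
    (hA : ∀ a ∈ A, ∀ b ∈ A, Commute a b) {a : G} (ha : a ∈ A) {H0 : Hy} (h : S.Pos a H0)
    (g : G) : (∀ J, S.E A J H0 → S.Pos a J → S.Pos a (g • J)) ∨
      ∀ J, S.E A J H0 → S.Pos a J → S.Pos a (S.flip (g • J)) := by
  have hb : g⁻¹ * a * g⁻¹⁻¹ ∈ A := hN.conj_mem a ha g⁻¹
  have h1 : S.Supp a (g • H0) := ((bump_fixed hA ⟨a, ha, h⟩ g).supp hA ha).2 (Or.inl h)
  have h2 := h1.conj g⁻¹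
  rw [inv_smul_smul] at h2
  refine (agree hA ha hb h h2).imp (fun k J j1 j2 => ?_) (fun k J j1 j2 => ?_)
  · simpa [mul_assoc] using (k J j1 j2).conj g
  · rw [← S.smul_flip]
    simpa [mul_assoc] using (k J j1 j2).conj g

theorem mem_pres [Group.IsFinitelyPresented G] [Group.IsSolvable G] [A.Normal]
    (hA : ∀ a ∈ A, ∀ b ∈ A, Commute a b) {a : G} (ha : a ∈ A) {H0 : Hy}
    {g : G} (h1 : ∀ J, S.E A J H0 → S.Pos a J → S.Pos a (g • J))
    (h2 : ∀ J, S.E A J H0 → S.Pos a J → S.Pos a (g⁻¹ • J)) :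
    g ∈ pres G fun H => S.E A H H0 ∧ S.Pos a H := by
  intro H
  constructor
  · rintro ⟨k1, k2⟩
    have k3 := h2 _ k1 k2
    rw [inv_smul_smul] at k3
    exact ⟨(bump_fixed hA ⟨a, ha, k3⟩ g).symm.trans k1, k3⟩
  · rintro ⟨k1, k2⟩
    exact ⟨(bump_fixed hA ⟨a, ha, k2⟩ g).trans k1, h1 _ k1 k2⟩

theorem sq_pres [Group.IsFinitelyPresented G] [Group.IsSolvable G] [A.Normal]
    (hA : ∀ a ∈ A, ∀ b ∈ A, Commute a b) {a : G} (ha : a ∈ A) {H0 : Hy} (h : S.Pos a H0)
    (g : G) : ∀ J, S.E A J H0 → S.Pos a J → S.Pos a ((g * g) • J) := by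
  intro J j1 j2
  have e := (bump_fixed hA ⟨a, ha, j2⟩ g).trans j1
  rw [mul_smul]
  rcases pres_or hA ha h g with k | k
  · exact k _ e (k J j1 j2)
  · have := k _ ((InS.smul ⟨a, ha, j2⟩ g).e_flip.trans e) (k J j1 j2)
    rwa [S.smul_flip, S.flip_flip] at this

include S in
/-- the main theorem -/
theorem commute_of_solvable [Group.IsFinitelyPresented G] [Group.IsSolvable G] (a b : G) :
    Commute a b := by
  let Q : Subgroup G := Subgroup.closure {g | ∃ h, g = h * h}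
  have hQ : Q.Normal := ⟨fun n hn g => by
    induction hn using Subgroup.closure_induction with
    | mem x hx =>
      obtain ⟨h, rfl⟩ := hx
      exact Subgroup.subset_closure ⟨g * h * g⁻¹, by group⟩
    | one => simp
    | mul x y _ _ hx hy =>
      have := Q.mul_mem hx hy
      convert this using 1
      group
    | inv x _ hx =>
      have := Q.inv_mem hx
      convert this using 1
      group⟩
  have hsq : ∀ g : G, g * g ∈ Q := fun g => Subgroup.subset_closure ⟨g, rfl⟩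
  have h1 : ⁅Q, Q⁆ = ⊥ := by
    by_contra hc
    obtain ⟨A, hN, le, ne, hA⟩ := exists_abelian_normal _ hc
    obtain ⟨a, ha, ha1⟩ : ∃ a ∈ A, a ≠ 1 := by
      by_contra hc
      push Not at hc
      exact ne ((Subgroup.eq_bot_iff_forall _).2 hc)
    obtain ⟨H0, p0⟩ := exists_pos (S := S) ha1
    have : Q ≤ pres G fun H => S.E A H H0 ∧ S.Pos a H := by
      refine (Subgroup.closure_le _).2 ?_
      rintro _ ⟨g, rfl⟩
      refine mem_pres hA ha (sq_pres hA ha p0 g) ?_
      rw [mul_inv_rev]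
      exact sq_pres hA ha p0 g⁻¹
    exact not_mem_comm ha p0 (Subgroup.commutator_mono this this (le ha))
  have hA : ∀ a ∈ Q, ∀ b ∈ Q, Commute a b := fun a ha b hb => by
    have := Subgroup.commutator_mem_commutator ha hb
    rw [h1, Subgroup.mem_bot] at this
    exact commutatorElement_eq_one_iff_commute.1 this
  rw [← commutatorElement_eq_one_iff_commute]
  by_contra hc
  have hc' : ⁅a, b⁆ ∈ Q := by
    have := Q.mul_mem (Q.mul_mem (hsq a) (hsq (a⁻¹ * b))) (hsq b⁻¹)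
    convert this using 1
    rw [commutatorElement_def]
    group
  obtain ⟨H0, p0⟩ := exists_pos (S := S) hc
  have all : ∀ (g : G) J, S.E Q J H0 → S.Pos ⁅a, b⁆ J → S.Pos ⁅a, b⁆ (g • J) := by
    intro g
    refine (pres_or hA hc' p0 g).resolve_right fun k => ?_
    have k1 := k H0 (E.refl _) p0
    have h0 : S.InS Q H0 := ⟨_, hc', p0⟩
    have cg : Commute g (g * g) := (Commute.refl g).mul_right (Commute.refl g)
    have e : S.E Q (S.flip (g • H0)) H0 := (h0.smul g).e_flip.trans (bump_fixed hA h0 g)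
    rcases h0.tri hA (hsq g) with s | s
    · rcases agree hA hc' (hsq g) p0 s with m | m
      · exact ((m H0 (E.refl _) p0).smul cg).not_flip (m _ e k1)
      · have m1 := (m H0 (E.refl _) p0).smul cg
        rw [S.smul_flip] at m1
        exact m1.not_flip (m _ e k1)
    · rw [fix_of_pow S (N := 2) two_pos (by rwa [pow_two])] at k1
      exact p0.not_flip k1
  exact not_mem_comm hc' p0 (Subgroup.commutator_mem_commutator
    (mem_pres hA hc' (all a) (all a⁻¹)) (mem_pres hA hc' (all b) (all b⁻¹)))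

end Sys

end Pool.Agent.H868Z.Diagram
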