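import Mathlib
import Pool.Agent.H868Z.Diagram.Ctx
import Pool.Agent.H868Z.Diagram.Coh
import Pool.Agent.H868Z.Diagram.CdDefs

/-!
# The tree of left hyperplanes and the cohomological dimension of diagram groups
-/

set_option maxHeartbeats 400000

namespace Pool.Agent.H868Z.Diagram

universe u

variable {A : Type u} {P : Pres A}

theorem DG_conj {x y : List A} {γ : UG P} (h : Conn x γ y) (hx : DG P x = ⊥) : DG P y = ⊥ := by
  rw [Subgroup.eq_bot_iff_forall] at hx ⊢
  intro u hu
  have := hx _ ((h.trans hu).trans h.symm)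
  simpa [mul_inv_eq_one] using this

theorem DG_left {x y : List A} (h : DG P (x ++ y) = ⊥) : DG P x = ⊥ := by
  rw [Subgroup.eq_bot_iff_forall] at h ⊢
  intro u hu
  have h1 := h _ ((Conn.ctx hu [] y).cast rfl rfl)
  exact (sum_inj hu (Conn.refl (w := y)) (by rw [h1, map_one, mul_one])).1

variable (P) in
/-- left edges -/
def Lft (a u : List A) : Prop := DG P a = ⊥ ∧ DG P (a ++ u) ≠ ⊥

theorem lft_mv {a : List A} {m : Mv P} (h : Lft P a m.dom) : Lft P a m.cod := by
  refine ⟨h.1, fun e => h.2 ?_⟩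
  have := (Conn.single a m []).symm
  rw [List.append_nil, List.append_nil] at this
  exact DG_conj this e

theorem lft_iff {a : List A} {r : P.rel} : Lft P a r.1.1 ↔ Lft P a r.1.2 :=
  ⟨lft_mv (m := (r, true)), lft_mv (m := (r, false))⟩

/-- paths avoiding left edges -/
inductive NL (w : List A) : UG P → List A → Prop
  | refl : NL w 1 w
  | step {u : UG P} {a : List A} {m : Mv P} {b : List A} : NL w u (a ++ m.dom ++ b) →
      ¬ Lft P a m.dom → NL w (u * ev1 a m b) (a ++ m.cod ++ b)

theorem NL.cast {w w' w'' : List A} {u u' : UG P} (h : NL w u w') (hu : u = u')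
    (hw : w' = w'') : NL w u' w'' := by
  subst hu hw; exact h

theorem NL.trans {w w' w'' : List A} {u u' : UG P} (h : NL w u w') (h' : NL w' u' w'') :
    NL w (u * u') w'' := by
  induction h' with
  | refl => simpa using h
  | step _ hl ih => rw [← mul_assoc]; exact NL.step ih hl

theorem NL.single {a : List A} {m : Mv P} (b : List A) (h : ¬ Lft P a m.dom) :
    NL (a ++ m.dom ++ b) (ev1 a m b) (a ++ m.cod ++ b) :=
  (NL.step NL.refl h).cast (one_mul _) rfl

theorem NL.symm {w w' : List A} {u : UG P} (h : NL w u w') : NL w' u⁻¹ w := by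
  induction h with
  | refl => simpa using NL.refl
  | @step u a m b _ hl ih =>
    rw [mul_inv_rev, ← ev1_rev]
    refine ((NL.single (m := m.rev) b fun e => hl ?_).cast rfl (by simp)).trans ih
    simpa using lft_mv e

theorem NL.E {a : List A} {r : P.rel} (b : List A) (h : ¬ Lft P a r.1.1) :
    NL (a ++ r.1.1 ++ b) (E a r b) (a ++ r.1.2 ++ b) := NL.single (m := (r, true)) b h

theorem seg_letter {a v b p s : List A} {l : A} (h : a ++ v ++ b = p ++ l :: s) :
    (∃ M, p = a ++ v ++ M ∧ b = M ++ l :: s) ∨ (∃ M, a = p ++ l :: M ∧ s = M ++ v ++ b) ∨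
      ∃ M N, p = a ++ M ∧ a ++ v = p ++ [l] ++ N := by
  rcases List.append_eq_append_iff.1 h with ⟨c, h1, h2⟩ | ⟨c, h1, h2⟩
  · exact Or.inl ⟨c, h1, h2⟩
  · rcases c with _ | ⟨l', c⟩
    · exact Or.inl ⟨[], by simpa using h1.symm, by simpa using h2.symm⟩
    · simp only [List.cons_append, List.cons.injEq] at h2
      obtain ⟨rfl, rfl⟩ := h2
      rcases List.append_eq_append_iff.1 h1 with ⟨d, h3, h4⟩ | ⟨d, h3, h4⟩
      · exact Or.inr (Or.inr ⟨d, c, h3, by rw [h1]; simp⟩)
      · rcases d with _ | ⟨l', d⟩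
        · exact Or.inr (Or.inr ⟨[], c, by simpa using h3.symm, by rw [h1]; simp⟩)
        · simp only [List.cons_append, List.cons.injEq] at h4
          obtain ⟨rfl, rfl⟩ := h4
          exact Or.inr (Or.inl ⟨d, h3, rfl⟩)

theorem NL.dec {p s : List A} {l : A} (hp : DG P p = ⊥) (hl : DG P (p ++ [l]) ≠ ⊥) {u : UG P}
    {x : List A} (h : NL (p ++ l :: s) u x) : ∃ p' s' α β, x = p' ++ l :: s' ∧ Conn p α p' ∧
      Conn s β s' ∧ u = ctx [] (l :: s) α * ctx (p' ++ [l]) [] β := by
  induction h with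
  | refl => exact ⟨p, s, 1, 1, rfl, Conn.refl, Conn.refl, by simp⟩
  | @step u a m b _ hn ih =>
    obtain ⟨p', s', α, β, e, h1, h2, rfl⟩ := ih
    rcases seg_letter e with ⟨M, rfl, rfl⟩ | ⟨M, rfl, rfl⟩ | ⟨M, N, rfl, e1⟩
    · refine ⟨a ++ m.cod ++ M, s', α * ev1 a m M, β, by simp, Conn.step h1, h2, ?_⟩
      have := ctx_comm (Conn.single a m (M ++ [l])) h2
      rw [ctx_ev1, ctx_ev1] at this
      rw [map_mul, ctx_ev1, mul_assoc, mul_assoc]
      congr 1
      simpa only [List.append_assoc, List.nil_append, List.cons_append] using this.symm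
    · refine ⟨p', M ++ m.cod ++ b, α, β * ev1 M m b, by simp, h1, Conn.step h2, ?_⟩
      rw [map_mul, ctx_ev1, mul_assoc]
      simp
    · exfalso
      refine hn ⟨DG_left (DG_conj h1 hp), fun e2 => hl ?_⟩
      rw [e1] at e2
      exact DG_conj ((h1.ctx [] [l]).symm.cast rfl rfl) (DG_left e2)

theorem dec_unique {p p' s s' : List A} {l : A} (hp : DG P p = ⊥) (hl : DG P (p ++ [l]) ≠ ⊥)
    (hp' : DG P p' = ⊥) (hl' : DG P (p' ++ [l]) ≠ ⊥) (e : p ++ l :: s = p' ++ l :: s') :
    p = p' ∧ s = s' := by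
  rcases List.append_eq_append_iff.1 e with ⟨c, h1, h2⟩ | ⟨c, h1, h2⟩
  · rcases c with _ | ⟨l', c⟩
    · exact ⟨by simpa using h1.symm, by simpa using h2⟩
    · simp only [List.cons_append, List.cons.injEq] at h2
      obtain ⟨rfl, rfl⟩ := h2
      exact absurd (DG_left (y := c) (by rw [← hp', h1]; simp)) hl
  · rcases c with _ | ⟨l', c⟩
    · exact ⟨by simpa using h1, by simpa using h2.symm⟩
    · simp only [List.cons_append, List.cons.injEq] at h2
      obtain ⟨rfl, rfl⟩ := h2
      exact absurd (DG_left (y := c) (by rw [← hp, h1]; simp)) hl'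

theorem dec_exists (x : List A) : DG P x ≠ ⊥ →
    ∃ p l s, x = p ++ l :: s ∧ DG P p = ⊥ ∧ DG P (p ++ [l]) ≠ ⊥ := by
  induction x using List.reverseRecOn with
  | nil => exact fun h => absurd DG_nil h
  | append_singleton x l ih =>
    intro h
    by_cases hx : DG P x = ⊥
    · exact ⟨x, l, [], rfl, hx, h⟩
    · obtain ⟨p, l', s, rfl, h1, h2⟩ := ih hx
      exact ⟨p, l', s ++ [l], by simp, h1, h2⟩

theorem NL.loop {p s : List A} {l : A} (hp : DG P p = ⊥) (hl : DG P (p ++ [l]) ≠ ⊥) {u : UG P}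
    (h : NL (p ++ l :: s) u (p ++ l :: s)) : ∃ β, Conn s β s ∧ u = ctx (p ++ [l]) [] β := by
  obtain ⟨p', s', α, β, e, h1, h2, rfl⟩ := h.dec hp hl
  obtain ⟨rfl, rfl⟩ := dec_unique hp hl (DG_conj h1 hp)
    (fun e2 => hl (DG_conj ((h1.ctx [] [l]).symm.cast rfl rfl) e2)) e
  have : α = 1 := (Subgroup.eq_bot_iff_forall _).1 hp α h1
  exact ⟨β, h2, by rw [this, map_one, one_mul]⟩

section tree

variable (P) (w : List A)

/-- vertices of the universal cover -/
def V0 : Type u := {p : UG P × List A // Conn w p.1 p.2}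

/-- being joined by a path avoiding left edges -/
def vSetoid : Setoid (V0 P w) where
  r p q := NL p.1.2 (p.1.1⁻¹ * q.1.1) q.1.2
  iseqv := ⟨fun p => NL.refl.cast (by simp) rfl, fun h => h.symm.cast (by simp) rfl,
    fun h h' => (h.trans h').cast (by simp) rfl⟩

/-- vertices of the tree -/
def TV : Type u := Quotient (vSetoid P w)

variable {P w}

/-- the vertex of the tree given by a path -/
def tv (γ : UG P) (x : List A) (h : Conn w γ x) : TV P w := Quotient.mk _ ⟨(γ, x), h⟩

theorem tv_eq {γ γ' : UG P} {x x' : List A} {h : Conn w γ x} {h' : Conn w γ' x'} :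
    tv γ x h = tv γ' x' h' ↔ NL x (γ⁻¹ * γ') x' := Quotient.eq (r := vSetoid P w)

instance : MulAction (DG P w) (TV P w) where
  smul g := Quotient.map (fun p => ⟨(g.1 * p.1.1, p.1.2), Conn.trans g.2 p.2⟩)
    (fun _ _ h => NL.cast h (by simp [mul_assoc]) rfl)
  one_smul := by
    rintro ⟨⟨γ, x⟩, h⟩
    exact tv_eq.2 (NL.refl.cast (by simp) rfl)
  mul_smul g g' := by
    rintro ⟨⟨γ, x⟩, h⟩
    exact tv_eq.2 (NL.refl.cast (by simp [mul_assoc]) rfl)

theorem smul_tv (g : DG P w) (γ : UG P) (x : List A) (h : Conn w γ x) :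
    g • tv γ x h = tv (g.1 * γ) x (Conn.trans g.2 h) := rfl

variable (P w)

/-- left edges of the universal cover -/
def E0 : Type u := {p : UG P × List A × P.rel × List A //
  Conn w p.1 (p.2.1 ++ p.2.2.1.1.1 ++ p.2.2.2) ∧ Lft P p.2.1 p.2.2.1.1.1}

variable {P}

/-- parallel edges -/
inductive Par : UG P × List A × P.rel × List A → UG P × List A × P.rel × List A → Prop
  | right (γ : UG P) (a : List A) (r : P.rel) (b : List A) (r' : P.rel) (c : List A) :
      Par (γ, a, r, b ++ r'.1.1 ++ c) (γ * E (a ++ r.1.1 ++ b) r' c, a, r, b ++ r'.1.2 ++ c)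
  | left (γ : UG P) (a : List A) (r : P.rel) (b : List A) (r' : P.rel) (c : List A) :
      Par (γ, a ++ r.1.1 ++ b, r', c) (γ * E a r (b ++ r'.1.1 ++ c), a ++ r.1.2 ++ b, r', c)

variable (P)

/-- edges of the tree -/
def TE : Type u := Quot (fun p q : E0 P w => Par p.1 q.1)

variable {P w}

theorem Par.mul {p q : UG P × List A × P.rel × List A} (h : Par p q) (g : UG P) :
    Par (g * p.1, p.2) (g * q.1, q.2) := by
  cases h with
  | right γ a r b r' c => simpa only [mul_assoc] using Par.right (g * γ) a r b r' c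
  | left γ a r b r' c => simpa only [mul_assoc] using Par.left (g * γ) a r b r' c

instance : MulAction (DG P w) (TE P w) where
  smul g := Quot.map (fun p => ⟨(g.1 * p.1.1, p.1.2), Conn.trans g.2 p.2.1, p.2.2⟩)
    (fun _ _ h => h.mul g.1)
  one_smul := by
    rintro ⟨⟨γ, x⟩, h⟩
    exact congrArg (Quot.mk _) (Subtype.ext (Prod.ext (one_mul γ) rfl))
  mul_smul g g' := by
    rintro ⟨⟨γ, x⟩, h⟩
    exact congrArg (Quot.mk _) (Subtype.ext (Prod.ext (mul_assoc _ _ γ) rfl))

theorem Conn.E {γ : UG P} {a : List A} {r : P.rel} {b : List A} (h : Conn w γ (a ++ r.1.1 ++ b)) :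
    Conn w (γ * E a r b) (a ++ r.1.2 ++ b) := Conn.step (m := (r, true)) h

theorem Conn.E' {γ : UG P} {a : List A} {r : P.rel} {b : List A}
    (h : Conn w (γ * Diagram.E a r b) (a ++ r.1.2 ++ b)) : Conn w γ (a ++ r.1.1 ++ b) :=
  (Conn.step (m := (r, false)) h).cast (by simp) rfl

theorem not_lft_right {a u b v : List A} (h : Lft P a u) : ¬ Lft P (a ++ u ++ b) v :=
  fun e => h.2 (DG_left e.1)

theorem not_lft_left {a u b v : List A} (h : Lft P (a ++ u ++ b) v) : ¬ Lft P a u :=
  fun e => not_lft_right e h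

/-- source -/
def src : TE P w → TV P w :=
  Quot.lift (fun p => tv p.1.1 _ p.2.1) (by
    rintro ⟨_, h1, h2⟩ ⟨_, h3, h4⟩ h
    cases h with
    | right γ a r b r' c =>
      refine tv_eq.2 ?_
      simpa only [inv_mul_cancel_left, List.append_assoc] using NL.E c (not_lft_right h2)
    | left γ a r b r' c =>
      refine tv_eq.2 ?_
      simpa only [inv_mul_cancel_left, List.append_assoc] using
        NL.E (b ++ r'.1.1 ++ c) (not_lft_left h2))

/-- target -/
def tgt : TE P w → TV P w :=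
  Quot.lift (fun p => tv _ _ p.2.1.E) (by
    rintro ⟨_, h1, h2⟩ ⟨_, h3, h4⟩ h
    cases h with
    | right γ a r b r' c =>
      refine tv_eq.2 ?_
      dsimp only
      rw [mul_assoc γ, ← E_square, ← mul_assoc γ, inv_mul_cancel_left]
      simpa only [List.append_assoc] using NL.E c (not_lft_right (lft_iff.1 h2))
    | left γ a r b r' c =>
      refine tv_eq.2 ?_
      dsimp only
      rw [mul_assoc γ, E_square, ← mul_assoc γ, inv_mul_cancel_left]
      simpa only [List.append_assoc] using NL.E (b ++ r'.1.2 ++ c) (not_lft_left h2))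

theorem tree_conn (M : Type u) (F : TV P w → M) (hF : ∀ e, F (tgt e) = F (src e)) (v : TV P w) :
    F v = F (tv 1 w Conn.refl) := by
  obtain ⟨⟨γ, x⟩, h⟩ := v
  change F (tv γ x h) = _
  dsimp only at h
  induction h with
  | refl => rfl
  | @step γ a m b h ih =>
    rw [← ih]
    by_cases hl : Lft P a m.dom
    · obtain ⟨r, _ | _⟩ := m
      · have h1 : Conn w (γ * (E a r b)⁻¹) (a ++ r.1.1 ++ b) := Conn.step (m := (r, false)) h
        refine (hF (Quot.mk _ ⟨(_, a, r, b), h1, lft_iff.2 hl⟩)).symm.trans (congrArg F ?_)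
        exact tv_eq.2 (NL.refl.cast (by simp) rfl)
      · exact hF (Quot.mk _ ⟨(γ, a, r, b), h, hl⟩)
    · refine congrArg F (tv_eq.2 ((NL.single b hl).symm.cast (by simp) rfl))

open Classical in
/-- a function on the edges of the tree as a function on all edges -/
noncomputable def ext0 {M : Type u} [AddCommGroup M] (φ : TE P w → M)
    (p : UG P × List A × P.rel × List A) : M :=
  if h : Conn w p.1 (p.2.1 ++ p.2.2.1.1.1 ++ p.2.2.2) ∧ Lft P p.2.1 p.2.2.1.1.1 then
    φ (Quot.mk _ ⟨p, h⟩) else 0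

theorem ext0_par {M : Type u} [AddCommGroup M] (φ : TE P w → M)
    {p q : UG P × List A × P.rel × List A} (h : Par p q) : ext0 φ p = ext0 φ q := by
  have key : (Conn w p.1 (p.2.1 ++ p.2.2.1.1.1 ++ p.2.2.2) ∧ Lft P p.2.1 p.2.2.1.1.1) ↔
      (Conn w q.1 (q.2.1 ++ q.2.2.1.1.1 ++ q.2.2.2) ∧ Lft P q.2.1 q.2.2.1.1.1) := by
    cases h with
    | right γ a r b r' c =>
      refine and_congr ⟨fun k => ?_, fun k => ?_⟩ Iff.rfl
      · exact (Conn.E (k.cast rfl (by simp))).cast rfl (by simp)
      · exact (Conn.E' (k.cast rfl (by simp))).cast rfl (by simp)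
    | left γ a r b r' c =>
      refine and_congr ⟨fun k => ?_, fun k => ?_⟩ ?_
      · exact (Conn.E (k.cast rfl (by simp))).cast rfl (by simp)
      · exact (Conn.E' (k.cast rfl (by simp))).cast rfl (by simp)
      · have c1 := Conn.single a (r, true) b
        have c2 := c1.ctx [] r'.1.1
        exact and_congr ⟨DG_conj c1, DG_conj c1.symm⟩ (not_congr ⟨DG_conj c2, DG_conj c2.symm⟩)
  unfold ext0
  by_cases h1 : Conn w p.1 (p.2.1 ++ p.2.2.1.1.1 ++ p.2.2.2) ∧ Lft P p.2.1 p.2.2.1.1.1
  · rw [dif_pos h1, dif_pos (key.1 h1)]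
    exact congrArg φ (Quot.sound h)
  · rw [dif_neg h1, dif_neg (fun k => h1 (key.2 k))]

/-- the permutation given by an edge -/
def tauP {M : Type u} [AddCommGroup M] (f : UG P × List A × P.rel × List A → M) (a : List A)
    (r : P.rel) (b : List A) : Equiv.Perm (UG P × M) where
  toFun p := (p.1 * E a r b, p.2 + f (p.1, a, r, b))
  invFun p := (p.1 * (E a r b)⁻¹, p.2 - f (p.1 * (E a r b)⁻¹, a, r, b))
  left_inv p := by simp
  right_inv p := by simp

theorem exists_cocycle {M : Type u} [AddCommGroup M] (f : UG P × List A × P.rel × List A → M)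
    (hf : ∀ p q, Par p q → f p = f q) :
    ∃ c : UG P → M, ∀ γ a r b, c (γ * E a r b) = c γ + f (γ, a, r, b) := by
  let Ψ : UG P →* (Equiv.Perm (UG P × M))ᵐᵒᵖ :=
    UG.lift (fun a r b => MulOpposite.op (tauP f a r b)) (by
      intro a r b r' c
      rw [← MulOpposite.op_mul, ← MulOpposite.op_mul]
      congr 1
      ext p
      · change p.1 * _ * _ = p.1 * _ * _
        rw [mul_assoc, mul_assoc, E_square]
      · change p.2 + f _ + f _ = p.2 + f _ + f _
        rw [add_right_comm]
        congr 1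
        · congr 1
          exact (hf _ _ (Par.left _ a r b r' c)).symm
        · exact hf _ _ (Par.right _ a r b r' c))
  have h1 : ∀ u : UG P, ∀ p, ((Ψ u).unop p).1 = p.1 * u := by
    intro u
    let S : Subgroup (UG P) :=
      { carrier := {u | ∀ p, ((Ψ u).unop p).1 = p.1 * u}
        one_mem' := by intro p; simp
        mul_mem' := by
          intro u v hu hv p
          rw [map_mul, MulOpposite.unop_mul, Equiv.Perm.mul_apply, hv, hu, mul_assoc]
        inv_mem' := by
          intro u hu p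
          have := hu ((Ψ u⁻¹).unop p)
          rw [← Equiv.Perm.mul_apply, ← MulOpposite.unop_mul, ← map_mul, inv_mul_cancel,
            map_one] at this
          rw [eq_mul_inv_iff_mul_eq, ← this]
          rfl }
    refine PresentedGroup.generated_by _ S ?_ u
    rintro ⟨a, r, b⟩ p
    have : Ψ (PresentedGroup.of (a, r, b)) = MulOpposite.op (tauP f a r b) := UG.lift_E _ _ a r b
    rw [this]
    rfl
  refine ⟨fun u => ((Ψ u).unop (1, 0)).2, fun γ a r b => ?_⟩
  have : Ψ (E a r b) = MulOpposite.op (tauP f a r b) := UG.lift_E _ _ a r b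
  dsimp only
  rw [map_mul, this, MulOpposite.unop_mul, Equiv.Perm.mul_apply, MulOpposite.unop_op]
  change _ + f _ = _
  rw [h1, one_mul]

theorem tree_acyc (M : Type u) [AddCommGroup M] (φ : TE P w → M) :
    ∃ F : TV P w → M, ∀ e, F (tgt e) - F (src e) = φ e := by
  obtain ⟨c, hc⟩ := exists_cocycle (ext0 φ) (fun _ _ => ext0_par φ)
  have key : ∀ {x y : List A} {u : UG P}, NL x u y → ∀ γ, c (γ * u) = c γ := by
    intro x y u h γ
    induction h with
    | refl => rw [mul_one]
    | @step u a m b _ hl ih =>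
      rw [← ih, ← mul_assoc]
      obtain ⟨r, _ | _⟩ := m
      · have := hc (γ * u * (E a r b)⁻¹) a r b
        rw [inv_mul_cancel_right, ext0, dif_neg (fun k => hl (lft_iff.1 k.2)), add_zero] at this
        exact this.symm
      · rw [ev1_true, hc, ext0, dif_neg (fun k => hl k.2), add_zero]
  refine ⟨Quotient.lift (fun p => c p.1.1) (fun p q h => ?_), ?_⟩
  · rw [← key h p.1.1, mul_inv_cancel_left]
  · rintro ⟨⟨γ, a, r, b⟩, h⟩
    change c (γ * E a r b) - c γ = _
    rw [hc, add_sub_cancel_left, ext0, dif_pos h]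

end tree

/-- `G` contains a copy of `ℤⁿ` -/
def HasZ (G : Type*) [Group G] (n : ℕ) : Prop :=
  ∃ f : Multiplicative (Fin n → ℤ) →* G, Function.Injective f

theorem hasZ_succ {x q s : List A} {γ : UG P} (h : Conn x γ (q ++ s)) (hq : DG P q ≠ ⊥) {n : ℕ}
    (hs : HasZ (DG P s) n) : HasZ (DG P x) (n + 1) := by
  obtain ⟨f, hf⟩ := hs
  obtain ⟨⟨z, hz⟩, z1⟩ := (Subgroup.ne_bot_iff_exists_ne_one).1 hq
  have z2 : z ≠ 1 := fun e => z1 (Subtype.ext e)
  have hzp : ∀ i : ℤ, Conn q (z ^ i) q := fun i => (DG P q).zpow_mem hz i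
  let F : Multiplicative (Fin (n + 1) → ℤ) →* DG P x := MonoidHom.mk'
    (fun v => ⟨γ * (ctx [] s (z ^ (v.toAdd 0)) *
        ctx q [] (f (Multiplicative.ofAdd fun i => v.toAdd i.succ))) * γ⁻¹,
      (h.trans ((((hzp _).ctx [] s).cast rfl rfl).trans
        ((Conn.ctx (f _).2 q []).cast rfl (by simp) |>.cast rfl rfl |> fun k => by
          simpa using k))).trans h.symm⟩) (by
      intro v v'
      refine Subtype.ext ?_
      have e : (Multiplicative.ofAdd fun i : Fin n => (v * v').toAdd i.succ) =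
          (Multiplicative.ofAdd fun i => v.toAdd i.succ) *
          (Multiplicative.ofAdd fun i => v'.toAdd i.succ) := rfl
      have e2 := ctx_comm (hzp (v'.toAdd 0)) (f (Multiplicative.ofAdd fun i => v.toAdd i.succ)).2
      dsimp only
      rw [e]
      simp only [map_mul, toAdd_mul, Pi.add_apply, zpow_add, Subgroup.coe_mul, mul_assoc,
        inv_mul_cancel_left]
      congr 2
      rw [← mul_assoc, e2, mul_assoc])
  refine ⟨F, (injective_iff_map_eq_one F).2 fun v hv => ?_⟩
  have h1 : γ * (ctx [] s (z ^ (v.toAdd 0)) *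
      ctx q [] (f (Multiplicative.ofAdd fun i => v.toAdd i.succ))) * γ⁻¹ = 1 :=
    congrArg Subtype.val hv
  rw [mul_inv_eq_one, mul_eq_left] at h1
  obtain ⟨h2, h3⟩ := sum_inj (hzp _) (f _).2 h1
  have h4 := DG_torsionFree hz z2 h2
  have h5 := (injective_iff_map_eq_one f).1 hf _ (Subtype.ext h3)
  refine Multiplicative.toAdd.injective (funext fun i => ?_)
  refine Fin.cases h4 (fun i => ?_) i
  exact congrFun (congrArg Multiplicative.toAdd h5) i

theorem hasZ_zero (G : Type*) [Group G] : HasZ G 0 := ⟨1, fun _ _ _ => Subsingleton.elim _ _⟩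

theorem cdLE_DG (k : Type u) [CommRing k] (n : ℕ) :
    ∀ w : List A, ¬ HasZ (DG P w) (n + 1) → CdLE k (DG P w) n := by
  induction n with
  | zero =>
    intro w h
    have : DG P w = ⊥ := by
      by_contra hw
      exact h (hasZ_succ (q := w) (s := []) (Conn.refl.cast rfl (by simp)) hw (hasZ_zero _))
    rw [this]
    exact cdLE_zero
  | succ n ih =>
    intro w h
    by_cases hw : DG P w = ⊥
    · rw [hw]
      exact fun A m _ => cdLE_zero A m (Nat.zero_le _)
    refine cdLE_tree (src (P := P) (w := w)) tgt (tv 1 w Conn.refl) ?_ ?_ tree_conn tree_acyc ?_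
    · rintro g ⟨p⟩
      rfl
    · rintro g ⟨⟨⟨γ, a, r, b⟩, hp⟩⟩
      exact tv_eq.2 (NL.refl.cast (by simp [mul_assoc]) rfl)
    · rintro ⟨⟨γ, x⟩, hx⟩
      dsimp only at hx
      obtain ⟨p, l, s, rfl, h1, h2⟩ := dec_exists x (fun e => hw (DG_conj hx.symm e))
      have hs : CdLE k (DG P s) n :=
        ih s fun k => h (hasZ_succ (q := p ++ [l]) (hx.cast rfl (by simp)) h2 k)
      let j : DG P s →* UG P :=
        ((MulAut.conj γ).toMonoidHom.comp (ctx (p ++ [l]) [])).comp (DG P s).subtype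
      have hj : Function.Injective j := by
        refine (injective_iff_map_eq_one j).2 fun v hv => Subtype.ext ?_
        have e : γ * ctx (p ++ [l]) [] v.1 * γ⁻¹ = 1 := hv
        rw [mul_inv_eq_one, mul_eq_left] at e
        exact (sum_inj (Conn.refl (w := p ++ [l])) v.2 (by rw [e, map_one, mul_one])).2
      have h3 : CdLE k j.range n := hs.equiv (MonoidHom.ofInjective hj).symm
      let S := MulAction.stabilizer (DG P w) (tv γ _ hx)
      let i : S →* UG P := (DG P w).subtype.comp S.subtype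
      refine h3.inj (i.codRestrict _ fun g => ?_) ?_
      · have e : tv (g.1.1 * γ) _ (Conn.trans g.1.2 hx) = tv γ _ hx := g.2
        obtain ⟨β, b1, b2⟩ := (tv_eq.1 e.symm).loop h1 h2
        refine ⟨⟨β, b1⟩, ?_⟩
        change γ * ctx (p ++ [l]) [] β * γ⁻¹ = g.1.1
        rw [← b2]
        simp
      · intro g g' e
        have e' : g.1.1 = g'.1.1 := congrArg (fun t : j.range => t.1) e
        exact Subtype.ext (Subtype.ext e')

theorem HasZ.map {G H : Type*} [Group G] [Group H] (e : G ≃* H) {n : ℕ} (h : HasZ G n) :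
    HasZ H n := by
  obtain ⟨f, hf⟩ := h
  exact ⟨e.toMonoidHom.comp f, e.injective.comp hf⟩

theorem hasZ_iff {G : Type*} [Group G] {n : ℕ} :
    HasZ G n ↔ ∃ H : Subgroup G, Nonempty (H ≃* Multiplicative (Fin n → ℤ)) := by
  constructor
  · rintro ⟨f, hf⟩
    exact ⟨f.range, ⟨(MonoidHom.ofInjective hf).symm⟩⟩
  · rintro ⟨H, ⟨e⟩⟩
    exact ⟨H.subtype.comp e.symm.toMonoidHom, Subtype.val_injective.comp e.symm.injective⟩

theorem cd_le_iff {k G : Type u} [CommRing k] [Group G] {n : ℕ} :
    cd k G ≤ n ↔ CdLE k G n := by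
  simp only [cd, iSup_le_iff, Nat.cast_le]
  constructor
  · intro h M m hm
    rw [← isZero_iff_van, ModuleCat.isZero_iff_subsingleton]
    by_contra hc
    have := h (m + 1) ⟨M, not_subsingleton_iff_nontrivial.1 hc⟩
    omega
  · rintro h m ⟨M, hM⟩
    by_contra hc
    obtain ⟨m, rfl⟩ : ∃ m', m = m' + 1 := ⟨m - 1, by omega⟩
    have := (isZero_iff_van M m).2 (h M m (by omega))
    rw [ModuleCat.isZero_iff_subsingleton] at this
    exact not_subsingleton_iff_nontrivial.2 hM this

theorem ad_le_cd (k G : Type u) [CommRing k] [Nontrivial k] [Group G] : ad G ≤ cd k G := by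
  simp only [ad, iSup_le_iff]
  intro n hn
  rcases n with _ | n
  · simp
  obtain ⟨f, hf⟩ := hasZ_iff.2 hn
  have := not_cdLE (k := k) f hf
  rw [← cd_le_iff, not_le] at this
  exact Order.add_one_le_of_lt this

theorem cd_eq_ad (k G : Type u) [CommRing k] [Nontrivial k] [Group G] (x : Word P)
    (e : G ≃* DiagramGroup P x) : cd k G = ad G := by
  refine le_antisymm ?_ (ad_le_cd k G)
  by_cases h : ad G = ⊤
  · rw [h]; exact le_top
  obtain ⟨n, hn⟩ := ENat.ne_top_iff_exists.1 h
  rw [← hn, cd_le_iff]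
  refine (cdLE_DG k n x.val fun hz => ?_).equiv (e.trans (dgEquiv x))
  have h1 : ((n + 1 : ℕ) : ℕ∞) ≤ ad G :=
    le_iSup₂_of_le (f := fun (n : ℕ) (_ : ∃ H : Subgroup G,
      Nonempty (H ≃* Multiplicative (Fin n → ℤ))) => (n : ℕ∞)) (n + 1)
      (hasZ_iff.1 (hz.map (e.trans (dgEquiv x)).symm)) le_rfl
  rw [← hn, Nat.cast_le] at h1
  omega

end Pool.Agent.H868Z.Diagram
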